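import Pool.Agent.Hhelper96.PEPS.Commuting

/-!
Exponentials of sums of translates with disjoint supports are window operators, and products of such
exponentials applied to basis vectors are window networks.
-/

set_option autoImplicit false
set_option linter.unusedSectionVars false

open scoped BigOperators
open Matrix

namespace Pool.Agent.Hhelper96.PEPS

section expl

variable {n : Type} [Fintype n] [DecidableEq n]

theorem exp_list_sum {α : Type} (l : List α) (A : α → Matrix n n ℂ)
    (h : ∀ a ∈ l, ∀ b ∈ l, Commute (A a) (A b)) :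
    NormedSpace.exp ((l.map A).sum) = (l.map (fun a => NormedSpace.exp (A a))).prod := by
  induction l with
  | nil => simp [NormedSpace.exp_zero]
  | cons a l ih =>
    rw [List.map_cons, List.sum_cons, List.map_cons, List.prod_cons, Matrix.exp_add_of_commute, ih]
    · intro b hb c hc
      exact h b (List.mem_cons_of_mem a hb) c (List.mem_cons_of_mem a hc)
    · apply Commute.list_sum_right
      intro b hb
      obtain ⟨c, hc, rfl⟩ := List.mem_map.1 hb
      exact h a List.mem_cons_self c (List.mem_cons_of_mem a hc)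

end expl

section expop

variable {S T : Type} [Fintype S] [DecidableEq S] [Fintype T] [DecidableEq T] {d : ℕ}

attribute [local instance] Matrix.linftyOpNormedRing Matrix.linftyOpNormedAlgebra in
theorem exp_opAt {κ : T → S} (hκ : Function.Injective κ) (p : Matrix (T → Fin d) (T → Fin d) ℂ) :
    NormedSpace.exp (opAt κ p) = opAt κ (NormedSpace.exp p) := by
  rw [← opHom_apply κ hκ, ← opHom_apply κ hκ]
  symm
  exact NormedSpace.map_exp (opHom κ hκ) (LinearMap.continuous_of_finiteDimensional
    (opHom κ hκ).toLinearMap) p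

end expop

section gate

variable {N d m : ℕ} [NeZero N] [NeZero m]

/-- colour of a site -/
def colr (hmN : m ∣ N) (v : Site N) : Site m :=
  (ZMod.castHom hmN (ZMod m) v.1, ZMod.castHom hmN (ZMod m) v.2)

theorem colr_sub (hmN : m ∣ N) (v w : Site N) : colr hmN (v - w) = colr hmN v - colr hmN w := by
  exact Prod.ext (map_sub (ZMod.castHom hmN (ZMod m)) v.1 w.1)
    (map_sub (ZMod.castHom hmN (ZMod m)) v.2 w.2)

/-- windows of sites of the same colour are disjoint -/
theorem win_disjoint (hmN : m ∣ N) {v v' : Site N} (hne : v ≠ v') (hc : colr hmN v = colr hmN v')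
    (q q' : Fin m × Fin m) : win N m v q ≠ win N m v' q' := by
  intro heq
  apply hne
  have h3 : ZMod.castHom hmN (ZMod m) v.1 = ZMod.castHom hmN (ZMod m) v'.1 := congrArg Prod.fst hc
  have h4 : ZMod.castHom hmN (ZMod m) v.2 = ZMod.castHom hmN (ZMod m) v'.2 := congrArg Prod.snd hc
  have key : ∀ (x x' : ZMod N) (k k' : Fin m),
      ZMod.castHom hmN (ZMod m) x = ZMod.castHom hmN (ZMod m) x' →
      x + ((k : ℕ) : ZMod N) = x' + ((k' : ℕ) : ZMod N) → x = x' := by
    intro x x' k k' hx hk
    have h5 := congrArg (ZMod.castHom hmN (ZMod m)) hk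
    rw [map_add, map_add, hx, map_natCast, map_natCast] at h5
    have h6 := add_left_cancel h5
    have h7 := natCast_inj_of_lt k.isLt k'.isLt h6
    rw [h7] at hk
    exact add_right_cancel hk
  have h5 : v.1 + ((q.1 : ℕ) : ZMod N) = v'.1 + ((q'.1 : ℕ) : ZMod N) := congrArg Prod.fst heq
  have h6 : v.2 + ((q.2 : ℕ) : ZMod N) = v'.2 + ((q'.2 : ℕ) : ZMod N) := congrArg Prod.snd heq
  exact Prod.ext (key _ _ _ _ h3 h5) (key _ _ _ _ h4 h6)

open Classical in
/-- the exponential of the sum of the translates of one colour is a window operator -/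
theorem winOp_gate (hmN : m ∣ N) (F : Finset (ℤ × ℤ)) (a₀ b₀ : ℤ)
    (hF : ∀ p ∈ F, a₀ ≤ p.1 ∧ p.1 < a₀ + m ∧ b₀ ≤ p.2 ∧ p.2 < b₀ + m)
    (K : Matrix (F → Fin d) (F → Fin d) ℂ) (c : Site m) (z : ℂ) :
    WinOp m (NormedSpace.exp (z • ∑ v ∈ Finset.univ.filter (fun v : Site N => colr hmN v = c),
      localTerm N F K v)) := by
  have hmN' : m ≤ N := Nat.le_of_dvd (NeZero.pos N) hmN
  obtain ⟨emb, hemb⟩ : ∃ emb : F → Fin m × Fin m, ∀ f : F,
      ((emb f).1 : ℕ) = (f.1.1 - a₀).toNat ∧ ((emb f).2 : ℕ) = (f.1.2 - b₀).toNat := by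
    refine ⟨fun f => (⟨(f.1.1 - a₀).toNat, ?_⟩, ⟨(f.1.2 - b₀).toNat, ?_⟩), fun f => ⟨rfl, rfl⟩⟩
    · have := hF f.1 f.2; omega
    · have := hF f.1 f.2; omega
  obtain ⟨t, ht⟩ : ∃ t : Site N, t = ((a₀ : ZMod N), (b₀ : ZMod N)) := ⟨_, rfl⟩
  have hwin : ∀ v : Site N, (fun f : F => win N m (v + t) (emb f)) = fun f : F => place N v f := by
    intro v
    funext f
    have h1 := hF f.1 f.2
    have h2 := hemb f
    have e1 := toNat_cast N f.1.1 a₀ (by omega)
    have e2 := toNat_cast N f.1.2 b₀ (by omega)
    unfold win place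
    rw [ht]
    ext
    · simp only [Prod.fst_add]
      rw [h2.1, e1]; ring
    · simp only [Prod.snd_add]
      rw [h2.2, e2]; ring
  have hinj0 : ∀ v : Site N, Function.Injective (fun f : F => place N v f) :=
    fun v => place_injective hmN' F a₀ b₀ hF v
  have hinj : ∀ v : Site N, Function.Injective (fun f : F => win N m v (emb f)) := by
    intro v
    have := hinj0 (v - t)
    rwa [← hwin, sub_add_cancel] at this
  obtain ⟨l₀, hl₀⟩ : ∃ l₀ : List (Site N),
    l₀ = (Finset.univ.filter (fun v : Site N => colr hmN v = c)).toList := ⟨_, rfl⟩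
  have hmem : ∀ v, v ∈ l₀ ↔ colr hmN v = c := by
    intro v
    rw [hl₀]
    simp only [Finset.mem_toList, Finset.mem_filter, Finset.mem_univ, true_and]
  obtain ⟨l, hl⟩ : ∃ l : List (Site N), l = l₀.map (fun v => v + t) := ⟨_, rfl⟩
  have hnd : l.Nodup := by
    rw [hl]
    apply List.Nodup.map (add_left_injective t)
    rw [hl₀]
    exact Finset.nodup_toList _
  have hdis : ∀ v ∈ l, ∀ v' ∈ l, v ≠ v' → ∀ q q' : Fin m × Fin m, win N m v q ≠ win N m v' q' := by
    intro v hv v' hv' hne q q'
    rw [hl] at hv hv'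
    obtain ⟨u, hu, rfl⟩ := List.mem_map.1 hv
    obtain ⟨u', hu', rfl⟩ := List.mem_map.1 hv'
    apply win_disjoint hmN hne
    have e1 := (hmem u).1 hu
    have e2 := (hmem u').1 hu'
    have e3 : u + t = u - (-t) := by abel
    have e4 : u' + t = u' - (-t) := by abel
    rw [e3, e4, colr_sub, colr_sub, e1, e2]
  have hsum : z • ∑ v ∈ Finset.univ.filter (fun v : Site N => colr hmN v = c), localTerm N F K v =
      (l.map (fun v => opAt (fun f : F => win N m v (emb f)) (z • K))).sum := by
    rw [hl, List.map_map, Finset.smul_sum, ← Finset.sum_map_toList, ← hl₀]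
    congr 1
    apply List.map_congr_left
    intro v _
    simp only [Function.comp_apply]
    rw [hwin v, opAt_smul, ← localTerm_eq_opAt]
  rw [hsum, exp_list_sum]
  · have e5 : (fun v : Site N => NormedSpace.exp (opAt (fun f : F => win N m v (emb f)) (z • K))) =
        fun v => opAt (fun f : F => win N m v (emb f)) (NormedSpace.exp (z • K)) := by
      funext v
      exact exp_opAt (hinj v) _
    rw [e5]
    exact winOp_prod emb _ hinj l hnd (fun v hv v' hv' hne t t' => hdis v hv v' hv' hne _ _)
  · intro v hv v' hv'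
    by_cases hvv : v = v'
    · rw [hvv]
    · exact opAt_comm_of_disjoint (hinj v) (hinj v') (fun t t' => hdis v hv v' hv' hvv _ _) _ _

/-- products of window operators applied to a basis vector -/
theorem winNet_word (l : List (Matrix (Site N → Fin d) (Site N → Fin d) ℂ))
    (hl : ∀ O ∈ l, WinOp m O) (x : Site N → Fin d) :
    WinNet m (d ^ l.length) (l.prod.mulVec (Pi.single x 1)) := by
  classical
  induction l with
  | nil =>
    have h : (fun s => if s = x then (1 : ℂ) else 0) = (Pi.single x 1 : (Site N → Fin d) → ℂ) := by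
      funext s
      rw [Pi.single_apply]
    simp only [List.prod_nil, Matrix.one_mulVec, List.length_nil, pow_zero]
    rw [← h]
    exact winNet_single x
  | cons O l ih =>
    rw [List.prod_cons, ← Matrix.mulVec_mulVec, List.length_cons, pow_succ, mul_comm]
    exact (ih (fun O' h => hl O' (List.mem_cons_of_mem O h))).mulVec (hl O List.mem_cons_self)

end gate

end Pool.Agent.Hhelper96.PEPS
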