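import Pool.Agent.Hhelper96.PEPS.Stable
import Pool.Agent.Hhelper96.PEPS.Commuting
import Pool.Agent.Hhelper96.PEPS.AvgErr

set_option autoImplicit false

open scoped BigOperators ComplexOrder
open Matrix

namespace Pool.Agent.Hhelper96.PEPS

/-- Hilbert-Schmidt norm squared -/
noncomputable def hsq {m : Type} [Fintype m] (X : Matrix m m ℂ) : ℝ := ∑ i, ∑ j, ‖X i j‖ ^ 2

end Pool.Agent.Hhelper96.PEPS
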