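import Pool.Agent.Hhelper96.PEPS.Spectral

/-!
Statement of the product formula estimate: low energy vectors of the form `S ^ q e_x`, where `S` is
a palindromic product of exponentials of sums of commuting local terms.
-/

set_option autoImplicit false

open scoped BigOperators
open Matrix

namespace Pool.Agent.Hhelper96.PEPS

/-- the half step: a product of exponentials of the sums of the terms of one colour -/
noncomputable def halfStep {n I : Type} [Fintype n] [DecidableEq n] [Fintype I] {c : ℕ}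
    (w : List (Fin c × ℝ)) (h : I → Matrix n n ℂ) (col : I → Fin c) (t : ℝ) : Matrix n n ℂ :=
  (w.map (fun b => NormedSpace.exp
    (-(b.2 * t) • ∑ i ∈ Finset.univ.filter (fun i => col i = b.1), h i))).prod

/-- the vector `S ^ q e_x`, `S = V Vᴴ` -/
noncomputable def cooled {n I : Type} [Fintype n] [DecidableEq n] [Fintype I] {c : ℕ}
    (w : List (Fin c × ℝ)) (h : I → Matrix n n ℂ) (col : I → Fin c) (t : ℝ) (q : ℕ) (x : n) :
    n → ℂ :=
  ((halfStep w h col t * (halfStep w h col t)ᴴ) ^ q).mulVec (Pi.single x 1)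

/-- the statement of the product formula estimate of order `2 p` -/
def EngineStmt (z c p : ℕ) : Prop :=
  ∃ (w : List (Fin c × ℝ)) (t₀ C : ℝ), 0 < t₀ ∧ 0 ≤ C ∧
    ∀ (n I : Type) [Fintype n] [DecidableEq n] [Nonempty n] [Fintype I] [DecidableEq I]
      (h : I → Matrix n n ℂ) (col : I → Fin c) (nb : I → Finset I),
      (∀ i, (h i).IsHermitian) → (∀ i (φ : n → ℂ), sqn ((h i).mulVec φ) ≤ sqn φ) →
      (∀ i, (nb i).card ≤ z) → (∀ i j, j ∉ nb i → Commute (h i) (h j)) →
      (∀ i j, col i = col j → Commute (h i) (h j)) →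
      ∀ t, 0 < t → t ≤ t₀ → ∀ q : ℕ, 1 ≤ q → ∀ ψ : n → ℂ, ψ ≠ 0 →
      ∃ x : n, cooled w h col t q x ≠ 0 ∧
        ex (∑ i, h i) (cooled w h col t q x) / sqn (cooled w h col t q x) ≤
          ex (∑ i, h i) ψ / sqn ψ + C * Fintype.card I * t ^ (2 * p) +
            Real.log (Fintype.card n) / (2 * q * t)

end Pool.Agent.Hhelper96.PEPS
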