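import Pool.Agent.Hhelper96.UB.Parts
import Pool.Agent.Hhelper96.UB.EngineStmt
import Pool.Agent.Hhelper96.UB.Gates

/-!
Low energy states of a translation invariant interaction on a torus, given by label networks.
-/

set_option autoImplicit false
set_option linter.unusedSectionVars false

open scoped BigOperators
open Matrix

namespace Pool.Agent.Hhelper96.PEPS

section words

variable {N d m : ℕ} [NeZero N] [NeZero m]

theorem prod_word {n : Type} [Fintype n] [DecidableEq n] (l : List (Matrix n n ℂ)) (q : ℕ)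
    (hl : ∀ A ∈ l, Aᴴ = A) :
    (l.prod * (l.prod)ᴴ) ^ q = ((List.replicate q (l ++ l.reverse)).flatten).prod := by
  have h1 : (l.prod)ᴴ = l.reverse.prod := by
    rw [Matrix.conjTranspose_list_prod]
    congr 2
    conv_rhs => rw [← List.map_id l]
    exact List.map_congr_left (fun A hA => hl A hA)
  rw [h1, ← List.prod_append, List.prod_flatten, List.map_replicate, List.prod_replicate]

theorem length_word {α : Type} (l : List α) (q : ℕ) :
    ((List.replicate q (l ++ l.reverse)).flatten).length = 2 * l.length * q := by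
  rw [List.length_flatten, List.map_replicate, List.sum_replicate, List.length_append,
    List.length_reverse, smul_eq_mul]
  ring

end words

section content

variable {d : ℕ}

open Classical in
/-- Low energy label networks. -/
theorem low_content (r p : ℕ) (hr : 1 ≤ r) (hd : 1 ≤ d) (hE : EngineStmt (r ^ 4) (r * r) p) :
    ∃ (wl : ℕ) (t₀ C : ℝ), 0 < t₀ ∧ 0 ≤ C ∧
      ∀ (N : ℕ) [NeZero N], r ∣ N → ∀ (R : Finset (ℤ × ℤ)) (a b : ℤ),
      (∀ p ∈ R, a ≤ p.1 ∧ p.1 < a + r ∧ b ≤ p.2 ∧ p.2 < b + r) →
      ∀ (K : Matrix (R → Fin d) (R → Fin d) ℂ), K.IsHermitian → hsq K ≤ 1 →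
      ∀ (t : ℝ), 0 < t → t ≤ t₀ → ∀ (q : ℕ), 1 ≤ q →
      ∀ (L : ℕ) [NeZero L], N ≤ L → ∀ (ψ : (Site L → Fin d) → ℂ), ψ ≠ 0 →
      ∀ (ρ : Matrix (R → Fin d) (R → Fin d) ℂ), (∀ v, reduced L R v ψ = ρ) →
      ∃ W : Site N → Fin d → (Fin r × Fin r → Fin d × Fin (d ^ (2 * wl * q))) →
        (Fin r × Fin r → Fin d × Fin (d ^ (2 * wl * q))) →
        (Fin r × Fin r → Fin d × Fin (d ^ (2 * wl * q))) → ℂ, netT W ≠ 0 ∧
        ∑ v, enf K (reduced N R v (netT W)) ≤ (N : ℝ) ^ 2 * enf K ρ + 4 * r * N +
          C * (N : ℝ) ^ 2 * t ^ (2 * p) + (N : ℝ) ^ 2 * Real.log d / (2 * q * t) := by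
  have : NeZero r := ⟨by omega⟩
  obtain ⟨w, t₀, C, ht₀, hC, hE⟩ := hE
  refine ⟨w.length, t₀, C, ht₀, hC, ?_⟩
  intro N _ hrN R a b hR K hK hK1 t ht htt q hq L _ hNL ψ hψ ρ hρ
  have hrN' : r ≤ N := Nat.le_of_dvd (NeZero.pos N) hrN
  have hRcard : R.card ≤ r ^ 2 := by
    have hsub : R ⊆ (Finset.Ico a (a + r)) ×ˢ (Finset.Ico b (b + r)) := by
      intro p hp
      have := hR p hp
      simp only [Finset.mem_product, Finset.mem_Ico]
      omega
    have := Finset.card_le_card hsub
    simp only [Finset.card_product, Int.card_Ico, add_sub_cancel_left, Int.toNat_natCast] at this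
    calc R.card ≤ r * r := this
      _ = r ^ 2 := by ring
  have hinj : ∀ v : Site N, Function.Injective (fun p : R => place N v p) :=
    fun v => place_injective hrN' R a b hR v
  -- trial vector
  obtain ⟨ψ', hψ', htrial⟩ := exists_trial hr hrN' hNL R a b hR K
    (fun X hX hX1 => abs_enf_le K X hK1 hX hX1) ψ hψ ρ hρ
  -- windows of the same colour are disjoint
  have hdisj : ∀ v v' : Site N, v ≠ v' → colr hrN v = colr hrN v' → ∀ f f' : R,
      place N v f ≠ place N v' f' := by
    intro v v' hne hc f f' heq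
    have h1 := hR f.1 f.2
    have h2 := hR f'.1 f'.2
    obtain ⟨u, hu⟩ : ∃ u : Site N, u = ((a : ZMod N), (b : ZMod N)) := ⟨_, rfl⟩
    have key : ∀ (x : Site N) (g : R), place N x g = win N r (x + u)
        (⟨(g.1.1 - a).toNat, by have := hR g.1 g.2; omega⟩,
          ⟨(g.1.2 - b).toNat, by have := hR g.1 g.2; omega⟩) := by
      intro x g
      have h3 := hR g.1 g.2
      have e1 := toNat_cast N g.1.1 a (by omega)
      have e2 := toNat_cast N g.1.2 b (by omega)
      unfold win place
      rw [hu]
      ext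
      · simp only [Prod.fst_add]
        rw [e1]; ring
      · simp only [Prod.snd_add]
        rw [e2]; ring
    rw [key, key] at heq
    refine win_disjoint hrN (v := v + u) (v' := v' + u) ?_ ?_ _ _ heq
    · intro h; exact hne (add_right_cancel h)
    · have e3 : v + u = v - (-u) := by abel
      have e4 : v' + u = v' - (-u) := by abel
      rw [e3, e4, colr_sub, colr_sub, hc]
  obtain ⟨e⟩ : Nonempty (Site r ≃ Fin (r * r)) :=
    ⟨Fintype.equivFinOfCardEq (by rw [Fintype.card_prod, ZMod.card])⟩
  obtain ⟨x, hx0, hx⟩ := @hE (Site N → Fin d) (Site N) _ _ ⟨fun _ => ⟨0, hd⟩⟩ _ _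
    (fun v => localTerm N R K v) (fun v => e (colr hrN v)) (fun v => nb N R R v)
    (fun v => localTerm_isHermitian hK v)
    (fun v φ => sqn_localTerm_le R K hK1 v (hinj v) φ)
    (fun v => (card_nb_le R R v).trans (by
      calc R.card * R.card ≤ r ^ 2 * r ^ 2 := Nat.mul_le_mul hRcard hRcard
        _ = r ^ 4 := by ring))
    (by
      intro v v' hv'
      have : localTerm N R K v * localTerm N R K v' = localTerm N R K v' * localTerm N R K v := by
        rw [localTerm_eq_opAt, localTerm_eq_opAt]
        apply opAt_comm_of_disjoint (hinj v) (hinj v')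
        intro f f' heq
        apply hv'
        simp only [nb, Finset.mem_filter, Finset.mem_univ, true_and]
        exact ⟨f', f'.2, f, f.2, heq.symm⟩
      exact this)
    (by
      intro v v' hc
      by_cases hvv : v = v'
      · rw [hvv]
      · have : localTerm N R K v * localTerm N R K v' =
            localTerm N R K v' * localTerm N R K v := by
          rw [localTerm_eq_opAt, localTerm_eq_opAt]
          apply opAt_comm_of_disjoint (hinj v) (hinj v')
          intro f f'
          exact hdisj v v' hvv (e.injective hc) f f'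
        exact this)
    t ht htt q hq ψ' hψ'
  obtain ⟨φ, hφ⟩ : ∃ φ, φ = cooled w (fun v => localTerm N R K v) (fun v => e (colr hrN v)) t q x :=
    ⟨_, rfl⟩
  rw [← hφ] at hx0 hx
  -- window network
  have hwin : WinNet r (d ^ (2 * w.length * q)) φ := by
    rw [hφ]
    unfold cooled halfStep
    rw [prod_word]
    · have hlen := length_word (w.map (fun b => NormedSpace.exp
        (-(b.2 * t) • ∑ i ∈ Finset.univ.filter (fun i => e (colr hrN i) = b.1),
          localTerm N R K i))) q
      rw [List.length_map] at hlen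
      rw [← hlen]
      apply winNet_word
      intro O hO
      rw [List.mem_flatten] at hO
      obtain ⟨l, hl, hO⟩ := hO
      rw [List.eq_of_mem_replicate hl, List.mem_append, List.mem_reverse, or_self,
        List.mem_map] at hO
      obtain ⟨g, _, rfl⟩ := hO
      have h1 := winOp_gate hrN R a b hR K (e.symm g.1) ((-(g.2 * t) : ℝ) : ℂ)
      have h2 : (Finset.univ.filter (fun i : Site N => e (colr hrN i) = g.1)) =
          Finset.univ.filter (fun i : Site N => colr hrN i = e.symm g.1) := by
        ext i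
        simp only [Finset.mem_filter, Finset.mem_univ, true_and]
        exact (Equiv.eq_symm_apply e).symm
      rw [h2]
      have h3 : ∀ A : Matrix (Site N → Fin d) (Site N → Fin d) ℂ,
          (-(g.2 * t)) • A = ((-(g.2 * t) : ℝ) : ℂ) • A := by
        intro A
        ext i j
        simp [Matrix.smul_apply]
      rw [h3]
      convert h1
    · intro A hA
      obtain ⟨g, _, rfl⟩ := List.mem_map.1 hA
      rw [← Matrix.exp_conjTranspose]
      congr 1
      rw [Matrix.conjTranspose_smul, Matrix.conjTranspose_sum]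
      congr 1
      exact Finset.sum_congr rfl (fun v _ => localTerm_isHermitian hK v)
  obtain ⟨W, hW⟩ := hwin.netT
  refine ⟨W, by rw [hW]; exact hx0, ?_⟩
  rw [hW]
  have hpos : 0 < sqn φ := sqn_pos hx0
  have hpos' : 0 < sqn ψ' := sqn_pos hψ'
  have h1 : ex (∑ v, localTerm N R K v) φ = sqn φ * ∑ v, enf K (reduced N R v φ) := by
    rw [ex_sum, Finset.mul_sum]
    exact Finset.sum_congr rfl (fun v _ => ex_localTerm R K v hx0)
  have h2 : ex (∑ v, localTerm N R K v) φ / sqn φ = ∑ v, enf K (reduced N R v φ) := by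
    rw [h1]; field_simp
  have h3 : ex (∑ v, localTerm N R K v) ψ' / sqn ψ' ≤ (N : ℝ) ^ 2 * enf K ρ + 4 * r * N := by
    rw [div_le_iff₀ hpos']
    exact htrial
  have h4 : (Fintype.card (Site N) : ℝ) = (N : ℝ) ^ 2 := by
    rw [Fintype.card_prod, ZMod.card]
    push_cast
    ring
  have h5 : Real.log (Fintype.card (Site N → Fin d)) = (N : ℝ) ^ 2 * Real.log d := by
    rw [Fintype.card_fun, Fintype.card_fin]
    push_cast
    rw [Real.log_pow, h4]
  rw [h2, h4, h5] at hx
  linarith

end content

end Pool.Agent.Hhelper96.PEPS
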