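import Pool.Agent.Hhelper96.PEPS.Generic

/-!
Second order lower bounds of the ground state energy in the direction of a local perturbation.
-/

set_option autoImplicit false

open scoped BigOperators Topology
open Matrix Filter

namespace Pool.Agent.Hhelper96.PEPS

/-- second order lower bound of the energy of `H + s ∑ τ_v(V)`, `H = ∑ τ_v(h) + ∑ τ_v(k)`, at the
ground states `ψ n` of `H`, on all large tori and for all small `s > 0` -/
def SecOrd {d : ℕ} (F R : Finset (ℤ × ℤ)) (h : Matrix (F → Fin d) (F → Fin d) ℂ)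
    (k V : Matrix (R → Fin d) (R → Fin d) ℂ) (ψ : ∀ n : ℕ, (Site (n + 1) → Fin d) → ℂ) : Prop :=
  ∃ C : ℝ, 0 ≤ C ∧ ∃ s₀ : ℝ, 0 < s₀ ∧ ∀ s : ℝ, 0 < s → s ≤ s₀ → ∀ᶠ n in atTop,
    ∀ χ : (Site (n + 1) → Fin d) → ℂ,
      (ex (hamiltonian (n + 1) F h + hamiltonian (n + 1) R k) (ψ n) / sqn (ψ n) +
        (s * enf V (reduced (n + 1) R 0 (ψ n)) - C * s ^ 2) * ((n + 1 : ℕ) : ℝ) ^ 2) * sqn χ ≤
      ex (hamiltonian (n + 1) F h + hamiltonian (n + 1) R k +
        (s : ℂ) • hamiltonian (n + 1) R V) χ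

end Pool.Agent.Hhelper96.PEPS
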