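import Pool.Agent.Hhelper96.UB.Core
import Pool.Agent.Hhelper96.UB.SecDef

/-!
From the energy to the marginals: a label network on a torus of side `N` whose energy is close to the
lowest one gives a translation invariant PEPS tensor whose marginals are close to those of the ground
states on all large tori, when the energy has second order lower bounds.
-/

set_option autoImplicit false
set_option linter.unusedSectionVars false

open scoped BigOperators Topology ComplexOrder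
open Matrix Filter

namespace Pool.Agent.Hhelper96.PEPS

section lift

variable {S T U : Type} [Fintype S] [DecidableEq S] [Fintype T] [DecidableEq T]
  [Fintype U] [DecidableEq U] {d : ℕ}

theorem opAt_lift {κ : T → S} (hκ : Function.Injective κ) (ι : U → T)
    (p : Matrix (U → Fin d) (U → Fin d) ℂ) :
    opAt κ (opAt ι p) = opAt (fun u => κ (ι u)) p := by
  ext s s'
  unfold opAt
  by_cases h1 : ∀ u, (∀ t, κ t ≠ u) → s u = s' u
  · rw [if_pos h1]
    by_cases h2 : ∀ t, (∀ u, ι u ≠ t) → (s ∘ κ) t = (s' ∘ κ) t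
    · rw [if_pos h2, if_pos]
      · rfl
      · intro x hx
        by_cases h3 : ∃ t, κ t = x
        · obtain ⟨t, rfl⟩ := h3
          exact h2 t (fun u hu => hx u (by change κ (ι u) = κ t; rw [hu]))
        · exact h1 x (fun t ht => h3 ⟨t, ht⟩)
    · rw [if_neg h2, if_neg]
      intro h3
      apply h2
      intro t ht
      exact h3 (κ t) (fun u hu => ht u (hκ hu))
  · rw [if_neg h1, if_neg]
    intro h3
    apply h1
    intro x hx
    exact h3 x (fun u hu => hx _ hu)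

theorem hamiltonian_lift {N : ℕ} [NeZero N] {F W : Finset (ℤ × ℤ)} (hFW : F ⊆ W)
    (hinj : ∀ v : Site N, Function.Injective (fun p : W => place N v p))
    (h : Matrix (F → Fin d) (F → Fin d) ℂ) :
    hamiltonian N W (opAt (fun p : F => (⟨p.1, hFW p.2⟩ : W)) h) = hamiltonian N F h := by
  unfold hamiltonian
  refine Finset.sum_congr rfl (fun v _ => ?_)
  rw [localTerm_eq_opAt, localTerm_eq_opAt, opAt_lift (hinj v)]

theorem hamiltonian_add {N : ℕ} [NeZero N] {W : Finset (ℤ × ℤ)}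
    (g g' : Matrix (W → Fin d) (W → Fin d) ℂ) :
    hamiltonian N W (g + g') = hamiltonian N W g + hamiltonian N W g' := by
  unfold hamiltonian
  rw [← Finset.sum_add_distrib]
  refine Finset.sum_congr rfl (fun v _ => ?_)
  rw [localTerm_eq_opAt, localTerm_eq_opAt, localTerm_eq_opAt, opAt_add]

theorem hamiltonian_smul {N : ℕ} [NeZero N] {W : Finset (ℤ × ℤ)} (c : ℂ)
    (g : Matrix (W → Fin d) (W → Fin d) ℂ) :
    hamiltonian N W (c • g) = c • hamiltonian N W g := by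
  unfold hamiltonian
  rw [Finset.smul_sum]
  refine Finset.sum_congr rfl (fun v _ => ?_)
  rw [localTerm_eq_opAt, localTerm_eq_opAt, opAt_smul]

theorem ex_hamiltonian {N : ℕ} [NeZero N] {W : Finset (ℤ × ℤ)}
    (g : Matrix (W → Fin d) (W → Fin d) ℂ) {Φ : (Site N → Fin d) → ℂ} (hΦ : Φ ≠ 0) :
    ex (hamiltonian N W g) Φ = sqn Φ * ∑ v, enf g (reduced N W v Φ) := by
  unfold hamiltonian
  rw [ex_sum, Finset.mul_sum]
  exact Finset.sum_congr rfl (fun v _ => ex_localTerm W g v hΦ)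

end lift

section bound

variable {m : Type} [Fintype m] [DecidableEq m]

theorem abs_enf_le_traceNorm (g Z : Matrix m m ℂ) :
    |enf g Z| ≤ (∑ i, ∑ j, ‖g i j‖) * traceNorm Z := by
  unfold enf
  refine (Complex.abs_re_le_norm _).trans ?_
  unfold Matrix.trace
  simp only [Matrix.diag_apply, Matrix.mul_apply]
  refine (norm_sum_le _ _).trans ?_
  have h1 : ∀ i ∈ (Finset.univ : Finset m), ‖∑ j, Z i j * g j i‖ ≤ ∑ j, ‖g j i‖ * traceNorm Z := by
    intro i _
    refine (norm_sum_le _ _).trans (Finset.sum_le_sum (fun j _ => ?_))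
    rw [norm_mul, mul_comm]
    exact mul_le_mul_of_nonneg_left (norm_apply_le_traceNorm Z i j) (norm_nonneg _)
  refine (Finset.sum_le_sum h1).trans (le_of_eq ?_)
  rw [Finset.sum_comm, Finset.sum_mul]
  refine Finset.sum_congr rfl (fun i _ => ?_)
  rw [Finset.sum_mul]

theorem enf_sub' (g X Y : Matrix m m ℂ) : enf g (X - Y) = enf g X - enf g Y := by
  unfold enf
  rw [Matrix.sub_mul, Matrix.trace_sub, Complex.sub_re]

theorem enf_neg_left (g X : Matrix m m ℂ) : enf (-g) X = - enf g X := by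
  unfold enf
  rw [Matrix.mul_neg, Matrix.trace_neg, Complex.neg_re]

/-- the functional is bounded on density matrices -/
theorem exists_enf_bound (g : Matrix m m ℂ) : ∃ c : ℝ, 1 ≤ c ∧ hsq (((c⁻¹ : ℝ) : ℂ) • g) ≤ 1 ∧
    ∀ X : Matrix m m ℂ, X.PosSemidef → X.trace = 1 → |enf g X| ≤ c := by
  obtain ⟨c, hc⟩ : ∃ c : ℝ, c = √(hsq g) + 1 := ⟨_, rfl⟩
  have hs := Real.sqrt_nonneg (hsq g)
  have hc1 : 1 ≤ c := by rw [hc]; linarith
  have hc0 : 0 < c := by linarith
  have hK : hsq (((c⁻¹ : ℝ) : ℂ) • g) ≤ 1 := by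
    rw [hsq_smul, inv_pow, inv_mul_le_iff₀ (by positivity), mul_one]
    have h1 : hsq g = √(hsq g) ^ 2 := (Real.sq_sqrt (hsq_nonneg g)).symm
    rw [h1]
    apply pow_le_pow_left₀ hs
    rw [hc]; linarith
  refine ⟨c, hc1, hK, fun X hX hX1 => ?_⟩
  have h1 := abs_enf_le (((c⁻¹ : ℝ) : ℂ) • g) X hK hX hX1
  have h2 : enf (((c⁻¹ : ℝ) : ℂ) • g) X = c⁻¹ * enf g X := by
    unfold enf
    rw [Matrix.mul_smul, Matrix.trace_smul, smul_eq_mul, Complex.re_ofReal_mul]
  rw [h2, abs_mul, abs_of_pos (inv_pos.2 hc0), inv_mul_le_iff₀ hc0, mul_one] at h1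
  exact h1

end bound

section net

variable {d : ℕ}

/-- energy of the average marginal of a vector on the torus of side `N` whose energy is close to the
lowest one -/
theorem net_energy {N L r : ℕ} [NeZero N] [NeZero L] (hr : 1 ≤ r) (hrN : 4 * r ≤ N) (hNL : N ≤ L)
    (W : Finset (ℤ × ℤ)) (a b : ℤ)
    (hW : ∀ p ∈ W, a ≤ p.1 ∧ p.1 < a + r ∧ b ≤ p.2 ∧ p.2 < b + r)
    (g : Matrix (W → Fin d) (W → Fin d) ℂ) {c : ℝ} (hc : 1 ≤ c)
    (hgc : hsq (((c⁻¹ : ℝ) : ℂ) • g) ≤ 1)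
    (hcb : ∀ X : Matrix (W → Fin d) (W → Fin d) ℂ, X.PosSemidef → X.trace = 1 → |enf g X| ≤ c)
    {η : ℝ} {T : (Site N → Fin d) → ℂ} (hT : T ≠ 0)
    (hmin : ∀ χ : (Site N → Fin d) → ℂ, χ ≠ 0 → ex (hamiltonian N W g) T / sqn T ≤
      ex (hamiltonian N W g) χ / sqn χ + η * (N : ℝ) ^ 2)
    (ψ : (Site L → Fin d) → ℂ) (hψ : ψ ≠ 0) (ρ : Matrix (W → Fin d) (W → Fin d) ℂ)
    (hρ : ∀ v, reduced L W v ψ = ρ) :
    (1 / ((inn N r).card : ℝ) ^ 2) *
      ∑ k ∈ inn N r, ∑ l ∈ inn N r, enf g (reduced N W (posn N a b k l) T) ≤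
        enf g ρ + (16 * r * c / N + 2 * |η|) := by
  have hc0 : 0 < c := by linarith
  have hrN' : r ≤ N := by omega
  have hNpos : (0 : ℝ) < N := by exact_mod_cast NeZero.pos N
  obtain ⟨K, hK⟩ : ∃ K, K = ((c⁻¹ : ℝ) : ℂ) • g := ⟨_, rfl⟩
  have hgK : g = ((c : ℝ) : ℂ) • K := by
    rw [hK, smul_smul, ← Complex.ofReal_mul, mul_inv_cancel₀ hc0.ne', Complex.ofReal_one, one_smul]
  rw [← hK] at hgc
  obtain ⟨φ, hφ, htrial⟩ := exists_trial hr hrN' hNL W a b hW K
    (fun X hX hX1 => abs_enf_le K X hgc hX hX1) ψ hψ ρ hρ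
  have hρp : ρ.PosSemidef ∧ ρ.trace = 1 := by
    rw [← hρ 0]
    exact posSemidef_reduced (by omega : r ≤ L) W a b hW 0 hψ
  have hKe : ∀ X, enf g X = c * enf K X := by
    intro X
    rw [hgK]
    unfold enf
    rw [Matrix.mul_smul, Matrix.trace_smul, smul_eq_mul, Complex.re_ofReal_mul]
  have h1 := hmin φ hφ
  have h2 : ex (hamiltonian N W g) φ / sqn φ ≤ (N : ℝ) ^ 2 * enf g ρ + 4 * r * c * N := by
    rw [div_le_iff₀ (sqn_pos hφ), hgK, hamiltonian_smul, ex_smul]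
    rw [← hgK, hKe ρ]
    have := mul_le_mul_of_nonneg_left htrial hc0.le
    linarith
  have h3 : ex (hamiltonian N W g) T / sqn T = ∑ v, enf g (reduced N W v T) := by
    rw [ex_hamiltonian g hT]
    have := sqn_pos hT
    field_simp
  rw [h3] at h1
  have hpsd : ∀ v, (reduced N W v T).PosSemidef ∧ (reduced N W v T).trace = 1 :=
    fun v => posSemidef_reduced hrN' W a b hW v hT
  have h4 := sum_inn_le hr hrN' a b (fun v => enf K (reduced N W v T)) (fun v =>
    (abs_le.1 (abs_enf_le K _ hgc (hpsd v).1 (hpsd v).2)).1)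
  have hcard := card_inn hr hrN'
  obtain ⟨m, hm⟩ : ∃ m : ℝ, m = ((inn N r).card : ℝ) := ⟨_, rfl⟩
  have hmN : m + r = N + 1 := by
    rw [hm]; exact_mod_cast hcard
  rw [← hm] at h4 ⊢
  have hr1 : (1 : ℝ) ≤ r := by exact_mod_cast hr
  have hrNr : 4 * (r : ℝ) ≤ N := by exact_mod_cast hrN
  have hm1 : (3 / 4 : ℝ) * N ≤ m := by linarith
  have hm0 : 0 < m := by linarith
  have hm2 : (1 / 2 : ℝ) * (N : ℝ) ^ 2 ≤ m ^ 2 := by nlinarith
  have hm3 : (N : ℝ) ^ 2 - m ^ 2 ≤ 2 * r * N := by nlinarith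
  have h5 : ∑ k ∈ inn N r, ∑ l ∈ inn N r, enf g (reduced N W (posn N a b k l) T) =
      c * ∑ k ∈ inn N r, ∑ l ∈ inn N r, enf K (reduced N W (posn N a b k l) T) := by
    rw [Finset.mul_sum]
    refine Finset.sum_congr rfl (fun k _ => ?_)
    rw [Finset.mul_sum]
    exact Finset.sum_congr rfl (fun l _ => hKe _)
  have h6 : ∑ v, enf g (reduced N W v T) = c * ∑ v, enf K (reduced N W v T) := by
    rw [Finset.mul_sum]
    exact Finset.sum_congr rfl (fun l _ => hKe _)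
  obtain ⟨X, hX⟩ : ∃ X, X = ∑ k ∈ inn N r, ∑ l ∈ inn N r, enf g (reduced N W (posn N a b k l) T) :=
    ⟨_, rfl⟩
  rw [← hX] at h5 ⊢
  have h7 : X ≤ ∑ v, enf g (reduced N W v T) + c * ((N : ℝ) ^ 2 - m ^ 2) := by
    rw [h5, h6]
    have := mul_le_mul_of_nonneg_left h4 hc0.le
    linarith
  have hgρ := abs_le.1 (hcb ρ hρp.1 hρp.2)
  have h8 : X ≤ (N : ℝ) ^ 2 * enf g ρ + 4 * r * c * N + |η| * (N : ℝ) ^ 2 + c * (2 * r * N) := by
    have e1 : η * (N : ℝ) ^ 2 ≤ |η| * (N : ℝ) ^ 2 :=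
      mul_le_mul_of_nonneg_right (le_abs_self η) (by positivity)
    have e2 := mul_le_mul_of_nonneg_left hm3 hc0.le
    linarith
  have h9 : X ≤ m ^ 2 * enf g ρ + (8 * r * c * N + |η| * (N : ℝ) ^ 2) := by
    have e1 : ((N : ℝ) ^ 2 - m ^ 2) * enf g ρ ≤ 2 * r * N * c := by
      have e2 : 0 ≤ (N : ℝ) ^ 2 - m ^ 2 := by nlinarith
      calc ((N : ℝ) ^ 2 - m ^ 2) * enf g ρ ≤ ((N : ℝ) ^ 2 - m ^ 2) * c :=
            mul_le_mul_of_nonneg_left hgρ.2 e2
        _ ≤ 2 * r * N * c := mul_le_mul_of_nonneg_right hm3 hc0.le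
    linarith
  have h10 : (8 * r * c * N + |η| * (N : ℝ) ^ 2) ≤ m ^ 2 * (16 * r * c / N + 2 * |η|) := by
    have e1 : 0 ≤ 16 * r * c / N + 2 * |η| := by positivity
    have e2 := mul_le_mul_of_nonneg_right hm2 e1
    have e3 : (1 / 2 : ℝ) * (N : ℝ) ^ 2 * (16 * r * c / N + 2 * |η|) =
        8 * r * c * N + |η| * (N : ℝ) ^ 2 := by
      field_simp
      ring
    linarith
  rw [one_div, inv_mul_le_iff₀ (by positivity)]
  linarith

end net

end Pool.Agent.Hhelper96.PEPS
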