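import Pool.Agent.Hhelper96.PEPS.Window
import Pool.Agent.Hhelper96.UB.Hsq

/-!
Statement of the block form of the product formula estimate, and the interface with the lattice part:
`exp (-t H)` is approximated, up to a factor `exp (± C |I| / 2 ^ m)`, by `V Vᴴ`, where `V` is a product
of nine exponentials of sums over families of blocks of diameter `m`.
-/

set_option autoImplicit false

open scoped BigOperators
open Matrix

namespace Pool.Agent.Hhelper96.PEPS

/-- the three families of blocks, for one level function -/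
def cutSet (m : ℕ) (k : Fin 3) (l : ℕ) : Prop :=
  if k = 0 then 0 < l else if k = 1 then 0 < l ∧ l < m else l < m

/-- the signs of the three factors -/
def cutSgn (k : Fin 3) : ℝ := if k = 1 then -1 else 1

open Classical in
/-- one of the nine factors -/
noncomputable def blockLayer {n I : Type} [Fintype n] [DecidableEq n] [Fintype I]
    (h : I → Matrix n n ℂ) (l₁ l₂ : I → ℕ) (m : ℕ) (t : ℝ) (k : Fin 3 × Fin 3) : Matrix n n ℂ :=
  NormedSpace.exp ((-(cutSgn k.1 * cutSgn k.2 * t)) • ∑ i ∈ Finset.univ.filter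
    (fun i => cutSet m k.1 (l₁ i) ∧ cutSet m k.2 (l₂ i)), h i)

/-- the product of the nine factors, ordered lexicographically from left to right -/
noncomputable def blockProd {n I : Type} [Fintype n] [DecidableEq n] [Fintype I]
    (h : I → Matrix n n ℂ) (l₁ l₂ : I → ℕ) (m : ℕ) (t : ℝ) : Matrix n n ℂ :=
  ([((0 : Fin 3), (0 : Fin 3)), (0, 1), (0, 2), (1, 0), (1, 1), (1, 2), (2, 0), (2, 1),
    (2, 2)].map (blockLayer h l₁ l₂ m t)).prod

/-- the statement of the block estimate -/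
def BlockStmt (z : ℕ) : Prop :=
  ∃ (t₀ C : ℝ), 0 < t₀ ∧ 0 ≤ C ∧
    ∀ (n I : Type) [Fintype n] [DecidableEq n] [Nonempty n] [Fintype I] [DecidableEq I] (m : ℕ)
      (h : I → Matrix n n ℂ) (l₁ l₂ : I → ℕ) (nb : I → Finset I),
      (∀ i, (h i).IsHermitian) → (∀ i (φ : n → ℂ), sqn ((h i).mulVec φ) ≤ sqn φ) →
      (∀ i, (nb i).card ≤ z) → (∀ i j, j ∉ nb i → Commute (h i) (h j)) →
      (∀ i, ∀ j ∈ nb i, l₁ j ≤ l₁ i + 1 ∧ l₂ j ≤ l₂ i + 1) →
      ∀ t, 0 < t → t ≤ t₀ → ∀ φ : n → ℂ,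
        Real.exp (-(C * Fintype.card I / 2 ^ m)) *
            ex (NormedSpace.exp ((-t) • ∑ i, h i)) φ ≤
          ex (blockProd h l₁ l₂ m (t / 2) * (blockProd h l₁ l₂ m (t / 2))ᴴ) φ ∧
        ex (blockProd h l₁ l₂ m (t / 2) * (blockProd h l₁ l₂ m (t / 2))ᴴ) φ ≤
          Real.exp (C * Fintype.card I / 2 ^ m) *
            ex (NormedSpace.exp ((-t) • ∑ i, h i)) φ

/-- The interface: on the torus of side `N`, a multiple of `S = A (m + 1) r`, the operator
`exp (-τ H)` of a translation invariant Hamiltonian with terms in an `r × r` box is approximated, up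
to a factor `exp (± C N ^ 2 / 2 ^ m)`, by `T Tᴴ`, whose powers applied to basis vectors are window
networks of side `S` with labels of size `d ^ (w q)`. -/
def SandNet (d r w A : ℕ) : Prop :=
  ∃ (τ C : ℝ), 0 < τ ∧ 0 ≤ C ∧
    ∀ (N S m : ℕ) [NeZero N] [NeZero S], S = A * (m + 1) * r → S ∣ N →
    ∀ (R : Finset (ℤ × ℤ)) (a b : ℤ),
    (∀ p ∈ R, a ≤ p.1 ∧ p.1 < a + r ∧ b ≤ p.2 ∧ p.2 < b + r) →
    ∀ (K : Matrix (R → Fin d) (R → Fin d) ℂ), K.IsHermitian → hsq K ≤ 1 →
    ∃ T : Matrix (Site N → Fin d) (Site N → Fin d) ℂ,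
      (∀ φ : (Site N → Fin d) → ℂ,
        Real.exp (-(C * (N : ℝ) ^ 2 / 2 ^ m)) *
            ex (NormedSpace.exp ((-τ) • hamiltonian N R K)) φ ≤ ex (T * Tᴴ) φ ∧
        ex (T * Tᴴ) φ ≤ Real.exp (C * (N : ℝ) ^ 2 / 2 ^ m) *
            ex (NormedSpace.exp ((-τ) • hamiltonian N R K)) φ) ∧
      ∀ (q : ℕ) (x : Site N → Fin d), WinNet S (d ^ (w * q)) (((T * Tᴴ) ^ q).mulVec (Pi.single x 1))

end Pool.Agent.Hhelper96.PEPS
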