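import Pool.Agent.Hhelper96.UB.Params
import Pool.Agent.Hhelper96.PEPS.FiniteSet

/-!
Local PEPS approximation with bond dimension `exp (C / ε ^ (1 + δ))`: finite sets of tensors,
convergent marginals, almost every interaction.
-/

set_option autoImplicit false
set_option linter.unusedSectionVars false

open scoped BigOperators Topology ComplexOrder
open Matrix Filter MeasureTheory

namespace Pool.Agent.Hhelper96.PEPS

/-- marginals of translation invariant states are approximated with bond dimension `G ε` -/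
def CoreBound (d r : ℕ) (G : ℝ → ℝ) : Prop :=
  ∀ ε : ℝ, 0 < ε → ε ≤ 1 → ∃ (N₀ L₀ : ℕ), ∀ (R : Finset (ℤ × ℤ)) (a b : ℤ),
    (∀ p ∈ R, a ≤ p.1 ∧ p.1 < a + r ∧ b ≤ p.2 ∧ p.2 < b + r) →
    ∃ D : ℕ, (D : ℝ) ≤ G ε ∧
    ∀ (L₁ : ℕ) [NeZero L₁], N₀ ≤ L₁ → ∀ (ψ : (Site L₁ → Fin d) → ℂ), ψ ≠ 0 →
    (∀ w, reduced L₁ R w ψ = reduced L₁ R 0 ψ) →
    ∃ A : Fin d → Fin D → Fin D → Fin D → Fin D → ℂ,
      ∀ (L : ℕ) [NeZero L], L₀ ≤ L →
      pepsVec L A ≠ 0 ∧ ∀ v, traceNorm (reduced L R v (pepsVec L A) - reduced L₁ R 0 ψ) ≤ ε / 2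

theorem core_delta (hE : ∀ z c p : ℕ, 1 ≤ p → EngineStmt z c p) (d r : ℕ) (hr : 1 ≤ r) (δ : ℝ)
    (hδ : 0 < δ) : ∃ C : ℝ, 0 ≤ C ∧ CoreBound d r (fun ε => Real.exp (C / ε ^ (1 + δ))) := by
  rcases Nat.lt_or_ge 1 d with hd | hd
  · obtain ⟨p, hp1, hp⟩ : ∃ p : ℕ, 1 ≤ p ∧ 1 / (2 * (p : ℝ)) ≤ δ := by
      refine ⟨⌈1 / (2 * δ)⌉₊ + 1, by omega, ?_⟩
      have h1 := Nat.le_ceil (1 / (2 * δ))
      rw [div_le_iff₀ (by positivity)] at h1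
      rw [div_le_iff₀ (by positivity)]
      push_cast
      nlinarith
    obtain ⟨C, hC, hcore⟩ := core_params d r p hr hp1 hd (hE _ _ p hp1)
    refine ⟨C, hC, ?_⟩
    intro ε hε hε1
    have hpr : (0 : ℝ) < p := by exact_mod_cast hp1
    obtain ⟨x, hx⟩ : ∃ x : ℝ, x = ε ^ (1 / (2 * (p : ℝ))) := ⟨_, rfl⟩
    have hxpos : 0 < x := by rw [hx]; exact Real.rpow_pos_of_pos hε _
    have hx1 : x ≤ 1 := by
      rw [hx]; exact Real.rpow_le_one hε.le hε1 (by positivity)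
    have hxε : x ^ (2 * p) = ε := by
      rw [hx, ← Real.rpow_natCast, ← Real.rpow_mul hε.le]
      have : 1 / (2 * (p : ℝ)) * ((2 * p : ℕ) : ℝ) = 1 := by
        push_cast; field_simp
      rw [this, Real.rpow_one]
    obtain ⟨N₀, L₀, h⟩ := hcore ε x hε hε1 hxpos hx1 hxε
    refine ⟨N₀, L₀, fun R a b hR => ?_⟩
    obtain ⟨D, hD, hA⟩ := h R a b hR
    refine ⟨D, hD.trans ?_, hA⟩
    apply Real.exp_le_exp.2
    have h2 : ε * x = ε ^ (1 + 1 / (2 * (p : ℝ))) := by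
      rw [hx, Real.rpow_add hε, Real.rpow_one]
    have h3 : ε ^ (1 + δ) ≤ ε * x := by
      rw [h2]
      exact Real.rpow_le_rpow_of_exponent_ge hε hε1 (by linarith)
    have h4 : 0 < ε ^ (1 + δ) := Real.rpow_pos_of_pos hε _
    rw [div_eq_mul_one_div C]
    exact mul_le_mul_of_nonneg_left (one_div_le_one_div_of_le h4 h3) hC
  · refine ⟨0, le_rfl, ?_⟩
    intro ε hε hε1
    refine ⟨r, r, fun R a b hR => ⟨1, by simp, ?_⟩⟩
    intro L₁ _ hL₁ ψ hψ hTI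
    obtain ⟨A, hA⟩ := core_trivial d hd R r hr a b hR L₁ hL₁ ψ hψ
    refine ⟨A, fun L _ hL => ?_⟩
    obtain ⟨h3, h4⟩ := hA L hL
    exact ⟨h3, fun v => (h4 v).trans (by positivity)⟩

/-- finitely many tensors suffice -/
theorem finite_set_of {d r : ℕ} {G : ℝ → ℝ} (hG : CoreBound d r G) (R : Finset (ℤ × ℤ)) (a b : ℤ)
    (hR : ∀ p ∈ R, a ≤ p.1 ∧ p.1 < a + r ∧ b ≤ p.2 ∧ p.2 < b + r) (ε : ℝ) (hε : 0 < ε)
    (hε1 : ε ≤ 1) :
    ∃ D : ℕ, (D : ℝ) ≤ G ε ∧ ∃ (N : ℕ) (A : Fin N → Fin d → Fin D → Fin D → Fin D → Fin D → ℂ)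
      (L₀ : ℕ), (∀ i, ∀ (L : ℕ) [NeZero L], L₀ ≤ L → pepsVec L (A i) ≠ 0) ∧
      ∀ (L : ℕ) [NeZero L], L₀ ≤ L → ∀ (F : Finset (ℤ × ℤ)) (h : Matrix (F → Fin d) (F → Fin d) ℂ),
        h.IsHermitian → ∀ Δ : ℝ, 0 < Δ → ∀ ψ : (Site L → Fin d) → ℂ,
        IsGappedGround (hamiltonian L F h) Δ ψ →
        ∃ i, ∀ (L' : ℕ) [NeZero L'], L₀ ≤ L' → ∀ (v : Site L) (v' : Site L'),
          traceNorm (reduced L R v ψ - reduced L' R v' (pepsVec L' (A i))) ≤ ε := by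
  classical
  obtain ⟨N₀, L₁, hcore⟩ := hG ε hε hε1
  obtain ⟨D, hD, hcore⟩ := hcore R a b hR
  obtain ⟨L₀, hL₀⟩ : ∃ L₀, L₀ = N₀ + L₁ + r := ⟨_, rfl⟩
  -- the set of marginals
  obtain ⟨S, hS⟩ : ∃ S : Set ((R → Fin d) → (R → Fin d) → ℂ), S = {X | ∃ (n : ℕ)
      (ψ : (Site (n + 1) → Fin d) → ℂ), L₀ ≤ n + 1 ∧ ψ ≠ 0 ∧
      (∀ w, reduced (n + 1) R w ψ = reduced (n + 1) R 0 ψ) ∧ X = reduced (n + 1) R 0 ψ} := ⟨_, rfl⟩
  have hbd : ∀ X ∈ S, ∀ i j, ‖X i j‖ ≤ 1 := by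
    intro X hX i j
    rw [hS] at hX
    obtain ⟨n, ψ, h1, h2, _, h4⟩ := hX
    rw [h4]
    have h5 := posSemidef_reduced (r := r) (by omega : r ≤ n + 1) R a b hR 0 h2
    refine (norm_apply_le_traceNorm _ i j).trans ((traceNorm_posSemidef_le h5.1).trans ?_)
    rw [h5.2]
    simp
  obtain ⟨c, hc⟩ : ∃ c : ℝ, c = ∑ _i : R → Fin d, ∑ _j : R → Fin d, (1 : ℝ) := ⟨_, rfl⟩
  have hc0 : 0 ≤ c := by rw [hc]; positivity
  obtain ⟨t, ht1, ht2, ht3⟩ := exists_net S 1 hbd (δ := (ε / 2) / (c + 1)) (by positivity)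
  -- tensors for the net
  have hten : ∀ Y ∈ t, ∃ A : Fin d → Fin D → Fin D → Fin D → Fin D → ℂ,
      ∀ (L : ℕ) [NeZero L], L₀ ≤ L → pepsVec L A ≠ 0 ∧ ∀ v,
        traceNorm (reduced L R v (pepsVec L A) - Matrix.of Y) ≤ ε / 2 := by
    intro Y hY
    have h1 := ht1 hY
    rw [hS] at h1
    obtain ⟨n, ψ, h2, h3, h4, h5⟩ := h1
    obtain ⟨A, hA⟩ := hcore (n + 1) (by omega) ψ h3 h4
    refine ⟨A, ?_⟩
    intro L _ hL
    rw [h5]
    exact hA L (by omega)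
  obtain ⟨N, f, _, hf⟩ := ht2.fin_param
  have hfm : ∀ i, f i ∈ t := fun i => by rw [← hf]; exact Set.mem_range_self i
  choose A hA using hten
  refine ⟨D, hD, N, fun i => A (f i) (hfm i), L₀, ?_, ?_⟩
  · intro i L _ hL
    exact (hA (f i) (hfm i) L hL).1
  · intro L _ hL F h _ Δ hΔ ψ hψ
    obtain ⟨n, rfl⟩ : ∃ n, L = n + 1 := ⟨L - 1, by have := NeZero.pos L; omega⟩
    have hTI : ∀ w, reduced (n + 1) R w ψ = reduced (n + 1) R 0 ψ := fun w =>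
      reduced_eq_of_gapped F h hΔ hψ R w
    have hmem : (reduced (n + 1) R 0 ψ : (R → Fin d) → (R → Fin d) → ℂ) ∈ S := by
      rw [hS]
      exact ⟨n, ψ, hL, hψ.1, hTI, rfl⟩
    obtain ⟨Y, hY, hclose⟩ := ht3 _ hmem
    obtain ⟨i, hi⟩ : ∃ i, f i = Y := by
      have : Y ∈ Set.range f := by rw [hf]; exact hY
      exact this
    refine ⟨i, fun L' _ hL' v v' => ?_⟩
    have h1 := (hA (f i) (hfm i) L' hL').2 v'
    rw [hTI v]
    have h2 : reduced (n + 1) R 0 ψ - reduced L' R v' (pepsVec L' (A (f i) (hfm i))) =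
        (reduced (n + 1) R 0 ψ - Matrix.of (f i)) +
          (Matrix.of (f i) - reduced L' R v' (pepsVec L' (A (f i) (hfm i)))) := by
      abel
    rw [h2]
    refine (traceNorm_add_le _ _).trans ?_
    have h3 : traceNorm (reduced (n + 1) R 0 ψ - Matrix.of (f i)) ≤ ε / 2 := by
      refine (traceNorm_le_sum _).trans ?_
      have h4 : ∑ x : R → Fin d, ∑ y : R → Fin d,
          ‖(reduced (n + 1) R 0 ψ - Matrix.of (f i)) x y‖ ≤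
          ∑ _x : R → Fin d, ∑ _y : R → Fin d, 1 * ((ε / 2) / (c + 1)) := by
        refine Finset.sum_le_sum (fun x _ => Finset.sum_le_sum (fun y _ => ?_))
        rw [one_mul, hi]
        exact hclose x y
      refine h4.trans ?_
      simp_rw [← Finset.sum_mul]
      rw [← hc, mul_div_assoc', div_le_iff₀ (by positivity)]
      nlinarith
    rw [traceNorm_sub_comm (Matrix.of (f i))]
    linarith

/-- convergent translation invariant marginals give one translation invariant PEPS tensor -/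
theorem convergent_of {d r : ℕ} {G : ℝ → ℝ} (hG : CoreBound d r G)
    (ψ : ∀ n : ℕ, (Site (n + 1) → Fin d) → ℂ) (R : Finset (ℤ × ℤ))
    (hψ : ∀ᶠ n in atTop, ψ n ≠ 0 ∧ ∀ w, reduced (n + 1) R w (ψ n) = reduced (n + 1) R 0 (ψ n))
    (a b : ℤ) (hR : ∀ p ∈ R, a ≤ p.1 ∧ p.1 < a + r ∧ b ≤ p.2 ∧ p.2 < b + r)
    (ρ : Matrix (R → Fin d) (R → Fin d) ℂ)
    (hρ : Tendsto (fun n => reduced (n + 1) R 0 (ψ n)) atTop (𝓝 ρ)) (ε : ℝ) (hε : 0 < ε)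
    (hε1 : ε ≤ 1) :
    ∃ D : ℕ, (D : ℝ) ≤ G ε ∧ ∃ A : Fin d → Fin D → Fin D → Fin D → Fin D → ℂ,
      (∀ᶠ n in atTop, pepsVec (n + 1) A ≠ 0) ∧
      ∀ᶠ n in atTop, ∀ v : Site (n + 1),
        traceNorm (reduced (n + 1) R v (ψ n) - reduced (n + 1) R v (pepsVec (n + 1) A)) ≤ ε := by
  obtain ⟨N₀, L₀, hcore⟩ := hG ε hε hε1
  obtain ⟨D, hD, hcore⟩ := hcore R a b hR
  have hlim : Tendsto (fun n => traceNorm (reduced (n + 1) R 0 (ψ n) - ρ)) atTop (𝓝 0) := by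
    have h1 : Tendsto (fun n => ∑ i, ∑ j, ‖(reduced (n + 1) R 0 (ψ n) - ρ) i j‖) atTop (𝓝 0) := by
      have h2 : Tendsto (fun n => ∑ i, ∑ j, ‖(reduced (n + 1) R 0 (ψ n) - ρ) i j‖) atTop
          (𝓝 (∑ i : R → Fin d, ∑ j : R → Fin d, ‖(ρ - ρ) i j‖)) := by
        refine tendsto_finsetSum _ (fun i _ => tendsto_finsetSum _ (fun j _ => ?_))
        refine Tendsto.norm ?_
        have h3 : Tendsto (fun n => (reduced (n + 1) R 0 (ψ n)) i j) atTop (𝓝 (ρ i j)) := by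
          have h4 := (tendsto_pi_nhds.1 hρ) i
          exact (tendsto_pi_nhds.1 h4) j
        exact h3.sub tendsto_const_nhds
      simpa using h2
    exact squeeze_zero (fun n => traceNorm_nonneg _) (fun n => traceNorm_le_sum _) h1
  have hev : ∀ᶠ n in atTop, traceNorm (reduced (n + 1) R 0 (ψ n) - ρ) < ε / 4 :=
    hlim.eventually_lt_const (by positivity)
  obtain ⟨n₁, hn₁, hn₂, hn₃⟩ : ∃ n₁, traceNorm (reduced (n₁ + 1) R 0 (ψ n₁) - ρ) < ε / 4 ∧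
      (ψ n₁ ≠ 0 ∧ ∀ w, reduced (n₁ + 1) R w (ψ n₁) = reduced (n₁ + 1) R 0 (ψ n₁)) ∧
      N₀ ≤ n₁ + 1 := by
    have h3 : ∀ᶠ n in atTop, N₀ ≤ n + 1 := by
      filter_upwards [eventually_ge_atTop N₀] with n hn
      omega
    obtain ⟨n₁, h⟩ := (hev.and (hψ.and h3)).exists
    exact ⟨n₁, h.1, h.2.1, h.2.2⟩
  obtain ⟨A, hA⟩ := hcore (n₁ + 1) hn₃ (ψ n₁) hn₂.1 hn₂.2
  have hbig : ∀ᶠ n in atTop, L₀ ≤ n + 1 := by
    filter_upwards [eventually_ge_atTop L₀] with n h1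
    omega
  refine ⟨D, hD, A, ?_, ?_⟩
  · filter_upwards [hbig] with n hn
    exact (hA (n + 1) hn).1
  · filter_upwards [hbig, hev, hψ] with n hn h1 h2 v
    have h3 := (hA (n + 1) hn).2 v
    rw [h2.2 v]
    have h5 : reduced (n + 1) R 0 (ψ n) - reduced (n + 1) R v (pepsVec (n + 1) A) =
        (reduced (n + 1) R 0 (ψ n) - ρ) +
          ((ρ - reduced (n₁ + 1) R 0 (ψ n₁)) +
            (reduced (n₁ + 1) R 0 (ψ n₁) - reduced (n + 1) R v (pepsVec (n + 1) A))) := by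
      abel
    rw [h5]
    refine (traceNorm_add_le _ _).trans ?_
    have h6 := traceNorm_add_le (ρ - reduced (n₁ + 1) R 0 (ψ n₁))
      (reduced (n₁ + 1) R 0 (ψ n₁) - reduced (n + 1) R v (pepsVec (n + 1) A))
    have h7 := traceNorm_sub_comm ρ (reduced (n₁ + 1) R 0 (ψ n₁))
    have h8 := traceNorm_sub_comm (reduced (n₁ + 1) R 0 (ψ n₁))
      (reduced (n + 1) R v (pepsVec (n + 1) A))
    linarith

/-- the approximation holds for almost every interaction -/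
theorem generic_of {d : ℕ} {G : ℕ → ℝ → ℝ → ℝ}
    (hG : ∀ r : ℕ, 1 ≤ r → ∀ δ : ℝ, 0 < δ → CoreBound d r (G r δ)) (F W : Finset (ℤ × ℤ))
    (h : Matrix (F → Fin d) (F → Fin d) ℂ) (hh : h.IsHermitian) :
    ∀ᵐ X : (W → Fin d) → (W → Fin d) → ℝ, ∀ ψ : ∀ n : ℕ, (Site (n + 1) → Fin d) → ℂ,
      (∀ᶠ n in atTop, ∃ Δ > 0, IsGappedGround
        (hamiltonian (n + 1) F h + hamiltonian (n + 1) W (hermOf X)) Δ (ψ n)) →
      ∀ R ⊆ W, ∀ (r : ℕ) (a b : ℤ), 1 ≤ r →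
      (∀ p ∈ R, a ≤ p.1 ∧ p.1 < a + r ∧ b ≤ p.2 ∧ p.2 < b + r) →
      ∀ δ : ℝ, 0 < δ → ∀ ε : ℝ, 0 < ε → ε ≤ 1 → ∃ D : ℕ, (D : ℝ) ≤ G r δ ε ∧
        ∃ A : Fin d → Fin D → Fin D → Fin D → Fin D → ℂ,
        (∀ᶠ n in atTop, pepsVec (n + 1) A ≠ 0) ∧
        ∀ᶠ n in atTop, ∀ v : Site (n + 1),
          traceNorm (reduced (n + 1) R v (ψ n) - reduced (n + 1) R v (pepsVec (n + 1) A)) ≤ ε := by
  rcases Nat.eq_zero_or_pos d with hd | hd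
  · subst hd
    refine Filter.Eventually.of_forall (fun X ψ hψ => ?_)
    exfalso
    obtain ⟨n, Δ, _, hg⟩ := hψ.exists
    apply hg.1
    funext s
    exact (s 0).elim0
  · filter_upwards [generic_marginals d hd F W h hh] with X hX ψ hψ R hRW r a b hr hR δ hδ ε hε hε1
    obtain ⟨ρ, hρ⟩ := hX ψ hψ
    obtain ⟨r₁, a₁, b₁, _, hW⟩ := exists_box W
    have h1 : Tendsto (fun n => reduced (n + 1) R 0 (ψ n)) atTop
        (𝓝 (ptrace (fun p : R => (⟨p.1, hRW p.2⟩ : W)) ρ)) := by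
      refine (tendsto_ptrace _ hρ).congr' ?_
      filter_upwards [eventually_ge_atTop r₁] with n hn
      exact (reduced_incl hRW 0 (place_injective (by omega : r₁ ≤ n + 1) W a₁ b₁ hW 0) _).symm
    refine convergent_of (hG r hr δ hδ) ψ R ?_ a b hR _ h1 ε hε hε1
    filter_upwards [hψ] with n hn
    obtain ⟨Δ, hΔ, hg⟩ := hn
    exact ⟨hg.1, fun w => reduced_eq_of_TI (sum_TI' F W h (hermOf X)) hΔ hg R w⟩

/-- the approximation for families whose gap is stable -/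
theorem stable_of {d r : ℕ} {G : ℝ → ℝ} (hG : CoreBound d r G) (F : Finset (ℤ × ℤ))
    (h : Matrix (F → Fin d) (F → Fin d) ℂ)
    (hh : h.IsHermitian) (Δ : ℝ) (hΔ : 0 < Δ) (ψ : ∀ n : ℕ, (Site (n + 1) → Fin d) → ℂ)
    (hψ : ∀ᶠ n in atTop, IsGappedGround (hamiltonian (n + 1) F h) Δ (ψ n))
    (R : Finset (ℤ × ℤ)) (a b : ℤ)
    (hR : ∀ p ∈ R, a ≤ p.1 ∧ p.1 < a + r ∧ b ≤ p.2 ∧ p.2 < b + r)
    (hstable : ∀ k : Matrix (R → Fin d) (R → Fin d) ℂ, k.IsHermitian → ∃ η > 0, ∃ Δ' > 0,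
      ∀ᶠ n in atTop, ∀ s ∈ Set.Icc (0 : ℝ) η, ∃ φ : (Site (n + 1) → Fin d) → ℂ,
        IsGappedGround (hamiltonian (n + 1) F h + (s : ℂ) • hamiltonian (n + 1) R k) Δ' φ)
    (ε : ℝ) (hε : 0 < ε) (hε1 : ε ≤ 1) :
    ∃ D : ℕ, (D : ℝ) ≤ G ε ∧ ∃ A : Fin d → Fin D → Fin D → Fin D → Fin D → ℂ,
      (∀ᶠ n in atTop, pepsVec (n + 1) A ≠ 0) ∧
      ∀ᶠ n in atTop, ∀ v : Site (n + 1),
        traceNorm (reduced (n + 1) R v (ψ n) - reduced (n + 1) R v (pepsVec (n + 1) A)) ≤ ε := by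
  obtain ⟨ρ, hρ⟩ := stable_marginals d F h hh Δ hΔ ψ hψ R hstable
  refine convergent_of hG ψ R ?_ a b hR ρ hρ ε hε hε1
  filter_upwards [hψ] with n hn
  exact ⟨hn.1, fun w => reduced_eq_of_gapped F h hΔ hn R w⟩

end Pool.Agent.Hhelper96.PEPS
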