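import Pool.Agent.Hhelper96.UB.EigCount

/-!
The partition function from the counting of the eigenvalues.
-/

set_option autoImplicit false
set_option linter.unusedSectionVars false

open scoped BigOperators ComplexOrder
open Matrix

namespace Pool.Agent.Hhelper96.PEPS

variable {n : Type} [Fintype n] [DecidableEq n] [Nonempty n]

/-- The number of eigenvalues below a level, in terms of `eigenvalues`. -/
theorem eigCount_eq {H : Matrix n n ℂ} (hH : H.IsHermitian) (x : ℝ) :
    eigCount H x = (Finset.univ.filter (fun j => hH.eigenvalues j ≤ x)).card := by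
  classical
  have h0 : eigCount H x = (H.charpoly.roots.filter (fun z => z.re ≤ x)).card := by
    unfold eigCount
    have e1 : @Matrix.charpoly ℂ _ n (fun a b => Classical.propDecidable (a = b)) _ H =
        H.charpoly := by
      congr 1
    rw [e1]
  rw [h0, hH.roots_charpoly_eq_eigenvalues, Multiset.filter_map, Multiset.card_map]
  rw [Finset.card_def, Finset.filter_val]
  congr 1

theorem geom_le_two {x : ℝ} (h0 : 0 ≤ x) (h1 : x ≤ 1 / 2) (K : ℕ) :
    ∑ i ∈ Finset.range K, x ^ i ≤ 2 := by
  have h2 : ∑ i ∈ Finset.range K, x ^ i ≤ ∑' i, x ^ i :=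
    (summable_geometric_of_lt_one h0 (by linarith)).sum_le_tsum _ (fun i _ => pow_nonneg h0 i)
  rw [tsum_geometric_of_lt_one h0 (by linarith)] at h2
  refine h2.trans ?_
  rw [inv_le_comm₀ (by linarith) (by norm_num)]
  linarith

/-- `P` is the size, `a` the exponent. -/
theorem count_sum {H : Matrix n n ℂ} (hH : H.IsHermitian) {P a E₀ : ℝ} (hP : 2 ≤ P) (ha : 0 ≤ a)
    (hmin : ∀ j, E₀ ≤ hH.eigenvalues j)
    (hcount : ∀ M : ℝ, 1 ≤ M → (eigCount H (E₀ + M) : ℝ) ≤ P ^ (a * M))
    {b : ℝ} (hb : (a + 1) * Real.log P ≤ b) :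
    Real.log (∑ j, Real.exp (-b * (hH.eigenvalues j - E₀))) ≤ (a + 2) * Real.log P := by
  classical
  have hP0 : 0 < P := by linarith
  have hlog : 0 < Real.log P := Real.log_pos (by linarith)
  have hb0 : 0 ≤ b := le_trans (by positivity) hb
  obtain ⟨f, hf⟩ : ∃ f : n → ℕ, f = fun j => ⌊hH.eigenvalues j - E₀⌋₊ := ⟨_, rfl⟩
  have hf1 : ∀ j, (f j : ℝ) ≤ hH.eigenvalues j - E₀ := by
    intro j
    rw [hf]
    exact Nat.floor_le (by have := hmin j; linarith)
  have hf2 : ∀ j, hH.eigenvalues j - E₀ ≤ f j + 1 := by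
    intro j
    rw [hf]
    exact (Nat.lt_floor_add_one _).le
  obtain ⟨K, hK⟩ : ∃ K : ℕ, ∀ j, f j < K :=
    ⟨Finset.univ.sup f + 1, fun j => Nat.lt_succ_of_le (Finset.le_sup (Finset.mem_univ j))⟩
  have h1 : ∑ j, Real.exp (-b * (hH.eigenvalues j - E₀)) ≤
      ∑ i ∈ Finset.range K, P ^ a * (P⁻¹) ^ i := by
    calc ∑ j, Real.exp (-b * (hH.eigenvalues j - E₀))
        ≤ ∑ j, Real.exp (-b * (f j : ℝ)) := by
          refine Finset.sum_le_sum (fun j _ => Real.exp_le_exp.mpr ?_)
          have := mul_le_mul_of_nonneg_left (hf1 j) hb0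
          linarith
      _ = ∑ i ∈ Finset.range K, ∑ j ∈ Finset.univ.filter (fun j => f j = i), Real.exp (-b * (f j : ℝ)) :=
          (Finset.sum_fiberwise_of_maps_to (fun j _ => Finset.mem_range.mpr (hK j)) _).symm
      _ ≤ ∑ i ∈ Finset.range K, P ^ a * (P⁻¹) ^ i := by
          refine Finset.sum_le_sum (fun i _ => ?_)
          have h2 : ∑ j ∈ Finset.univ.filter (fun j => f j = i), Real.exp (-b * (f j : ℝ)) =
              ((Finset.univ.filter (fun j => f j = i)).card : ℝ) * Real.exp (-b * (i : ℝ)) := by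
            rw [Finset.sum_congr rfl (g := fun _ => Real.exp (-b * (i : ℝ)))
              (fun j hj => by rw [(Finset.mem_filter.mp hj).2]), Finset.sum_const, nsmul_eq_mul]
          rw [h2]
          have h3 : ((Finset.univ.filter (fun j => f j = i)).card : ℝ) ≤ P ^ (a * ((i : ℝ) + 1)) := by
            refine le_trans ?_ (hcount ((i : ℝ) + 1) (by
              have : (0 : ℝ) ≤ i := Nat.cast_nonneg i
              linarith))
            rw [eigCount_eq hH]
            refine Nat.cast_le.mpr (Finset.card_le_card (fun j hj => ?_))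
            rw [Finset.mem_filter] at hj ⊢
            refine ⟨Finset.mem_univ _, ?_⟩
            have h4 := hf2 j
            rw [hj.2] at h4
            linarith
          have h4 : Real.exp (-b * (i : ℝ)) ≤ P ^ (-((a + 1) * (i : ℝ))) := by
            rw [Real.rpow_def_of_pos hP0]
            refine Real.exp_le_exp.mpr ?_
            have := mul_le_mul_of_nonneg_right hb (Nat.cast_nonneg (α := ℝ) i)
            linarith
          refine (mul_le_mul h3 h4 (Real.exp_pos _).le (Real.rpow_nonneg hP0.le _)).trans (le_of_eq ?_)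
          rw [← Real.rpow_add hP0, inv_pow, ← Real.rpow_natCast P i, ← Real.rpow_neg hP0.le,
            ← Real.rpow_add hP0]
          congr 1
          ring
  have h2 : ∑ i ∈ Finset.range K, P ^ a * (P⁻¹) ^ i ≤ P ^ a * 2 := by
    rw [← Finset.mul_sum]
    refine mul_le_mul_of_nonneg_left (geom_le_two (by positivity) ?_ K) (Real.rpow_nonneg hP0.le _)
    rw [inv_le_comm₀ hP0 (by norm_num)]
    norm_num
    linarith
  have hpos : 0 < ∑ j, Real.exp (-b * (hH.eigenvalues j - E₀)) :=
    Finset.sum_pos (fun j _ => Real.exp_pos _) Finset.univ_nonempty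
  calc Real.log (∑ j, Real.exp (-b * (hH.eigenvalues j - E₀))) ≤ Real.log (P ^ a * 2) :=
        Real.log_le_log hpos (h1.trans h2)
    _ = a * Real.log P + Real.log 2 := by
        rw [Real.log_mul (Real.rpow_pos_of_pos hP0 _).ne' (by norm_num), Real.log_rpow hP0]
    _ ≤ a * Real.log P + Real.log P := by
        have := Real.log_le_log (by norm_num) hP
        linarith
    _ ≤ (a + 2) * Real.log P := by nlinarith

end Pool.Agent.Hhelper96.PEPS
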