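import Pool.Agent.Hhelper96.UB.SandwichT
import Pool.Agent.Hhelper96.UB.SandwichC

/-!
`energy_of_sandwich` and `thermal_of_sandwich` are in `SandwichT`, `count_sum` is in `SandwichC`.
-/
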