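import Pool.Agent.Hhelper96.UB.E2Final
import Pool.Agent.Hhelper96.PEPS.SitePeps

/-!
Reduction of the local approximation problem to the approximation of the energy.
-/

set_option autoImplicit false
set_option linter.unusedSectionVars false

open scoped BigOperators Topology ComplexOrder
open Matrix Filter

namespace Pool.Agent.Hhelper96.PEPS

section assembly

variable {d : ℕ}

/-- the interaction on the larger window -/
noncomputable def liftW {F R W : Finset (ℤ × ℤ)} (hFW : F ⊆ W) (hRW : R ⊆ W)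
    (h : Matrix (F → Fin d) (F → Fin d) ℂ) (k : Matrix (R → Fin d) (R → Fin d) ℂ) :
    Matrix (W → Fin d) (W → Fin d) ℂ :=
  opAt (fun p : F => (⟨p.1, hFW p.2⟩ : W)) h + opAt (fun p : R => (⟨p.1, hRW p.2⟩ : W)) k

theorem liftW_isHermitian {F R W : Finset (ℤ × ℤ)} (hFW : F ⊆ W) (hRW : R ⊆ W)
    {h : Matrix (F → Fin d) (F → Fin d) ℂ} {k : Matrix (R → Fin d) (R → Fin d) ℂ}
    (hh : h.IsHermitian) (hk : k.IsHermitian) : (liftW hFW hRW h k).IsHermitian := by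
  unfold liftW
  apply Matrix.IsHermitian.add
  · unfold Matrix.IsHermitian
    rw [← opAt_conjTranspose, hh.eq]
  · unfold Matrix.IsHermitian
    rw [← opAt_conjTranspose, hk.eq]

theorem hamiltonian_liftW {N : ℕ} [NeZero N] {F R W : Finset (ℤ × ℤ)} (hFW : F ⊆ W) (hRW : R ⊆ W)
    (hinj : ∀ v : Site N, Function.Injective (fun p : W => place N v p))
    (h : Matrix (F → Fin d) (F → Fin d) ℂ) (k : Matrix (R → Fin d) (R → Fin d) ℂ) :
    hamiltonian N W (liftW hFW hRW h k) = hamiltonian N F h + hamiltonian N R k := by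
  unfold liftW
  rw [hamiltonian_add, hamiltonian_lift hFW hinj, hamiltonian_lift hRW hinj]

theorem secOrdW_of {F R W : Finset (ℤ × ℤ)} (hFW : F ⊆ W) (hRW : R ⊆ W) {r : ℕ}
    (a b : ℤ) (hW : ∀ p ∈ W, a ≤ p.1 ∧ p.1 < a + r ∧ b ≤ p.2 ∧ p.2 < b + r)
    (h : Matrix (F → Fin d) (F → Fin d) ℂ) (k V : Matrix (R → Fin d) (R → Fin d) ℂ)
    (ψ : ∀ n : ℕ, (Site (n + 1) → Fin d) → ℂ)
    (hψ : ∀ᶠ n in atTop, ψ n ≠ 0 ∧ ∀ w, reduced (n + 1) W w (ψ n) = reduced (n + 1) W 0 (ψ n))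
    (hsec : SecOrd F R h k V ψ) : SecOrdW W R (liftW hFW hRW h k) V ψ := by
  obtain ⟨C, hC, s₀, hs₀, hs⟩ := hsec
  refine ⟨C, hC, s₀, hs₀, fun s h0 h1 => ?_⟩
  filter_upwards [hs s h0 h1, hψ, eventually_ge_atTop r] with n h2 h3 h4 χ
  have hinj : ∀ v : Site (n + 1), Function.Injective (fun p : W => place (n + 1) v p) :=
    fun v => place_injective (by omega : r ≤ n + 1) W a b hW v
  have h5 := h2 χ
  rw [← hamiltonian_liftW hFW hRW hinj] at h5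
  have h6 : ex (hamiltonian (n + 1) W (liftW hFW hRW h k)) (ψ n) / sqn (ψ n) =
      ((n + 1 : ℕ) : ℝ) ^ 2 * enf (liftW hFW hRW h k) (reduced (n + 1) W 0 (ψ n)) := by
    rw [ex_hamiltonian _ h3.1, Finset.sum_congr rfl (fun v _ => by rw [h3.2 v]), Finset.sum_const,
      Finset.card_univ, Fintype.card_prod, ZMod.card, nsmul_eq_mul]
    have := sqn_pos h3.1
    field_simp
    push_cast
    ring
  rw [h6] at h5
  refine le_trans (le_of_eq ?_) h5
  ring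

/-- approximation of the energy on one torus by any PEPS gives local approximation on all large tori
by one translation invariant PEPS tensor -/
theorem local_of_site {zr on : Fin d} (hzo : zr ≠ on) {W R : Finset (ℤ × ℤ)} {r : ℕ} (hr : 1 ≤ r)
    (a b : ℤ) (hW : ∀ p ∈ W, a ≤ p.1 ∧ p.1 < a + r ∧ b ≤ p.2 ∧ p.2 < b + r)
    (hR : ∀ p ∈ R, a ≤ p.1 ∧ p.1 < a + r ∧ b ≤ p.2 ∧ p.2 < b + r)
    (g : Matrix (W → Fin d) (W → Fin d) ℂ)
    (ψ : ∀ n : ℕ, (Site (n + 1) → Fin d) → ℂ)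
    (hψ : ∀ᶠ n in atTop, ψ n ≠ 0 ∧ (∀ w, reduced (n + 1) W w (ψ n) = reduced (n + 1) W 0 (ψ n)) ∧
      (∀ w, reduced (n + 1) R w (ψ n) = reduced (n + 1) R 0 (ψ n)))
    (hsec : ∀ x i j, SecOrdW W R g (dirM x i j) ψ) :
    ∃ B : ℝ, 0 < B ∧ ∀ ε : ℝ, 0 < ε → ε ≤ 1 → ∀ (N D₀ : ℕ) [NeZero N], B / ε ^ 2 ≤ N →
      ∀ T : Site N → Fin d → Fin D₀ → Fin D₀ → Fin D₀ → Fin D₀ → ℂ, sitePepsVec N T ≠ 0 →
      (∀ χ : (Site N → Fin d) → ℂ, χ ≠ 0 →
        ex (hamiltonian N W g) (sitePepsVec N T) / sqn (sitePepsVec N T) ≤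
          ex (hamiltonian N W g) χ / sqn χ + ε ^ 2 / B * (N : ℝ) ^ 2) →
      ∃ D : ℕ, D ≤ 32 * N ^ 2 * D₀ ^ 6 ∧ ∃ A : Fin d → Fin D → Fin D → Fin D → Fin D → ℂ,
        (∀ᶠ n in atTop, pepsVec (n + 1) A ≠ 0) ∧
        ∀ᶠ n in atTop, ∀ v : Site (n + 1),
          traceNorm (reduced (n + 1) R v (ψ n) - reduced (n + 1) R v (pepsVec (n + 1) A)) ≤ ε := by
  obtain ⟨B, hB, hmain⟩ := e2m_main hzo hr a b hW hR g ψ hψ hsec
  obtain ⟨B', hB'⟩ : ∃ B' : ℝ, B' = 2 * B ^ 2 + r + 1 := ⟨_, rfl⟩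
  have hB'0 : 0 < B' := by rw [hB']; positivity
  refine ⟨B', hB'0, ?_⟩
  intro ε hε hε1 N D₀ _ hN T hT hmin
  have hNpos : (0 : ℝ) < N := by exact_mod_cast NeZero.pos N
  have hε2 : ε ^ 2 ≤ 1 := by nlinarith
  have hN' : B' ≤ N * ε ^ 2 := by
    rwa [div_le_iff₀ (by positivity)] at hN
  have hNB : B' ≤ N := by nlinarith
  have hrN : r ≤ N := by
    have : (r : ℝ) ≤ N := by
      have : (r : ℝ) ≤ B' := by rw [hB']; nlinarith [sq_nonneg B]
      linarith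
    exact_mod_cast this
  have hD₀ : 1 ≤ D₀ := by
    rcases Nat.eq_zero_or_pos D₀ with h0 | h0
    · exfalso
      apply hT
      subst h0
      funext s
      unfold sitePepsVec
      have : IsEmpty (Site N → Fin 0) := ⟨fun f => (f 0).elim0⟩
      simp
    · exact h0
  have hW' : netT (fun v s (l dwn y : Fin D₀ × Fin D₀) => T v s l.1 y.1 dwn.2 y.2) =
      sitePepsVec N T := netT_site N T
  obtain ⟨D, hD, A, hA1, hA2⟩ := hmain N hrN (ε ^ 2 / B') (by positivity) (Fin D₀ × Fin D₀)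
    (fun v s (l dwn y : Fin D₀ × Fin D₀) => T v s l.1 y.1 dwn.2 y.2) (by rw [hW']; exact hT)
    (by rw [hW']; exact hmin)
  refine ⟨D, ?_, A, hA1, ?_⟩
  · rw [hD]
    simp only [Fintype.card_prod, Fintype.card_fin]
    have hN1 : 1 ≤ N := NeZero.one_le
    have e1 : N + 3 ≤ 4 * N := by omega
    have e2 : (D₀ * D₀) ^ 3 + 1 ≤ 2 * D₀ ^ 6 := by
      have : 1 ≤ D₀ ^ 6 := Nat.one_le_pow _ _ hD₀
      have e3 : (D₀ * D₀) ^ 3 = D₀ ^ 6 := by ring
      omega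
    calc (N + 3) * ((N + 3) * ((D₀ * D₀) ^ 3 + 1)) ≤ (4 * N) * ((4 * N) * (2 * D₀ ^ 6)) :=
          Nat.mul_le_mul e1 (Nat.mul_le_mul e1 e2)
      _ = 32 * N ^ 2 * D₀ ^ 6 := by ring
  · filter_upwards [hA2] with n hn v
    refine (hn v).trans ?_
    have h1 : ε ^ 2 / B' + 1 / N ≤ (ε ^ 2 * 2) / B' := by
      have : 1 / (N : ℝ) ≤ ε ^ 2 / B' := by
        rw [div_le_div_iff₀ hNpos hB'0]
        linarith
      have e : (ε ^ 2 * 2) / B' = ε ^ 2 / B' + ε ^ 2 / B' := by ring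
      rw [e]
      linarith
    have h2 : B ^ 2 * (ε ^ 2 / B' + 1 / N) ≤ ε ^ 2 := by
      calc B ^ 2 * (ε ^ 2 / B' + 1 / N) ≤ B ^ 2 * ((ε ^ 2 * 2) / B') :=
            mul_le_mul_of_nonneg_left h1 (by positivity)
        _ = (2 * B ^ 2) * ε ^ 2 / B' := by ring
        _ ≤ ε ^ 2 := by
          rw [div_le_iff₀ hB'0]
          have : (2 * B ^ 2) ≤ B' := by
            rw [hB']
            have : (0 : ℝ) ≤ r := Nat.cast_nonneg r
            linarith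
          nlinarith [sq_nonneg ε]
    calc B * √(ε ^ 2 / B' + 1 / N) = √(B ^ 2 * (ε ^ 2 / B' + 1 / N)) := by
          rw [Real.sqrt_mul (by positivity), Real.sqrt_sq hB]
      _ ≤ √(ε ^ 2) := Real.sqrt_le_sqrt h2
      _ = ε := Real.sqrt_sq hε.le

end assembly

end Pool.Agent.Hhelper96.PEPS
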