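import Pool.Agent.Hhelper96.PEPS.Energy
import Pool.Agent.Hhelper96.PEPS.TraceNorm

/-!
The partial trace does not increase the trace norm.
-/

set_option autoImplicit false
set_option linter.unusedSectionVars false

open scoped BigOperators ComplexOrder
open Matrix

namespace Pool.Agent.Hhelper96.PEPS

section ptn

variable {S T : Type} [Fintype S] [DecidableEq S] [Fintype T] [DecidableEq T] {d : ℕ}

open Classical in
/-- the partial trace is dual to the embedding of operators -/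
theorem trace_ptrace_mul (κ : T → S) (p : Matrix (T → Fin d) (T → Fin d) ℂ)
    (X : Matrix (S → Fin d) (S → Fin d) ℂ) : (ptrace κ X * p).trace = (X * opAt κ p).trace := by
  have h1 : (ptrace κ X * p).trace = ∑ s : S → Fin d, ∑ s' : S → Fin d,
      if (∀ u, (∀ t, κ t ≠ u) → s u = s' u) then X s s' * p (s' ∘ κ) (s ∘ κ) else 0 := by
    unfold Matrix.trace
    simp only [Matrix.diag_apply, Matrix.mul_apply]
    unfold ptrace
    simp_rw [Finset.sum_mul]
    have e1 : ∀ a : T → Fin d, (∑ b : T → Fin d, ∑ s : S → Fin d, ∑ s' : S → Fin d,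
        (if s ∘ κ = a ∧ s' ∘ κ = b ∧ ∀ u, (∀ t, κ t ≠ u) → s u = s' u then X s s'
          else 0) * p b a) = ∑ s : S → Fin d, ∑ s' : S → Fin d,
        if s ∘ κ = a ∧ ∀ u, (∀ t, κ t ≠ u) → s u = s' u then
          X s s' * p (s' ∘ κ) (s ∘ κ) else 0 := by
      intro a
      rw [Finset.sum_comm]
      refine Finset.sum_congr rfl (fun s _ => ?_)
      rw [Finset.sum_comm]
      refine Finset.sum_congr rfl (fun s' _ => ?_)
      rw [Finset.sum_eq_single (s' ∘ κ)]
      · by_cases h : s ∘ κ = a ∧ ∀ u, (∀ t, κ t ≠ u) → s u = s' u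
        · rw [if_pos h, if_pos ⟨h.1, rfl, h.2⟩, h.1]
        · rw [if_neg h, if_neg (fun h' => h ⟨h'.1, h'.2.2⟩), zero_mul]
      · intro b _ hb
        rw [if_neg (fun h' => hb h'.2.1.symm), zero_mul]
      · intro h; exact absurd (Finset.mem_univ _) h
    simp_rw [e1]
    rw [Finset.sum_comm]
    refine Finset.sum_congr rfl (fun s _ => ?_)
    rw [Finset.sum_comm]
    refine Finset.sum_congr rfl (fun s' _ => ?_)
    rw [Finset.sum_eq_single (s ∘ κ)]
    · by_cases h : ∀ u, (∀ t, κ t ≠ u) → s u = s' u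
      · rw [if_pos h, if_pos ⟨rfl, h⟩]
      · rw [if_neg h, if_neg (fun h' => h h'.2)]
    · intro b _ hb
      rw [if_neg (fun h' => hb h'.1.symm)]
    · intro h; exact absurd (Finset.mem_univ _) h
  rw [h1]
  unfold Matrix.trace
  simp only [Matrix.diag_apply, Matrix.mul_apply]
  refine Finset.sum_congr rfl (fun s _ => Finset.sum_congr rfl (fun s' _ => ?_))
  have h2 : (∀ u, (∀ t, κ t ≠ u) → s u = s' u) ↔ (∀ u, (∀ t, κ t ≠ u) → s' u = s u) := by
    constructor <;> intro h u hu <;> exact (h u hu).symm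
  by_cases h : ∀ u, (∀ t, κ t ≠ u) → s u = s' u
  · have e : opAt κ p s' s = p (s' ∘ κ) (s ∘ κ) := by
      unfold opAt
      rw [if_pos (h2.1 h)]
    rw [if_pos h, e]
  · have e : opAt κ p s' s = 0 := by
      unfold opAt
      rw [if_neg (fun h' => h (h2.2 h'))]
    rw [if_neg h, e, mul_zero]

theorem IsContr.opAt {κ : T → S} (hκ : Function.Injective κ)
    {W : Matrix (T → Fin d) (T → Fin d) ℂ} (hW : IsContr W) : IsContr (opAt κ W) := by
  unfold IsContr at hW ⊢
  obtain ⟨B, hB⟩ : ∃ B : Matrix (T → Fin d) (T → Fin d) ℂ, 1 - Wᴴ * W = Bᴴ * B := by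
    open scoped MatrixOrder in
    obtain ⟨B, hB⟩ := CStarAlgebra.nonneg_iff_eq_star_mul_self.mp hW.nonneg
    exact ⟨B, hB⟩
  have h1 : (1 : Matrix (S → Fin d) (S → Fin d) ℂ) -
      (PEPS.opAt κ W)ᴴ * PEPS.opAt κ W = (PEPS.opAt κ B)ᴴ * PEPS.opAt κ B := by
    rw [← opAt_conjTranspose, ← opAt_conjTranspose, ← opAt_mul hκ, ← opAt_mul hκ, ← hB,
      ← opAt_one hκ, sub_eq_add_neg, sub_eq_add_neg, opAt_add]
    congr 1
    have h2 := opAt_smul κ (-1 : ℂ) (Wᴴ * W)
    rw [neg_one_smul, neg_one_smul] at h2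
    exact h2.symm
  rw [h1]
  exact Matrix.posSemidef_conjTranspose_mul_self _

theorem traceNorm_ptrace_le (ι : T → S) (hι : Function.Injective ι)
    (X : Matrix (S → Fin d) (S → Fin d) ℂ) : traceNorm (ptrace ι X) ≤ traceNorm X := by
  obtain ⟨W, hW, h⟩ := exists_contr_trace_eq (ptrace ι X)
  have h1 : traceNorm (ptrace ι X) = ‖(Wᴴ * ptrace ι X).trace‖ := by
    rw [h, Complex.norm_real, Real.norm_of_nonneg (traceNorm_nonneg _)]
  rw [h1, Matrix.trace_mul_comm, trace_ptrace_mul, opAt_conjTranspose, Matrix.trace_mul_comm]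
  exact norm_trace_le_traceNorm X (hW.opAt hι)

end ptn

end Pool.Agent.Hhelper96.PEPS
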