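import Pool.Agent.Hhelper96.UB.ClusterNet
import Pool.Agent.Hhelper96.UB.EngineStmt3

/-!
The lattice part of the block engine.

The torus of side `N` is a multiple of `S = 2 (m + 1) r`.  The level of a coordinate is its distance to
the multiples of `S`, divided by `r`.  Every layer of the block product is the exponential of a sum of
operators in disjoint windows of side `S` with the offset `0` or `- S / 2` in each direction.
-/

set_option autoImplicit false
set_option linter.unusedSectionVars false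

open scoped BigOperators
open Matrix

namespace Pool.Agent.Hhelper96.PEPS

namespace BlockNet

variable {N S r m d : ℕ} [NeZero N] [NeZero S]

/-- signed distance to the multiples of `S` -/
def dst (hSN : S ∣ N) (x : ZMod N) : ℤ := (ZMod.castHom hSN (ZMod S) x).valMinAbs

/-- level of a coordinate -/
def lev (hSN : S ∣ N) (r : ℕ) (x : ZMod N) : ℕ := (dst hSN x).natAbs / r

theorem dst_cast (hSN : S ∣ N) (x : ZMod N) :
    ((dst hSN x : ℤ) : ZMod S) = ZMod.castHom hSN (ZMod S) x := ZMod.coe_valMinAbs _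

/-- the distance is Lipschitz -/
theorem dst_add (hSN : S ∣ N) (x : ZMod N) (k : ℤ) :
    (dst hSN (x + (k : ZMod N))).natAbs ≤ (dst hSN x).natAbs + k.natAbs := by
  have h1 : ((dst hSN (x + (k : ZMod N)) : ℤ) : ZMod S) = ((dst hSN x + k : ℤ) : ZMod S) := by
    rw [dst_cast, map_add, map_intCast, Int.cast_add, dst_cast]
  have h2 := ZMod.natAbs_min_of_le_div_two S (dst hSN (x + (k : ZMod N))) (dst hSN x + k) h1
    (ZMod.natAbs_valMinAbs_le _)
  exact h2.trans (Int.natAbs_add_le _ _)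

/-- levels of near coordinates -/
theorem lev_add (hr : 1 ≤ r) (hSN : S ∣ N) (x : ZMod N) {k : ℤ} (hk : k.natAbs < r) :
    lev hSN r (x + (k : ZMod N)) ≤ lev hSN r x + 1 := by
  unfold lev
  have h1 := dst_add hSN x k
  have h2 : (dst hSN (x + (k : ZMod N))).natAbs ≤ (dst hSN x).natAbs + r := by omega
  refine (Nat.div_le_div_right h2).trans ?_
  rw [Nat.add_div_right _ (by omega)]

/-- offset of the windows -/
def off (m r : ℕ) (k : Fin 3) : ℤ := if k = 2 then -((m + 1 : ℤ) * r) else 0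

/-- position of a coordinate in its window -/
theorem exists_pos (hr : 1 ≤ r) (hS : S = 2 * (m + 1) * r) (hSN : S ∣ N) (k : Fin 3) (x : ZMod N)
    (hx : cutSet m k (lev hSN r x)) :
    ∃ π : ℤ, 0 ≤ π ∧ π + r ≤ S ∧
      ZMod.castHom hSN (ZMod S) (x - (π : ZMod N)) = ((off m r k : ℤ) : ZMod S) := by
  obtain ⟨μ, hμ⟩ : ∃ μ, μ = dst hSN x := ⟨_, rfl⟩
  have hc : ((μ : ℤ) : ZMod S) = ZMod.castHom hSN (ZMod S) x := by rw [hμ]; exact dst_cast hSN x
  have hI : μ * 2 ∈ Set.Ioc (-(S : ℤ)) S := by rw [hμ]; exact ZMod.valMinAbs_mem_Ioc _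
  obtain ⟨hI1, hI2⟩ := hI
  have hS' : (S : ℤ) = 2 * ((m + 1 : ℤ) * r) := by rw [hS]; push_cast; ring
  have hr' : (1 : ℤ) ≤ r := by exact_mod_cast hr
  have hm0 : (0 : ℤ) ≤ m := Int.natCast_nonneg m
  have hmr : (0 : ℤ) ≤ (m : ℤ) * r := mul_nonneg hm0 (by omega)
  have hexp : (m + 1 : ℤ) * r = (m : ℤ) * r + r := by ring
  obtain ⟨P, hP⟩ : ∃ P : ℤ, P = (m : ℤ) * r := ⟨_, rfl⟩
  rw [hexp, ← hP] at hS'
  have hlev : lev hSN r x = μ.natAbs / r := by rw [hμ]; rfl
  have hS0 : ((S : ℤ) : ZMod S) = 0 := by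
    rw [Int.cast_natCast]
    exact ZMod.natCast_self S
  by_cases hk : k = 2
  · subst hk
    have hx2 : lev hSN r x < m := by
      unfold cutSet at hx
      simpa using hx
    rw [hlev, Nat.div_lt_iff_lt_mul (by omega)] at hx2
    have hx3 : (μ.natAbs : ℤ) < P := by rw [hP]; exact_mod_cast hx2
    refine ⟨μ + (P + r), by omega, by omega, ?_⟩
    have e1 : off m r 2 = -(P + r) := by
      unfold off
      rw [if_pos rfl, hexp, hP]
    rw [map_sub, map_intCast, ← hc, e1]
    push_cast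
    ring
  · have hx2 : 0 < lev hSN r x := by
      unfold cutSet at hx
      by_cases h0 : k = 0
      · rw [if_pos h0] at hx
        exact hx
      · have key : ∀ k : Fin 3, k ≠ 2 → k ≠ 0 → k = 1 := by decide
        have h1 : k = 1 := key k hk h0
        rw [if_neg h0, if_pos h1] at hx
        exact hx.1
    rw [hlev] at hx2
    have hx3 : r ≤ μ.natAbs := by
      by_contra hcon
      rw [Nat.div_eq_of_lt (not_le.1 hcon)] at hx2
      exact lt_irrefl _ hx2
    have e1 : off m r k = 0 := by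
      unfold off
      rw [if_neg hk]
    rw [hP] at hS'
    rcases le_or_gt 0 μ with h | h
    · refine ⟨μ, h, by omega, ?_⟩
      rw [map_sub, map_intCast, ← hc, e1]
      push_cast
      ring
    · refine ⟨S + μ, by omega, by omega, ?_⟩
      rw [map_sub, map_intCast, ← hc, e1, Int.cast_add, hS0]
      push_cast
      ring

/-- the terms of a layer are supported in windows -/
theorem term_window (hr : 1 ≤ r) (hS : S = 2 * (m + 1) * r) (hSN : S ∣ N) (R : Finset (ℤ × ℤ))
    (a b : ℤ) (hR : ∀ p ∈ R, a ≤ p.1 ∧ p.1 < a + r ∧ b ≤ p.2 ∧ p.2 < b + r)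
    (K : Matrix (R → Fin d) (R → Fin d) ℂ) (k : Fin 3 × Fin 3) (v : Site N)
    (h1 : cutSet m k.1 (lev hSN r (v.1 + (a : ZMod N))))
    (h2 : cutSet m k.2 (lev hSN r (v.2 + (b : ZMod N)))) :
    ∃ u : Site N, colr hSN u = 0 ∧ ∃ p, localTerm N R K v =
      opAt (win N S (u + (((off m r k.1 : ℤ) : ZMod N), ((off m r k.2 : ℤ) : ZMod N)))) p := by
  have hSN' : S ≤ N := Nat.le_of_dvd (NeZero.pos N) hSN
  obtain ⟨x, hx0, hx1, hx2⟩ := exists_pos hr hS hSN k.1 _ h1
  obtain ⟨y, hy0, hy1, hy2⟩ := exists_pos hr hS hSN k.2 _ h2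
  obtain ⟨t, ht⟩ : ∃ t : Site N, t = (((off m r k.1 : ℤ) : ZMod N), ((off m r k.2 : ℤ) : ZMod N)) :=
    ⟨_, rfl⟩
  obtain ⟨B, hB⟩ : ∃ B : Site N, B = (v.1 + (a : ZMod N) - (x : ZMod N),
    v.2 + (b : ZMod N) - (y : ZMod N)) := ⟨_, rfl⟩
  rw [← ht]
  refine ⟨B - t, ?_, ?_⟩
  · rw [colr_sub, sub_eq_zero, hB, ht]
    unfold colr
    refine Prod.ext ?_ ?_
    · show ZMod.castHom hSN (ZMod S) (v.1 + (a : ZMod N) - (x : ZMod N)) =
        ZMod.castHom hSN (ZMod S) ((off m r k.1 : ℤ) : ZMod N)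
      rw [hx2, map_intCast]
    · show ZMod.castHom hSN (ZMod S) (v.2 + (b : ZMod N) - (y : ZMod N)) =
        ZMod.castHom hSN (ZMod S) ((off m r k.2 : ℤ) : ZMod N)
      rw [hy2, map_intCast]
  · rw [sub_add_cancel]
    obtain ⟨emb, hemb⟩ : ∃ emb : R → Fin S × Fin S, ∀ f : R,
        ((emb f).1 : ℕ) = (x + f.1.1 - a).toNat ∧ ((emb f).2 : ℕ) = (y + f.1.2 - b).toNat := by
      refine ⟨fun f => (⟨(x + f.1.1 - a).toNat, ?_⟩, ⟨(y + f.1.2 - b).toNat, ?_⟩), fun f => ⟨rfl, rfl⟩⟩
      · have := hR f.1 f.2; omega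
      · have := hR f.1 f.2; omega
    have hwin : (fun f : R => win N S B (emb f)) = fun f : R => place N v f := by
      funext f
      have g1 := hR f.1 f.2
      have g2 := hemb f
      have e1 := toNat_cast N (x + f.1.1) a (by omega)
      have e2 := toNat_cast N (y + f.1.2) b (by omega)
      unfold win place
      rw [hB]
      ext
      · simp only
        rw [g2.1, e1]
        push_cast
        ring
      · simp only
        rw [g2.2, e2]
        push_cast
        ring
    refine ⟨opAt emb K, ?_⟩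
    rw [opAt_opAt (win_injective hSN' _), hwin, localTerm_eq_opAt]

open Classical in
/-- a layer is a window operator -/
theorem layer_winOp (hr : 1 ≤ r) (hS : S = 2 * (m + 1) * r) (hSN : S ∣ N) (R : Finset (ℤ × ℤ))
    (a b : ℤ) (hR : ∀ p ∈ R, a ≤ p.1 ∧ p.1 < a + r ∧ b ≤ p.2 ∧ p.2 < b + r)
    (K : Matrix (R → Fin d) (R → Fin d) ℂ) (t : ℝ) (k : Fin 3 × Fin 3) :
    WinOp S (blockLayer (fun v : Site N => localTerm N R K v)
      (fun v => lev hSN r (v.1 + (a : ZMod N))) (fun v => lev hSN r (v.2 + (b : ZMod N))) m t k) := by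
  obtain ⟨F, hF⟩ : ∃ F : Finset (Site N), F = Finset.univ.filter (fun v : Site N =>
      cutSet m k.1 (lev hSN r (v.1 + (a : ZMod N))) ∧ cutSet m k.2 (lev hSN r (v.2 + (b : ZMod N)))) :=
    ⟨_, rfl⟩
  obtain ⟨o, ho⟩ : ∃ o : Site N, o = (((off m r k.1 : ℤ) : ZMod N), ((off m r k.2 : ℤ) : ZMod N)) :=
    ⟨_, rfl⟩
  have hw : ∀ v : Site N, ∃ u : Site N, v ∈ F → (colr hSN u = 0 ∧ ∃ p, localTerm N R K v =
      opAt (win N S (u + o)) p) := by
    intro v
    by_cases hv : v ∈ F
    · have hv' := hv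
      rw [hF, Finset.mem_filter] at hv'
      obtain ⟨u, hu1, hu2⟩ := term_window hr hS hSN R a b hR K k v hv'.2.1 hv'.2.2
      exact ⟨u, fun _ => ⟨hu1, by rw [ho]; exact hu2⟩⟩
    · exact ⟨0, fun h => absurd h hv⟩
  choose U hU using hw
  have hP : ∀ u : Site N, ∃ p, ∑ v ∈ F.filter (fun v => U v = u), localTerm N R K v =
      opAt (win N S (u + o)) p := by
    intro u
    apply sum_opAt_ex
    intro v hv
    obtain ⟨hv1, hv2⟩ := Finset.mem_filter.1 hv
    obtain ⟨-, p, hp⟩ := hU v hv1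
    exact ⟨p, by rw [← hv2]; exact hp⟩
  choose P hP using hP
  have hsum : ∑ v ∈ F, localTerm N R K v =
      ∑ u ∈ Finset.univ.filter (fun u : Site N => colr hSN u = 0), opAt (win N S (u + o)) (P u) := by
    rw [← Finset.sum_fiberwise_of_maps_to (s := F)
      (t := Finset.univ.filter (fun u : Site N => colr hSN u = 0)) (g := U)
      (fun v hv => Finset.mem_filter.2 ⟨Finset.mem_univ _, (hU v hv).1⟩)]
    exact Finset.sum_congr rfl fun u _ => hP u
  have e : blockLayer (fun v : Site N => localTerm N R K v)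
      (fun v => lev hSN r (v.1 + (a : ZMod N))) (fun v => lev hSN r (v.2 + (b : ZMod N))) m t k =
      NormedSpace.exp (((-(cutSgn k.1 * cutSgn k.2 * t) : ℝ) : ℂ) • ∑ v ∈ F, localTerm N R K v) := by
    unfold blockLayer
    rw [hF, real_smul_matrix]
  rw [e, hsum]
  have h1 := winOp_blocks hSN o P 0 ((-(cutSgn k.1 * cutSgn k.2 * t) : ℝ) : ℂ)
  convert h1

/-- a layer is Hermitian -/
theorem layer_herm {n I : Type} [Fintype n] [DecidableEq n] [Fintype I]
    {h : I → Matrix n n ℂ} (hh : ∀ i, (h i)ᴴ = h i) (l₁ l₂ : I → ℕ) (m : ℕ) (t : ℝ) (k : Fin 3 × Fin 3) :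
    (blockLayer h l₁ l₂ m t k)ᴴ = blockLayer h l₁ l₂ m t k := by
  unfold blockLayer
  rw [← Matrix.exp_conjTranspose, real_smul_matrix, Matrix.conjTranspose_smul, Matrix.conjTranspose_sum]
  congr 1
  congr 1
  · simp
  · exact Finset.sum_congr rfl fun i _ => hh i

end BlockNet

open BlockNet in
open Classical in
/-- **the lattice part of the block engine** -/
theorem sandNet_of_block {d : ℕ} (r : ℕ) (hr : 1 ≤ r) (hd : 1 ≤ d) (hE : BlockStmt (r ^ 4)) :
    SandNet d r 18 2 := by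
  obtain ⟨t₀, C, ht₀, hC, hE⟩ := hE
  refine ⟨t₀, C, ht₀, hC, ?_⟩
  intro N S m _ _ hS hSN R a b hR K hK hK1
  have hrS : r ≤ S := by
    rw [hS]
    exact Nat.le_mul_of_pos_left r (by omega)
  have hrN : r ≤ N := hrS.trans (Nat.le_of_dvd (NeZero.pos N) hSN)
  have hRcard : R.card ≤ r ^ 2 := by
    have hsub : R ⊆ (Finset.Ico a (a + r)) ×ˢ (Finset.Ico b (b + r)) := by
      intro p hp
      have := hR p hp
      simp only [Finset.mem_product, Finset.mem_Ico]
      omega
    have := Finset.card_le_card hsub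
    simp only [Finset.card_product, Int.card_Ico, add_sub_cancel_left, Int.toNat_natCast] at this
    calc R.card ≤ r * r := this
      _ = r ^ 2 := by ring
  have hinj : ∀ v : Site N, Function.Injective (fun p : R => place N v p) :=
    fun v => place_injective hrN R a b hR v
  obtain ⟨h, hh⟩ : ∃ h : Site N → Matrix (Site N → Fin d) (Site N → Fin d) ℂ,
      h = fun v => localTerm N R K v := ⟨_, rfl⟩
  obtain ⟨l₁, hl₁⟩ : ∃ l₁ : Site N → ℕ, l₁ = fun v => lev hSN r (v.1 + (a : ZMod N)) := ⟨_, rfl⟩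
  obtain ⟨l₂, hl₂⟩ : ∃ l₂ : Site N → ℕ, l₂ = fun v => lev hSN r (v.2 + (b : ZMod N)) := ⟨_, rfl⟩
  have hherm : ∀ v, (h v)ᴴ = h v := fun v => by
    rw [hh]
    exact localTerm_isHermitian hK v
  have main := @hE (Site N → Fin d) (Site N) _ _ ⟨fun _ => ⟨0, hd⟩⟩ _ _ m h l₁ l₂
    (fun v => nb N R R v) (fun v => hherm v)
    (fun v φ => by
      rw [hh]
      exact sqn_localTerm_le R K hK1 v (hinj v) φ)
    (fun v => (card_nb_le R R v).trans (by
      calc R.card * R.card ≤ r ^ 2 * r ^ 2 := Nat.mul_le_mul hRcard hRcard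
        _ = r ^ 4 := by ring))
    (by
      intro v v' hv'
      have : localTerm N R K v * localTerm N R K v' = localTerm N R K v' * localTerm N R K v := by
        rw [localTerm_eq_opAt, localTerm_eq_opAt]
        apply opAt_comm_of_disjoint (hinj v) (hinj v')
        intro f f' heq
        apply hv'
        simp only [nb, Finset.mem_filter, Finset.mem_univ, true_and]
        exact ⟨f', f'.2, f, f.2, heq.symm⟩
      rw [hh]
      exact this)
    (by
      intro v w hw
      simp only [nb, Finset.mem_filter, Finset.mem_univ, true_and] at hw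
      obtain ⟨p, hp, q, hq, hpq⟩ := hw
      have hp' := hR p hp
      have hq' := hR q hq
      have g1 : w.1 + (p.1 : ZMod N) = v.1 + (q.1 : ZMod N) := congrArg Prod.fst hpq
      have g2 : w.2 + (p.2 : ZMod N) = v.2 + (q.2 : ZMod N) := congrArg Prod.snd hpq
      have e1 : w.1 + (a : ZMod N) = v.1 + (a : ZMod N) + ((q.1 - p.1 : ℤ) : ZMod N) := by
        have : w.1 = v.1 + (q.1 : ZMod N) - (p.1 : ZMod N) := by rw [← g1]; ring
        rw [this]
        push_cast
        ring
      have e2 : w.2 + (b : ZMod N) = v.2 + (b : ZMod N) + ((q.2 - p.2 : ℤ) : ZMod N) := by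
        have : w.2 = v.2 + (q.2 : ZMod N) - (p.2 : ZMod N) := by rw [← g2]; ring
        rw [this]
        push_cast
        ring
      rw [hl₁, hl₂]
      show lev hSN r (w.1 + (a : ZMod N)) ≤ lev hSN r (v.1 + (a : ZMod N)) + 1 ∧
        lev hSN r (w.2 + (b : ZMod N)) ≤ lev hSN r (v.2 + (b : ZMod N)) + 1
      rw [e1, e2]
      exact ⟨lev_add hr hSN _ (by omega), lev_add hr hSN _ (by omega)⟩)
    t₀ ht₀ le_rfl
  refine ⟨blockProd h l₁ l₂ m (t₀ / 2), ?_, ?_⟩
  · intro φ
    have h1 := main φ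
    have hcard : (Fintype.card (Site N) : ℝ) = (N : ℝ) ^ 2 := by
      rw [Fintype.card_prod, ZMod.card]
      push_cast
      ring
    have hham : ∑ i, h i = hamiltonian N R K := by
      rw [hh]
      rfl
    rw [hcard, hham] at h1
    exact h1
  · intro q x
    obtain ⟨l, hl⟩ : ∃ l : List (Matrix (Site N → Fin d) (Site N → Fin d) ℂ),
        l = [((0 : Fin 3), (0 : Fin 3)), (0, 1), (0, 2), (1, 0), (1, 1), (1, 2), (2, 0), (2, 1),
          (2, 2)].map (blockLayer h l₁ l₂ m (t₀ / 2)) := ⟨_, rfl⟩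
    have hprod : blockProd h l₁ l₂ m (t₀ / 2) = l.prod := by rw [hl]; rfl
    have hlen : l.length = 9 := by
      rw [hl, List.length_map]
      rfl
    have hmem : ∀ O ∈ l, ∃ k, O = blockLayer h l₁ l₂ m (t₀ / 2) k := by
      intro O hO
      rw [hl] at hO
      obtain ⟨k, _, rfl⟩ := List.mem_map.1 hO
      exact ⟨k, rfl⟩
    have hop : ∀ O ∈ l, WinOp S O := by
      intro O hO
      obtain ⟨k, rfl⟩ := hmem O hO
      rw [hh, hl₁, hl₂]
      exact layer_winOp hr hS hSN R a b hR K _ k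
    have hher : ∀ O ∈ l, Oᴴ = O := by
      intro O hO
      obtain ⟨k, rfl⟩ := hmem O hO
      exact layer_herm hherm l₁ l₂ m _ k
    rw [hprod, prod_word l q hher]
    have e6 : 18 * q = ((List.replicate q (l ++ l.reverse)).flatten).length := by
      rw [length_word l q, hlen]
    rw [e6]
    apply winNet_word
    intro O hO
    rw [List.mem_flatten] at hO
    obtain ⟨l', hl', hO⟩ := hO
    rw [List.eq_of_mem_replicate hl', List.mem_append, List.mem_reverse, or_self] at hO
    exact hop O hO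

end Pool.Agent.Hhelper96.PEPS
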