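import Pool.Agent.Hhelper96.UB.SuperAvg

/-!
A block made of `M × M` cells, each carrying its own label network: the block carries a label
network with the same labels, its state is the product of the states of the cells, and the
corresponding translation invariant PEPS has marginals close to the average of the marginals of the
cells.
-/

set_option autoImplicit false
set_option linter.unusedSectionVars false

open scoped BigOperators ComplexOrder
open Matrix

namespace Pool.Agent.Hhelper96.PEPS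

section cells

variable {M N d : ℕ} {Y : Type} [Fintype Y] [DecidableEq Y]

/-- position `p` of the cell `i` -/
def comb (i : Fin M × Fin M) (p : Fin N × Fin N) : Fin (M * N) × Fin (M * N) :=
  (finProdFinEquiv (i.1, p.1), finProdFinEquiv (i.2, p.2))

theorem comb_fst (i : Fin M × Fin M) (p : Fin N × Fin N) :
    ((comb i p).1 : ℕ) = (p.1 : ℕ) + N * (i.1 : ℕ) := by
  unfold comb
  rfl

theorem comb_snd (i : Fin M × Fin M) (p : Fin N × Fin N) :
    ((comb i p).2 : ℕ) = (p.2 : ℕ) + N * (i.2 : ℕ) := by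
  unfold comb
  rfl

/-- cells and positions -/
def combE : (Fin M × Fin M) × (Fin N × Fin N) ≃ Fin (M * N) × Fin (M * N) :=
  (Equiv.prodProdProdComm (Fin M) (Fin M) (Fin N) (Fin N)).trans
    (Equiv.prodCongr finProdFinEquiv finProdFinEquiv)

theorem combE_apply (i : Fin M × Fin M) (p : Fin N × Fin N) : combE (i, p) = comb i p := rfl

theorem comb_injective (i : Fin M × Fin M) : Function.Injective (comb (N := N) i) := by
  intro p q h
  rw [← combE_apply, ← combE_apply] at h
  exact (Prod.ext_iff.1 (combE.injective h)).2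

theorem comb_ne {i j : Fin M × Fin M} (hij : i ≠ j) (p q : Fin N × Fin N) : comb i p ≠ comb j q := by
  intro h
  rw [← combE_apply, ← combE_apply] at h
  exact hij (Prod.ext_iff.1 (combE.injective h)).1

/-- weights of the block -/
noncomputable def cellsW (w : Fin M × Fin M → Fin N × Fin N → Fin d → Option Y → Option Y → Y → ℂ)
    (p : Fin (M * N) × Fin (M * N)) (s : Fin d) (l dwn : Option Y) (y : Y) : ℂ :=
  w (combE.symm p).1 (combE.symm p).2 s (if ((combE.symm p).2.1 : ℕ) = 0 then none else l)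
    (if ((combE.symm p).2.2 : ℕ) = 0 then none else dwn) y

theorem leftOf_comb (y : Fin (M * N) × Fin (M * N) → Y) (i : Fin M × Fin M) (p : Fin N × Fin N) :
    (if (p.1 : ℕ) = 0 then none else leftOf y (comb i p)) = leftOf (fun q => y (comb i q)) p := by
  unfold leftOf
  by_cases h : (p.1 : ℕ) = 0
  · rw [if_pos h, if_pos h]
  · rw [if_neg h, if_neg h, if_neg]
    · congr 2
      refine Prod.ext (Fin.ext ?_) ?_
      · simp only [comb_fst]
        omega
      · rfl
    · rw [comb_fst]; omega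

theorem downOf_comb (y : Fin (M * N) × Fin (M * N) → Y) (i : Fin M × Fin M) (p : Fin N × Fin N) :
    (if (p.2 : ℕ) = 0 then none else downOf y (comb i p)) = downOf (fun q => y (comb i q)) p := by
  unfold downOf
  by_cases h : (p.2 : ℕ) = 0
  · rw [if_pos h, if_pos h]
  · rw [if_neg h, if_neg h, if_neg]
    · congr 2
      refine Prod.ext ?_ (Fin.ext ?_)
      · rfl
      · simp only [comb_snd]
        omega
    · rw [comb_snd]; omega

/-- functions on the block are families of functions on the cells -/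
def famE (X : Type) : (Fin (M * N) × Fin (M * N) → X) ≃ (Fin M × Fin M → Fin N × Fin N → X) :=
  (Equiv.arrowCongr combE.symm (Equiv.refl X)).trans (Equiv.curry _ _ _)

theorem famE_apply (X : Type) (y : Fin (M * N) × Fin (M * N) → X) (i : Fin M × Fin M)
    (p : Fin N × Fin N) : famE X y i p = y (comb i p) := rfl

theorem prod_comb {α : Type} [CommMonoid α] (f : Fin (M * N) × Fin (M * N) → α) :
    ∏ p, f p = ∏ i : Fin M × Fin M, ∏ p : Fin N × Fin N, f (comb i p) := by
  rw [← Equiv.prod_comp combE f, Fintype.prod_prod_type]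
  rfl

/-- the state of the block is the product of the states of the cells -/
theorem netVec_cellsW (w : Fin M × Fin M → Fin N × Fin N → Fin d → Option Y → Option Y → Y → ℂ)
    (c : Fin (M * N) × Fin (M * N) → Fin d) :
    netVec (cellsW w) c = ∏ i, netVec (w i) (fun p => c (comb i p)) := by
  classical
  unfold netVec
  rw [Finset.prod_univ_sum, Fintype.piFinset_univ]
  apply Fintype.sum_equiv (famE Y)
  intro y
  rw [prod_comb]
  refine Finset.prod_congr rfl (fun i _ => Finset.prod_congr rfl (fun p _ => ?_))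
  unfold cellsW
  rw [← combE_apply, Equiv.symm_apply_apply, combE_apply]
  simp only
  rw [leftOf_comb, downOf_comb]
  rfl

variable (χ : Fin M × Fin M → (Fin N × Fin N → Fin d) → ℂ)

/-- product of states of the cells -/
noncomputable def prodVec (c : Fin (M * N) × Fin (M * N) → Fin d) : ℂ :=
  ∏ i, χ i (fun p => c (comb i p))

theorem nsq_prodVec (hχ : ∀ i, nsq (χ i) = 1) : nsq (prodVec χ) = 1 := by
  classical
  have h1 : nsq (prodVec χ) = ∏ i, nsq (χ i) := by
    unfold nsq prodVec
    rw [Finset.prod_univ_sum, Fintype.piFinset_univ]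
    apply Fintype.sum_equiv (famE (Fin d))
    intro c
    rw [norm_prod, Finset.prod_pow]
    rfl
  rw [h1]
  exact Finset.prod_eq_one (fun i _ => hχ i)

/-- marginal of a vector that factorises -/
theorem ptrace_of_factor {S T : Type} [Fintype S] [DecidableEq S] [Fintype T] [DecidableEq T]
    {κ : T → S} (hκ : Function.Injective κ) {Φ : (S → Fin d) → ℂ} {φ : (T → Fin d) → ℂ}
    {rest : ({u // ¬ u ∈ Set.range κ} → Fin d) → ℂ}
    (hfac : ∀ c t, Φ (glue κ c t) = φ c * rest t) (hΦ : nsq Φ = 1) (hφ : nsq φ = 1) :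
    ptrace κ (outer Φ) = outer φ := by
  have h1 : ptrace κ (outer Φ) = ((∑ t, ‖rest t‖ ^ 2 : ℝ) : ℂ) • outer φ := by
    ext a b
    rw [ptrace_eq_glue κ hκ, Matrix.smul_apply, smul_eq_mul, Complex.ofReal_sum, Finset.sum_mul]
    refine Finset.sum_congr rfl (fun t _ => ?_)
    unfold outer
    rw [hfac a t, hfac b t, ← mul_star_self, star_mul]
    ring
  have h3 := congrArg Matrix.trace h1
  rw [trace_ptrace κ hκ, trace_outer, Matrix.trace_smul, trace_outer, hφ, hΦ] at h3
  simp only [Complex.ofReal_one, smul_eq_mul, mul_one] at h3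
  rw [h1, ← h3, one_smul]

/-- the marginal on a cell -/
theorem ptrace_comb (hχ : ∀ i, nsq (χ i) = 1) (i : Fin M × Fin M) :
    ptrace (comb (N := N) i) (outer (prodVec χ)) = outer (χ i) := by
  classical
  have hne : ∀ _j : Fin M × Fin M, Nonempty (Fin N × Fin N → Fin d) := by
    intro _j
    by_contra hcon
    rw [not_nonempty_iff] at hcon
    have : nsq (χ _j) = 0 := by
      unfold nsq
      exact Finset.sum_eq_zero (fun s _ => (hcon.false s).elim)
    rw [hχ _j] at this
    exact one_ne_zero this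
  obtain ⟨c₀⟩ := hne i
  apply ptrace_of_factor (comb_injective i)
    (rest := fun t => ∏ j ∈ Finset.univ.erase i, χ j (fun p => glue (comb i) c₀ t (comb j p)))
  · intro c t
    unfold prodVec
    rw [← Finset.mul_prod_erase Finset.univ _ (Finset.mem_univ i)]
    congr 1
    · congr 1
      funext p
      exact glue_apply_mem _ (comb_injective i) c t p
    · refine Finset.prod_congr rfl (fun j hj => ?_)
      congr 1
      funext p
      have hnr : comb j p ∉ Set.range (comb (N := N) i) := by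
        rintro ⟨q, hq⟩
        exact comb_ne (Finset.ne_of_mem_erase hj).symm q p hq
      rw [glue_apply_not_mem _ c t _ hnr, glue_apply_not_mem _ c₀ t _ hnr]
  · exact nsq_prodVec χ hχ
  · exact hχ i

end cells

section corecells

variable {d : ℕ}

/-- positions of a window of size `r` inside of a cell -/
def inn (N r : ℕ) : Finset (Fin N) := Finset.univ.filter (fun k => (k : ℕ) + r ≤ N)

theorem card_inn {N r : ℕ} (hr : 1 ≤ r) (hrN : r ≤ N) : (inn N r).card + r = N + 1 := by
  have h : (inn N r).map Fin.valEmbedding = Finset.range (N - r + 1) := by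
    ext x
    rw [Finset.mem_map, Finset.mem_range]
    constructor
    · rintro ⟨k, hk, rfl⟩
      simp only [inn, Finset.mem_filter, Finset.mem_univ, true_and] at hk
      simp only [Fin.valEmbedding_apply]
      omega
    · intro hx
      refine ⟨⟨x, by omega⟩, ?_, rfl⟩
      simp only [inn, Finset.mem_filter, Finset.mem_univ, true_and]
      omega
  have h2 := congrArg Finset.card h
  rw [Finset.card_map, Finset.card_range] at h2
  omega

/-- positions of a window inside of the cells of a block -/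
def innB (M N r : ℕ) : Finset (Fin (M * N)) :=
  (Finset.univ ×ˢ inn N r).map (finProdFinEquiv (m := M) (n := N)).toEmbedding

theorem card_innB (M N r : ℕ) : (innB M N r).card = M * (inn N r).card := by
  unfold innB
  rw [Finset.card_map, Finset.card_product, Finset.card_univ, Fintype.card_fin]

theorem sum_innB {α : Type} [AddCommMonoid α] (M N r : ℕ) (f : Fin (M * N) → α) :
    ∑ x ∈ innB M N r, f x = ∑ i : Fin M, ∑ k ∈ inn N r, f (finProdFinEquiv (i, k)) := by
  unfold innB
  rw [Finset.sum_map, Finset.sum_product]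
  rfl

theorem mem_innB {M N r : ℕ} {x : Fin (M * N)} : x ∈ innB M N r ↔
    ((finProdFinEquiv (m := M) (n := N)).symm x).2 ∈ inn N r := by
  unfold innB
  rw [Finset.mem_map]
  constructor
  · rintro ⟨p, hp, rfl⟩
    rw [Finset.mem_product] at hp
    simp only [Equiv.coe_toEmbedding, Equiv.symm_apply_apply]
    exact hp.2
  · intro h
    exact ⟨finProdFinEquiv.symm x, Finset.mem_product.2 ⟨Finset.mem_univ _, h⟩,
      Equiv.apply_symm_apply _ _⟩

/-- normalisation of a torus network -/
theorem netT_normalize {N : ℕ} [NeZero N] {Y : Type} [Fintype Y] [DecidableEq Y]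
    (W : Site N → Fin d → Y → Y → Y → ℂ) (hW : netT W ≠ 0) :
    ∃ W' : Site N → Fin d → Y → Y → Y → ℂ, nsq (netT W') = 1 ∧ density (netT W') = density (netT W) := by
  have hnpos : 0 < nsq (netT W) := nsq_pos_of_ne_zero hW
  obtain ⟨K, hK⟩ : ∃ K : ℂ, K = (((√(nsq (netT W)))⁻¹ : ℝ) : ℂ) := ⟨_, rfl⟩
  have hKpos : 0 < (√(nsq (netT W)))⁻¹ := inv_pos.2 (Real.sqrt_pos.2 hnpos)
  have hK0 : K ≠ 0 := by
    rw [hK]; exact_mod_cast hKpos.ne'
  have hKn : ‖K‖ ^ 2 * nsq (netT W) = 1 := by
    rw [hK, Complex.norm_real, Real.norm_of_nonneg hKpos.le, inv_pow, Real.sq_sqrt hnpos.le,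
      inv_mul_cancel₀ hnpos.ne']
  refine ⟨fun v s l dwn y => (if v = 0 then K else 1) * W v s l dwn y, ?_, ?_⟩
  · have hφ' : netT (fun v s l dwn y => (if v = 0 then K else 1) * W v s l dwn y) =
        fun s => K * netT W s := by
      funext s
      exact netT_scale W K s
    rw [hφ', nsq_smul, hKn]
  · have hφ' : netT (fun v s l dwn y => (if v = 0 then K else 1) * W v s l dwn y) =
        fun s => K * netT W s := by
      funext s
      exact netT_scale W K s
    rw [hφ']
    exact density_smul hK0 _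

/-- A family of states of the `N × N` torus given by label networks gives one translation invariant
PEPS tensor `A`, such that whenever the average of the marginals of the family is close to `ρ`, the
marginals of the PEPS are close to `ρ` on all large tori. -/
theorem core_cells_all {zr on : Fin d} (hzo : zr ≠ on) (M N : ℕ) [NeZero M] [NeZero N]
    {Y : Type} [Fintype Y] [DecidableEq Y]
    (W : Fin M × Fin M → Site N → Fin d → Y → Y → Y → ℂ) (hW : ∀ i, netT (W i) ≠ 0) :
    ∃ A : Fin d → Fin (Fintype.card (HidY (M * N) (M * N) (Y × Y × Y))) →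
        Fin (Fintype.card (HidY (M * N) (M * N) (Y × Y × Y))) →
        Fin (Fintype.card (HidY (M * N) (M * N) (Y × Y × Y))) →
        Fin (Fintype.card (HidY (M * N) (M * N) (Y × Y × Y))) → ℂ,
      ∀ (r : ℕ), 1 ≤ r → r ≤ N → ∀ (R : Finset (ℤ × ℤ)) (a b : ℤ),
      (∀ p ∈ R, a ≤ p.1 ∧ p.1 < a + r ∧ b ≤ p.2 ∧ p.2 < b + r) →
      ∀ (ρ : Matrix (R → Fin d) (R → Fin d) ℂ), ρ.PosSemidef → ρ.trace = 1 → ∀ (δ : ℝ), 0 ≤ δ →
      traceNorm (∑ i : Fin M × Fin M, ∑ k ∈ inn N r, ∑ l ∈ inn N r,
        (reduced N R ((((k : ℕ) : ZMod N) - (a : ZMod N)), (((l : ℕ) : ZMod N) - (b : ZMod N)))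
        (netT (W i)) - ρ)) ≤ δ * ((M * (inn N r).card : ℕ) * (M * (inn N r).card : ℕ)) →
      ∀ (L : ℕ) [NeZero L], (M * N + 2) ^ 2 ≤ L → (M * N + 3) * R.card < L →
        pepsVec L A ≠ 0 ∧ ∀ v, traceNorm (reduced L R v (pepsVec L A) - ρ) ≤
          4 * ((r + 2 : ℝ) / N) + δ := by
  classical
  have hN := NeZero.pos N
  have hM := NeZero.pos M
  have hMN : 1 ≤ M * N := Nat.mul_pos hM hN
  choose W' hW'1 hW'2 using fun i => netT_normalize (W i) (hW i)
  obtain ⟨χ, hχd⟩ : ∃ χ : Fin M × Fin M → (Fin N × Fin N → Fin d) → ℂ,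
    χ = fun i => netVec (cutW (W' i)) := ⟨_, rfl⟩
  have hout : ∀ i, outer (netT (W' i)) = density (netT (W i)) := by
    intro i
    rw [← hW'2 i, density_eq, hW'1 i]
    simp
  have hχout : ∀ i, outer (χ i) = ptrace (boxE N) (outer (netT (W' i))) := by
    intro i
    rw [ptrace_equiv, hχd]
    congr 1
    funext c
    exact netVec_cutW (W' i) c
  have hχ : ∀ i, nsq (χ i) = 1 := by
    intro i
    have h1 := congrArg Matrix.trace (hχout i)
    rw [trace_outer, trace_ptrace _ (boxE N).injective, trace_outer, hW'1 i] at h1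
    exact_mod_cast h1
  obtain ⟨Φ, hΦd⟩ : ∃ Φ, Φ = netVec (cellsW (fun i => cutW (W' i))) := ⟨_, rfl⟩
  have hΦ : Φ = prodVec χ := by
    rw [hΦd]
    funext c
    rw [netVec_cellsW, hχd]
    rfl
  have hΦ1 : nsq Φ = 1 := by rw [hΦ]; exact nsq_prodVec χ hχ
  refine ⟨gTensor (Fintype.equivFin (HidY (M * N) (M * N) (Y × Y × Y)))
    (netWt (cellsW (fun i => cutW (W' i))) zr on), ?_⟩
  intro r hr hrN R a b hR ρ hρ hρ1 δ hδ0 hδ L _ hL1 hL2
  rw [pepsVec_net (cellsW (fun i => cutW (W' i))) zr on hMN hMN, ← hΦd]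
  have hNMN : N ≤ M * N := Nat.le_mul_of_pos_left N hM
  have hrL : r ≤ L := by nlinarith
  have hιinj : ∀ v : Site L, Function.Injective (fun p : R => place L v p) :=
    fun v => place_injective hrL R a b hR v
  have hcard : Fintype.card R = R.card := Fintype.card_coe R
  obtain ⟨μ, hμd⟩ : ∃ μ : Fin (M * N) → Fin (M * N) → Matrix (R → Fin d) (R → Fin d) ℂ,
    μ = fun x y => reduced N R
      ((((((finProdFinEquiv (m := M) (n := N)).symm x).2 : ℕ) : ZMod N) - (a : ZMod N)),
      ((((finProdFinEquiv (m := M) (n := N)).symm y).2 : ℕ) : ZMod N) - (b : ZMod N))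
      (netT (W (((finProdFinEquiv (m := M) (n := N)).symm x).1,
        ((finProdFinEquiv (m := M) (n := N)).symm y).1))) := ⟨_, rfl⟩
  -- marginals inside a cell
  have hgood : ∀ v : Site L, ∀ (ξ : ZMod L → Fin (M * N + 3)) (η : ZMod L → Fin (M * N + 3)),
      IsWalk ξ → IsWalk η → ∀ x ∈ innB M N r, ∀ y ∈ innB M N r,
      (ξ (v.1 + (a : ZMod L)) : ℕ) = 2 + (x : ℕ) → (η (v.2 + (b : ZMod L)) : ℕ) = 2 + (y : ℕ) →
      ptrace (fun p : R => place L v p) (outer (fun s => gridVec Φ zr on ξ η s)) =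
        ((wgt Φ zr on L (ξ, η) : ℝ) : ℂ) • μ x y := by
    intro v ξ η hξ hη x hx y hy hξx hηy
    rw [mem_innB] at hx hy
    simp only [inn, Finset.mem_filter, Finset.mem_univ, true_and] at hx hy
    obtain ⟨i1, hi1⟩ : ∃ i1, i1 = ((finProdFinEquiv (m := M) (n := N)).symm x).1 := ⟨_, rfl⟩
    obtain ⟨i2, hi2⟩ : ∃ i2, i2 = ((finProdFinEquiv (m := M) (n := N)).symm y).1 := ⟨_, rfl⟩
    obtain ⟨k, hk⟩ : ∃ k, k = ((finProdFinEquiv (m := M) (n := N)).symm x).2 := ⟨_, rfl⟩
    obtain ⟨l, hl⟩ : ∃ l, l = ((finProdFinEquiv (m := M) (n := N)).symm y).2 := ⟨_, rfl⟩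
    rw [← hk] at hx
    rw [← hl] at hy
    have hxe : x = finProdFinEquiv (i1, k) := by
      rw [hi1, hk, Prod.mk.eta, Equiv.apply_symm_apply]
    have hye : y = finProdFinEquiv (i2, l) := by
      rw [hi2, hl, Prod.mk.eta, Equiv.apply_symm_apply]
    have hxv : (x : ℕ) = (k : ℕ) + N * (i1 : ℕ) := by rw [hxe]; rfl
    have hyv : (y : ℕ) = (l : ℕ) + N * (i2 : ℕ) := by rw [hye]; rfl
    have hxlt := x.isLt
    have hylt := y.isLt
    obtain ⟨u, hu⟩ : ∃ u : Site L, u = (v.1 + (a : ZMod L) - ((x : ℕ) : ZMod L),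
      v.2 + (b : ZMod L) - ((y : ℕ) : ZMod L)) := ⟨_, rfl⟩
    have hu1 : (ξ u.1 : ℕ) = 2 := by
      rw [hu]
      have := hξ.back (v.1 + (a : ZMod L)) x (by omega)
      rw [this]; omega
    have hu2 : (η u.2 : ℕ) = 2 := by
      rw [hu]
      have := hη.back (v.2 + (b : ZMod L)) y (by omega)
      rw [this]; omega
    have hblk := ptrace_blk (N₁ := M * N) (N₂ := M * N) Φ zr on hξ hη hu1 hu2 hMN hMN hΦ1
    have hbinj := blk_injective (N₁ := M * N) (N₂ := M * N) hξ hη hu1 hu2
    obtain ⟨κ, hκ⟩ : ∃ κ : R → Fin N × Fin N, ∀ p : R,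
        ((κ p).1 : ℕ) = k + (p.1.1 - a).toNat ∧ ((κ p).2 : ℕ) = l + (p.1.2 - b).toNat := by
      refine ⟨fun p => (⟨k + (p.1.1 - a).toNat, ?_⟩, ⟨l + (p.1.2 - b).toNat, ?_⟩), ?_⟩
      · have := hR p.1 p.2; omega
      · have := hR p.1 p.2; omega
      · intro p; simp
    have hc1 : (fun p : R => place L v p) = blk (M * N) (M * N) u ∘ (comb (i1, i2) ∘ κ) := by
      funext p
      have hp := hR p.1 p.2
      have h1 := hκ p
      unfold place blk
      simp only [Function.comp_apply]
      rw [comb_fst, comb_snd, h1.1, h1.2, hu]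
      have e1 := toNat_cast L p.1.1 a (by omega)
      have e2 := toNat_cast L p.1.2 b (by omega)
      ext
      · simp only
        rw [hxv]
        push_cast
        rw [e1]; ring
      · simp only
        rw [hyv]
        push_cast
        rw [e2]; ring
    have hc2 : ptrace κ (outer (χ (i1, i2))) = μ x y := by
      rw [hχout, ← ptrace_comp _ _ (boxE N).injective, hout, hμd]
      have hc3 : (boxE N) ∘ κ = fun p : R => place N
          ((((k : ℕ) : ZMod N) - (a : ZMod N)), (((l : ℕ) : ZMod N) - (b : ZMod N))) p := by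
        funext p
        have hp := hR p.1 p.2
        have h1 := hκ p
        simp only [Function.comp_apply]
        rw [boxE_apply]
        unfold place
        rw [h1.1, h1.2]
        have e1 := toNat_cast N p.1.1 a (by omega)
        have e2 := toNat_cast N p.1.2 b (by omega)
        ext
        · push_cast
          rw [e1]; ring
        · push_cast
          rw [e2]; ring
      rw [hc3]
      simp only
      rw [← hk, ← hl, ← hi1, ← hi2]
      rfl
    rw [hc1, ptrace_comp _ _ hbinj, hblk, ptrace_smul,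
      ptrace_comp _ _ (comb_injective (i1, i2)), hΦ, ptrace_comb χ hχ, hc2]
  have hT1 : (M * N + 3) * Fintype.card R < L := by rw [hcard]; exact hL2
  have hδ' : traceNorm (∑ x ∈ innB M N r, ∑ y ∈ innB M N r, (μ x y - ρ)) ≤
      δ * ((innB M N r).card * (innB M N r).card) := by
    rw [card_innB]
    have e1 : ∑ x ∈ innB M N r, ∑ y ∈ innB M N r, (μ x y - ρ) =
        ∑ i : Fin M × Fin M, ∑ k ∈ inn N r, ∑ l ∈ inn N r,
      (reduced N R ((((k : ℕ) : ZMod N) - (a : ZMod N)), (((l : ℕ) : ZMod N) - (b : ZMod N)))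
        (netT (W i)) - ρ) := by
      rw [sum_innB, Fintype.sum_prod_type]
      refine Finset.sum_congr rfl (fun i1 _ => ?_)
      rw [Finset.sum_comm (s := (Finset.univ : Finset (Fin M))) (t := inn N r)]
      refine Finset.sum_congr rfl (fun k _ => ?_)
      rw [sum_innB]
      refine Finset.sum_congr rfl (fun i2 _ => Finset.sum_congr rfl (fun l _ => ?_))
      rw [hμd]
      simp only [Equiv.symm_apply_apply]
    rw [e1]
    exact hδ
  have hbd : 2 * (((M * N + 3 - (innB M N r).card : ℕ) : ℝ) / (((M * N : ℕ) : ℝ) + 2) +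
        ((M * N + 3 - (innB M N r).card : ℕ) : ℝ) / (((M * N : ℕ) : ℝ) + 2)) + δ ≤
        4 * ((r + 2 : ℝ) / N) + δ := by
    have hc := card_inn hr hrN
    have c2 : M * N + 3 - (innB M N r).card ≤ M * (r + 2) := by
      rw [card_innB]
      have e0 : M * (inn N r).card + M * r = M * (N + 1) := by rw [← mul_add, hc]
      have e1 : M * (r + 2) = M * r + 2 * M := by ring
      have e2 : M * (N + 1) = M * N + M := by ring
      omega
    have c3 : ((M * N + 3 - (innB M N r).card : ℕ) : ℝ) ≤ (M : ℝ) * (r + 2) := by exact_mod_cast c2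
    have hNr : (0 : ℝ) < N := by exact_mod_cast hN
    have hMr : (0 : ℝ) < M := by exact_mod_cast hM
    have e2 : ((M * N + 3 - (innB M N r).card : ℕ) : ℝ) / (((M * N : ℕ) : ℝ) + 2) ≤
        (r + 2) / (N : ℝ) := by
      rw [div_le_div_iff₀ (by positivity) hNr]
      push_cast
      nlinarith [mul_le_mul_of_nonneg_right c3 hNr.le]
    linarith
  constructor
  · exact (traceNorm_super_avg Φ zr on hzo hΦ1 hL1 hL1 _ (hιinj 0) hT1
      hT1 _ hρ hρ1 (innB M N r) (innB M N r) _ _ μ δ hδ0 (hgood 0) hδ').1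
  · intro v
    refine le_trans ?_ hbd
    exact (traceNorm_super_avg Φ zr on hzo hΦ1 hL1 hL1 _ (hιinj v) hT1
      hT1 _ hρ hρ1 (innB M N r) (innB M N r) _ _ μ δ hδ0 (hgood v) hδ').2

/-- A family of states of the `N × N` torus given by label networks, the average of whose marginals
is close to `ρ`, gives a translation invariant PEPS with marginals close to `ρ` on all large tori. -/
theorem core_cells {zr on : Fin d} (hzo : zr ≠ on) (M N r : ℕ) [NeZero M] [NeZero N] (hr : 1 ≤ r)
    (hrN : r ≤ N) (R : Finset (ℤ × ℤ)) (a b : ℤ)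
    (hR : ∀ p ∈ R, a ≤ p.1 ∧ p.1 < a + r ∧ b ≤ p.2 ∧ p.2 < b + r)
    {Y : Type} [Fintype Y] [DecidableEq Y]
    (W : Fin M × Fin M → Site N → Fin d → Y → Y → Y → ℂ) (hW : ∀ i, netT (W i) ≠ 0)
    (ρ : Matrix (R → Fin d) (R → Fin d) ℂ) (hρ : ρ.PosSemidef) (hρ1 : ρ.trace = 1) (δ : ℝ)
    (hδ0 : 0 ≤ δ)
    (hδ : traceNorm (∑ i : Fin M × Fin M, ∑ k ∈ inn N r, ∑ l ∈ inn N r,
      (reduced N R ((((k : ℕ) : ZMod N) - (a : ZMod N)), (((l : ℕ) : ZMod N) - (b : ZMod N)))
        (netT (W i)) - ρ)) ≤ δ * ((M * (inn N r).card : ℕ) * (M * (inn N r).card : ℕ))) :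
    ∃ A : Fin d → Fin (Fintype.card (HidY (M * N) (M * N) (Y × Y × Y))) →
        Fin (Fintype.card (HidY (M * N) (M * N) (Y × Y × Y))) →
        Fin (Fintype.card (HidY (M * N) (M * N) (Y × Y × Y))) →
        Fin (Fintype.card (HidY (M * N) (M * N) (Y × Y × Y))) → ℂ,
      ∀ (L : ℕ) [NeZero L], (M * N + 2) ^ 2 ≤ L → (M * N + 3) * R.card < L →
        pepsVec L A ≠ 0 ∧ ∀ v, traceNorm (reduced L R v (pepsVec L A) - ρ) ≤
          4 * ((r + 2 : ℝ) / N) + δ := by
  obtain ⟨A, hA⟩ := core_cells_all hzo M N W hW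
  exact ⟨A, fun L _ h1 h2 => hA r hr hrN R a b hR ρ hρ hρ1 δ hδ0 hδ L h1 h2⟩

end corecells

end Pool.Agent.Hhelper96.PEPS
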