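import Pool.Agent.Hhelper96.UB.ColS
import Pool.Agent.Hhelper96.UB.Content

/-!
Geometry of the clusters of the cluster product formula, and the window networks given by it.

* `far_of_colr` : sites of the same colour are far apart;
* `cluster_far1`, `cluster_far2` : clusters of different sites of the same colour do not meet;
* `cluster_winNet` : the layers applied to a basis vector are a window network.
-/

set_option autoImplicit false
set_option linter.unusedSectionVars false

open scoped BigOperators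
open Matrix

namespace Pool.Agent.Hhelper96.PEPS

/-! ### geometry -/

section geom

variable {N S r m d : ℕ} [NeZero N] [NeZero S]

theorem place_place (v : Site N) (p q : ℤ × ℤ) :
    place N (place N v p) q = place N v (p.1 + q.1, p.2 + q.2) := by
  unfold place
  ext
  · simp only [Int.cast_add]; ring
  · simp only [Int.cast_add]; ring

theorem place_zero (v : Site N) : place N v (0, 0) = v := by
  unfold place
  ext <;> simp

/-- the terms near `v` -/
theorem reach_place (hr : 1 ≤ r) (R : Finset (ℤ × ℤ)) (a b : ℤ)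
    (hR : ∀ p ∈ R, a ≤ p.1 ∧ p.1 < a + r ∧ b ≤ p.2 ∧ p.2 < b + r) (k : ℕ) (v w : Site N)
    (hw : w ∈ reach (nb N R R) k v) :
    ∃ x y : ℤ, -((k : ℤ) * ((r : ℤ) - 1)) ≤ x ∧ x ≤ (k : ℤ) * ((r : ℤ) - 1) ∧
      -((k : ℤ) * ((r : ℤ) - 1)) ≤ y ∧ y ≤ (k : ℤ) * ((r : ℤ) - 1) ∧ w = place N v (x, y) := by
  have hr' : (1 : ℤ) ≤ r := by exact_mod_cast hr
  induction k generalizing w with
  | zero =>
    have h1 : w = v := by
      unfold reach at hw
      exact Finset.mem_singleton.1 hw
    subst h1
    exact ⟨0, 0, by simp, by simp, by simp, by simp, (place_zero w).symm⟩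
  | succ k ih =>
    unfold reach at hw
    have e : ((k + 1 : ℕ) : ℤ) * ((r : ℤ) - 1) = (k : ℤ) * ((r : ℤ) - 1) + ((r : ℤ) - 1) := by
      push_cast
      ring
    rw [e]
    generalize (k : ℤ) * ((r : ℤ) - 1) = M at ih ⊢
    rcases Finset.mem_union.1 hw with hw | hw
    · obtain ⟨x, y, h1, h2, h3, h4, h5⟩ := ih w hw
      exact ⟨x, y, by omega, by omega, by omega, by omega, h5⟩
    · obtain ⟨u, hu, hw⟩ := Finset.mem_biUnion.1 hw
      obtain ⟨x, y, h1, h2, h3, h4, h5⟩ := ih u hu
      simp only [nb, Finset.mem_filter, Finset.mem_univ, true_and] at hw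
      obtain ⟨p, hp, q, hq, hpq⟩ := hw
      have hp' := hR p hp
      have hq' := hR q hq
      refine ⟨x + (q.1 - p.1), y + (q.2 - p.2), by omega, by omega, by omega, by omega, ?_⟩
      have g1 : w.1 + (p.1 : ZMod N) = u.1 + (q.1 : ZMod N) := congrArg Prod.fst hpq
      have g2 : w.2 + (p.2 : ZMod N) = u.2 + (q.2 : ZMod N) := congrArg Prod.snd hpq
      have g3 : u.1 = v.1 + (x : ZMod N) := congrArg Prod.fst h5
      have g4 : u.2 = v.2 + (y : ZMod N) := congrArg Prod.snd h5
      unfold place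
      ext
      · simp only [Int.cast_add, Int.cast_sub]
        have : w.1 = u.1 + (q.1 : ZMod N) - (p.1 : ZMod N) := by rw [← g1]; ring
        rw [this, g3]
        ring
      · simp only [Int.cast_add, Int.cast_sub]
        have : w.2 = u.2 + (q.2 : ZMod N) - (p.2 : ZMod N) := by rw [← g2]; ring
        rw [this, g4]
        ring

/-- sites of the same colour are far apart -/
theorem far_of_colr (hSN : S ∣ N) {v v' : Site N} (hc : colr hSN v = colr hSN v') {p p' : ℤ × ℤ}
    (h1 : p.1 - p'.1 < S) (h2 : p'.1 - p.1 < S) (h3 : p.2 - p'.2 < S) (h4 : p'.2 - p.2 < S)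
    (heq : place N v p = place N v' p') : v = v' := by
  have key : ∀ (x x' : ZMod N) (k k' : ℤ), k - k' < S → k' - k < S →
      ZMod.castHom hSN (ZMod S) x = ZMod.castHom hSN (ZMod S) x' →
      x + (k : ZMod N) = x' + (k' : ZMod N) → x = x' := by
    intro x x' k k' hk1 hk2 hx hk
    have h5 := congrArg (ZMod.castHom hSN (ZMod S)) hk
    rw [map_add, map_add, hx, map_intCast, map_intCast] at h5
    have h6 := add_left_cancel h5
    have h7 : ((k - k' : ℤ) : ZMod S) = 0 := by
      push_cast
      rw [h6, sub_self]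
    have h8 : (S : ℤ) ∣ k - k' := (ZMod.intCast_zmod_eq_zero_iff_dvd _ _).1 h7
    have h9 : k - k' = 0 := by
      refine Int.eq_zero_of_abs_lt_dvd h8 ?_
      rw [abs_lt]
      constructor <;> omega
    have h10 : k = k' := by omega
    rw [h10] at hk
    exact add_right_cancel hk
  have e1 : ZMod.castHom hSN (ZMod S) v.1 = ZMod.castHom hSN (ZMod S) v'.1 := congrArg Prod.fst hc
  have e2 : ZMod.castHom hSN (ZMod S) v.2 = ZMod.castHom hSN (ZMod S) v'.2 := congrArg Prod.snd hc
  have e3 : v.1 + (p.1 : ZMod N) = v'.1 + (p'.1 : ZMod N) := congrArg Prod.fst heq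
  have e4 : v.2 + (p.2 : ZMod N) = v'.2 + (p'.2 : ZMod N) := congrArg Prod.snd heq
  exact Prod.ext (key _ _ _ _ h1 h2 e1 e3) (key _ _ _ _ h3 h4 e2 e4)

theorem size_int (hr : 1 ≤ r) (hS : (2 * m + 1) * r ≤ S) :
    0 ≤ (m : ℤ) * ((r : ℤ) - 1) ∧ 2 * ((m : ℤ) * ((r : ℤ) - 1)) + r ≤ S := by
  have hr' : (1 : ℤ) ≤ r := by exact_mod_cast hr
  have hS' : (2 * (m : ℤ) + 1) * r ≤ S := by exact_mod_cast hS
  have hm : (0 : ℤ) ≤ m := Int.natCast_nonneg m
  constructor
  · exact mul_nonneg hm (by linarith)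
  · nlinarith

theorem cluster_far1 (hr : 1 ≤ r) (hS : (2 * m + 1) * r ≤ S)
    (hSN : S ∣ N) (e : Site S ≃ Fin (S * S)) (R : Finset (ℤ × ℤ)) (a b : ℤ)
    (hR : ∀ p ∈ R, a ≤ p.1 ∧ p.1 < a + r ∧ b ≤ p.2 ∧ p.2 < b + r) (v v' : Site N) (hne : v ≠ v')
    (hc : colS hSN e v = colS hSN e v') : v' ∉ reach (nb N R R) m v := by
  intro hv'
  obtain ⟨x, y, h1, h2, h3, h4, h5⟩ := reach_place hr R a b hR m v v' hv'
  obtain ⟨s1, s2⟩ := size_int (m := m) hr hS
  generalize (m : ℤ) * ((r : ℤ) - 1) = M at *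
  have hr' : (1 : ℤ) ≤ r := by exact_mod_cast hr
  refine hne (far_of_colr hSN (e.injective hc) (p := (x, y)) (p' := (0, 0)) ?_ ?_ ?_ ?_ ?_)
  · show x - 0 < _; omega
  · show 0 - x < _; omega
  · show y - 0 < _; omega
  · show 0 - y < _; omega
  · rw [← h5, place_zero]

/-- supports of the clusters -/
theorem cluster_disjoint (hr : 1 ≤ r) (hS : (2 * m + 1) * r ≤ S)
    (hSN : S ∣ N) (R : Finset (ℤ × ℤ)) (a b : ℤ)
    (hR : ∀ p ∈ R, a ≤ p.1 ∧ p.1 < a + r ∧ b ≤ p.2 ∧ p.2 < b + r) {v v' : Site N} (hne : v ≠ v')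
    (hc : colr hSN v = colr hSN v') {j j' : Site N} (hj : j ∈ reach (nb N R R) m v)
    (hj' : j' ∈ reach (nb N R R) m v') (f f' : R) : place N j f ≠ place N j' f' := by
  intro heq
  obtain ⟨x, y, h1, h2, h3, h4, h5⟩ := reach_place hr R a b hR m v j hj
  obtain ⟨x', y', g1, g2, g3, g4, g5⟩ := reach_place hr R a b hR m v' j' hj'
  obtain ⟨s1, s2⟩ := size_int (m := m) hr hS
  generalize (m : ℤ) * ((r : ℤ) - 1) = M at *
  have hr' : (1 : ℤ) ≤ r := by exact_mod_cast hr
  have hf := hR f.1 f.2
  have hf' := hR f'.1 f'.2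
  rw [h5, g5, place_place, place_place] at heq
  refine hne (far_of_colr hSN hc ?_ ?_ ?_ ?_ heq)
  · show x + f.1.1 - (x' + f'.1.1) < _; omega
  · show x' + f'.1.1 - (x + f.1.1) < _; omega
  · show y + f.1.2 - (y' + f'.1.2) < _; omega
  · show y' + f'.1.2 - (y + f.1.2) < _; omega

theorem r_le_N (hr : 1 ≤ r) (hS : (2 * m + 1) * r ≤ S) (hSN : S ∣ N) : r ≤ N := by
  have h1 : r ≤ (2 * m + 1) * r := Nat.le_mul_of_pos_left r (by omega)
  exact (h1.trans hS).trans (Nat.le_of_dvd (NeZero.pos N) hSN)

theorem cluster_far2 (hr : 1 ≤ r) (hS : (2 * m + 1) * r ≤ S)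
    (hSN : S ∣ N) (e : Site S ≃ Fin (S * S)) (R : Finset (ℤ × ℤ)) (a b : ℤ)
    (hR : ∀ p ∈ R, a ≤ p.1 ∧ p.1 < a + r ∧ b ≤ p.2 ∧ p.2 < b + r)
    (K : Matrix (R → Fin d) (R → Fin d) ℂ) (v v' : Site N) (hne : v ≠ v')
    (hc : colS hSN e v = colS hSN e v') (j : Site N) (hj : j ∈ reach (nb N R R) m v)
    (j' : Site N) (hj' : j' ∈ reach (nb N R R) m v') :
    Commute (localTerm N R K j) (localTerm N R K j') := by
  have hrN := r_le_N hr hS hSN
  have h : localTerm N R K j * localTerm N R K j' = localTerm N R K j' * localTerm N R K j := by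
    rw [localTerm_eq_opAt, localTerm_eq_opAt]
    exact opAt_comm_of_disjoint (place_injective hrN R a b hR j) (place_injective hrN R a b hR j')
      (fun f f' => cluster_disjoint hr hS hSN R a b hR hne (e.injective hc) hj hj' f f') _ _
  exact h

end geom

/-! ### operators on windows -/

section ops

variable {A T T' : Type} [Fintype A] [DecidableEq A] [Fintype T] [DecidableEq T]
  [Fintype T'] [DecidableEq T'] {d : ℕ}

theorem opAt_opAt {κ : T → A} (hκ : Function.Injective κ) (ι : T' → T)
    (p : Matrix (T' → Fin d) (T' → Fin d) ℂ) :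
    opAt κ (opAt ι p) = opAt (fun t => κ (ι t)) p := by
  classical
  ext s s'
  have hiff : (∀ u, (∀ t, κ (ι t) ≠ u) → s u = s' u) ↔
      ((∀ u, (∀ t, κ t ≠ u) → s u = s' u) ∧
        ∀ q, (∀ t, ι t ≠ q) → (s ∘ κ) q = (s' ∘ κ) q) := by
    constructor
    · intro h
      refine ⟨fun u hu => h u (fun t => hu (ι t)), fun q hq => h (κ q) (fun t ht => ?_)⟩
      exact hq t (hκ ht)
    · rintro ⟨h1, h2⟩ u hu
      by_cases hu' : ∃ q, κ q = u
      · obtain ⟨q, rfl⟩ := hu'
        exact h2 q (fun t ht => hu t (by rw [ht]))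
      · push Not at hu'
        exact h1 u hu'
  unfold opAt
  by_cases h : ∀ u, (∀ t, κ (ι t) ≠ u) → s u = s' u
  · obtain ⟨h1, h2⟩ := hiff.1 h
    rw [if_pos h1, if_pos h2, if_pos h]
    rfl
  · rw [if_neg h]
    by_cases h1 : ∀ u, (∀ t, κ t ≠ u) → s u = s' u
    · rw [if_pos h1, if_neg (fun h2 => h (hiff.2 ⟨h1, h2⟩))]
    · rw [if_neg h1]

theorem opAt_zero (κ : T → A) : opAt κ (0 : Matrix (T → Fin d) (T → Fin d) ℂ) = 0 := by
  have h := opAt_smul κ (0 : ℂ) (0 : Matrix (T → Fin d) (T → Fin d) ℂ)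
  rw [zero_smul, zero_smul] at h
  exact h

theorem sum_opAt_ex {ι : Type} (s : Finset ι) (κ : T → A)
    (f : ι → Matrix (A → Fin d) (A → Fin d) ℂ) (hf : ∀ j ∈ s, ∃ p, f j = opAt κ p) :
    ∃ p, ∑ j ∈ s, f j = opAt κ p := by
  refine Finset.sum_induction f (fun M => ∃ p, M = opAt κ p) ?_ ⟨0, (opAt_zero κ).symm⟩ hf
  rintro _ _ ⟨p, rfl⟩ ⟨q, rfl⟩
  exact ⟨p + q, (opAt_add κ p q).symm⟩

end ops

section layer

variable {N d m : ℕ} [NeZero N] [NeZero m]

theorem win_injective (hm : m ≤ N) (v : Site N) : Function.Injective (win N m v) := by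
  intro p q h
  have h1 : v.1 + ((p.1 : ℕ) : ZMod N) = v.1 + ((q.1 : ℕ) : ZMod N) := congrArg Prod.fst h
  have h2 : v.2 + ((p.2 : ℕ) : ZMod N) = v.2 + ((q.2 : ℕ) : ZMod N) := congrArg Prod.snd h
  have h3 := natCast_inj_of_lt (lt_of_lt_of_le p.1.isLt hm) (lt_of_lt_of_le q.1.isLt hm)
    (add_left_cancel h1)
  have h4 := natCast_inj_of_lt (lt_of_lt_of_le p.2.isLt hm) (lt_of_lt_of_le q.2.isLt hm)
    (add_left_cancel h2)
  exact Prod.ext (Fin.ext h3) (Fin.ext h4)

/-- the kernel of a product of operators on disjoint windows -/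
theorem prod_win_apply (hm : m ≤ N)
    (p : Site N → Matrix (Fin m × Fin m → Fin d) (Fin m × Fin m → Fin d) ℂ)
    (l : List (Site N)) (hnd : l.Nodup)
    (hdis : ∀ v ∈ l, ∀ v' ∈ l, v ≠ v' → ∀ t t', win N m v t ≠ win N m v' t')
    (s s' : Site N → Fin d) :
    ((l.map (fun v => opAt (win N m v) (p v))).prod) s s' =
      if ∀ u, (∀ v ∈ l, ∀ t, win N m v t ≠ u) → s u = s' u then
        (l.map (fun v => p v (s ∘ win N m v) (s' ∘ win N m v))).prod
      else 0 := by
  classical
  have hκ := fun v : Site N => win_injective hm v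
  induction l generalizing s with
  | nil =>
    simp only [List.map_nil, List.prod_nil, List.not_mem_nil, false_implies, implies_true]
    by_cases h : s = s'
    · subst h; simp
    · rw [Matrix.one_apply_ne h, if_neg]
      intro h'
      exact h (funext (fun u => h' u trivial))
  | cons a l ih =>
    have hnd' := List.nodup_cons.1 hnd
    have ih' := ih hnd'.2 (fun v hv v' hv' => hdis v (List.mem_cons_of_mem a hv) v'
      (List.mem_cons_of_mem a hv'))
    rw [List.map_cons, List.prod_cons, Matrix.mul_apply, sum_opAt (hκ a)]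
    have hda : ∀ v ∈ l, ∀ t t', win N m v t ≠ win N m a t' := by
      intro v hv t t'
      apply hdis v (List.mem_cons_of_mem a hv) a List.mem_cons_self
      rintro rfl
      exact hnd'.1 hv
    have hover : ∀ c : (Fin m × Fin m) → Fin d, ∀ v ∈ l,
        (overwrite (win N m a) s c) ∘ win N m v = s ∘ win N m v := by
      intro c v hv
      funext t
      exact overwrite_not_mem _ s c _ (fun t' => (hda v hv t t').symm)
    have hprod : ∀ c : (Fin m × Fin m) → Fin d,
        (l.map (fun v => p v ((overwrite (win N m a) s c) ∘ win N m v) (s' ∘ win N m v))).prod =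
        (l.map (fun v => p v (s ∘ win N m v) (s' ∘ win N m v))).prod := by
      intro c
      congr 1
      apply List.map_congr_left
      intro v hv
      rw [hover c v hv]
    by_cases h : ∀ u, (∀ v ∈ a :: l, ∀ t, win N m v t ≠ u) → s u = s' u
    · rw [if_pos h, Finset.sum_eq_single (s' ∘ win N m a)]
      · rw [ih', if_pos, hprod, List.map_cons, List.prod_cons]
        intro u hu
        by_cases hu' : ∃ t, win N m a t = u
        · obtain ⟨t, rfl⟩ := hu'
          exact overwrite_mem (hκ a) s _ t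
        · push Not at hu'
          rw [overwrite_not_mem _ _ _ u hu']
          apply h u
          intro v hv
          rcases List.mem_cons.1 hv with rfl | hv
          · exact hu'
          · exact hu v hv
      · intro c _ hc
        rw [ih', if_neg, mul_zero]
        intro h'
        apply hc
        funext t
        have := h' (win N m a t) (fun v hv t' => hda v hv t' t)
        have h2 := overwrite_mem (hκ a) s c t
        rw [← h2]
        exact this
      · intro h; exact absurd (Finset.mem_univ _) h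
    · rw [if_neg h]
      apply Finset.sum_eq_zero
      intro c _
      rw [ih', if_neg, mul_zero]
      intro h'
      apply h
      intro u hu
      have h1 := h' u (fun v hv => hu v (List.mem_cons_of_mem a hv))
      rwa [overwrite_not_mem _ s c u (hu a List.mem_cons_self)] at h1

/-- a product of operators on disjoint windows is a window operator -/
theorem winOp_prod' (hm : m ≤ N)
    (p : Site N → Matrix (Fin m × Fin m → Fin d) (Fin m × Fin m → Fin d) ℂ)
    (l : List (Site N)) (hnd : l.Nodup)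
    (hdis : ∀ v ∈ l, ∀ v' ∈ l, v ≠ v' → ∀ t t', win N m v t ≠ win N m v' t') :
    WinOp m ((l.map (fun v => opAt (win N m v) (p v))).prod) := by
  classical
  refine ⟨fun v sw sw' => (if v ∈ l then p v sw sw' else 1) *
    (if (∃ v' ∈ l, ∃ t, win N m v' t = v) ∨ sw (0, 0) = sw' (0, 0) then 1 else 0), ?_⟩
  intro s s'
  rw [prod_win_apply hm p l hnd hdis, Finset.prod_mul_distrib]
  have h1 : (∏ v : Site N, if v ∈ l then p v (s ∘ win N m v) (s' ∘ win N m v) else 1) =
      (l.map (fun v => p v (s ∘ win N m v) (s' ∘ win N m v))).prod := by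
    rw [← List.prod_toFinset _ hnd]
    rw [Finset.prod_ite, Finset.prod_const_one, mul_one]
    refine Finset.prod_congr ?_ (fun v _ => rfl)
    ext v
    simp
  rw [h1]
  by_cases h : ∀ u, (∀ v ∈ l, ∀ t, win N m v t ≠ u) → s u = s' u
  · rw [if_pos h]
    have h2 : (∏ v : Site N, if (∃ v' ∈ l, ∃ t, win N m v' t = v) ∨
        (s ∘ win N m v) (0, 0) = (s' ∘ win N m v) (0, 0) then (1 : ℂ) else 0) = 1 := by
      apply Finset.prod_eq_one
      intro v _
      rw [if_pos]
      by_cases hv : ∃ v' ∈ l, ∃ t, win N m v' t = v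
      · exact Or.inl hv
      · right
        push Not at hv
        simp only [Function.comp_apply, win_zero]
        exact h v hv
    rw [h2, mul_one]
  · rw [if_neg h]
    push Not at h
    obtain ⟨u, hu, hne⟩ := h
    symm
    apply mul_eq_zero_of_right
    apply Finset.prod_eq_zero (Finset.mem_univ u)
    rw [if_neg]
    rintro (⟨v', hv', t, ht⟩ | h')
    · exact hu v' hv' t ht
    · simp only [Function.comp_apply, win_zero] at h'
      exact hne h'

open Classical in
/-- the exponential of a sum over one colour of operators supported in the windows -/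
theorem winOp_blocks (hmN : m ∣ N) (t : Site N)
    (P : Site N → Matrix (Fin m × Fin m → Fin d) (Fin m × Fin m → Fin d) ℂ) (c : Site m) (z : ℂ) :
    WinOp m (NormedSpace.exp (z • ∑ v ∈ Finset.univ.filter (fun v : Site N => colr hmN v = c),
      opAt (win N m (v + t)) (P v))) := by
  have hmN' : m ≤ N := Nat.le_of_dvd (NeZero.pos N) hmN
  obtain ⟨l₀, hl₀⟩ : ∃ l₀ : List (Site N),
    l₀ = (Finset.univ.filter (fun v : Site N => colr hmN v = c)).toList := ⟨_, rfl⟩
  have hmem : ∀ v, v ∈ l₀ ↔ colr hmN v = c := by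
    intro v
    rw [hl₀]
    simp only [Finset.mem_toList, Finset.mem_filter, Finset.mem_univ, true_and]
  obtain ⟨l, hl⟩ : ∃ l : List (Site N), l = l₀.map (fun v => v + t) := ⟨_, rfl⟩
  have hnd : l.Nodup := by
    rw [hl]
    apply List.Nodup.map (add_left_injective t)
    rw [hl₀]
    exact Finset.nodup_toList _
  have hdis : ∀ v ∈ l, ∀ v' ∈ l, v ≠ v' → ∀ q q' : Fin m × Fin m, win N m v q ≠ win N m v' q' := by
    intro v hv v' hv' hne q q'
    rw [hl] at hv hv'
    obtain ⟨u, hu, rfl⟩ := List.mem_map.1 hv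
    obtain ⟨u', hu', rfl⟩ := List.mem_map.1 hv'
    apply win_disjoint hmN hne
    have e1 := (hmem u).1 hu
    have e2 := (hmem u').1 hu'
    have e3 : u + t = u - (-t) := by abel
    have e4 : u' + t = u' - (-t) := by abel
    rw [e3, e4, colr_sub, colr_sub, e1, e2]
  have hsum : z • ∑ v ∈ Finset.univ.filter (fun v : Site N => colr hmN v = c),
      opAt (win N m (v + t)) (P v) =
      (l.map (fun v => opAt (win N m v) (z • P (v - t)))).sum := by
    rw [hl, List.map_map, Finset.smul_sum, ← Finset.sum_map_toList, ← hl₀]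
    congr 1
    apply List.map_congr_left
    intro v _
    simp only [Function.comp_apply]
    rw [add_sub_cancel_right, opAt_smul]
  rw [hsum, exp_list_sum]
  · have e5 : (fun v : Site N => NormedSpace.exp (opAt (win N m v) (z • P (v - t)))) =
        fun v => opAt (win N m v) (NormedSpace.exp (z • P (v - t))) := by
      funext v
      exact exp_opAt (win_injective hmN' v) _
    rw [e5]
    exact winOp_prod' hmN' _ l hnd hdis
  · intro v hv v' hv'
    by_cases hvv : v = v'
    · rw [hvv]
    · exact opAt_comm_of_disjoint (win_injective hmN' v) (win_injective hmN' v')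
        (fun t t' => hdis v hv v' hv' hvv _ _) _ _

end layer

section net

variable {N S r m d : ℕ} [NeZero N] [NeZero S]

/-- the terms of a cluster are supported in its window -/
theorem cluster_window (hr : 1 ≤ r) (hS : (2 * m + 1) * r ≤ S)
    (hSN : S ∣ N) (R : Finset (ℤ × ℤ)) (a b : ℤ)
    (hR : ∀ p ∈ R, a ≤ p.1 ∧ p.1 < a + r ∧ b ≤ p.2 ∧ p.2 < b + r)
    (K : Matrix (R → Fin d) (R → Fin d) ℂ) (v j : Site N) (hj : j ∈ reach (nb N R R) m v) :
    ∃ p, localTerm N R K j = opAt (win N S (v +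
      (((a - (m : ℤ) * ((r : ℤ) - 1) : ℤ) : ZMod N), ((b - (m : ℤ) * ((r : ℤ) - 1) : ℤ) : ZMod N))))
        p := by
  have hSN' : S ≤ N := Nat.le_of_dvd (NeZero.pos N) hSN
  obtain ⟨x, y, h1, h2, h3, h4, h5⟩ := reach_place hr R a b hR m v j hj
  obtain ⟨s1, s2⟩ := size_int (m := m) hr hS
  have hr' : (1 : ℤ) ≤ r := by exact_mod_cast hr
  generalize (m : ℤ) * ((r : ℤ) - 1) = M at *
  obtain ⟨emb, hemb⟩ : ∃ emb : R → Fin S × Fin S, ∀ f : R,
      ((emb f).1 : ℕ) = (x + f.1.1 - (a - M)).toNat ∧
      ((emb f).2 : ℕ) = (y + f.1.2 - (b - M)).toNat := by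
    refine ⟨fun f => (⟨(x + f.1.1 - (a - M)).toNat, ?_⟩, ⟨(y + f.1.2 - (b - M)).toNat, ?_⟩),
      fun f => ⟨rfl, rfl⟩⟩
    · have := hR f.1 f.2; omega
    · have := hR f.1 f.2; omega
  have hwin : (fun f : R => win N S (v + (((a - M : ℤ) : ZMod N), ((b - M : ℤ) : ZMod N)))
      (emb f)) = fun f : R => place N j f := by
    funext f
    have g1 := hR f.1 f.2
    have g2 := hemb f
    have e1 := toNat_cast N (x + f.1.1) (a - M) (by omega)
    have e2 := toNat_cast N (y + f.1.2) (b - M) (by omega)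
    rw [h5, place_place]
    unfold win place
    ext
    · simp only [Prod.fst_add]
      rw [g2.1, e1]; ring
    · simp only [Prod.snd_add]
      rw [g2.2, e2]; ring
  refine ⟨opAt emb K, ?_⟩
  rw [opAt_opAt (win_injective hSN' _), hwin, localTerm_eq_opAt]

theorem self_mem_reach {I : Type} [DecidableEq I] (nb : I → Finset I) (k : ℕ) (i : I) :
    i ∈ reach nb k i := by
  induction k with
  | zero => exact Finset.mem_singleton_self i
  | succ k ih =>
    unfold reach
    exact Finset.mem_union_left _ ih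

theorem real_smul_matrix {n : Type} (x : ℝ) (A : Matrix n n ℂ) : x • A = ((x : ℝ) : ℂ) • A := by
  ext i j
  simp [Matrix.smul_apply]

theorem cluster_winNet (hr : 1 ≤ r)
    (hS : (2 * m + 1) * r ≤ S) (hSN : S ∣ N) (e : Site S ≃ Fin (S * S)) (R : Finset (ℤ × ℤ))
    (a b : ℤ) (hR : ∀ p ∈ R, a ≤ p.1 ∧ p.1 < a + r ∧ b ≤ p.2 ∧ p.2 < b + r)
    (K : Matrix (R → Fin d) (R → Fin d) ℂ) (hK : K.IsHermitian) (τ : ℝ) (q : ℕ)
    (x : Site N → Fin d) :
    WinNet S (d ^ (4 * (S * S) * q))
      (((layers (fun v => localTerm N R K v) (colS hSN e) (reach (nb N R R) m) τ *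
        (layers (fun v => localTerm N R K v) (colS hSN e) (reach (nb N R R) m) τ)ᴴ) ^ q).mulVec
          (Pi.single x 1)) := by
  obtain ⟨E1, hE1⟩ : ∃ E1 : Fin (S * S) → Matrix (Site N → Fin d) (Site N → Fin d) ℂ, ∀ k,
      E1 k = NormedSpace.exp ((-τ) • ∑ i ∈ Finset.univ.filter (fun i : Site N => colS hSN e i = k),
        (lowerSum (fun v => localTerm N R K v) (colS hSN e) (reach (nb N R R) m) i +
          localTerm N R K i)) := ⟨_, fun _ => rfl⟩
  obtain ⟨E2, hE2⟩ : ∃ E2 : Fin (S * S) → Matrix (Site N → Fin d) (Site N → Fin d) ℂ, ∀ k,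
      E2 k = NormedSpace.exp (τ • ∑ i ∈ Finset.univ.filter (fun i : Site N => colS hSN e i = k),
        lowerSum (fun v => localTerm N R K v) (colS hSN e) (reach (nb N R R) m) i) :=
    ⟨_, fun _ => rfl⟩
  obtain ⟨l, hl⟩ : ∃ l : List (Matrix (Site N → Fin d) (Site N → Fin d) ℂ),
      l = ((List.finRange (S * S)).reverse.map (fun k => [E1 k, E2 k])).flatten := ⟨_, rfl⟩
  have hlayers : layers (fun v => localTerm N R K v) (colS hSN e) (reach (nb N R R) m) τ =
      l.prod := by
    unfold layers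
    rw [hl, List.prod_flatten, List.map_map]
    congr 1
    apply List.map_congr_left
    intro k _
    simp only [Function.comp_apply, List.prod_cons, List.prod_nil, mul_one]
    rw [hE1, hE2]
    rfl
  have hlen : l.length = 2 * (S * S) := by
    rw [hl, List.length_flatten, List.map_map]
    have : (List.length ∘ fun k => [E1 k, E2 k]) = fun _ : Fin (S * S) => 2 := by
      funext k; rfl
    rw [this, List.map_const', List.sum_replicate, List.length_reverse, List.length_finRange,
      smul_eq_mul, mul_comm]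
  have hmeml : ∀ O ∈ l, ∃ k, O = E1 k ∨ O = E2 k := by
    intro O hO
    rw [hl, List.mem_flatten] at hO
    obtain ⟨l', hl', hO⟩ := hO
    obtain ⟨k, _, rfl⟩ := List.mem_map.1 hl'
    refine ⟨k, ?_⟩
    simpa using hO
  have hlow : ∀ i, (lowerSum (fun v => localTerm N R K v) (colS hSN e) (reach (nb N R R) m) i)ᴴ =
      lowerSum (fun v => localTerm N R K v) (colS hSN e) (reach (nb N R R) m) i := by
    intro i
    unfold lowerSum
    rw [Matrix.conjTranspose_sum]
    exact Finset.sum_congr rfl (fun v _ => localTerm_isHermitian hK v)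
  have hherm : ∀ O ∈ l, Oᴴ = O := by
    intro O hO
    obtain ⟨k, hk | hk⟩ := hmeml O hO
    · rw [hk, hE1, ← Matrix.exp_conjTranspose]
      congr 1
      rw [Matrix.conjTranspose_smul, Matrix.conjTranspose_sum]
      congr 1
      refine Finset.sum_congr rfl (fun v _ => ?_)
      rw [Matrix.conjTranspose_add, hlow]
      congr 1
      exact localTerm_isHermitian hK v
    · rw [hk, hE2, ← Matrix.exp_conjTranspose]
      congr 1
      rw [Matrix.conjTranspose_smul, Matrix.conjTranspose_sum]
      congr 1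
      exact Finset.sum_congr rfl (fun v _ => hlow v)
  -- the blocks
  obtain ⟨t, ht⟩ : ∃ t : Site N, t = (((a - (m : ℤ) * ((r : ℤ) - 1) : ℤ) : ZMod N),
    ((b - (m : ℤ) * ((r : ℤ) - 1) : ℤ) : ZMod N)) := ⟨_, rfl⟩
  have hblow : ∀ i : Site N, ∃ p, lowerSum (fun v => localTerm N R K v) (colS hSN e)
      (reach (nb N R R) m) i = opAt (win N S (i + t)) p := by
    intro i
    unfold lowerSum
    apply sum_opAt_ex
    intro j hj
    rw [ht]
    exact cluster_window hr hS hSN R a b hR K i j (Finset.mem_filter.1 hj).1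
  have hball : ∀ i : Site N, ∃ p, lowerSum (fun v => localTerm N R K v) (colS hSN e)
      (reach (nb N R R) m) i + localTerm N R K i = opAt (win N S (i + t)) p := by
    intro i
    obtain ⟨p, hp⟩ := hblow i
    obtain ⟨p', hp'⟩ := cluster_window hr hS hSN R a b hR K i i (self_mem_reach _ m i)
    rw [← ht] at hp'
    exact ⟨p + p', by rw [opAt_add, hp, hp']⟩
  choose P1 hP1 using hball
  choose P2 hP2 using hblow
  have hfil : ∀ k : Fin (S * S), (Finset.univ.filter (fun i : Site N => colS hSN e i = k)) =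
      Finset.univ.filter (fun i : Site N => colr hSN i = e.symm k) := by
    intro k
    ext i
    simp only [Finset.mem_filter, Finset.mem_univ, true_and]
    exact (Equiv.eq_symm_apply e).symm
  have hop : ∀ O ∈ l, WinOp S O := by
    intro O hO
    obtain ⟨k, hk | hk⟩ := hmeml O hO
    · rw [hk, hE1, hfil, real_smul_matrix]
      have h1 := winOp_blocks hSN t P1 (e.symm k) ((-τ : ℝ) : ℂ)
      have h2 : ∀ s : Finset (Site N), ∑ i ∈ s, (lowerSum (fun v => localTerm N R K v)
          (colS hSN e) (reach (nb N R R) m) i + localTerm N R K i) =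
          ∑ i ∈ s, opAt (win N S (i + t)) (P1 i) := fun s =>
        Finset.sum_congr rfl (fun i _ => hP1 i)
      rw [h2]
      convert h1
    · rw [hk, hE2, hfil, real_smul_matrix]
      have h1 := winOp_blocks hSN t P2 (e.symm k) ((τ : ℝ) : ℂ)
      have h2 : ∀ s : Finset (Site N), ∑ i ∈ s, lowerSum (fun v => localTerm N R K v)
          (colS hSN e) (reach (nb N R R) m) i =
          ∑ i ∈ s, opAt (win N S (i + t)) (P2 i) := fun s =>
        Finset.sum_congr rfl (fun i _ => hP2 i)
      rw [h2]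
      convert h1
  rw [hlayers, prod_word l q hherm]
  have hlen2 := length_word l q
  have e6 : 4 * (S * S) * q = ((List.replicate q (l ++ l.reverse)).flatten).length := by
    rw [hlen2, hlen]
    ring
  rw [e6]
  apply winNet_word
  intro O hO
  rw [List.mem_flatten] at hO
  obtain ⟨l', hl', hO⟩ := hO
  rw [List.eq_of_mem_replicate hl', List.mem_append, List.mem_reverse, or_self] at hO
  exact hop O hO

end net

end Pool.Agent.Hhelper96.PEPS
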