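import Pool.Agent.Hhelper96.UB.EngineStmt2
import Pool.Agent.Hhelper96.UB.Gates

/-!
Colours of the sites of a torus.
-/

set_option autoImplicit false

open Matrix

namespace Pool.Agent.Hhelper96.PEPS

/-- colour of a site, for an enumeration of the colours -/
noncomputable def colS {N S : ℕ} [NeZero N] [NeZero S] (hSN : S ∣ N) (e : Site S ≃ Fin (S * S))
    (v : Site N) : Fin (S * S) := e (colr hSN v)

end Pool.Agent.Hhelper96.PEPS
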