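import Pool.Agent.Hhelper96.UB.Sandwich
import Pool.Agent.Hhelper96.UB.EngineStmt3
import Pool.Agent.Hhelper96.UB.Content

/-!
Low energy states of a translation invariant interaction on a torus, given by label networks, from the
sandwich of `exp (-τ H)` by window networks.
-/

set_option autoImplicit false
set_option linter.unusedSectionVars false

open scoped BigOperators
open Matrix

namespace Pool.Agent.Hhelper96.PEPS

section lattice

variable {d : ℕ}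

open Classical in
/-- Low energy label networks from the interface `SandNet`. -/
theorem low_content3 (r w A : ℕ) (hr : 1 ≤ r) (hd : 1 ≤ d) (hA : 1 ≤ A) (hE : SandNet d r w A) :
    ∃ (τ C : ℝ), 0 < τ ∧ 0 ≤ C ∧
      ∀ (N S m : ℕ) [NeZero N] [NeZero S], S = A * (m + 1) * r → S ∣ N →
      ∀ (R : Finset (ℤ × ℤ)) (a b : ℤ),
      (∀ p ∈ R, a ≤ p.1 ∧ p.1 < a + r ∧ b ≤ p.2 ∧ p.2 < b + r) →
      ∀ (K : Matrix (R → Fin d) (R → Fin d) ℂ), K.IsHermitian → hsq K ≤ 1 →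
      ∀ (q : ℕ), 1 ≤ q →
      ∀ (L : ℕ) [NeZero L], N ≤ L → ∀ (ψ : (Site L → Fin d) → ℂ), ψ ≠ 0 →
      ∀ (ρ : Matrix (R → Fin d) (R → Fin d) ℂ), (∀ v, reduced L R v ψ = ρ) →
      ∃ W : Site N → Fin d → (Fin S × Fin S → Fin d × Fin (d ^ (w * q))) →
        (Fin S × Fin S → Fin d × Fin (d ^ (w * q))) →
        (Fin S × Fin S → Fin d × Fin (d ^ (w * q))) → ℂ, netT W ≠ 0 ∧
        ∑ v, enf K (reduced N R v (netT W)) ≤ (N : ℝ) ^ 2 * enf K ρ + 4 * r * N +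
          C * (N : ℝ) ^ 2 / 2 ^ m + (N : ℝ) ^ 2 * Real.log d / (2 * q * τ) := by
  obtain ⟨τ, C, hτ, hC, hE⟩ := hE
  refine ⟨τ, 2 * C / τ, hτ, by positivity, ?_⟩
  intro N S m _ _ hS hSN R a b hR K hK hK1 q hq L _ hNL ψ hψ ρ hρ
  have hrS : r ≤ S := by
    rw [hS]
    exact Nat.le_mul_of_pos_left r (Nat.mul_pos (by omega) (by omega))
  have hrN' : r ≤ N := hrS.trans (Nat.le_of_dvd (NeZero.pos N) hSN)
  -- trial vector
  obtain ⟨ψ', hψ', htrial⟩ := exists_trial hr hrN' hNL R a b hR K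
    (fun X hX hX1 => abs_enf_le K X hK1 hX hX1) ψ hψ ρ hρ
  have hne : Nonempty (Site N → Fin d) := ⟨fun _ => ⟨0, hd⟩⟩
  obtain ⟨T, hsand, hwin⟩ := hE N S m hS hSN R a b hR K hK hK1
  have hH : (hamiltonian N R K).IsHermitian := hamiltonian_isHermitian hK
  obtain ⟨x, hx0, hx⟩ := energy_of_sandwich hH hτ
    (κ := C * (N : ℝ) ^ 2 / 2 ^ m) (by positivity) hsand q hq ψ' hψ'
  have hwin' := hwin q x
  obtain ⟨φ, hφ⟩ : ∃ φ, φ = ((T * Tᴴ) ^ q).mulVec (Pi.single x 1) := ⟨_, rfl⟩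
  rw [← hφ] at hx0 hx hwin'
  obtain ⟨W, hW⟩ := hwin'.netT
  refine ⟨W, by rw [hW]; exact hx0, ?_⟩
  rw [hW]
  have hpos : 0 < sqn φ := sqn_pos hx0
  have hpos' : 0 < sqn ψ' := sqn_pos hψ'
  have h1 : ex (hamiltonian N R K) φ = sqn φ * ∑ v, enf K (reduced N R v φ) := by
    unfold hamiltonian
    rw [ex_sum, Finset.mul_sum]
    exact Finset.sum_congr rfl (fun v _ => ex_localTerm R K v hx0)
  have h2 : ex (hamiltonian N R K) φ / sqn φ = ∑ v, enf K (reduced N R v φ) := by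
    rw [h1]; field_simp
  have h3 : ex (hamiltonian N R K) ψ' / sqn ψ' ≤ (N : ℝ) ^ 2 * enf K ρ + 4 * r * N := by
    rw [div_le_iff₀ hpos']
    exact htrial
  have h4 : (Fintype.card (Site N) : ℝ) = (N : ℝ) ^ 2 := by
    rw [Fintype.card_prod, ZMod.card]
    push_cast
    ring
  have h5 : Real.log (Fintype.card (Site N → Fin d)) = (N : ℝ) ^ 2 * Real.log d := by
    rw [Fintype.card_fun, Fintype.card_fin]
    push_cast
    rw [Real.log_pow, h4]
  rw [h2, h5] at hx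
  have h6 : 2 * (C * (N : ℝ) ^ 2 / 2 ^ m) / τ = 2 * C / τ * (N : ℝ) ^ 2 / 2 ^ m := by
    field_simp
  rw [h6] at hx
  linarith

end lattice

end Pool.Agent.Hhelper96.PEPS
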