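import Pool.Agent.Hhelper96.UB.Content
import Pool.Agent.Hhelper96.UB.Cells

/-!
Translation invariant PEPS approximating the marginal of a translation invariant state: greedy
choice of the states of the cells.
-/

set_option autoImplicit false
set_option linter.unusedSectionVars false

open scoped BigOperators ComplexOrder
open Matrix

namespace Pool.Agent.Hhelper96.PEPS

section core

variable {d : ℕ}

theorem enf_sum {m α : Type} [Fintype m] [DecidableEq m] (K : Matrix m m ℂ) (s : Finset α)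
    (X : α → Matrix m m ℂ) : enf K (∑ i ∈ s, X i) = ∑ i ∈ s, enf K (X i) := by
  unfold enf
  rw [Finset.sum_mul, Matrix.trace_sum, Complex.re_sum]

theorem enf_smul' {m : Type} [Fintype m] [DecidableEq m] (K X : Matrix m m ℂ) (c : ℝ) :
    enf K ((c : ℂ) • X) = c * enf K X := by
  unfold enf
  rw [Matrix.smul_mul, Matrix.trace_smul, smul_eq_mul, Complex.re_ofReal_mul]

/-- the position of a window inside of a cell, as a site of the torus -/
def posn (N : ℕ) (a b : ℤ) (k l : Fin N) : Site N :=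
  ((((k : ℕ) : ZMod N) - (a : ZMod N)), (((l : ℕ) : ZMod N) - (b : ZMod N)))

theorem posn_injective (N : ℕ) (a b : ℤ) :
    Function.Injective (fun x : Fin N × Fin N => posn N a b x.1 x.2) := by
  intro x y h
  have h1 := congrArg Prod.fst h
  have h2 := congrArg Prod.snd h
  simp only [posn] at h1 h2
  have h3 := natCast_inj_of_lt x.1.isLt y.1.isLt (sub_left_injective h1)
  have h4 := natCast_inj_of_lt x.2.isLt y.2.isLt (sub_left_injective h2)
  exact Prod.ext (Fin.ext h3) (Fin.ext h4)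

/-- sums over the interior positions and over all positions -/
theorem sum_inn_le {N r : ℕ} [NeZero N] (hr : 1 ≤ r) (hrN : r ≤ N) (a b : ℤ) (f : Site N → ℝ)
    (hf : ∀ v, -1 ≤ f v) :
    ∑ k ∈ inn N r, ∑ l ∈ inn N r, f (posn N a b k l) ≤
      ∑ v, f v + ((N : ℝ) ^ 2 - ((inn N r).card : ℝ) ^ 2) := by
  classical
  have h1 : ∑ k ∈ inn N r, ∑ l ∈ inn N r, f (posn N a b k l) =
      ∑ v ∈ (inn N r ×ˢ inn N r).image (fun x => posn N a b x.1 x.2), f v := by
    rw [Finset.sum_image (fun x _ y _ h => posn_injective N a b h), Finset.sum_product]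
  have hcard : ((inn N r ×ˢ inn N r).image (fun x => posn N a b x.1 x.2)).card =
      (inn N r).card * (inn N r).card := by
    rw [Finset.card_image_of_injective _ (posn_injective N a b), Finset.card_product]
  have h2 := Finset.sum_add_sum_compl
    ((inn N r ×ˢ inn N r).image (fun x => posn N a b x.1 x.2)) f
  have h3 : -((((inn N r ×ˢ inn N r).image (fun x => posn N a b x.1 x.2))ᶜ).card : ℝ) ≤
      ∑ v ∈ ((inn N r ×ˢ inn N r).image (fun x => posn N a b x.1 x.2))ᶜ, f v := by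
    have := Finset.card_nsmul_le_sum
      (((inn N r ×ˢ inn N r).image (fun x => posn N a b x.1 x.2))ᶜ) f (-1) (fun v _ => hf v)
    rw [nsmul_eq_mul] at this
    linarith
  have h4 : ((((inn N r ×ˢ inn N r).image (fun x => posn N a b x.1 x.2))ᶜ).card : ℝ) =
      (N : ℝ) ^ 2 - ((inn N r).card : ℝ) ^ 2 := by
    rw [Finset.card_compl, hcard, Fintype.card_prod, ZMod.card, Nat.cast_sub]
    · push_cast; ring
    · have h5 : (inn N r).card ≤ N := by
        have := card_inn hr hrN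
        omega
      exact Nat.mul_le_mul h5 h5
  rw [h1]
  linarith

/-- The approximation of a translation invariant marginal, with all parameters. -/
theorem core_new (r p : ℕ) (hr : 1 ≤ r) (hd : 2 ≤ d) (hE : EngineStmt (r ^ 4) (r * r) p) :
    ∃ (wl : ℕ) (t₀ C : ℝ), 0 < t₀ ∧ 0 ≤ C ∧
      ∀ (M N : ℕ) [NeZero M] [NeZero N], r ∣ N → 2 * r ≤ N → ∀ (R : Finset (ℤ × ℤ)) (a b : ℤ),
      (∀ p ∈ R, a ≤ p.1 ∧ p.1 < a + r ∧ b ≤ p.2 ∧ p.2 < b + r) →
      ∀ (t : ℝ), 0 < t → t ≤ t₀ → ∀ (q : ℕ), 1 ≤ q →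
      ∃ D : ℕ, D = (M * N + 3) * ((M * N + 3) * (((d * d ^ (2 * wl * q)) ^ (r * r)) ^ 3 + 1)) ∧
      ∀ (L₁ : ℕ) [NeZero L₁], N ≤ L₁ → ∀ (ψ : (Site L₁ → Fin d) → ℂ), ψ ≠ 0 →
      (∀ w, reduced L₁ R w ψ = reduced L₁ R 0 ψ) →
      ∃ A : Fin d → Fin D → Fin D → Fin D → Fin D → ℂ,
        ∀ (L : ℕ) [NeZero L], (M * N + 2) ^ 2 ≤ L → (M * N + 3) * R.card < L →
        pepsVec L A ≠ 0 ∧ ∀ v, traceNorm (reduced L R v (pepsVec L A) - reduced L₁ R 0 ψ) ≤
          4 * ((r + 2 : ℝ) / N) + √(Fintype.card (R → Fin d)) *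
            (4 * (8 * r / N + C * t ^ (2 * p) + Real.log d / (2 * q * t)) + 2 / M) := by
  classical
  obtain ⟨wl, t₀, C, ht₀, hC, hcont⟩ := low_content (d := d) r p hr (by omega) hE
  refine ⟨wl, t₀, C, ht₀, hC, ?_⟩
  intro M N _ _ hrN h2rN R a b hR t ht htt q hq
  obtain ⟨Y, hY⟩ : ∃ Y : Type, Y = (Fin r × Fin r → Fin d × Fin (d ^ (2 * wl * q))) := ⟨_, rfl⟩
  subst hY
  refine ⟨Fintype.card (HidY (M * N) (M * N) ((Fin r × Fin r → Fin d × Fin (d ^ (2 * wl * q))) ×
    (Fin r × Fin r → Fin d × Fin (d ^ (2 * wl * q))) ×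
    (Fin r × Fin r → Fin d × Fin (d ^ (2 * wl * q))))), ?_, ?_⟩
  · rw [card_hidY]
    simp only [Fintype.card_prod, Fintype.card_fun, Fintype.card_fin]
    ring
  intro L₁ _ hNL ψ hψ hTI
  have hrN' : r ≤ N := by omega
  have hzo : (⟨0, by omega⟩ : Fin d) ≠ ⟨1, by omega⟩ := by
    intro h
    simp only [Fin.mk.injEq] at h
    omega
  obtain ⟨ρ, hρd⟩ : ∃ ρ, ρ = reduced L₁ R 0 ψ := ⟨_, rfl⟩
  have hρ := posSemidef_reduced (hrN'.trans hNL) R a b hR 0 hψ
  rw [← hρd] at hρ ⊢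
  have hNpos : (0 : ℝ) < N := by exact_mod_cast NeZero.pos N
  have hMpos : (0 : ℝ) < M := by exact_mod_cast NeZero.pos M
  have hci := card_inn hr hrN'
  obtain ⟨c, hc⟩ : ∃ c : ℝ, c = ((inn N r).card : ℝ) := ⟨_, rfl⟩
  have hcr : c + r = N + 1 := by rw [hc]; exact_mod_cast hci
  have h2rN' : (2 : ℝ) * r ≤ N := by exact_mod_cast h2rN
  have hr' : (1 : ℝ) ≤ r := by exact_mod_cast hr
  have hcpos : 0 < c := by linarith
  have hc2 : (N : ℝ) ≤ 2 * c := by linarith
  have hlogd : 0 ≤ Real.log d := Real.log_nonneg (by exact_mod_cast (by omega : 1 ≤ d))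
  have hqpos : (0 : ℝ) < q := by exact_mod_cast hq
  obtain ⟨η, hη⟩ : ∃ η : ℝ, η = 4 * (8 * r / N + C * t ^ (2 * p) + Real.log d / (2 * q * t)) :=
    ⟨_, rfl⟩
  have hη0 : 0 ≤ η := by rw [hη]; positivity
  -- the averaged marginal of a label network
  obtain ⟨av, hav⟩ : ∃ av : (Site N → Fin d → (Fin r × Fin r → Fin d × Fin (d ^ (2 * wl * q))) →
        (Fin r × Fin r → Fin d × Fin (d ^ (2 * wl * q))) →
        (Fin r × Fin r → Fin d × Fin (d ^ (2 * wl * q))) → ℂ) → Matrix (R → Fin d) (R → Fin d) ℂ,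
    av = fun W => (((c ^ 2)⁻¹ : ℝ) : ℂ) • ∑ k ∈ inn N r, ∑ l ∈ inn N r,
      reduced N R (posn N a b k l) (netT W) := ⟨_, rfl⟩
  have hcinv : (0 : ℂ) ≤ (((c ^ 2)⁻¹ : ℝ) : ℂ) := by
    rw [Complex.zero_le_real]; positivity
  have hcne : ((c : ℝ) : ℂ) ≠ 0 := by exact_mod_cast hcpos.ne'
  have havS : ∀ W, netT W ≠ 0 → (av W).PosSemidef ∧ (av W).trace = 1 := by
    intro W hW
    constructor
    · rw [hav]
      exact (Matrix.posSemidef_sum _ (fun k _ => Matrix.posSemidef_sum _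
        (fun l _ => (posSemidef_reduced hrN' R a b hR _ hW).1))).smul hcinv
    · rw [hav]
      simp only
      rw [Matrix.trace_smul, Matrix.trace_sum]
      simp only [Matrix.trace_sum]
      rw [Finset.sum_congr rfl (fun k _ => Finset.sum_congr rfl
        (fun l _ => (posSemidef_reduced hrN' R a b hR (posn N a b k l) hW).2))]
      simp only [Finset.sum_const, nsmul_eq_mul, mul_one, smul_eq_mul]
      rw [← Complex.ofReal_natCast, ← hc]
      push_cast
      field_simp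
  obtain ⟨S, hS⟩ : ∃ S : Matrix (R → Fin d) (R → Fin d) ℂ → Prop,
    S = fun X => ∃ W, netT W ≠ 0 ∧ X = av W := ⟨_, rfl⟩
  -- greedy choice
  obtain ⟨X, hX, hXs⟩ := greedy S (by
      rintro X hX
      rw [hS] at hX
      obtain ⟨W, hW, rfl⟩ := hX
      exact havS W hW) ρ hρ.1 hρ.2 η hη0 (by
      intro K hK hK1
      obtain ⟨W, hW, hWE⟩ := hcont N hrN R a b hR K hK hK1 t ht htt q hq L₁ hNL ψ hψ ρ
        (fun v => by rw [hρd]; exact hTI v)
      refine ⟨av W, by rw [hS]; exact ⟨W, hW, rfl⟩, ?_⟩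
      have hb1 : ∀ v, -1 ≤ enf K (reduced N R v (netT W)) := by
        intro v
        have h1 := posSemidef_reduced hrN' R a b hR v hW
        exact (abs_le.1 (abs_enf_le K _ hK1 h1.1 h1.2)).1
      have hb2 := (abs_le.1 (abs_enf_le K ρ hK1 hρ.1 hρ.2)).2
      have hsum := sum_inn_le hr hrN' a b (fun v => enf K (reduced N R v (netT W))) hb1
      rw [← hc] at hsum
      rw [hav]
      simp only
      rw [enf_smul', enf_sum]
      simp only [enf_sum]
      rw [inv_mul_le_iff₀ (by positivity)]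
      have e1 : c = N + 1 - r := by linarith
      have e2 : (N : ℝ) ^ 2 - c ^ 2 ≤ 2 * r * N := by
        rw [e1]; nlinarith
      have e3 : (0 : ℝ) ≤ (N : ℝ) ^ 2 - c ^ 2 := by
        rw [e1]; nlinarith
      have e4 : ((N : ℝ) ^ 2 - c ^ 2) * enf K ρ ≤ (N : ℝ) ^ 2 - c ^ 2 := by
        nlinarith
      have e5 : 8 * r * N + C * (N : ℝ) ^ 2 * t ^ (2 * p) +
          (N : ℝ) ^ 2 * Real.log d / (2 * q * t) ≤ c ^ 2 * η := by
        have e6 : 8 * r * N + C * (N : ℝ) ^ 2 * t ^ (2 * p) +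
            (N : ℝ) ^ 2 * Real.log d / (2 * q * t) = (N : ℝ) ^ 2 / 4 * η := by
          rw [hη]; field_simp
        rw [e6]
        apply mul_le_mul_of_nonneg_right _ hη0
        nlinarith
      linarith) (M * M)
  choose Wf hWf hXW using fun i => (by have := hX i; rw [hS] at this; exact this :
    ∃ W, netT W ≠ 0 ∧ X i = av W)
  obtain ⟨δ, hδ⟩ : ∃ δ : ℝ, δ = √(Fintype.card (R → Fin d)) * (η + 2 / M) := ⟨_, rfl⟩
  have hδ0 : 0 ≤ δ := by rw [hδ]; positivity
  obtain ⟨A, hA⟩ := core_cells hzo M N r hr hrN' R a b hR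
    (fun i => Wf (finProdFinEquiv i)) (fun i => hWf _) ρ hρ.1 hρ.2 δ hδ0 (by
      have h1 : ∑ i : Fin M × Fin M, ∑ k ∈ inn N r, ∑ l ∈ inn N r,
          (reduced N R ((((k : ℕ) : ZMod N) - (a : ZMod N)), (((l : ℕ) : ZMod N) - (b : ZMod N)))
            (netT (Wf (finProdFinEquiv i))) - ρ) =
          ((c ^ 2 : ℝ) : ℂ) • ∑ i : Fin (M * M), (X i - ρ) := by
        rw [← Equiv.sum_comp finProdFinEquiv (fun i : Fin (M * M) => (X i - ρ)), Finset.smul_sum]
        refine Finset.sum_congr rfl (fun i _ => ?_)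
        simp only [Finset.sum_sub_distrib, Finset.sum_const]
        rw [smul_sub, hXW, hav]
        simp only
        have e7 : ∀ Z : Matrix (R → Fin d) (R → Fin d) ℂ,
            ((c ^ 2 : ℝ) : ℂ) • (((c ^ 2)⁻¹ : ℝ) : ℂ) • Z = Z := by
          intro Z
          rw [smul_smul, ← Complex.ofReal_mul, mul_inv_cancel₀ (by positivity),
            Complex.ofReal_one, one_smul]
        have e8 : ((inn N r).card * (inn N r).card) • ρ = ((c ^ 2 : ℝ) : ℂ) • ρ := by
          rw [← Nat.cast_smul_eq_nsmul ℂ, hc]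
          congr 1
          push_cast
          ring
        rw [e7, smul_smul, e8]
        rfl
      rw [h1]
      refine (traceNorm_smul_le _ _).trans ?_
      rw [Complex.norm_real, Real.norm_of_nonneg (by positivity)]
      have h2 := traceNorm_le_hsq (∑ i : Fin (M * M), (X i - ρ))
      have h3 : √((M * M : ℕ) : ℝ) = M := by
        push_cast
        exact Real.sqrt_mul_self hMpos.le
      rw [h3] at hXs
      have h4 : traceNorm (∑ i : Fin (M * M), (X i - ρ)) ≤
          √(Fintype.card (R → Fin d)) * (η * ((M * M : ℕ) : ℝ) + 2 * M) :=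
        h2.trans (mul_le_mul_of_nonneg_left hXs (Real.sqrt_nonneg _))
      calc c ^ 2 * traceNorm (∑ i : Fin (M * M), (X i - ρ))
          ≤ c ^ 2 * (√(Fintype.card (R → Fin d)) * (η * ((M * M : ℕ) : ℝ) + 2 * M)) :=
            mul_le_mul_of_nonneg_left h4 (by positivity)
        _ = δ * ((M * (inn N r).card : ℕ) * (M * (inn N r).card : ℕ)) := by
            rw [hδ]
            push_cast
            rw [← hc]
            field_simp)
  refine ⟨A, fun L _ h1 h2 => ?_⟩
  have h3 := hA L h1 h2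
  refine ⟨h3.1, fun v => (h3.2 v).trans (le_of_eq ?_)⟩
  rw [hδ, hη]

end core

end Pool.Agent.Hhelper96.PEPS
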