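import Pool.Agent.Hhelper96.UB.E2Main

/-!
A label network of low energy on one torus gives a translation invariant PEPS tensor whose marginals
are close to those of the ground states on all large tori.
-/

set_option autoImplicit false
set_option linter.unusedSectionVars false

open scoped BigOperators Topology ComplexOrder
open Matrix Filter

namespace Pool.Agent.Hhelper96.PEPS

theorem exists_pos_le {ι : Type} [Fintype ι] (f : ι → ℝ) (hf : ∀ i, 0 < f i) :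
    ∃ s : ℝ, 0 < s ∧ s ≤ 1 ∧ ∀ i, s ≤ f i := by
  obtain ⟨t, ht⟩ : ∃ t : ℝ, t = 1 + ∑ i, 1 / f i := ⟨_, rfl⟩
  have h0 : ∀ i ∈ (Finset.univ : Finset ι), 0 ≤ 1 / f i := fun i _ => by
    have := hf i
    positivity
  have h1 : 0 ≤ ∑ i, 1 / f i := Finset.sum_nonneg h0
  have ht1 : 1 ≤ t := by rw [ht]; linarith
  have ht0 : 0 < t := by linarith
  refine ⟨1 / t, by positivity, ?_, fun i => ?_⟩
  · rw [div_le_iff₀ ht0]; linarith
  · have h2 := Finset.single_le_sum h0 (Finset.mem_univ i)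
    have h3 : 1 / f i ≤ t := by rw [ht]; linarith
    rw [div_le_iff₀ ht0]
    rw [div_le_iff₀ (hf i)] at h3
    linarith

theorem traceNorm_sub_le_two {m : Type} [Fintype m] [DecidableEq m] {X Y : Matrix m m ℂ}
    (hX : X.PosSemidef ∧ X.trace = 1) (hY : Y.PosSemidef ∧ Y.trace = 1) : traceNorm (X - Y) ≤ 2 := by
  have h1 := traceNorm_posSemidef_le hX.1
  have h2 := traceNorm_posSemidef_le hY.1
  rw [hX.2] at h1
  rw [hY.2] at h2
  have h3 := traceNorm_sub_le' X Y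
  simp only [Complex.one_re] at h1 h2
  linarith

section main

variable {d : ℕ}

theorem e2m_main' {zr on : Fin d} (hzo : zr ≠ on) {W R : Finset (ℤ × ℤ)} {r : ℕ} (hr : 1 ≤ r)
    (a b : ℤ) (hW : ∀ p ∈ W, a ≤ p.1 ∧ p.1 < a + r ∧ b ≤ p.2 ∧ p.2 < b + r)
    (hR : ∀ p ∈ R, a ≤ p.1 ∧ p.1 < a + r ∧ b ≤ p.2 ∧ p.2 < b + r)
    (g : Matrix (W → Fin d) (W → Fin d) ℂ)
    (ψ : ∀ n : ℕ, (Site (n + 1) → Fin d) → ℂ)
    (hψ : ∀ᶠ n in atTop, ψ n ≠ 0 ∧ (∀ w, reduced (n + 1) W w (ψ n) = reduced (n + 1) W 0 (ψ n)) ∧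
      (∀ w, reduced (n + 1) R w (ψ n) = reduced (n + 1) R 0 (ψ n)))
    (hsec : ∀ x i j, SecOrdW W R g (dirM x i j) ψ) :
    ∃ B : ℝ, 0 ≤ B ∧ ∀ (N : ℕ) [NeZero N], r ≤ N → ∀ η : ℝ, 0 ≤ η →
      ∀ (Y : Type) [Fintype Y] [DecidableEq Y] (Wt : Site N → Fin d → Y → Y → Y → ℂ),
      netT Wt ≠ 0 →
      (∀ χ : (Site N → Fin d) → ℂ, χ ≠ 0 → ex (hamiltonian N W g) (netT Wt) / sqn (netT Wt) ≤
        ex (hamiltonian N W g) χ / sqn χ + η * (N : ℝ) ^ 2) →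
      ∃ D : ℕ, D = (N + 3) * ((N + 3) * (Fintype.card Y ^ 3 + 1)) ∧
        ∃ A : Fin d → Fin D → Fin D → Fin D → Fin D → ℂ,
        (∀ᶠ n in atTop, pepsVec (n + 1) A ≠ 0) ∧
        ∀ᶠ n in atTop, ∀ v : Site (n + 1),
          (traceNorm (reduced (n + 1) R v (ψ n) - reduced (n + 1) R v (pepsVec (n + 1) A)) ≤
            B * √(η + 1 / N) ∧
          traceNorm (reduced (n + 1) R v (pepsVec (n + 1) A) - avgM N r R a b (netT Wt)) ≤
            4 * ((r + 2 : ℝ) / N)) := by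
  classical
  obtain ⟨c, hc1, hgc, hcb⟩ := exists_enf_bound g
  choose Cx hCx sx hsx hS using hsec
  -- uniform constants
  obtain ⟨s₀, hs₀, hs₀1, hs₀le⟩ := exists_pos_le
    (fun y : (Bool × Bool) × (R → Fin d) × (R → Fin d) => sx y.1 y.2.1 y.2.2)
    (fun y => hsx y.1 y.2.1 y.2.2)
  obtain ⟨QC, hQC⟩ : ∃ QC : (Bool × Bool) × (R → Fin d) × (R → Fin d) → ℝ,
    ∀ x i j, QC (x, i, j) = Cx x i j := ⟨fun y => Cx y.1 y.2.1 y.2.2, fun _ _ _ => rfl⟩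
  obtain ⟨C₀, hC₀⟩ : ∃ C₀ : ℝ, C₀ = ∑ y, QC y := ⟨_, rfl⟩
  have hQC0 : ∀ y ∈ (Finset.univ : Finset ((Bool × Bool) × (R → Fin d) × (R → Fin d))),
      0 ≤ QC y := by
    rintro ⟨x, i, j⟩ _
    rw [hQC]
    exact hCx x i j
  have hC₀le : ∀ x i j, Cx x i j ≤ C₀ := by
    intro x i j
    rw [hC₀, ← hQC]
    exact Finset.single_le_sum hQC0 (Finset.mem_univ (x, i, j))
  have hC₀0 : 0 ≤ C₀ := by
    rw [hC₀]; exact Finset.sum_nonneg hQC0
  obtain ⟨QV, hQV⟩ : ∃ QV : (Bool × Bool) × (R → Fin d) × (R → Fin d) → ℝ,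
    ∀ x i j, QV (x, i, j) = ∑ k, ∑ l, ‖dirM (m := R → Fin d) x i j k l‖ :=
    ⟨fun y => ∑ k, ∑ l, ‖dirM (m := R → Fin d) y.1 y.2.1 y.2.2 k l‖, fun _ _ _ => rfl⟩
  have hQV0 : ∀ y ∈ (Finset.univ : Finset ((Bool × Bool) × (R → Fin d) × (R → Fin d))),
      0 ≤ QV y := by
    rintro ⟨x, i, j⟩ _
    rw [hQV]
    exact Finset.sum_nonneg (fun k _ => Finset.sum_nonneg (fun l _ => norm_nonneg _))
  obtain ⟨cV, hcV⟩ : ∃ cV : ℝ, cV = ∑ y, QV y := ⟨_, rfl⟩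
  have hcVle : ∀ x i j, ∑ k, ∑ l, ‖dirM (m := R → Fin d) x i j k l‖ ≤ cV := by
    intro x i j
    rw [hcV, ← hQV]
    exact Finset.single_le_sum hQV0 (Finset.mem_univ (x, i, j))
  have hcV0 : 0 ≤ cV := by rw [hcV]; exact Finset.sum_nonneg hQV0
  obtain ⟨cg, hcg⟩ : ∃ cg : ℝ, cg = ∑ i, ∑ j, ‖g i j‖ := ⟨_, rfl⟩
  have hcg0 : 0 ≤ cg := by rw [hcg]; positivity
  have hr1 : (1 : ℝ) ≤ r := by exact_mod_cast hr
  obtain ⟨B₁, hB₁⟩ : ∃ B₁ : ℝ, B₁ = C₀ + 16 * r * c + 2 + 4 * (cg + cV) * (r + 2) := ⟨_, rfl⟩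
  have hB₁0 : 0 ≤ B₁ := by rw [hB₁]; positivity
  obtain ⟨B, hB⟩ : ∃ B : ℝ, B = (Fintype.card (R → Fin d) : ℝ) ^ 2 * B₁ + 4 * (r + 2) + 2 / s₀ +
    8 * r := ⟨_, rfl⟩
  have hB0 : 0 ≤ B := by rw [hB]; positivity
  refine ⟨B, hB0, ?_⟩
  intro N _ hrN η hη Y _ _ Wt hT hmin
  obtain ⟨A, hA⟩ := core_cells_all hzo 1 N (fun _ => Wt) (fun _ => hT)
  refine ⟨Fintype.card (HidY (1 * N) (1 * N) (Y × Y × Y)), ?_, A, ?_⟩
  · rw [card_hidY]
    simp only [Fintype.card_prod, one_mul]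
    ring
  obtain ⟨T, hTd⟩ : ∃ T, T = netT Wt := ⟨_, rfl⟩
  rw [← hTd] at hT hmin
  have hNpos : (0 : ℝ) < N := by exact_mod_cast NeZero.pos N
  obtain ⟨u, hu⟩ : ∃ u : ℝ, u = √(η + 1 / N) := ⟨_, rfl⟩
  have hu2 : u ^ 2 = η + 1 / N := by rw [hu]; exact Real.sq_sqrt (by positivity)
  have hu0 : 0 < u := by rw [hu]; exact Real.sqrt_pos.2 (by positivity)
  -- the marginals of the PEPS
  have hcell : ∀ (Q : Finset (ℤ × ℤ)),
      (∀ p ∈ Q, a ≤ p.1 ∧ p.1 < a + r ∧ b ≤ p.2 ∧ p.2 < b + r) →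
      ∀ᶠ n in atTop, pepsVec (n + 1) A ≠ 0 ∧ ∀ v : Site (n + 1),
        traceNorm (reduced (n + 1) Q v (pepsVec (n + 1) A) - avgM N r Q a b T) ≤
          4 * ((r + 2 : ℝ) / N) := by
    intro Q hQ
    have hav := avgM_spec hr hrN Q a b hQ hT
    filter_upwards [eventually_ge_atTop ((1 * N + 2) ^ 2),
      eventually_ge_atTop ((1 * N + 3) * Q.card)] with n hn1 hn2
    have h1 := hA r hr hrN Q a b hQ (avgM N r Q a b T) hav.1 hav.2.1 0 le_rfl (by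
      rw [zero_mul]
      have h2 : ∑ i : Fin 1 × Fin 1, ∑ k ∈ inn N r, ∑ l ∈ inn N r,
          (reduced N Q ((((k : ℕ) : ZMod N) - (a : ZMod N)), (((l : ℕ) : ZMod N) - (b : ZMod N)))
          (netT Wt) - avgM N r Q a b T) = 0 := by
        apply Finset.sum_eq_zero
        intro i _
        rw [← hTd]
        exact hav.2.2
      rw [h2, traceNorm_zero]) (n + 1) (by omega) (by omega)
    refine ⟨h1.1, fun v => ?_⟩
    have := h1.2 v
    rwa [add_zero] at this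
  have hcR := hcell R hR
  have hcW := hcell W hW
  refine ⟨hcR.mono (fun n hn => hn.1), ?_⟩
  rw [← hu, ← hTd]
  suffices hsuff : ∀ᶠ n in atTop, ∀ v : Site (n + 1),
      traceNorm (reduced (n + 1) R v (ψ n) - reduced (n + 1) R v (pepsVec (n + 1) A)) ≤ B * u by
    filter_upwards [hsuff, hcR] with n h1 h2 v
    exact ⟨h1 v, h2.2 v⟩
  have hpsdR : ∀ᶠ n in atTop, ∀ v : Site (n + 1),
      traceNorm (reduced (n + 1) R v (ψ n) - reduced (n + 1) R v (pepsVec (n + 1) A)) ≤ 2 := by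
    filter_upwards [hcR, hψ, eventually_ge_atTop r] with n h1 h2 h3 v
    exact traceNorm_sub_le_two (posSemidef_reduced (by omega : r ≤ n + 1) R a b hR v h2.1)
      (posSemidef_reduced (by omega : r ≤ n + 1) R a b hR v h1.1)
  by_cases hbig : s₀ < u
  · filter_upwards [hpsdR] with n h1 v
    refine (h1 v).trans ?_
    have h2 : 2 / s₀ ≤ B := by
      rw [hB]
      have : 0 ≤ (Fintype.card (R → Fin d) : ℝ) ^ 2 * B₁ := by positivity
      linarith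
    calc (2 : ℝ) = 2 / s₀ * s₀ := by field_simp
      _ ≤ B * u := mul_le_mul h2 hbig.le hs₀.le hB0
  push Not at hbig
  by_cases hsm : N < 4 * r
  · filter_upwards [hpsdR] with n h1 v
    refine (h1 v).trans ?_
    have h2 : 8 * (r : ℝ) ≤ B := by
      rw [hB]
      have : 0 ≤ (Fintype.card (R → Fin d) : ℝ) ^ 2 * B₁ := by positivity
      have : 0 < 2 / s₀ := by positivity
      linarith
    have h3 : (N : ℝ) ≤ 4 * r := by exact_mod_cast hsm.le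
    have h4 : 1 / (4 * (r : ℝ)) ≤ u ^ 2 := by
      rw [hu2]
      have : 1 / (4 * (r : ℝ)) ≤ 1 / N := one_div_le_one_div_of_le hNpos h3
      linarith
    have h5 : u ^ 2 ≤ u := by nlinarith
    have h6 : 1 / (4 * (r : ℝ)) ≤ u := h4.trans h5
    calc (2 : ℝ) = 8 * r * (1 / (4 * r)) := by field_simp; norm_num
      _ ≤ B * u := mul_le_mul h2 h6 (by positivity) hB0
  push Not at hsm
  have hu1 : u ≤ 1 := hbig.trans hs₀1
  have hN1 : 1 / (N : ℝ) ≤ u ^ 2 := by rw [hu2]; linarith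
  have hηu : η ≤ u ^ 2 := by
    rw [hu2]
    have : 0 ≤ 1 / (N : ℝ) := by positivity
    linarith
  -- the second order bounds in all directions
  have hall : ∀ᶠ n in atTop, ∀ (y : (Bool × Bool) × (R → Fin d) × (R → Fin d)),
      ∀ χ : (Site (n + 1) → Fin d) → ℂ,
      (enf g (reduced (n + 1) W 0 (ψ n)) + u * enf (dirM y.1 y.2.1 y.2.2)
        (reduced (n + 1) R 0 (ψ n)) - Cx y.1 y.2.1 y.2.2 * u ^ 2) *
        ((n + 1 : ℕ) : ℝ) ^ 2 * sqn χ ≤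
      ex (hamiltonian (n + 1) W g + (u : ℂ) • hamiltonian (n + 1) R (dirM y.1 y.2.1 y.2.2)) χ := by
    rw [Filter.eventually_all]
    intro y
    exact hS y.1 y.2.1 y.2.2 u hu0 (hbig.trans (hs₀le y))
  filter_upwards [hcR, hcW, hψ, hall, eventually_ge_atTop N, eventually_ge_atTop r] with
    n h1 h2 h3 h4 h5 h6 v
  obtain ⟨hψ0, hψW, hψR⟩ := h3
  have hrL : r ≤ n + 1 := by omega
  have hρR := posSemidef_reduced hrL R a b hR 0 hψ0
  have hσR := avgM_spec hr hrN R a b hR hT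
  -- energy of the average
  have hen := net_energy (L := n + 1) hr hsm (by omega) W a b hW g hc1 hgc hcb hT hmin (ψ n) hψ0
    (reduced (n + 1) W 0 (ψ n)) hψW
  have havg : enf g (avgM N r W a b T) = (1 / ((inn N r).card : ℝ) ^ 2) *
      ∑ k ∈ inn N r, ∑ l ∈ inn N r, enf g (reduced N W (posn N a b k l) T) := by
    unfold avgM
    rw [enf_smul', enf_sum]
    congr 1
    exact Finset.sum_congr rfl (fun k _ => enf_sum _ _ _)
  rw [← havg, abs_of_nonneg hη] at hen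
  have hdir : ∀ x i j, enf (dirM x i j) (reduced (n + 1) R 0 (ψ n) - avgM N r R a b T) ≤
      B₁ * u := by
    intro x i j
    have e1 := h4 (x, i, j) (pepsVec (n + 1) A)
    have e2 := dir_bound g (dirM x i j) hu0 (pepsVec (n + 1) A) h1.1 e1 (avgM N r W a b T)
      (avgM N r R a b T) h2.2 h1.2
    rw [← hcg] at e2
    simp only at e2
    rw [enf_sub']
    obtain ⟨δ, hδ⟩ : ∃ δ : ℝ, δ = 4 * ((r + 2 : ℝ) / N) := ⟨_, rfl⟩
    rw [← hδ] at e2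
    have hδ0 : 0 ≤ δ := by rw [hδ]; positivity
    have hδu : δ ≤ 4 * (r + 2) * u ^ 2 := by
      rw [hδ]
      have : (r + 2 : ℝ) / N = (r + 2) * (1 / N) := by ring
      rw [this]
      have := mul_le_mul_of_nonneg_left hN1 (by positivity : (0 : ℝ) ≤ r + 2)
      linarith
    have e3 : (cg + u * ∑ k, ∑ l, ‖dirM (m := R → Fin d) x i j k l‖) * δ ≤
        (cg + cV) * (4 * (r + 2) * u ^ 2) := by
      apply mul_le_mul _ hδu hδ0 (by positivity)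
      have e4 := hcVle x i j
      have e5 : 0 ≤ ∑ k, ∑ l, ‖dirM (m := R → Fin d) x i j k l‖ :=
        Finset.sum_nonneg (fun k _ => Finset.sum_nonneg (fun l _ => norm_nonneg _))
      have e6 : u * ∑ k, ∑ l, ‖dirM (m := R → Fin d) x i j k l‖ ≤ 1 * cV :=
        mul_le_mul hu1 e4 e5 zero_le_one
      linarith
    have e7 : 16 * r * c / N ≤ 16 * r * c * u ^ 2 := by
      have : 16 * r * c / N = 16 * r * c * (1 / N) := by ring
      rw [this]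
      exact mul_le_mul_of_nonneg_left hN1 (by positivity)
    have e8 : Cx x i j * u ^ 2 ≤ C₀ * u ^ 2 :=
      mul_le_mul_of_nonneg_right (hC₀le x i j) (by positivity)
    have e9 : u * (enf (dirM x i j) (reduced (n + 1) R 0 (ψ n)) -
        enf (dirM x i j) (avgM N r R a b T)) ≤ u * (B₁ * u) := by
      have : u * (B₁ * u) = C₀ * u ^ 2 + 16 * r * c * u ^ 2 + 2 * u ^ 2 +
          (cg + cV) * (4 * (r + 2) * u ^ 2) := by
        rw [hB₁]; ring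
      rw [this]
      linarith
    exact le_of_mul_le_mul_left e9 hu0
  have hfin := traceNorm_le_dirs (hρR.1.isHermitian.sub hσR.1.isHermitian) hdir
  have hlast := h1.2 v
  rw [hψR v]
  have h7 : reduced (n + 1) R 0 (ψ n) - reduced (n + 1) R v (pepsVec (n + 1) A) =
      (reduced (n + 1) R 0 (ψ n) - avgM N r R a b T) +
        (avgM N r R a b T - reduced (n + 1) R v (pepsVec (n + 1) A)) := by abel
  rw [h7]
  refine (traceNorm_add_le _ _).trans ?_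
  rw [traceNorm_sub_comm (avgM N r R a b T)]
  have h8 : 4 * ((r + 2 : ℝ) / N) ≤ 4 * (r + 2) * u := by
    have e1 : (r + 2 : ℝ) / N = (r + 2) * (1 / N) := by ring
    have e2 : 1 / (N : ℝ) ≤ u := hN1.trans (by nlinarith)
    rw [e1]
    have := mul_le_mul_of_nonneg_left e2 (by positivity : (0 : ℝ) ≤ r + 2)
    linarith
  have h9 : B * u = (Fintype.card (R → Fin d) : ℝ) ^ 2 * (B₁ * u) + 4 * (r + 2) * u +
      (2 / s₀ + 8 * r) * u := by
    rw [hB]; ring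
  have h10 : 0 ≤ (2 / s₀ + 8 * r) * u := by positivity
  rw [h9]
  linarith

theorem e2m_main {zr on : Fin d} (hzo : zr ≠ on) {W R : Finset (ℤ × ℤ)} {r : ℕ} (hr : 1 ≤ r)
    (a b : ℤ) (hW : ∀ p ∈ W, a ≤ p.1 ∧ p.1 < a + r ∧ b ≤ p.2 ∧ p.2 < b + r)
    (hR : ∀ p ∈ R, a ≤ p.1 ∧ p.1 < a + r ∧ b ≤ p.2 ∧ p.2 < b + r)
    (g : Matrix (W → Fin d) (W → Fin d) ℂ)
    (ψ : ∀ n : ℕ, (Site (n + 1) → Fin d) → ℂ)
    (hψ : ∀ᶠ n in atTop, ψ n ≠ 0 ∧ (∀ w, reduced (n + 1) W w (ψ n) = reduced (n + 1) W 0 (ψ n)) ∧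
      (∀ w, reduced (n + 1) R w (ψ n) = reduced (n + 1) R 0 (ψ n)))
    (hsec : ∀ x i j, SecOrdW W R g (dirM x i j) ψ) :
    ∃ B : ℝ, 0 ≤ B ∧ ∀ (N : ℕ) [NeZero N], r ≤ N → ∀ η : ℝ, 0 ≤ η →
      ∀ (Y : Type) [Fintype Y] [DecidableEq Y] (Wt : Site N → Fin d → Y → Y → Y → ℂ),
      netT Wt ≠ 0 →
      (∀ χ : (Site N → Fin d) → ℂ, χ ≠ 0 → ex (hamiltonian N W g) (netT Wt) / sqn (netT Wt) ≤
        ex (hamiltonian N W g) χ / sqn χ + η * (N : ℝ) ^ 2) →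
      ∃ D : ℕ, D = (N + 3) * ((N + 3) * (Fintype.card Y ^ 3 + 1)) ∧
        ∃ A : Fin d → Fin D → Fin D → Fin D → Fin D → ℂ,
        (∀ᶠ n in atTop, pepsVec (n + 1) A ≠ 0) ∧
        ∀ᶠ n in atTop, ∀ v : Site (n + 1),
          traceNorm (reduced (n + 1) R v (ψ n) - reduced (n + 1) R v (pepsVec (n + 1) A)) ≤
            B * √(η + 1 / N) := by
  obtain ⟨B, hB, h⟩ := e2m_main' hzo hr a b hW hR g ψ hψ hsec
  refine ⟨B, hB, fun N _ hrN η hη Y _ _ Wt hT hmin => ?_⟩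
  obtain ⟨D, hD, A, hA1, hA2⟩ := h N hrN η hη Y Wt hT hmin
  exact ⟨D, hD, A, hA1, hA2.mono (fun n hn v => (hn v).1)⟩

end main

end Pool.Agent.Hhelper96.PEPS
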