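import Pool.Agent.Hhelper96.UB.E2M

/-!
From the energy to the marginals, main statement.
-/

set_option autoImplicit false
set_option linter.unusedSectionVars false

open scoped BigOperators Topology ComplexOrder
open Matrix Filter

namespace Pool.Agent.Hhelper96.PEPS

section dirs

variable {m : Type} [Fintype m] [DecidableEq m]

/-- a finite set of directions -/
noncomputable def dirM (x : Bool × Bool) (i j : m) : Matrix m m ℂ :=
  (if x.2 then (1 : ℝ) else -1) • (if x.1 then Matrix.single i j (1 : ℂ) + Matrix.single j i 1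
    else Complex.I • (Matrix.single i j (1 : ℂ) - Matrix.single j i 1))

theorem dirM_isHermitian (x : Bool × Bool) (i j : m) : (dirM x i j).IsHermitian := by
  unfold dirM
  have h1 : (if x.1 then Matrix.single i j (1 : ℂ) + Matrix.single j i 1
    else Complex.I • (Matrix.single i j (1 : ℂ) - Matrix.single j i 1)).IsHermitian := by
    split_ifs
    · exact isHermitian_single_add i j
    · exact isHermitian_single_sub i j
  obtain ⟨A, hA⟩ : ∃ A, A = (if x.1 then Matrix.single i j (1 : ℂ) + Matrix.single j i 1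
    else Complex.I • (Matrix.single i j (1 : ℂ) - Matrix.single j i 1)) := ⟨_, rfl⟩
  rw [← hA] at h1 ⊢
  split_ifs
  · rw [one_smul]; exact h1
  · rw [neg_smul, one_smul]; exact h1.neg

/-- the expectation values in the finitely many directions bound the trace norm -/
theorem traceNorm_le_dirs {Z : Matrix m m ℂ} (hZ : Z.IsHermitian) {B : ℝ}
    (hB : ∀ x i j, enf (dirM x i j) Z ≤ B) :
    traceNorm Z ≤ (Fintype.card m : ℝ) ^ 2 * B := by
  refine (traceNorm_le_sum Z).trans ?_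
  have h1 : ∀ i j, ‖Z i j‖ ≤ B := by
    intro i j
    have e1 := hB (true, true) i j
    have e2 := hB (true, false) i j
    have e3 := hB (false, true) i j
    have e4 := hB (false, false) i j
    unfold dirM at e1 e2 e3 e4
    simp only [if_true, one_smul, Bool.false_eq_true, if_false, neg_smul] at e1 e2 e3 e4
    rw [enf_neg_left, enf_single_add hZ] at e2
    rw [enf_single_add hZ] at e1
    rw [enf_neg_left, enf_single_sub hZ] at e4
    rw [enf_single_sub hZ] at e3
    have h2 : |(Z i j).re| ≤ B / 2 := by rw [abs_le]; constructor <;> linarith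
    have h3 : |(Z i j).im| ≤ B / 2 := by rw [abs_le]; constructor <;> linarith
    have := Complex.norm_le_abs_re_add_abs_im (Z i j)
    linarith
  refine (Finset.sum_le_sum (fun i _ => Finset.sum_le_sum (fun j _ => h1 i j))).trans
    (le_of_eq ?_)
  simp only [Finset.sum_const, Finset.card_univ, nsmul_eq_mul]
  ring

end dirs

section main

variable {d : ℕ}

/-- second order lower bound of the energy in the direction `V`, one window for the energy -/
def SecOrdW (W R : Finset (ℤ × ℤ)) (g : Matrix (W → Fin d) (W → Fin d) ℂ)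
    (V : Matrix (R → Fin d) (R → Fin d) ℂ) (ψ : ∀ n : ℕ, (Site (n + 1) → Fin d) → ℂ) : Prop :=
  ∃ C : ℝ, 0 ≤ C ∧ ∃ s₀ : ℝ, 0 < s₀ ∧ ∀ s : ℝ, 0 < s → s ≤ s₀ → ∀ᶠ n in atTop,
    ∀ χ : (Site (n + 1) → Fin d) → ℂ,
      (enf g (reduced (n + 1) W 0 (ψ n)) + s * enf V (reduced (n + 1) R 0 (ψ n)) - C * s ^ 2) *
        ((n + 1 : ℕ) : ℝ) ^ 2 * sqn χ ≤
      ex (hamiltonian (n + 1) W g + (s : ℂ) • hamiltonian (n + 1) R V) χ

theorem dir_bound {L : ℕ} [NeZero L] {W R : Finset (ℤ × ℤ)}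
    (g : Matrix (W → Fin d) (W → Fin d) ℂ) (V : Matrix (R → Fin d) (R → Fin d) ℂ) {s x : ℝ}
    (hs : 0 < s) (Φ : (Site L → Fin d) → ℂ) (hΦ : Φ ≠ 0)
    (h : x * (L : ℝ) ^ 2 * sqn Φ ≤ ex (hamiltonian L W g + (s : ℂ) • hamiltonian L R V) Φ)
    (σW : Matrix (W → Fin d) (W → Fin d) ℂ) (σR : Matrix (R → Fin d) (R → Fin d) ℂ) {δ : ℝ}
    (hW : ∀ v, traceNorm (reduced L W v Φ - σW) ≤ δ)
    (hR : ∀ v, traceNorm (reduced L R v Φ - σR) ≤ δ) :
    x ≤ enf g σW + s * enf V σR +
      ((∑ i, ∑ j, ‖g i j‖) + s * ∑ i, ∑ j, ‖V i j‖) * δ := by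
  obtain ⟨cg, hcg⟩ : ∃ cg, cg = ∑ i, ∑ j, ‖g i j‖ := ⟨_, rfl⟩
  obtain ⟨cV, hcV⟩ : ∃ cV, cV = ∑ i, ∑ j, ‖V i j‖ := ⟨_, rfl⟩
  have hcg0 : 0 ≤ cg := by rw [hcg]; positivity
  have hcV0 : 0 ≤ cV := by rw [hcV]; positivity
  rw [← hcg, ← hcV]
  rw [ex_add, ex_smul, ex_hamiltonian g hΦ, ex_hamiltonian V hΦ] at h
  have h1 : ∀ v, enf g (reduced L W v Φ) ≤ enf g σW + cg * δ := by
    intro v
    have e1 := (abs_le.1 (abs_enf_le_traceNorm g (reduced L W v Φ - σW))).2
    rw [enf_sub', ← hcg] at e1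
    have e2 := mul_le_mul_of_nonneg_left (hW v) hcg0
    linarith
  have h2 : ∀ v, enf V (reduced L R v Φ) ≤ enf V σR + cV * δ := by
    intro v
    have e1 := (abs_le.1 (abs_enf_le_traceNorm V (reduced L R v Φ - σR))).2
    rw [enf_sub', ← hcV] at e1
    have e2 := mul_le_mul_of_nonneg_left (hR v) hcV0
    linarith
  have hcard : ((Finset.univ : Finset (Site L)).card : ℝ) = (L : ℝ) ^ 2 := by
    rw [Finset.card_univ, Fintype.card_prod, ZMod.card]
    push_cast
    ring
  have h3 : ∑ v, enf g (reduced L W v Φ) ≤ (L : ℝ) ^ 2 * (enf g σW + cg * δ) := by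
    refine (Finset.sum_le_sum (fun v _ => h1 v)).trans (le_of_eq ?_)
    rw [Finset.sum_const, nsmul_eq_mul, hcard]
  have h4 : ∑ v, enf V (reduced L R v Φ) ≤ (L : ℝ) ^ 2 * (enf V σR + cV * δ) := by
    refine (Finset.sum_le_sum (fun v _ => h2 v)).trans (le_of_eq ?_)
    rw [Finset.sum_const, nsmul_eq_mul, hcard]
  have hq : (0 : ℝ) < (L : ℝ) ^ 2 := by
    have : (0 : ℝ) < L := by exact_mod_cast NeZero.pos L
    positivity
  have hpos := sqn_pos hΦ
  have h5 : x * (L : ℝ) ^ 2 * sqn Φ ≤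
      ((enf g σW + s * enf V σR + (cg + s * cV) * δ) * (L : ℝ) ^ 2) * sqn Φ := by
    refine h.trans ?_
    have e1 := mul_le_mul_of_nonneg_left h3 hpos.le
    have e2 := mul_le_mul_of_nonneg_left h4 hpos.le
    have e3 := mul_le_mul_of_nonneg_left e2 hs.le
    calc sqn Φ * ∑ v, enf g (reduced L W v Φ) + s * (sqn Φ * ∑ v, enf V (reduced L R v Φ))
        ≤ sqn Φ * ((L : ℝ) ^ 2 * (enf g σW + cg * δ)) +
          s * (sqn Φ * ((L : ℝ) ^ 2 * (enf V σR + cV * δ))) := add_le_add e1 e3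
      _ = _ := by ring
  have h6 := le_of_mul_le_mul_right h5 hpos
  exact le_of_mul_le_mul_right h6 hq

/-- the average of the marginals on the interior windows -/
noncomputable def avgM (N r : ℕ) [NeZero N] (R : Finset (ℤ × ℤ)) (a b : ℤ)
    (T : (Site N → Fin d) → ℂ) : Matrix (R → Fin d) (R → Fin d) ℂ :=
  ((1 / ((inn N r).card : ℝ) ^ 2 : ℝ) : ℂ) •
    ∑ k ∈ inn N r, ∑ l ∈ inn N r, reduced N R (posn N a b k l) T

theorem avgM_spec {N r : ℕ} [NeZero N] (hr : 1 ≤ r) (hrN : r ≤ N) (R : Finset (ℤ × ℤ)) (a b : ℤ)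
    (hR : ∀ p ∈ R, a ≤ p.1 ∧ p.1 < a + r ∧ b ≤ p.2 ∧ p.2 < b + r) {T : (Site N → Fin d) → ℂ}
    (hT : T ≠ 0) :
    (avgM N r R a b T).PosSemidef ∧ (avgM N r R a b T).trace = 1 ∧
      ∑ k ∈ inn N r, ∑ l ∈ inn N r, (reduced N R (posn N a b k l) T - avgM N r R a b T) = 0 := by
  have hcard := card_inn hr hrN
  have hcpos : 0 < (inn N r).card := by omega
  have hcR : ((inn N r).card : ℝ) ≠ 0 := by exact_mod_cast hcpos.ne'
  have hcC : ((inn N r).card : ℂ) ≠ 0 := by exact_mod_cast hcpos.ne'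
  refine ⟨?_, ?_, ?_⟩
  · unfold avgM
    apply Matrix.PosSemidef.smul
    · exact Matrix.posSemidef_sum _ (fun k _ => Matrix.posSemidef_sum _ (fun l _ =>
        (posSemidef_reduced hrN R a b hR _ hT).1))
    · rw [Complex.zero_le_real]
      positivity
  · unfold avgM
    rw [Matrix.trace_smul, Matrix.trace_sum]
    have h1 : ∀ k ∈ inn N r, (∑ l ∈ inn N r, reduced N R (posn N a b k l) T).trace =
        ((inn N r).card : ℂ) := by
      intro k _
      rw [Matrix.trace_sum, Finset.sum_congr rfl (fun l _ =>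
        (posSemidef_reduced hrN R a b hR (posn N a b k l) hT).2)]
      simp
    rw [Finset.sum_congr rfl h1]
    simp only [Finset.sum_const, nsmul_eq_mul, smul_eq_mul]
    push_cast
    field_simp
  · simp only [Finset.sum_sub_distrib, Finset.sum_const]
    unfold avgM
    rw [← Nat.cast_smul_eq_nsmul ℂ, ← Nat.cast_smul_eq_nsmul ℂ, smul_smul, smul_smul]
    have : ((inn N r).card : ℂ) * (((inn N r).card : ℂ) *
        ((1 / ((inn N r).card : ℝ) ^ 2 : ℝ) : ℂ)) = 1 := by
      push_cast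
      field_simp
    rw [← mul_assoc] at this
    rw [this, one_smul, sub_self]

end main

end Pool.Agent.Hhelper96.PEPS
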