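import Pool.Agent.Hhelper96.PEPS.Spectral

/-!
Number of eigenvalues below a level.
-/

set_option autoImplicit false

open Matrix

namespace Pool.Agent.Hhelper96.PEPS

open Classical in
/-- the number of eigenvalues `≤ x` of `H`, with multiplicity: the number of roots with real part
`≤ x` of the characteristic polynomial -/
noncomputable def eigCount {n : Type} [Fintype n] (H : Matrix n n ℂ) (x : ℝ) : ℕ :=
  (H.charpoly.roots.filter (fun z => z.re ≤ x)).card

end Pool.Agent.Hhelper96.PEPS
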