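import Pool.Agent.Hhelper96.PEPS.Spectral

/-!
Statement of the cluster form of the product formula estimate: `exp (-t H)` is approximated, up to a
factor `exp (± C |I| / 2 ^ m)`, by `T Tᴴ`, where `T` is a product over the colours of exponentials of
sums of commuting blocks of diameter `m`.
-/

set_option autoImplicit false

open scoped BigOperators
open Matrix

namespace Pool.Agent.Hhelper96.PEPS

/-- the terms which can be reached from `i` in `m` steps -/
def reach {I : Type} [DecidableEq I] (nb : I → Finset I) : ℕ → I → Finset I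
  | 0, i => {i}
  | m + 1, i => reach nb m i ∪ (reach nb m i).biUnion nb

/-- the terms of smaller colour near `i` -/
noncomputable def lowerSum {n I : Type} [Fintype n] [DecidableEq n] {c : ℕ}
    (h : I → Matrix n n ℂ) (col : I → Fin c) (B : I → Finset I) (i : I) : Matrix n n ℂ :=
  ∑ j ∈ (B i).filter (fun j => col j < col i), h j

/-- the two gates of the colour `k` -/
noncomputable def layer {n I : Type} [Fintype n] [DecidableEq n] [Fintype I] {c : ℕ}
    (h : I → Matrix n n ℂ) (col : I → Fin c) (B : I → Finset I) (τ : ℝ) (k : Fin c) :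
    Matrix n n ℂ :=
  NormedSpace.exp ((-τ) • ∑ i ∈ Finset.univ.filter (fun i => col i = k),
      (lowerSum h col B i + h i)) *
    NormedSpace.exp (τ • ∑ i ∈ Finset.univ.filter (fun i => col i = k), lowerSum h col B i)

/-- the product of the layers, the last colour on the left -/
noncomputable def layers {n I : Type} [Fintype n] [DecidableEq n] [Fintype I] {c : ℕ}
    (h : I → Matrix n n ℂ) (col : I → Fin c) (B : I → Finset I) (τ : ℝ) : Matrix n n ℂ :=
  ((List.finRange c).reverse.map (layer h col B τ)).prod

/-- the statement of the cluster estimate -/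
def ClusterStmt (z : ℕ) : Prop :=
  ∃ (t₀ C : ℝ), 0 < t₀ ∧ 0 ≤ C ∧
    ∀ (n I : Type) [Fintype n] [DecidableEq n] [Nonempty n] [Fintype I] [DecidableEq I] (c m : ℕ)
      (h : I → Matrix n n ℂ) (col : I → Fin c) (nb : I → Finset I),
      (∀ i, (h i).IsHermitian) → (∀ i (φ : n → ℂ), sqn ((h i).mulVec φ) ≤ sqn φ) →
      (∀ i, (nb i).card ≤ z) → (∀ i j, j ∉ nb i → Commute (h i) (h j)) →
      (∀ i i', i ≠ i' → col i = col i' → i' ∉ reach nb m i) →
      (∀ i i', i ≠ i' → col i = col i' → ∀ j ∈ reach nb m i, ∀ j' ∈ reach nb m i',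
        Commute (h j) (h j')) →
      ∀ t, 0 < t → t ≤ t₀ → ∀ φ : n → ℂ,
        Real.exp (-(C * Fintype.card I / 2 ^ m)) *
            ex (NormedSpace.exp ((-t) • ∑ i, h i)) φ ≤
          ex (layers h col (reach nb m) (t / 2) * (layers h col (reach nb m) (t / 2))ᴴ) φ ∧
        ex (layers h col (reach nb m) (t / 2) * (layers h col (reach nb m) (t / 2))ᴴ) φ ≤
          Real.exp (C * Fintype.card I / 2 ^ m) *
            ex (NormedSpace.exp ((-t) • ∑ i, h i)) φ

end Pool.Agent.Hhelper96.PEPS
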