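import Pool.Agent.Hhelper17.PE.Engine
import Pool.Agent.Hhelper96.UB.SandwichC

/-!
Low energy vectors from a matrix `T Tᴴ` which is close to `exp (-s H)` as a form: powers of `T Tᴴ`
applied to a basis vector.
-/

set_option autoImplicit false
set_option linter.unusedSectionVars false

open scoped BigOperators Matrix.Norms.L2Operator
open Matrix Pool.Agent.Hhelper17.PE

namespace Pool.Agent.Hhelper96.PEPS

namespace Sw

variable {n : Type} [Fintype n] [DecidableEq n] [Nonempty n]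

/-- The form inequality. -/
def Sand (H T : Matrix n n ℂ) (s κ : ℝ) : Prop :=
  ∀ φ : n → ℂ,
      Real.exp (-κ) * ex (NormedSpace.exp ((-s) • H)) φ ≤ ex (T * Tᴴ) φ ∧
      ex (T * Tᴴ) φ ≤ Real.exp κ * ex (NormedSpace.exp ((-s) • H)) φ

theorem real_smul (s : ℝ) (H : Matrix n n ℂ) : s • H = ((s : ℝ) : ℂ) • H := by
  ext i j
  simp

theorem ex_zero_vec (A : Matrix n n ℂ) : ex A 0 = 0 := by
  unfold ex
  rw [Matrix.mulVec_zero, dotProduct_zero, Complex.zero_re]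

theorem exp_pos {H : Matrix n n ℂ} (hH : H.IsHermitian) (a : ℝ) {φ : n → ℂ} (hφ : φ ≠ 0) :
    0 < ex (NormedSpace.exp ((a : ℂ) • H)) φ :=
  lt_of_lt_of_le (mul_pos (sqn_pos hφ) (Real.exp_pos _)) (jensen hH a hφ)

theorem sqn_eq_zero {φ : n → ℂ} (h : sqn φ = 0) : φ = 0 := by
  by_contra hne
  exact absurd h (sqn_pos hne).ne'

/-- `T` is invertible. -/
theorem exists_inv {H T : Matrix n n ℂ} (hH : H.IsHermitian) {s κ : ℝ} (hsand : Sand H T s κ) :
    ∃ Ti : Matrix n n ℂ, Ti * T = 1 ∧ T * Ti = 1 := by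
  have hinj : Function.Injective (Tᴴ.mulVec) := by
    intro u v huv
    have h0 : Tᴴ.mulVec (u - v) = 0 := by
      rw [Matrix.mulVec_sub]
      exact sub_eq_zero.mpr huv
    by_contra hne
    have hne' : u - v ≠ 0 := sub_ne_zero.mpr hne
    have h1 := (hsand (u - v)).1
    rw [ex_mul_conj, h0, real_smul] at h1
    have h2 := exp_pos hH (-s) hne'
    have h3 : sqn (0 : n → ℂ) = 0 := by simp [sqn]
    rw [h3] at h1
    have h4 := mul_pos (Real.exp_pos (-κ)) h2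
    linarith
  have hu : IsUnit Tᴴ := Matrix.mulVec_injective_iff_isUnit.mp hinj
  have hu' : IsUnit T := by
    rw [Matrix.isUnit_iff_isUnit_det] at hu ⊢
    rw [Matrix.det_conjTranspose] at hu
    exact isUnit_star.mp hu
  obtain ⟨U, hU⟩ := hu'
  refine ⟨((U⁻¹ : (Matrix n n ℂ)ˣ) : Matrix n n ℂ), ?_, ?_⟩
  · rw [← hU]; exact U.inv_mul
  · rw [← hU]; exact U.mul_inv

/-- The energy bound. -/
theorem energy {H T Ti : Matrix n n ℂ} (hH : H.IsHermitian) {s κ : ℝ} (hsand : Sand H T s κ)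
    (hTT : T * Ti = 1) {u : n → ℂ} (hu : u ≠ 0) :
    Real.exp (-κ) * (sqn u * Real.exp (s * (ex H u / sqn u))) ≤ sqn (Ti.mulVec u) := by
  obtain ⟨E, hE⟩ : ∃ E : ℝ → Matrix n n ℂ, E = fun a : ℝ => NormedSpace.exp ((a : ℂ) • H) :=
    ⟨_, rfl⟩
  have hEE : ∀ a b, E a * E b = E (a + b) := by
    intro a b
    rw [hE]
    simp only
    rw [← exp_add_smul]
    congr 2
    push_cast
    rfl
  have hEh : ∀ a, (E a)ᴴ = E a := by
    intro a
    rw [hE]
    exact exp_herm hH a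
  have hE0 : E 0 = 1 := by
    rw [hE]
    simp [NormedSpace.exp_zero]
  have hsqE : ∀ a (u : n → ℂ), sqn ((E a).mulVec u) = ex (E (a + a)) u := by
    intro a u
    rw [← ex_conj_mul, hEh, hEE]
  have hjen : ∀ a (u : n → ℂ), u ≠ 0 → sqn u * Real.exp (a * (ex H u / sqn u)) ≤ ex (E a) u := by
    intro a u hu
    rw [hE]
    exact jensen hH a hu
  obtain ⟨W, hW⟩ : ∃ W, W = E (1 / 2 * s) * T := ⟨_, rfl⟩
  have hWs : Wᴴ = Tᴴ * E (1 / 2 * s) := by
    rw [hW, Matrix.conjTranspose_mul, hEh]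
  have hexpE : NormedSpace.exp ((-s) • H) = E (-s) := by
    rw [real_smul, hE]
  have hsw : ∀ u : n → ℂ, sqn (Wᴴ.mulVec u) ≤ Real.exp κ * sqn u := by
    intro u
    have h1 := (hsand ((E (1 / 2 * s)).mulVec u)).2
    rw [ex_mul_conj, Matrix.mulVec_mulVec, ← hWs, hexpE] at h1
    have h2 : ex (E (-s)) ((E (1 / 2 * s)).mulVec u) = sqn u := by
      have h3 := hsqE (-(1 / 2 * s)) ((E (1 / 2 * s)).mulVec u)
      rw [Matrix.mulVec_mulVec, hEE, neg_add_cancel, hE0, Matrix.one_mulVec] at h3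
      rw [h3]
      congr 2
      ring
    rw [h2] at h1
    exact h1
  have hWn : ∀ u : n → ℂ, sqn (W.mulVec u) ≤ Real.exp κ * sqn u := by
    intro u
    have h1 := re_inner_mulVec W u
    have h2 := hsw (W.mulVec u)
    have h3 := sqn_nonneg (W.mulVec u)
    have h4 := sqn_nonneg u
    rcases eq_or_lt_of_le h3 with h5 | h5
    · rw [← h5]
      positivity
    · have h6 : √(sqn (Wᴴ.mulVec (W.mulVec u))) ≤ √(Real.exp κ * sqn (W.mulVec u)) :=
        Real.sqrt_le_sqrt h2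
      have h7 : sqn (W.mulVec u) ≤ √(sqn u) * √(Real.exp κ * sqn (W.mulVec u)) :=
        h1.trans (mul_le_mul_of_nonneg_left h6 (Real.sqrt_nonneg _))
      have h8 : sqn (W.mulVec u) ^ 2 ≤ sqn u * (Real.exp κ * sqn (W.mulVec u)) := by
        calc sqn (W.mulVec u) ^ 2 ≤ (√(sqn u) * √(Real.exp κ * sqn (W.mulVec u))) ^ 2 :=
              pow_le_pow_left₀ h3 h7 2
          _ = _ := by
              rw [mul_pow, Real.sq_sqrt h4, Real.sq_sqrt (by positivity)]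
      have h9 : sqn (W.mulVec u) * sqn (W.mulVec u) ≤
          (Real.exp κ * sqn u) * sqn (W.mulVec u) := by
        calc sqn (W.mulVec u) * sqn (W.mulVec u) = sqn (W.mulVec u) ^ 2 := by ring
          _ ≤ _ := h8
          _ = _ := by ring
      exact le_of_mul_le_mul_right h9 h5
  have h1 := hWn (Ti.mulVec u)
  rw [Matrix.mulVec_mulVec, hW, Matrix.mul_assoc, hTT, Matrix.mul_one, hsqE] at h1
  have h2 := hjen (1 / 2 * s + 1 / 2 * s) u hu
  have h3 : (1 / 2 * s + 1 / 2 * s) * (ex H u / sqn u) = s * (ex H u / sqn u) := by ring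
  rw [h3] at h2
  rw [Real.exp_neg, inv_mul_le_iff₀ (Real.exp_pos _)]
  exact h2.trans h1

/-- The first moment from below. -/
theorem first {H T : Matrix n n ℂ} (hH : H.IsHermitian) {s κ : ℝ} (hsand : Sand H T s κ)
    {u : n → ℂ} (hu : u ≠ 0) :
    Real.exp (-κ) * (sqn u * Real.exp (-(s * (ex H u / sqn u)))) ≤ sqn (Tᴴ.mulVec u) := by
  have h1 := (hsand u).1
  rw [ex_mul_conj, real_smul] at h1
  have h2 := jensen hH (-s) hu
  have h3 : -s * (ex H u / sqn u) = -(s * (ex H u / sqn u)) := by ring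
  rw [h3] at h2
  exact (mul_le_mul_of_nonneg_left h2 (Real.exp_pos _).le).trans h1

theorem single_ne (x : n) : (Pi.single x 1 : n → ℂ) ≠ 0 := by
  intro h0
  have := sqn_single x
  rw [h0] at this
  simp [sqn] at this

/-- `s * energy` of the vector `(T Tᴴ) ^ q e_x`, compared with the moments. -/
theorem main {H T : Matrix n n ℂ} (hH : H.IsHermitian) {s κ : ℝ} (hsand : Sand H T s κ)
    (q : ℕ) (hq : 1 ≤ q) (x : n) :
    ((T * Tᴴ) ^ q).mulVec (Pi.single x 1) ≠ 0 ∧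
    ∀ j, j < 2 * q →
      (2 * q - j : ℕ) * (s * (ex H (((T * Tᴴ) ^ q).mulVec (Pi.single x 1)) /
        sqn (((T * Tᴴ) ^ q).mulVec (Pi.single x 1)))) ≤
      (2 * q - j : ℕ) * κ + Real.log (sqn (zig T (Pi.single x 1) j) /
        sqn (zig T (Pi.single x 1) (2 * q))) := by
  obtain ⟨Ti, hTi1, hTi2⟩ := exists_inv hH hsand
  have hx0 := single_ne x
  have hne : ((T * Tᴴ) ^ q).mulVec (Pi.single x 1) ≠ 0 := by
    rw [← zig_even]
    exact zig_ne_zero hTi1 hTi2 hx0 _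
  refine ⟨hne, ?_⟩
  intro j hj
  obtain ⟨φ, hφ⟩ : ∃ φ, φ = ((T * Tᴴ) ^ q).mulVec (Pi.single x 1) := ⟨_, rfl⟩
  rw [← hφ] at hne ⊢
  have hmpos : ∀ j, 0 < sqn (zig T (Pi.single x 1) j) :=
    fun j => sqn_pos (zig_ne_zero hTi1 hTi2 hx0 j)
  obtain ⟨k, hk⟩ : ∃ k, 2 * q = j + (k + 1) := ⟨2 * q - j - 1, by omega⟩
  have hm := (logconv (m := fun i => sqn (zig T (Pi.single x 1) (j + i))) (fun i => hmpos _)
    (fun i => zig_logconv T _ (j + i)) k).2
  have e3 : zig T (Pi.single x 1) (2 * q) = φ := by rw [hφ, zig_even]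
  have e4 : Ti.mulVec φ = zig T (Pi.single x 1) (2 * q - 1) := by
    obtain ⟨i, hi⟩ : ∃ i, q = i + 1 := ⟨q - 1, by omega⟩
    have h1 : 2 * q = 2 * i + 2 := by omega
    have h2 : 2 * q - 1 = 2 * i + 1 := by omega
    rw [← e3, h1, zig_even_succ, Matrix.mulVec_mulVec, hTi1, Matrix.one_mulVec]
    congr 1
  have h5 : 2 * q - 1 = j + k := by omega
  have h6 : 2 * q - j = k + 1 := by omega
  have hE := energy hH hsand hTi2 hne
  rw [e4, h5] at hE
  rw [h6]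
  rw [hk] at e3
  simp only [add_zero] at hm
  rw [e3] at hm
  rw [hk, e3]
  obtain ⟨b, hb⟩ : ∃ b, b = sqn (zig T (Pi.single x 1) (j + k)) := ⟨_, rfl⟩
  obtain ⟨a, ha⟩ : ∃ a, a = sqn (zig T (Pi.single x 1) j) := ⟨_, rfl⟩
  have hbpos : 0 < b := by rw [hb]; exact hmpos _
  have hapos : 0 < a := by rw [ha]; exact hmpos _
  have hφpos := sqn_pos hne
  rw [← hb] at hE
  rw [← ha, ← hb] at hm
  rw [← ha]
  obtain ⟨e, he⟩ : ∃ e, e = s * (ex H φ / sqn φ) := ⟨_, rfl⟩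
  rw [← he] at hE ⊢
  -- `exp (e - κ) * r ≤ 1`
  have h7 : Real.exp (e - κ) * (sqn φ / b) ≤ 1 := by
    rw [sub_eq_neg_add, Real.exp_add, ← mul_div_assoc, div_le_one hbpos]
    calc Real.exp (-κ) * Real.exp e * sqn φ = Real.exp (-κ) * (sqn φ * Real.exp e) := by ring
      _ ≤ _ := hE
  have h8 : (Real.exp (e - κ) * (sqn φ / b)) ^ (k + 1) ≤ 1 :=
    pow_le_one₀ (by positivity) h7
  rw [mul_pow, ← Real.exp_nat_mul] at h8
  have h9 : Real.exp (((k + 1 : ℕ) : ℝ) * (e - κ)) * sqn φ ≤ a := by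
    calc Real.exp (((k + 1 : ℕ) : ℝ) * (e - κ)) * sqn φ
        ≤ Real.exp (((k + 1 : ℕ) : ℝ) * (e - κ)) * (a * (sqn φ / b) ^ (k + 1)) :=
          mul_le_mul_of_nonneg_left hm (Real.exp_pos _).le
      _ = a * (Real.exp (((k + 1 : ℕ) : ℝ) * (e - κ)) * (sqn φ / b) ^ (k + 1)) := by ring
      _ ≤ a * 1 := mul_le_mul_of_nonneg_left h8 hapos.le
      _ = a := mul_one a
  have h10 : ((k + 1 : ℕ) : ℝ) * (e - κ) ≤ Real.log (a / sqn φ) := by
    rw [← Real.log_exp (((k + 1 : ℕ) : ℝ) * (e - κ))]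
    apply Real.log_le_log (Real.exp_pos _)
    rw [le_div_iff₀ hφpos]
    exact h9
  linarith

/-- Moments of an arbitrary vector. -/
theorem power {H T : Matrix n n ℂ} (hH : H.IsHermitian) {s κ : ℝ} (hsand : Sand H T s κ)
    (q : ℕ) {ψ : n → ℂ} (hψ : ψ ≠ 0) :
    Real.exp (-(2 * q * (κ + s * (ex H ψ / sqn ψ)))) * sqn ψ ≤
      sqn (((T * Tᴴ) ^ q).mulVec ψ) := by
  obtain ⟨Ti, hTi1, hTi2⟩ := exists_inv hH hsand
  have hMpos : ∀ j, 0 < sqn (zig T ψ j) := fun j => sqn_pos (zig_ne_zero hTi1 hTi2 hψ j)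
  have hM := (logconv hMpos (zig_logconv T _) (2 * q)).1
  have e1 : zig T ψ 0 = ψ := rfl
  have e2 : zig T ψ 1 = Tᴴ.mulVec ψ := zig_odd T ψ 0
  rw [e1, e2, zig_even] at hM
  refine le_trans ?_ hM
  have hψpos := sqn_pos hψ
  have h1 := first hH hsand hψ
  have h2 : Real.exp (-(κ + s * (ex H ψ / sqn ψ))) ≤ sqn (Tᴴ.mulVec ψ) / sqn ψ := by
    rw [le_div_iff₀ hψpos, neg_add, Real.exp_add]
    calc Real.exp (-κ) * Real.exp (-(s * (ex H ψ / sqn ψ))) * sqn ψ
        = Real.exp (-κ) * (sqn ψ * Real.exp (-(s * (ex H ψ / sqn ψ)))) := by ring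
      _ ≤ _ := h1
  have h3 := pow_le_pow_left₀ (Real.exp_pos _).le h2 (2 * q)
  rw [← Real.exp_nat_mul] at h3
  have h4 : ((2 * q : ℕ) : ℝ) * -(κ + s * (ex H ψ / sqn ψ)) =
      -(2 * q * (κ + s * (ex H ψ / sqn ψ))) := by push_cast; ring
  rw [h4] at h3
  rw [mul_comm]
  exact mul_le_mul_of_nonneg_left h3 hψpos.le

end Sw

variable {n : Type} [Fintype n] [DecidableEq n] [Nonempty n]

/-- E1 -/
theorem energy_of_sandwich {H T : Matrix n n ℂ} (hH : H.IsHermitian) {s κ : ℝ} (hs : 0 < s)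
    (_hκ : 0 ≤ κ) (hsand : ∀ φ : n → ℂ,
      Real.exp (-κ) * ex (NormedSpace.exp ((-s) • H)) φ ≤ ex (T * Tᴴ) φ ∧
      ex (T * Tᴴ) φ ≤ Real.exp κ * ex (NormedSpace.exp ((-s) • H)) φ)
    (q : ℕ) (hq : 1 ≤ q) (ψ : n → ℂ) (hψ : ψ ≠ 0) :
    ∃ x : n, ((T * Tᴴ) ^ q).mulVec (Pi.single x 1) ≠ 0 ∧
      ex H (((T * Tᴴ) ^ q).mulVec (Pi.single x 1)) / sqn (((T * Tᴴ) ^ q).mulVec (Pi.single x 1)) ≤
        ex H ψ / sqn ψ + 2 * κ / s + Real.log (Fintype.card n) / (2 * q * s) := by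
  obtain ⟨x, hx⟩ := exists_col ((T * Tᴴ) ^ q) ψ
  obtain ⟨hne, h1⟩ := Sw.main hH hsand q hq x
  refine ⟨x, hne, ?_⟩
  have h2 := h1 0 (by omega)
  have e0 : sqn (zig T (Pi.single x 1) 0) = 1 := sqn_single x
  rw [e0, zig_even, Nat.sub_zero] at h2
  have h3 := Sw.power hH hsand q hψ
  obtain ⟨φ, hφ⟩ : ∃ φ, φ = ((T * Tᴴ) ^ q).mulVec (Pi.single x 1) := ⟨_, rfl⟩
  rw [← hφ] at hne hx h2 ⊢
  have hφpos := sqn_pos hne
  have hψpos := sqn_pos hψ
  have hcard : (0 : ℝ) < Fintype.card n := by exact_mod_cast Fintype.card_pos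
  have h4 : Real.exp (-(2 * q * (κ + s * (ex H ψ / sqn ψ)))) ≤ Fintype.card n * sqn φ := by
    refine le_of_mul_le_mul_right ?_ hψpos
    exact h3.trans hx
  have h5 : -(2 * q * (κ + s * (ex H ψ / sqn ψ))) ≤ Real.log (Fintype.card n) + Real.log (sqn φ) := by
    rw [← Real.log_mul hcard.ne' hφpos.ne', ← Real.log_exp (-(2 * q * (κ + s * (ex H ψ / sqn ψ))))]
    exact Real.log_le_log (Real.exp_pos _) h4
  rw [Real.log_div one_ne_zero hφpos.ne', Real.log_one] at h2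
  push_cast at h2
  have hqpos : (0 : ℝ) < q := by exact_mod_cast hq
  have h6 : 2 * q * (s * (ex H φ / sqn φ)) ≤
      2 * q * (s * (ex H ψ / sqn ψ)) + 4 * q * κ + Real.log (Fintype.card n) := by linarith
  have h7 : ex H φ / sqn φ ≤
      (2 * q * (s * (ex H ψ / sqn ψ)) + 4 * q * κ + Real.log (Fintype.card n)) / (2 * q * s) := by
    rw [le_div_iff₀ (by positivity)]
    linarith
  refine h7.trans (le_of_eq ?_)
  field_simp
  ring

namespace Sw

theorem spectral {A : Matrix n n ℂ} (hA : A.IsHermitian) :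
    ∃ U : Matrix n n ℂ, U * Uᴴ = 1 ∧ Uᴴ * U = 1 ∧
      A = U * Matrix.diagonal (fun k => (hA.eigenvalues k : ℂ)) * Uᴴ ∧
      (∀ j, A.mulVec (U.mulVec (Pi.single j 1)) =
        (hA.eigenvalues j : ℂ) • U.mulVec (Pi.single j 1)) := by
  obtain ⟨U, hU⟩ : ∃ U : Matrix n n ℂ, U = (hA.eigenvectorUnitary : Matrix n n ℂ) := ⟨_, rfl⟩
  have hUU : U * Uᴴ = 1 := by
    rw [hU, ← Matrix.star_eq_conjTranspose]
    exact Unitary.coe_mul_star_self hA.eigenvectorUnitary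
  have hUU' : Uᴴ * U = 1 := by
    rw [hU, ← Matrix.star_eq_conjTranspose]
    exact Unitary.coe_star_mul_self hA.eigenvectorUnitary
  have hspec : A = U * Matrix.diagonal (fun k => (hA.eigenvalues k : ℂ)) * Uᴴ := by
    have h1 := hA.spectral_theorem
    rw [Unitary.conjStarAlgAut_apply] at h1
    rw [hU, ← Matrix.star_eq_conjTranspose]
    exact h1
  refine ⟨U, hUU, hUU', hspec, ?_⟩
  intro j
  have h1 : A * U = U * Matrix.diagonal (fun k => (hA.eigenvalues k : ℂ)) := by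
    conv_lhs => rw [hspec]
    rw [Matrix.mul_assoc, hUU', Matrix.mul_one]
  rw [Matrix.mulVec_mulVec, h1, ← Matrix.mulVec_mulVec, ← Matrix.mulVec_smul]
  congr 1
  funext k
  rw [Matrix.mulVec_diagonal, Pi.smul_apply, smul_eq_mul]
  by_cases hk : k = j
  · rw [hk]
  · rw [Pi.single_eq_of_ne hk, mul_zero, mul_zero]

theorem pow_spec {A U : Matrix n n ℂ} {d : n → ℝ} (hU1 : U * Uᴴ = 1) (hU2 : Uᴴ * U = 1)
    (hA : A = U * Matrix.diagonal (fun k => (d k : ℂ)) * Uᴴ) (q : ℕ) :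
    A ^ q = U * Matrix.diagonal (fun k => ((d k ^ q : ℝ) : ℂ)) * Uᴴ := by
  induction q with
  | zero =>
    simp only [pow_zero, Complex.ofReal_one]
    rw [Matrix.diagonal_one, Matrix.mul_one, hU1]
  | succ q ih =>
    rw [pow_succ, ih]
    conv_lhs => rw [hA]
    calc U * Matrix.diagonal (fun k => ((d k ^ q : ℝ) : ℂ)) * Uᴴ *
          (U * Matrix.diagonal (fun k => (d k : ℂ)) * Uᴴ)
        = U * (Matrix.diagonal (fun k => ((d k ^ q : ℝ) : ℂ)) * ((Uᴴ * U) *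
            Matrix.diagonal (fun k => (d k : ℂ)))) * Uᴴ := by
          simp only [Matrix.mul_assoc]
      _ = _ := by
          rw [hU2, Matrix.one_mul, Matrix.diagonal_mul_diagonal]
          congr 3
          funext k
          push_cast
          rw [pow_succ]

theorem exp_spec {A U : Matrix n n ℂ} {d : n → ℝ} (hU1 : U * Uᴴ = 1)
    (hA : A = U * Matrix.diagonal (fun k => (d k : ℂ)) * Uᴴ) (a : ℝ) :
    NormedSpace.exp ((a : ℂ) • A) =
      U * Matrix.diagonal (fun k => ((Real.exp (a * d k) : ℝ) : ℂ)) * Uᴴ := by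
  have hinv : U⁻¹ = Uᴴ := Matrix.inv_eq_right_inv hU1
  have hunit : IsUnit U := by
    rw [Matrix.isUnit_iff_isUnit_det]
    exact Matrix.isUnit_det_of_right_inverse hU1
  have h1 : (a : ℂ) • A = U * ((a : ℂ) • Matrix.diagonal (fun k => (d k : ℂ))) * U⁻¹ := by
    rw [hinv, mul_smul_comm, smul_mul_assoc, ← hA]
  rw [h1, Matrix.exp_conj U _ hunit, hinv]
  congr 2
  rw [← Matrix.diagonal_smul, Matrix.exp_diagonal]
  congr 1
  funext k
  rw [Pi.coe_exp, Pi.smul_apply, smul_eq_mul, Complex.ofReal_exp, Complex.exp_eq_exp_ℂ]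
  push_cast
  rfl

/-- Moments are forms of powers. -/
theorem sqn_zig (T : Matrix n n ℂ) (x : n → ℂ) (j : ℕ) :
    sqn (zig T x j) = ex ((T * Tᴴ) ^ j) x := by
  have hM : (T * Tᴴ)ᴴ = T * Tᴴ := by
    rw [Matrix.conjTranspose_mul, Matrix.conjTranspose_conjTranspose]
  have hMi : ∀ i, ((T * Tᴴ) ^ i)ᴴ = (T * Tᴴ) ^ i := by
    intro i
    rw [Matrix.conjTranspose_pow, hM]
  rcases Nat.even_or_odd' j with ⟨i, rfl | rfl⟩
  · rw [zig_even, ← ex_conj_mul, hMi, ← pow_add]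
    congr 2
    ring
  · rw [zig_odd, zig_even, ← ex_mul_conj]
    have h1 := ex_conj ((T * Tᴴ) ^ i) (T * Tᴴ) x
    rw [hMi] at h1
    rw [← h1, ← pow_succ, ← pow_add]
    congr 2
    ring

/-- The sum of the moments is at least the norm of any vector. -/
theorem sqn_le_sum (A : Matrix n n ℂ) (ψ : n → ℂ) :
    sqn (A.mulVec ψ) ≤ (∑ x, sqn (A.mulVec (Pi.single x 1))) * sqn ψ := by
  have h2 : ∀ i, ‖(A.mulVec ψ) i‖ ^ 2 ≤ (∑ x, ‖A i x‖ ^ 2) * sqn ψ := by
    intro i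
    have h3 : ‖(A.mulVec ψ) i‖ ≤ ∑ x, ‖A i x‖ * ‖ψ x‖ := by
      unfold Matrix.mulVec dotProduct
      refine (norm_sum_le _ _).trans ?_
      refine Finset.sum_le_sum (fun x _ => ?_)
      rw [norm_mul]
    refine (pow_le_pow_left₀ (norm_nonneg _) h3 2).trans ?_
    unfold sqn
    exact Finset.sum_mul_sq_le_sq_mul_sq _ _ _
  have h4 : ∀ x, sqn (A.mulVec (Pi.single x 1)) = ∑ i, ‖A i x‖ ^ 2 := by
    intro x
    unfold sqn
    rw [Matrix.mulVec_single_one]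
    rfl
  simp_rw [h4]
  rw [Finset.sum_comm, Finset.sum_mul]
  unfold sqn at h2 ⊢
  exact Finset.sum_le_sum (fun i _ => h2 i)

/-- Rows of a unitary matrix. -/
theorem row_sum {W : Matrix n n ℂ} (hW : W * Wᴴ = 1) (k : n) : ∑ j, ‖W k j‖ ^ 2 = 1 := by
  have h1 := ex_mul_conj W (Pi.single k 1)
  rw [hW, ex_one, sqn_single, Matrix.mulVec_single_one] at h1
  rw [h1]
  unfold sqn
  refine Finset.sum_congr rfl (fun j _ => ?_)
  rw [Matrix.col_apply, Matrix.conjTranspose_apply, norm_star]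

/-- Columns of a unitary matrix. -/
theorem col_sum {W : Matrix n n ℂ} (hW : Wᴴ * W = 1) (j : n) : ∑ k, ‖W k j‖ ^ 2 = 1 := by
  have h1 := ex_conj_mul W (Pi.single j 1)
  rw [hW, ex_one, sqn_single, Matrix.mulVec_single_one] at h1
  rw [h1]
  rfl

/-- Peierls' inequality for the sum of the moments. -/
theorem trace_le {H T : Matrix n n ℂ} (hH : H.IsHermitian) {s κ : ℝ} (hsand : Sand H T s κ)
    (q : ℕ) :
    ∑ x, sqn (zig T (Pi.single x 1) q) ≤
      Real.exp (q * κ) * ∑ k, Real.exp (-(q * s) * hH.eigenvalues k) := by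
  have hM : (T * Tᴴ).IsHermitian := by
    unfold Matrix.IsHermitian
    rw [Matrix.conjTranspose_mul, Matrix.conjTranspose_conjTranspose]
  obtain ⟨V, hV1, hV2, hV3, -⟩ := spectral hM
  obtain ⟨U, hU1, hU2, hU3, -⟩ := spectral hH
  obtain ⟨μ, hμ⟩ : ∃ μ, μ = hM.eigenvalues := ⟨_, rfl⟩
  obtain ⟨lam, hlam⟩ : ∃ lam, lam = hH.eigenvalues := ⟨_, rfl⟩
  rw [← hμ] at hV3
  rw [← hlam] at hU3 ⊢
  have h1 : ∑ x, sqn (zig T (Pi.single x 1) q) = ∑ j, μ j ^ q := by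
    have h2 : ∀ x, sqn (zig T (Pi.single x 1) q) = ∑ j, μ j ^ q * ‖V x j‖ ^ 2 := by
      intro x
      rw [sqn_zig, pow_spec hV1 hV2 hV3, ex_conj, ex_diag]
      refine Finset.sum_congr rfl (fun j _ => ?_)
      rw [Matrix.mulVec_single_one, Matrix.col_apply, Matrix.conjTranspose_apply, norm_star]
    rw [Finset.sum_congr rfl (fun x _ => h2 x), Finset.sum_comm]
    refine Finset.sum_congr rfl (fun j _ => ?_)
    rw [← Finset.mul_sum, col_sum hV2, mul_one]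
  obtain ⟨W, hW⟩ : ∃ W, W = Uᴴ * V := ⟨_, rfl⟩
  have hW1 : W * Wᴴ = 1 := by
    rw [hW, Matrix.conjTranspose_mul, Matrix.conjTranspose_conjTranspose]
    calc Uᴴ * V * (Vᴴ * U) = Uᴴ * (V * Vᴴ) * U := by simp only [Matrix.mul_assoc]
      _ = 1 := by rw [hV1, Matrix.mul_one, hU2]
  have hW2 : Wᴴ * W = 1 := by
    rw [hW, Matrix.conjTranspose_mul, Matrix.conjTranspose_conjTranspose]
    calc Vᴴ * U * (Uᴴ * V) = Vᴴ * (U * Uᴴ) * V := by simp only [Matrix.mul_assoc]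
      _ = 1 := by rw [hU1, Matrix.mul_one, hV2]
  have hj : ∀ j, 0 ≤ μ j ∧ μ j ≤ Real.exp κ * ∑ k, ‖W k j‖ ^ 2 * Real.exp (-s * lam k) := by
    intro j
    have h2 : ex (T * Tᴴ) (V.mulVec (Pi.single j 1)) = μ j := by
      rw [hV3, ex_conj, ex_diag, Matrix.mulVec_mulVec, hV2, Matrix.one_mulVec,
        Finset.sum_eq_single j]
      · rw [Pi.single_eq_same, norm_one, one_pow, mul_one]
      · intro k _ hk
        rw [Pi.single_eq_of_ne hk, norm_zero]
        ring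
      · intro h; exact absurd (Finset.mem_univ _) h
    have h3 : ex (NormedSpace.exp ((-s) • H)) (V.mulVec (Pi.single j 1)) =
        ∑ k, ‖W k j‖ ^ 2 * Real.exp (-s * lam k) := by
      rw [real_smul, exp_spec hU1 hU3, ex_conj, ex_diag, Matrix.mulVec_mulVec, ← hW]
      refine Finset.sum_congr rfl (fun k _ => ?_)
      rw [Matrix.mulVec_single_one, Matrix.col_apply, mul_comm]
    constructor
    · rw [← h2, ex_mul_conj]
      exact sqn_nonneg _
    · rw [← h2, ← h3]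
      exact (hsand _).2
  rw [h1]
  calc ∑ j, μ j ^ q ≤ ∑ j, (Real.exp κ) ^ q * ∑ k, ‖W k j‖ ^ 2 * (Real.exp (-s * lam k)) ^ q := by
        refine Finset.sum_le_sum (fun j _ => ?_)
        refine (pow_le_pow_left₀ (hj j).1 (hj j).2 q).trans ?_
        rw [mul_pow]
        refine mul_le_mul_of_nonneg_left ?_ (by positivity)
        exact Real.pow_arith_mean_le_arith_mean_pow Finset.univ _ _
          (fun k _ => by positivity) (col_sum hW2 j) (fun k _ => (Real.exp_pos _).le) q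
    _ = (Real.exp κ) ^ q * ∑ k, (Real.exp (-s * lam k)) ^ q := by
        rw [← Finset.mul_sum, Finset.sum_comm]
        congr 1
        refine Finset.sum_congr rfl (fun k _ => ?_)
        rw [← Finset.sum_mul, row_sum hW1, one_mul]
    _ = _ := by
        rw [← Real.exp_nat_mul]
        congr 1
        refine Finset.sum_congr rfl (fun k _ => ?_)
        rw [← Real.exp_nat_mul]
        congr 1
        ring

end Sw

/-- E2 -/
theorem thermal_of_sandwich {H T : Matrix n n ℂ} (hH : H.IsHermitian) {s κ : ℝ} (hs : 0 < s)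
    (_hκ : 0 ≤ κ) (hsand : ∀ φ : n → ℂ,
      Real.exp (-κ) * ex (NormedSpace.exp ((-s) • H)) φ ≤ ex (T * Tᴴ) φ ∧
      ex (T * Tᴴ) φ ≤ Real.exp κ * ex (NormedSpace.exp ((-s) • H)) φ)
    (q : ℕ) (hq : 1 ≤ q) (E₀ : ℝ) (hE₀ : ∃ j, hH.eigenvalues j = E₀)
    (hmin : ∀ j, E₀ ≤ hH.eigenvalues j) :
    ∃ x : n, ((T * Tᴴ) ^ q).mulVec (Pi.single x 1) ≠ 0 ∧
      ex H (((T * Tᴴ) ^ q).mulVec (Pi.single x 1)) / sqn (((T * Tᴴ) ^ q).mulVec (Pi.single x 1)) ≤
        E₀ + 4 * κ / s +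
          Real.log (∑ j, Real.exp (-(q * s) * (hH.eigenvalues j - E₀))) / (q * s) := by
  obtain ⟨S1, hS1⟩ : ∃ S1, S1 = ∑ x, sqn (zig T (Pi.single x 1) q) := ⟨_, rfl⟩
  obtain ⟨S2, hS2⟩ : ∃ S2, S2 = ∑ x, sqn (zig T (Pi.single x 1) (2 * q)) := ⟨_, rfl⟩
  have hex : ∃ x ∈ (Finset.univ : Finset n), S2 * sqn (zig T (Pi.single x 1) q) ≤
      S1 * sqn (zig T (Pi.single x 1) (2 * q)) := by
    have h0 : ∑ x, S2 * sqn (zig T (Pi.single x 1) q) ≤
        ∑ x, S1 * sqn (zig T (Pi.single x 1) (2 * q)) := by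
      rw [← Finset.mul_sum, ← Finset.mul_sum, ← hS1, ← hS2, mul_comm]
    by_contra hcon
    push Not at hcon
    have h5 := Finset.sum_lt_sum_of_nonempty (Finset.univ_nonempty (α := n)) hcon
    linarith
  obtain ⟨x, -, hx⟩ := hex
  obtain ⟨hne, h1⟩ := Sw.main hH hsand q hq x
  refine ⟨x, hne, ?_⟩
  have h2 := h1 q (by omega)
  have h3 : 2 * q - q = q := by omega
  rw [h3, zig_even] at h2
  rw [zig_even] at hx
  obtain ⟨φ, hφ⟩ : ∃ φ, φ = ((T * Tᴴ) ^ q).mulVec (Pi.single x 1) := ⟨_, rfl⟩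
  rw [← hφ] at hne hx h2 ⊢
  have hφpos := sqn_pos hne
  obtain ⟨Ti, hTi1, hTi2⟩ := Sw.exists_inv hH hsand
  have hmpos : ∀ y j, 0 < sqn (zig T (Pi.single y 1) j) :=
    fun y j => sqn_pos (zig_ne_zero hTi1 hTi2 (Sw.single_ne y) j)
  have hS1pos : 0 < S1 := by
    rw [hS1]
    exact Finset.sum_pos (fun y _ => hmpos y _) Finset.univ_nonempty
  -- the denominator
  have hS2low : Real.exp (-(2 * q * (κ + s * E₀))) ≤ S2 := by
    obtain ⟨j, hj⟩ := hE₀
    obtain ⟨U, hU1, hU2, -, hU4⟩ := Sw.spectral hH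
    obtain ⟨u, hu⟩ : ∃ u, u = U.mulVec (Pi.single j 1) := ⟨_, rfl⟩
    have hu1 : sqn u = 1 := by
      rw [hu, ← ex_conj_mul, hU2, ex_one, sqn_single]
    have hu0 : u ≠ 0 := by
      rintro h0
      rw [h0] at hu1
      simp [sqn] at hu1
    have hu2 : ex H u / sqn u = E₀ := by
      have h4 := hU4 j
      rw [← hu, hj] at h4
      unfold ex
      rw [h4, dotProduct_smul, star_dot_self, hu1, div_one, smul_eq_mul, Complex.ofReal_one,
        mul_one, Complex.ofReal_re]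
    have h4 := Sw.power hH hsand q hu0
    have h5 := Sw.sqn_le_sum ((T * Tᴴ) ^ q) u
    rw [hu2, hu1, mul_one] at h4
    rw [hu1, mul_one] at h5
    refine h4.trans (h5.trans (le_of_eq ?_))
    rw [hS2]
    refine Finset.sum_congr rfl (fun y _ => ?_)
    rw [zig_even]
  have hS2pos : 0 < S2 := lt_of_lt_of_le (Real.exp_pos _) hS2low
  -- the numerator
  obtain ⟨Z, hZ⟩ : ∃ Z, Z = ∑ j, Real.exp (-(q * s) * (hH.eigenvalues j - E₀)) := ⟨_, rfl⟩
  have hZpos : 0 < Z := by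
    rw [hZ]
    exact Finset.sum_pos (fun y _ => Real.exp_pos _) Finset.univ_nonempty
  have hS1up : S1 ≤ Real.exp (q * κ) * (Real.exp (-(q * s * E₀)) * Z) := by
    have h4 := Sw.trace_le hH hsand q
    rw [← hS1] at h4
    have h5 : Real.exp (-(q * s * E₀)) * Z =
        ∑ k, Real.exp (-(q * s) * hH.eigenvalues k) := by
      rw [hZ, Finset.mul_sum]
      refine Finset.sum_congr rfl (fun y _ => ?_)
      rw [← Real.exp_add]
      congr 1
      ring
    rw [h5]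
    exact h4
  rw [← hZ]
  have h4 : Real.log (sqn (zig T (Pi.single x 1) q) / sqn φ) ≤ Real.log (S1 / S2) := by
    apply Real.log_le_log (div_pos (hmpos _ _) hφpos)
    rw [div_le_div_iff₀ hφpos hS2pos]
    linarith
  have h5 : Real.log (S1 / S2) ≤ 3 * q * κ + q * s * E₀ + Real.log Z := by
    rw [Real.log_div hS1pos.ne' hS2pos.ne']
    have h6 := Real.log_le_log hS1pos hS1up
    rw [Real.log_mul (Real.exp_pos _).ne' (mul_pos (Real.exp_pos _) hZpos).ne',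
      Real.log_mul (Real.exp_pos _).ne' hZpos.ne', Real.log_exp, Real.log_exp] at h6
    have h7 := Real.log_le_log (Real.exp_pos _) hS2low
    rw [Real.log_exp] at h7
    linarith
  have hqpos : (0 : ℝ) < q := by exact_mod_cast hq
  have h6 : q * (s * (ex H φ / sqn φ)) ≤ 4 * q * κ + q * s * E₀ + Real.log Z := by linarith
  have h7 : ex H φ / sqn φ ≤ (4 * q * κ + q * s * E₀ + Real.log Z) / (q * s) := by
    rw [le_div_iff₀ (by positivity)]
    linarith
  refine h7.trans (le_of_eq ?_)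
  field_simp
  ring

end Pool.Agent.Hhelper96.PEPS
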