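import Mathlib

/-!
Parameters for the quasi-polynomial bound.
-/

set_option autoImplicit false

namespace Pool.Agent.Hhelper96.PEPS

theorem exists_dyadic (X : ℝ) (hX : 1 ≤ X) : ∃ p : ℕ, X * (2 * p + 1) ≤ 2 ^ (2 * p) ∧
    (p : ℝ) ≤ 2 * Real.log X + 4 := by
  obtain ⟨p, hp⟩ : ∃ p : ℕ, p = ⌈2 * Real.log X⌉₊ + 3 := ⟨_, rfl⟩
  have hl0 : 0 ≤ Real.log X := Real.log_nonneg hX
  have h1 : 2 * Real.log X ≤ p := by
    rw [hp]
    push_cast
    have := Nat.le_ceil (2 * Real.log X)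
    linarith
  have h2 : (p : ℝ) ≤ 2 * Real.log X + 4 := by
    rw [hp]
    push_cast
    have := Nat.ceil_lt_add_one (by positivity : 0 ≤ 2 * Real.log X)
    linarith
  have h3 : X ≤ 2 ^ p := by
    have hX0 : 0 < X := by linarith
    have h4 : Real.log X ≤ Real.log (2 ^ p) := by
      rw [Real.log_pow]
      have := Real.log_two_gt_d9
      nlinarith
    exact (Real.log_le_log_iff hX0 (by positivity)).1 h4
  have h5 : ∀ j : ℕ, 2 * ((j + 3 : ℕ) : ℝ) + 1 ≤ 2 ^ (j + 3) := by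
    intro j
    induction j with
    | zero => norm_num
    | succ j ih =>
      have e : (2 : ℝ) ^ (j + 1 + 3) = 2 * 2 ^ (j + 3) := by ring
      rw [e]
      push_cast at ih ⊢
      have : (0 : ℝ) ≤ j := Nat.cast_nonneg j
      nlinarith
  have h6 : 2 * (p : ℝ) + 1 ≤ 2 ^ p := by
    rw [hp]; exact h5 _
  refine ⟨p, ?_, h2⟩
  calc X * (2 * p + 1) ≤ 2 ^ p * 2 ^ p := mul_le_mul h3 h6 (by positivity) (by positivity)
    _ = 2 ^ (2 * p) := by ring

theorem le_two_mul_half {x l : ℝ} (hx : 0 ≤ x) (hl : 1 / 2 ≤ l) : x ≤ 2 * x * l := by nlinarith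

theorem sq_cube {l : ℝ} (hl : 1 / 2 ≤ l) : l ≤ 4 * l ^ 3 ∧ 1 / 8 ≤ l ^ 3 ∧ l ^ 2 ≤ 2 * l ^ 3 := by
  have h1 : 1 / 4 ≤ l ^ 2 := by nlinarith
  have h2 : 0 ≤ l ^ 2 := by positivity
  refine ⟨by nlinarith, by nlinarith, by nlinarith⟩

theorem quasi_num (d r w A : ℕ) (hr : 1 ≤ r) (hA : 1 ≤ A) (X₀ X₁ X₂ : ℝ) (h0 : 1 ≤ X₀)
    (h1 : 0 ≤ X₁) (h2 : 0 ≤ X₂) :
    ∃ C : ℝ, 0 ≤ C ∧ ∀ ε : ℝ, 0 < ε → ε ≤ 1 → ∃ m k S N q : ℕ, S = A * (m + 1) * r ∧ N = S * k ∧
      q = ⌈X₂ * Real.log N⌉₊ + 1 ∧ X₀ / ε ^ 2 ≤ k ∧ X₁ * N ≤ 2 ^ m ∧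
      (((N + 3) * ((N + 3) * (((d * d ^ (w * q)) ^ (S * S)) ^ 3 + 1)) : ℕ) : ℝ) ≤
        Real.exp (C * Real.log (2 / ε) ^ 3) := by
  have hr1 : (1 : ℝ) ≤ r := by exact_mod_cast hr
  have hA1 : (1 : ℝ) ≤ A := by exact_mod_cast hA
  obtain ⟨ck, hck⟩ : ∃ ck : ℝ, ck = 2 * Real.log (2 * X₀) + 2 := ⟨_, rfl⟩
  obtain ⟨cX, hcX⟩ : ∃ cX : ℝ, cX = 2 * Real.log (X₁ * A * r + 1) + ck := ⟨_, rfl⟩
  obtain ⟨cp, hcp⟩ : ∃ cp : ℝ, cp = 2 * cX + 8 := ⟨_, rfl⟩
  obtain ⟨cS, hcS⟩ : ∃ cS : ℝ, cS = A * r * (2 * cp + 2) := ⟨_, rfl⟩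
  obtain ⟨cN, hcN⟩ : ∃ cN : ℝ, cN = cS + ck := ⟨_, rfl⟩
  obtain ⟨cq, hcq⟩ : ∃ cq : ℝ, cq = X₂ * cN + 4 := ⟨_, rfl⟩
  have hck0 : 0 ≤ ck := by
    rw [hck]
    have : 0 ≤ Real.log (2 * X₀) := Real.log_nonneg (by linarith)
    linarith
  have hcX0 : 0 ≤ cX := by
    rw [hcX]
    have : 0 ≤ Real.log (X₁ * A * r + 1) := Real.log_nonneg (by
      have : 0 ≤ X₁ * A * r := by positivity
      linarith)
    linarith
  have hcp0 : 0 ≤ cp := by rw [hcp]; positivity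
  have hcS0 : 0 ≤ cS := by rw [hcS]; positivity
  have hcN0 : 0 ≤ cN := by rw [hcN]; positivity
  have hcq0 : 0 ≤ cq := by rw [hcq]; positivity
  have hld : 0 ≤ Real.log d := Real.log_natCast_nonneg d
  obtain ⟨C, hC⟩ : ∃ C : ℝ, C = 4 * (2 * (cN + 8) + 2 + 3 * cS ^ 2 * (2 + w * cq) * Real.log d) :=
    ⟨_, rfl⟩
  have hC0 : 0 ≤ C := by rw [hC]; positivity
  refine ⟨C, hC0, ?_⟩
  intro ε hε hε1
  obtain ⟨l, hl⟩ : ∃ l : ℝ, l = Real.log (2 / ε) := ⟨_, rfl⟩
  have hl2 : Real.log 2 ≤ l := by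
    rw [hl]
    apply Real.log_le_log (by norm_num)
    rw [le_div_iff₀ hε]
    linarith
  have hlhalf : 1 / 2 ≤ l := by
    have := Real.log_two_gt_d9
    linarith
  have hl0 : 0 ≤ l := by linarith
  have hle : -Real.log ε ≤ l := by
    rw [hl, Real.log_div (by norm_num) hε.ne']
    have := Real.log_two_gt_d9
    linarith
  have hε2 : 0 < ε ^ 2 := by positivity
  have hε21 : ε ^ 2 ≤ 1 := by nlinarith
  -- k
  obtain ⟨k, hk⟩ : ∃ k : ℕ, k = ⌈X₀ / ε ^ 2⌉₊ := ⟨_, rfl⟩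
  have hk1 : X₀ / ε ^ 2 ≤ k := by rw [hk]; exact Nat.le_ceil _
  have hX₀k : X₀ ≤ X₀ / ε ^ 2 := by
    rw [le_div_iff₀ hε2]; nlinarith
  have hk2 : (k : ℝ) ≤ 2 * X₀ / ε ^ 2 := by
    have e1 := (Nat.ceil_lt_add_one (by positivity : 0 ≤ X₀ / ε ^ 2)).le
    rw [← hk] at e1
    have e2 : 2 * X₀ / ε ^ 2 = X₀ / ε ^ 2 + X₀ / ε ^ 2 := by ring
    rw [e2]
    linarith
  have hkR : (1 : ℝ) ≤ k := by linarith
  have hk0 : (0 : ℝ) < k := by linarith
  have hkl : Real.log k ≤ ck * l := by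
    have e1 : Real.log k ≤ Real.log (2 * X₀ / ε ^ 2) := Real.log_le_log hk0 hk2
    rw [Real.log_div (by positivity) hε2.ne', Real.log_pow] at e1
    have e2 : 0 ≤ Real.log (2 * X₀) := Real.log_nonneg (by linarith)
    rw [hck]
    push_cast at e1
    have e3 := le_two_mul_half e2 hlhalf
    have e4 : (2 * Real.log (2 * X₀) + 2) * l = 2 * Real.log (2 * X₀) * l + 2 * l := by ring
    rw [e4]
    linarith
  -- m
  obtain ⟨X, hX⟩ : ∃ X : ℝ, X = (X₁ * A * r + 1) * k := ⟨_, rfl⟩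
  have hX1 : 1 ≤ X := by
    rw [hX]
    have : 0 ≤ X₁ * A * r := by positivity
    exact one_le_mul_of_one_le_of_one_le (by linarith) hkR
  obtain ⟨p, hp1, hp2⟩ := exists_dyadic X hX1
  have hXl : Real.log X ≤ cX * l := by
    rw [hX, Real.log_mul (by positivity) hk0.ne', hcX]
    have e2 : 0 ≤ Real.log (X₁ * A * r + 1) := Real.log_nonneg (by
      have : 0 ≤ X₁ * A * r := by positivity
      linarith)
    have e3 := le_two_mul_half e2 hlhalf
    have e4 : (2 * Real.log (X₁ * A * r + 1) + ck) * l =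
      2 * Real.log (X₁ * A * r + 1) * l + ck * l := by ring
    rw [e4]
    linarith
  have hpl : (p : ℝ) ≤ cp * l := by
    rw [hcp]
    have e4 : (2 * cX + 8) * l = 2 * (cX * l) + 8 * l := by ring
    rw [e4]
    linarith
  obtain ⟨S, hS⟩ : ∃ S : ℕ, S = A * (2 * p + 1) * r := ⟨_, rfl⟩
  have hSl : (S : ℝ) ≤ cS * l := by
    rw [hS, hcS]
    push_cast
    have e1 : 2 * (p : ℝ) + 1 ≤ (2 * cp + 2) * l := by
      have e4 : (2 * cp + 2) * l = 2 * (cp * l) + 2 * l := by ring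
      rw [e4]
      linarith
    have e2 : (A : ℝ) * (2 * p + 1) * r = A * r * (2 * p + 1) := by ring
    rw [e2, mul_assoc (A * r : ℝ)]
    exact mul_le_mul_of_nonneg_left e1 (by positivity)
  have hS1 : 1 ≤ S := by
    rw [hS]
    exact Nat.mul_pos (Nat.mul_pos (by omega) (by omega)) (by omega)
  have hS1R : (1 : ℝ) ≤ S := by exact_mod_cast hS1
  obtain ⟨N, hN⟩ : ∃ N : ℕ, N = S * k := ⟨_, rfl⟩
  have hNR : (N : ℝ) = S * k := by rw [hN]; push_cast; ring
  have hN1 : (1 : ℝ) ≤ N := by rw [hNR]; exact one_le_mul_of_one_le_of_one_le hS1R hkR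
  have hNl : Real.log N ≤ cN * l := by
    rw [hNR, Real.log_mul (by positivity) hk0.ne', hcN]
    have e1 : Real.log S ≤ S := by
      have := Real.log_le_sub_one_of_pos (by linarith : (0 : ℝ) < S)
      linarith
    have e2 : (cS + ck) * l = cS * l + ck * l := by ring
    rw [e2]
    linarith
  have hlN0 : 0 ≤ Real.log N := Real.log_nonneg hN1
  obtain ⟨q, hq⟩ : ∃ q : ℕ, q = ⌈X₂ * Real.log N⌉₊ + 1 := ⟨_, rfl⟩
  have hql : (q : ℝ) ≤ cq * l := by
    have e1 := (Nat.ceil_lt_add_one (by positivity : 0 ≤ X₂ * Real.log N)).le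
    have e2 : (q : ℝ) = ⌈X₂ * Real.log N⌉₊ + 1 := by rw [hq]; push_cast; ring
    have e3 := mul_le_mul_of_nonneg_left hNl h2
    rw [e2, hcq]
    have e4 : (X₂ * cN + 4) * l = X₂ * (cN * l) + 4 * l := by ring
    rw [e4]
    linarith
  refine ⟨2 * p, k, S, N, q, hS, hN, hq, hk1, ?_, ?_⟩
  · have e1 : X₁ * N ≤ X * (2 * p + 1) := by
      rw [hNR, hX, hS]
      push_cast
      have e2 : 0 ≤ (k : ℝ) * (2 * p + 1) := by positivity
      have e3 : (X₁ * A * r + 1) * (k : ℝ) * (2 * p + 1) =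
        X₁ * (A * (2 * p + 1) * r * k) + k * (2 * p + 1) := by ring
      rw [e3]
      linarith
    exact e1.trans hp1
  · -- the bound on D
    rcases Nat.eq_zero_or_pos d with hd0 | hd0
    · -- d = 0
      subst hd0
      have e1 : (((0 * 0 ^ (w * q)) ^ (S * S)) ^ 3 + 1 : ℕ) = 1 := by
        rw [zero_mul, zero_pow (Nat.mul_pos hS1 hS1).ne', zero_pow (by norm_num)]
      rw [e1]
      have e2 : (((N + 3) * ((N + 3) * 1) : ℕ) : ℝ) ≤ (4 * N) ^ 2 := by
        push_cast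
        have e3 : (N : ℝ) + 3 ≤ 4 * N := by linarith
        have := mul_le_mul e3 e3 (by positivity) (by positivity)
        rw [mul_one, sq]
        exact this
      refine e2.trans ?_
      rw [← Real.log_le_iff_le_exp (by positivity), Real.log_pow, Real.log_mul (by norm_num)
        (by positivity)]
      have e3 : Real.log 4 ≤ 3 := by
        have := Real.log_le_sub_one_of_pos (by norm_num : (0 : ℝ) < 4)
        linarith
      rw [← hl, hC]
      have hl3 : l ≤ 4 * l ^ 3 := (sq_cube hlhalf).1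
      have e5 : Real.log N ≤ cN * (4 * l ^ 3) := hNl.trans (mul_le_mul_of_nonneg_left hl3 hcN0)
      have hl3' : 1 / 8 ≤ l ^ 3 := (sq_cube hlhalf).2.1
      have e6 : Real.log ((0 : ℕ) : ℝ) = 0 := by simp
      rw [e6]
      have e7 : 4 * (2 * (cN + 8) + 2 + 3 * cS ^ 2 * (2 + w * cq) * 0) * l ^ 3 =
          8 * (cN * l ^ 3) + 72 * l ^ 3 := by ring
      rw [e7]
      have e8 : cN * (4 * l ^ 3) = 4 * (cN * l ^ 3) := by ring
      rw [e8] at e5
      push_cast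
      linarith
    · have hdR : (1 : ℝ) ≤ d := by exact_mod_cast hd0
      obtain ⟨Y, hY⟩ : ∃ Y : ℕ, Y = (d * d ^ (w * q)) ^ (S * S) := ⟨_, rfl⟩
      rw [← hY]
      have hY1 : 1 ≤ Y := by
        rw [hY]
        exact Nat.one_le_pow _ _ (Nat.mul_pos hd0 (pow_pos hd0 _))
      have hYR : (1 : ℝ) ≤ Y := by exact_mod_cast hY1
      have hYl : Real.log Y ≤ cS ^ 2 * l ^ 2 * ((1 + w * (cq * l)) * Real.log d) := by
        rw [hY]
        push_cast
        rw [Real.log_pow, Real.log_mul (by positivity) (by positivity), Real.log_pow]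
        push_cast
        have e1 : Real.log d + w * q * Real.log d = (1 + w * q) * Real.log d := by ring
        rw [e1]
        have e2 : (1 + (w : ℝ) * q) * Real.log d ≤ (1 + w * (cq * l)) * Real.log d := by
          apply mul_le_mul_of_nonneg_right _ hld
          have := mul_le_mul_of_nonneg_left hql (Nat.cast_nonneg w)
          linarith
        have e3 : (S : ℝ) * S ≤ cS ^ 2 * l ^ 2 := by
          have := mul_le_mul hSl hSl (by positivity) (by positivity)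
          calc (S : ℝ) * S ≤ cS * l * (cS * l) := this
            _ = cS ^ 2 * l ^ 2 := by ring
        exact mul_le_mul e3 e2 (by positivity) (by positivity)
      have e2 : (((N + 3) * ((N + 3) * (Y ^ 3 + 1)) : ℕ) : ℝ) ≤ (4 * N) ^ 2 * (2 * (Y : ℝ) ^ 3) := by
        push_cast
        have e3 : ((N : ℝ) + 3) * (N + 3) ≤ (4 * N) ^ 2 := by
          have e3 : (N : ℝ) + 3 ≤ 4 * N := by linarith
          have := mul_le_mul e3 e3 (by positivity) (by positivity)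
          rw [sq]
          exact this
        have e4 : (Y : ℝ) ^ 3 + 1 ≤ 2 * (Y : ℝ) ^ 3 := by
          have := one_le_pow₀ hYR (n := 3)
          linarith
        calc ((N : ℝ) + 3) * ((N + 3) * ((Y : ℝ) ^ 3 + 1)) = ((N : ℝ) + 3) * (N + 3) *
              ((Y : ℝ) ^ 3 + 1) := by ring
          _ ≤ _ := mul_le_mul e3 e4 (by positivity) (by positivity)
      refine e2.trans ?_
      rw [← Real.log_le_iff_le_exp (by positivity), Real.log_mul (by positivity) (by positivity),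
        Real.log_pow, Real.log_mul (by norm_num) (by positivity),
        Real.log_mul (by norm_num) (by positivity), Real.log_pow]
      have e3 : Real.log 4 ≤ 3 := by
        have := Real.log_le_sub_one_of_pos (by norm_num : (0 : ℝ) < 4)
        linarith
      have e3' : Real.log 2 ≤ 1 := by
        have := Real.log_le_sub_one_of_pos (by norm_num : (0 : ℝ) < 2)
        linarith
      rw [← hl, hC]
      push_cast
      have hl3 : l ≤ 4 * l ^ 3 := (sq_cube hlhalf).1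
      have e5 : Real.log N ≤ cN * (4 * l ^ 3) := hNl.trans (mul_le_mul_of_nonneg_left hl3 hcN0)
      have hl3' : 1 / 8 ≤ l ^ 3 := (sq_cube hlhalf).2.1
      have e6 : l ^ 2 * (1 + w * (cq * l)) ≤ (2 + w * cq) * l ^ 3 := by
        have e7 : l ^ 2 ≤ 2 * l ^ 3 := (sq_cube hlhalf).2.2
        have e8 : l ^ 2 * (1 + w * (cq * l)) = l ^ 2 + w * cq * l ^ 3 := by ring
        have e9 : (2 + w * cq) * l ^ 3 = 2 * l ^ 3 + w * cq * l ^ 3 := by ring
        rw [e8, e9]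
        linarith
      have e7 : Real.log Y ≤ cS ^ 2 * ((2 + w * cq) * l ^ 3) * Real.log d := by
        refine hYl.trans ?_
        have e8 : cS ^ 2 * l ^ 2 * ((1 + w * (cq * l)) * Real.log d) =
            cS ^ 2 * (l ^ 2 * (1 + w * (cq * l))) * Real.log d := by ring
        rw [e8]
        exact mul_le_mul_of_nonneg_right (mul_le_mul_of_nonneg_left e6 (by positivity)) hld
      obtain ⟨Q, hQ⟩ : ∃ Q : ℝ, Q = cS ^ 2 * ((2 + w * cq) * l ^ 3) * Real.log d := ⟨_, rfl⟩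
      have hQ0 : 0 ≤ Q := by rw [hQ]; positivity
      have e9 : 4 * (2 * (cN + 8) + 2 + 3 * cS ^ 2 * (2 + w * cq) * Real.log d) * l ^ 3 =
          8 * (cN * l ^ 3) + 72 * l ^ 3 + 12 * Q := by rw [hQ]; ring
      rw [e9]
      rw [← hQ] at e7
      have e10 : cN * (4 * l ^ 3) = 4 * (cN * l ^ 3) := by ring
      rw [e10] at e5
      linarith

end Pool.Agent.Hhelper96.PEPS
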