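import Pool.Agent.Hhelper96.UB.Last5
import Pool.Agent.Hhelper68.CS.LabFinal
import Pool.Agent.Hhelper68.CS.Core4
import Pool.Agent.Hhelper96.UB.PtraceNorm

/-!
The three final statements.
-/

set_option autoImplicit false
set_option linter.unusedSectionVars false

open scoped BigOperators Topology ComplexOrder
open Matrix Filter MeasureTheory

namespace Pool.Agent.Hhelper96.PEPS

theorem labNet_all5 (d : ℕ) (hd : 1 ≤ d) (r : ℕ) (hr : 1 ≤ r) : ∃ κ : ℕ, LabNet d r κ :=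
  labNet d r hd hr

theorem core_final5 (d r : ℕ) (hr : 1 ≤ r) :
    ∃ C : ℝ, 0 ≤ C ∧ CoreBound d r (fun ε => Real.exp (C * Real.log (2 / ε) / ε)) := by
  rcases Nat.eq_zero_or_pos d with hd | hd
  · subst hd
    refine ⟨0, le_rfl, fun ε hε hε1 => ⟨0, 0, fun R a b hR => ⟨0, by
      rw [Nat.cast_zero]; exact (Real.exp_pos _).le, ?_⟩⟩⟩
    intro L₁ _ _ ψ hψ _
    exfalso
    apply hψ
    funext s
    exact (s 0).elim0
  · obtain ⟨κ, hE⟩ := labNet_all5 d hd r hr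
    exact core_lab d r κ hr hE

section fin

variable {d : ℕ}

/-- the counting hypothesis at the ground state energy gives it at every lower bound -/
theorem count_conv5 {n : Type} [Fintype n] [DecidableEq n] {H : Matrix n n ℂ} {Δ : ℝ} (hΔ : 0 < Δ)
    {ψ : n → ℂ} (hg : IsGappedGround H Δ ψ) {P α : ℝ}
    (hc : ∀ E : ℝ, H.mulVec ψ = (E : ℂ) • ψ → ∀ M : ℝ, 1 ≤ M → (eigCount H (E + M) : ℝ) ≤ P ^ (α * M))
    (E : ℝ) (hE : ∀ χ, E * sqn χ ≤ ex H χ) (M : ℝ) (hM : 1 ≤ M) :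
    (eigCount H (E + M) : ℝ) ≤ P ^ (α * M) := by
  obtain ⟨hne, E₁, hE₁, _⟩ := hg
  have h1 := hE ψ
  rw [ex_of_eigen hE₁] at h1
  have h2 := le_of_mul_le_mul_right h1 (sqn_pos hne)
  refine le_trans ?_ (hc E₁ hE₁ M hM)
  exact_mod_cast eigCount_mono H (by linarith : E + M ≤ E₁ + M)

end fin

/-- the case of at most one level -/
theorem le_one_case5 {d : ℕ} (hd : d ≤ 1) (ψ : ∀ n : ℕ, (Site (n + 1) → Fin d) → ℂ)
    (hψ : ∀ᶠ n in atTop, ψ n ≠ 0) :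
    ∃ A : Fin d → Fin 1 → Fin 1 → Fin 1 → Fin 1 → ℂ, (∀ᶠ n in atTop, pepsVec (n + 1) A ≠ 0) ∧
      ∀ R : Finset (ℤ × ℤ), ∀ᶠ n in atTop, ∀ v : Site (n + 1),
        traceNorm (reduced (n + 1) R v (ψ n) - reduced (n + 1) R v (pepsVec (n + 1) A)) ≤ 0 := by
  classical
  obtain ⟨n₀, hn₀⟩ := hψ.exists
  obtain ⟨A, hA⟩ := core_trivial d hd ∅ 1 le_rfl 0 0 (by simp) (n₀ + 1) (by omega) (ψ n₀) hn₀
  refine ⟨A, Filter.Eventually.of_forall (fun n => (hA (n + 1) (by omega)).1), fun R => ?_⟩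
  obtain ⟨r, a, b, hr, hR⟩ := exists_box R
  filter_upwards [hψ, eventually_ge_atTop r] with n h1 h2 v
  have h3 := (hA (n + 1) (by omega)).1
  have e1 := (posSemidef_reduced (by omega : r ≤ n + 1) R a b hR v h1).2
  have e2 := (posSemidef_reduced (by omega : r ≤ n + 1) R a b hR v h3).2
  have hss : ∀ x y : R → Fin d, x = y := by
    intro x y
    funext p
    exact Fin.ext (by have := (x p).isLt; have := (y p).isLt; omega)
  have key : ∀ X : Matrix (R → Fin d) (R → Fin d) ℂ, X.trace = 1 → ∀ i j, X i j = 1 := by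
    intro X hX i j
    unfold Matrix.trace at hX
    rw [Finset.sum_eq_single i (fun k _ hk => absurd (hss k i) hk)
      (fun h => absurd (Finset.mem_univ _) h)] at hX
    rw [hss j i]
    exact hX
  have e3 : reduced (n + 1) R v (ψ n) = reduced (n + 1) R v (pepsVec (n + 1) A) := by
    ext i j
    rw [key _ e1, key _ e2]
  rw [e3, sub_self, traceNorm_zero]

/-- for almost every interaction -/
theorem generic_all5 (d : ℕ) : ∃ C : ℕ → ℝ, ∀ (F W : Finset (ℤ × ℤ))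
    (h : Matrix (F → Fin d) (F → Fin d) ℂ), h.IsHermitian →
    ∀ᵐ X : (W → Fin d) → (W → Fin d) → ℝ, ∀ ψ : ∀ n : ℕ, (Site (n + 1) → Fin d) → ℂ,
      (∀ᶠ n in atTop, ∃ Δ > 0, IsGappedGround
        (hamiltonian (n + 1) F h + hamiltonian (n + 1) W (hermOf X)) Δ (ψ n)) →
      (∀ R ⊆ W, ∀ (r : ℕ) (a b : ℤ), 1 ≤ r →
        (∀ p ∈ R, a ≤ p.1 ∧ p.1 < a + r ∧ b ≤ p.2 ∧ p.2 < b + r) →
        ∀ ε : ℝ, 0 < ε → ε ≤ 1 → ∃ D : ℕ, (D : ℝ) ≤ Real.exp (C r * Real.log (2 / ε) / ε) ∧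
          ∃ A : Fin d → Fin D → Fin D → Fin D → Fin D → ℂ,
          (∀ᶠ n in atTop, pepsVec (n + 1) A ≠ 0) ∧
          ∀ᶠ n in atTop, ∀ v : Site (n + 1),
            traceNorm (reduced (n + 1) R v (ψ n) - reduced (n + 1) R v (pepsVec (n + 1) A)) ≤ ε) ∧
      (∃ B : ℝ, 0 < B ∧ ∀ ε : ℝ, 0 < ε → ε ≤ 1 → ∀ (N D₀ : ℕ) [NeZero N], B / ε ^ 2 ≤ N →
        ∀ T : Site N → Fin d → Fin D₀ → Fin D₀ → Fin D₀ → Fin D₀ → ℂ, sitePepsVec N T ≠ 0 →
        (∀ χ : (Site N → Fin d) → ℂ, χ ≠ 0 →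
          ex (hamiltonian N F h + hamiltonian N W (hermOf X)) (sitePepsVec N T) /
            sqn (sitePepsVec N T) ≤
          ex (hamiltonian N F h + hamiltonian N W (hermOf X)) χ / sqn χ +
            ε ^ 2 / B * (N : ℝ) ^ 2) →
        ∃ D : ℕ, D ≤ 32 * N ^ 2 * D₀ ^ 6 ∧ ∃ A : Fin d → Fin D → Fin D → Fin D → Fin D → ℂ,
          (∀ᶠ n in atTop, pepsVec (n + 1) A ≠ 0) ∧
          ∀ R ⊆ W, ∀ᶠ n in atTop, ∀ v : Site (n + 1),
            traceNorm (reduced (n + 1) R v (ψ n) - reduced (n + 1) R v (pepsVec (n + 1) A)) ≤ ε) ∧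
      (∃ B : ℝ, 0 < B ∧ ∀ ε : ℝ, 0 < ε → ε ≤ 1 → ∀ (N : ℕ) [NeZero N], B / ε ^ 2 ≤ N →
        ∀ β : ℝ, 1 ≤ β →
        ∀ (hH : (hamiltonian N F h + hamiltonian N W (hermOf X)).IsHermitian)
          (φ : (Site N → Fin d) → ℂ), φ ≠ 0 →
        Real.log (∑ j, Real.exp (-(β * hH.eigenvalues j))) +
          β * (ex (hamiltonian N F h + hamiltonian N W (hermOf X)) φ / sqn φ) ≤
            β * (ε ^ 2 / B * (N : ℝ) ^ 2) →
        ∃ D : ℕ, (D : ℝ) ≤ (2 * (N : ℝ)) ^ (B * β) ∧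
          ∃ A : Fin d → Fin D → Fin D → Fin D → Fin D → ℂ,
          (∀ᶠ n in atTop, pepsVec (n + 1) A ≠ 0) ∧
          ∀ R ⊆ W, ∀ᶠ n in atTop, ∀ v : Site (n + 1),
            traceNorm (reduced (n + 1) R v (ψ n) - reduced (n + 1) R v (pepsVec (n + 1) A)) ≤ ε) ∧
      ((∃ α : ℝ, ∀ᶠ n : ℕ in atTop, ∀ E : ℝ,
          (hamiltonian (n + 1) F h + hamiltonian (n + 1) W (hermOf X)).mulVec (ψ n) =
            (E : ℂ) • ψ n → ∀ M : ℝ, 1 ≤ M →
          (eigCount (hamiltonian (n + 1) F h + hamiltonian (n + 1) W (hermOf X)) (E + M) : ℝ) ≤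
            ((n + 1 : ℕ) : ℝ) ^ (α * M)) →
        ∃ C' : ℝ, ∀ ε : ℝ, 0 < ε → ε ≤ 1 →
          ∃ D : ℕ, (D : ℝ) ≤ Real.exp (C' * Real.log (2 / ε) ^ 2) ∧
          ∃ A : Fin d → Fin D → Fin D → Fin D → Fin D → ℂ,
          (∀ᶠ n in atTop, pepsVec (n + 1) A ≠ 0) ∧
          ∀ R ⊆ W, ∀ᶠ n in atTop, ∀ v : Site (n + 1),
            traceNorm (reduced (n + 1) R v (ψ n) - reduced (n + 1) R v (pepsVec (n + 1) A)) ≤
              ε) := by
  classical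
  have h1 : ∀ r : ℕ, ∃ C : ℝ, 1 ≤ r →
      CoreBound d r (fun ε => Real.exp (C * Real.log (2 / ε) / ε)) := by
    intro r
    by_cases hr : 1 ≤ r
    · obtain ⟨C, _, hC⟩ := core_final5 d r hr
      exact ⟨C, fun _ => hC⟩
    · exact ⟨0, fun h => absurd h hr⟩
  choose C hC using h1
  refine ⟨C, fun F W h hh => ?_⟩
  have hgen := generic_of (G := fun r _ ε => Real.exp (C r * Real.log (2 / ε) / ε))
    (fun r hr δ _ => hC r hr) F W h hh
  rcases Nat.lt_or_ge 1 d with hd | hd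
  · have hzo : (⟨0, by omega⟩ : Fin d) ≠ ⟨1, by omega⟩ := by
      intro h
      simp only [Fin.mk.injEq] at h
      omega
    have hsec : ∀ᵐ X : (W → Fin d) → (W → Fin d) → ℝ, ∀ (y : (Bool × Bool) × (W → Fin d) ×
        (W → Fin d)), ∀ ψ : ∀ n : ℕ, (Site (n + 1) → Fin d) → ℂ,
        (∀ᶠ n in atTop, ∃ Δ > 0, IsGappedGround
          (hamiltonian (n + 1) F h + hamiltonian (n + 1) W (hermOf X)) Δ (ψ n)) →
        SecOrd F W h (hermOf X) (dirM y.1 y.2.1 y.2.2) ψ := by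
      rw [ae_all_iff]
      intro y
      exact secOrd_generic d (by omega) F W h hh _ (dirM_isHermitian _ _ _)
    filter_upwards [hgen, hsec] with X hX1 hX2 ψ hψ
    have hTI : ∀ᶠ n in atTop, ψ n ≠ 0 ∧ ∀ (Q : Finset (ℤ × ℤ)) (w : Site (n + 1)),
        reduced (n + 1) Q w (ψ n) = reduced (n + 1) Q 0 (ψ n) := by
      filter_upwards [hψ] with n hn
      obtain ⟨Δ, hΔ, hg⟩ := hn
      exact ⟨hg.1, fun Q w => reduced_eq_of_TI (sum_TI' F W h (hermOf X)) hΔ hg Q w⟩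
    obtain ⟨h2, h3⟩ := two_of_sec4 hzo h hh (hermOf X) (hermOf_isHermitian X) ψ hTI
      (fun r hr => labNet_all5 d (by omega) r hr) (fun x i j => hX2 (x, i, j) ψ hψ)
    have h4 := therm_two hzo h hh (hermOf X) (hermOf_isHermitian X) ψ hTI
      (fun r hr => labNet_all5 d (by omega) r hr) (fun x i j => hX2 (x, i, j) ψ hψ)
    -- subregions
    have hsub : ∀ {D : ℕ} (A : Fin d → Fin D → Fin D → Fin D → Fin D → ℂ) (ε : ℝ),
        (∀ᶠ n in atTop, ∀ v : Site (n + 1),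
          traceNorm (reduced (n + 1) W v (ψ n) - reduced (n + 1) W v (pepsVec (n + 1) A)) ≤ ε) →
        ∀ R ⊆ W, ∀ᶠ n in atTop, ∀ v : Site (n + 1),
          traceNorm (reduced (n + 1) R v (ψ n) - reduced (n + 1) R v (pepsVec (n + 1) A)) ≤ ε := by
      intro D A ε hA R hRW
      obtain ⟨r, a, b, hr, hW⟩ := exists_box W
      filter_upwards [hA, eventually_ge_atTop r] with n hn1 hn2 v
      have hinj : Function.Injective (fun p : W => place (n + 1) v p) :=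
        place_injective (by omega : r ≤ n + 1) W a b hW v
      rw [reduced_incl hRW v hinj, reduced_incl hRW v hinj]
      have e1 : ∀ X Y : Matrix (W → Fin d) (W → Fin d) ℂ,
          ptrace (fun p : R => (⟨p.1, hRW p.2⟩ : W)) X -
            ptrace (fun p : R => (⟨p.1, hRW p.2⟩ : W)) Y =
          ptrace (fun p : R => (⟨p.1, hRW p.2⟩ : W)) (X - Y) := by
        intro X Y
        have e2 : X = (X - Y) + Y := by abel
        conv_lhs => rw [e2, ptrace_add]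
        abel
      rw [e1]
      refine (traceNorm_ptrace_le _ ?_ _).trans (hn1 v)
      intro p q hpq
      have : (p : ℤ × ℤ) = q := congrArg (fun x : W => (x : ℤ × ℤ)) hpq
      exact Subtype.ext this
    refine ⟨fun R hRW r a b hr hR ε hε hε1 => hX1 ψ hψ R hRW r a b hr hR 1 one_pos ε hε hε1,
      ?_, ?_, ?_⟩
    · obtain ⟨B, hB, hB'⟩ := h2
      refine ⟨B, hB, fun ε hε hε1 N D₀ _ hN T hT hmin => ?_⟩
      obtain ⟨D, hD, A, hA1, hA2⟩ := hB' ε hε hε1 N D₀ hN T hT hmin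
      exact ⟨D, hD, A, hA1, hsub A ε hA2⟩
    · obtain ⟨B, hB, hB'⟩ := h4
      refine ⟨B, hB, fun ε hε hε1 N _ hN β hβ hH φ hφ hF => ?_⟩
      obtain ⟨D, hD, A, hA1, hA2⟩ := hB' ε hε hε1 N hN β hβ hH φ hφ hF
      exact ⟨D, hD, A, hA1, hsub A ε hA2⟩
    · rintro ⟨α, hα⟩
      obtain ⟨C', hC'⟩ := h3 ⟨α, by
        filter_upwards [hα, hψ] with n hn1 hn2 E hE M hM
        obtain ⟨Δ, hΔ, hg⟩ := hn2
        exact count_conv5 hΔ hg hn1 E hE M hM⟩
      refine ⟨C', fun ε hε hε1 => ?_⟩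
      obtain ⟨D, hD, A, hA1, hA2⟩ := hC' ε hε hε1
      exact ⟨D, hD, A, hA1, hsub A ε hA2⟩
  · filter_upwards [hgen] with X hX1 ψ hψ
    have hne : ∀ᶠ n in atTop, ψ n ≠ 0 := by
      filter_upwards [hψ] with n hn
      obtain ⟨Δ, hΔ, hg⟩ := hn
      exact hg.1
    obtain ⟨A, hA1, hA2⟩ := le_one_case5 (by omega : d ≤ 1) ψ hne
    refine ⟨fun R hRW r a b hr hR ε hε hε1 => hX1 ψ hψ R hRW r a b hr hR 1 one_pos ε hε hε1,
      ?_, ?_, ?_⟩
    · refine ⟨1, one_pos, fun ε hε hε1 N D₀ _ hN T hT hmin => ⟨1, ?_, A, hA1, fun R _ => ?_⟩⟩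
      · have hD₀ : 1 ≤ D₀ := by
          rcases Nat.eq_zero_or_pos D₀ with h0 | h0
          · exfalso
            apply hT
            subst h0
            funext s
            unfold sitePepsVec
            have : IsEmpty (Site N → Fin 0) := ⟨fun f => (f 0).elim0⟩
            simp
          · exact h0
        have hN1 : 1 ≤ N := NeZero.one_le
        have e1 : 1 ≤ N ^ 2 := Nat.one_le_pow _ _ hN1
        have e2 : 1 ≤ D₀ ^ 6 := Nat.one_le_pow _ _ hD₀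
        calc 1 ≤ 32 * 1 * 1 := by norm_num
          _ ≤ 32 * N ^ 2 * D₀ ^ 6 := Nat.mul_le_mul (Nat.mul_le_mul le_rfl e1) e2
      · filter_upwards [hA2 R] with n hn v
        exact (hn v).trans hε.le
    · refine ⟨1, one_pos, fun ε hε hε1 N _ hN β hβ hH φ hφ hF => ⟨1, ?_, A, hA1, fun R _ => ?_⟩⟩
      · rw [Nat.cast_one]
        apply Real.one_le_rpow _ (by linarith)
        have : (1 : ℝ) ≤ N := by exact_mod_cast (NeZero.one_le : 1 ≤ N)
        linarith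
      · filter_upwards [hA2 R] with n hn v
        exact (hn v).trans hε.le
    · rintro -
      refine ⟨0, fun ε hε hε1 => ⟨1, by simp, A, hA1, fun R _ => ?_⟩⟩
      filter_upwards [hA2 R] with n hn v
      exact (hn v).trans hε.le

/-- for families whose gap is stable -/
theorem stable_all5 (d r : ℕ) (hr : 1 ≤ r) : ∃ C : ℝ,
    ∀ (F : Finset (ℤ × ℤ)) (h : Matrix (F → Fin d) (F → Fin d) ℂ), h.IsHermitian →
    ∀ (Δ : ℝ), 0 < Δ → ∀ (ψ : ∀ n : ℕ, (Site (n + 1) → Fin d) → ℂ),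
    (∀ᶠ n in atTop, IsGappedGround (hamiltonian (n + 1) F h) Δ (ψ n)) →
    ∀ (R : Finset (ℤ × ℤ)) (a b : ℤ),
    (∀ p ∈ R, a ≤ p.1 ∧ p.1 < a + r ∧ b ≤ p.2 ∧ p.2 < b + r) →
    (∀ k : Matrix (R → Fin d) (R → Fin d) ℂ, k.IsHermitian → ∃ η > 0, ∃ Δ' > 0,
      ∀ᶠ n in atTop, ∀ s ∈ Set.Icc (0 : ℝ) η, ∃ φ : (Site (n + 1) → Fin d) → ℂ,
        IsGappedGround (hamiltonian (n + 1) F h + (s : ℂ) • hamiltonian (n + 1) R k) Δ' φ) →
    (∀ ε : ℝ, 0 < ε → ε ≤ 1 →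
      ∃ D : ℕ, (D : ℝ) ≤ Real.exp (C * Real.log (2 / ε) / ε) ∧
        ∃ A : Fin d → Fin D → Fin D → Fin D → Fin D → ℂ,
        (∀ᶠ n in atTop, pepsVec (n + 1) A ≠ 0) ∧
        ∀ᶠ n in atTop, ∀ v : Site (n + 1),
          traceNorm (reduced (n + 1) R v (ψ n) - reduced (n + 1) R v (pepsVec (n + 1) A)) ≤ ε) ∧
    (∃ B : ℝ, 0 < B ∧ ∀ ε : ℝ, 0 < ε → ε ≤ 1 → ∀ (N D₀ : ℕ) [NeZero N], B / ε ^ 2 ≤ N →
      ∀ T : Site N → Fin d → Fin D₀ → Fin D₀ → Fin D₀ → Fin D₀ → ℂ, sitePepsVec N T ≠ 0 →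
      (∀ χ : (Site N → Fin d) → ℂ, χ ≠ 0 →
        ex (hamiltonian N F h) (sitePepsVec N T) / sqn (sitePepsVec N T) ≤
          ex (hamiltonian N F h) χ / sqn χ + ε ^ 2 / B * (N : ℝ) ^ 2) →
      ∃ D : ℕ, D ≤ 32 * N ^ 2 * D₀ ^ 6 ∧ ∃ A : Fin d → Fin D → Fin D → Fin D → Fin D → ℂ,
        (∀ᶠ n in atTop, pepsVec (n + 1) A ≠ 0) ∧
        ∀ᶠ n in atTop, ∀ v : Site (n + 1),
          traceNorm (reduced (n + 1) R v (ψ n) - reduced (n + 1) R v (pepsVec (n + 1) A)) ≤ ε) ∧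
    (∃ B : ℝ, 0 < B ∧ ∀ ε : ℝ, 0 < ε → ε ≤ 1 → ∀ (N : ℕ) [NeZero N], B / ε ^ 2 ≤ N →
      ∀ β : ℝ, 1 ≤ β → ∀ (hH : (hamiltonian N F h).IsHermitian)
        (φ : (Site N → Fin d) → ℂ), φ ≠ 0 →
      Real.log (∑ j, Real.exp (-(β * hH.eigenvalues j))) +
        β * (ex (hamiltonian N F h) φ / sqn φ) ≤ β * (ε ^ 2 / B * (N : ℝ) ^ 2) →
      ∃ D : ℕ, (D : ℝ) ≤ (2 * (N : ℝ)) ^ (B * β) ∧
        ∃ A : Fin d → Fin D → Fin D → Fin D → Fin D → ℂ,
        (∀ᶠ n in atTop, pepsVec (n + 1) A ≠ 0) ∧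
        ∀ᶠ n in atTop, ∀ v : Site (n + 1),
          traceNorm (reduced (n + 1) R v (ψ n) - reduced (n + 1) R v (pepsVec (n + 1) A)) ≤ ε) ∧
    ((∃ α : ℝ, ∀ᶠ n : ℕ in atTop, ∀ E : ℝ,
        (hamiltonian (n + 1) F h).mulVec (ψ n) = (E : ℂ) • ψ n → ∀ M : ℝ, 1 ≤ M →
        (eigCount (hamiltonian (n + 1) F h) (E + M) : ℝ) ≤ ((n + 1 : ℕ) : ℝ) ^ (α * M)) →
      ∃ C' : ℝ, ∀ ε : ℝ, 0 < ε → ε ≤ 1 →
        ∃ D : ℕ, (D : ℝ) ≤ Real.exp (C' * Real.log (2 / ε) ^ 2) ∧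
        ∃ A : Fin d → Fin D → Fin D → Fin D → Fin D → ℂ,
        (∀ᶠ n in atTop, pepsVec (n + 1) A ≠ 0) ∧
        ∀ᶠ n in atTop, ∀ v : Site (n + 1),
          traceNorm (reduced (n + 1) R v (ψ n) - reduced (n + 1) R v (pepsVec (n + 1) A)) ≤
            ε) := by
  classical
  obtain ⟨C, hC0, hC⟩ := core_final5 d r hr
  refine ⟨C, ?_⟩
  intro F h hh Δ hΔ ψ hψ R a b hR hst
  have hham0 : ∀ (N : ℕ) [NeZero N], hamiltonian N R (0 : Matrix (R → Fin d) (R → Fin d) ℂ) = 0 := by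
    intro N _
    have := hamiltonian_smul (N := N) (W := R) (0 : ℂ) (0 : Matrix (R → Fin d) (R → Fin d) ℂ)
    rwa [zero_smul, zero_smul] at this
  refine ⟨fun ε hε hε1 => stable_of hC F h hh Δ hΔ ψ hψ R a b hR hst ε hε hε1, ?_⟩
  rcases Nat.lt_or_ge 1 d with hd | hd
  · have hzo : (⟨0, by omega⟩ : Fin d) ≠ ⟨1, by omega⟩ := by
      intro h
      simp only [Fin.mk.injEq] at h
      omega
    have hsec : ∀ x i j, SecOrd F R h 0 (dirM x i j) ψ := by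
      intro x i j
      obtain ⟨η, hη, Δ', hΔ', hs⟩ := hst (dirM x i j) (dirM_isHermitian x i j)
      exact secOrd_of_stable hh (dirM_isHermitian x i j) hΔ ψ hψ hη hΔ' hs
    have hTI : ∀ᶠ n in atTop, ψ n ≠ 0 ∧ ∀ (Q : Finset (ℤ × ℤ)) (w : Site (n + 1)),
        reduced (n + 1) Q w (ψ n) = reduced (n + 1) Q 0 (ψ n) := by
      filter_upwards [hψ] with n hn
      exact ⟨hn.1, fun Q w => reduced_eq_of_gapped F h hΔ hn Q w⟩
    obtain ⟨h2, h3⟩ := two_of_sec4 hzo h hh 0 Matrix.isHermitian_zero ψ hTI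
      (fun r hr => labNet_all5 d (by omega) r hr) hsec
    have h4 := therm_two hzo h hh 0 Matrix.isHermitian_zero ψ hTI
      (fun r hr => labNet_all5 d (by omega) r hr) hsec
    refine ⟨?_, ?_, ?_⟩
    · obtain ⟨B, hB, hB'⟩ := h2
      refine ⟨B, hB, fun ε hε hε1 N D₀ _ hN T hT hmin => hB' ε hε hε1 N D₀ hN T hT ?_⟩
      intro χ hχ
      rw [hham0, add_zero]
      exact hmin χ hχ
    · obtain ⟨B, hB, hB'⟩ := h4
      refine ⟨B, hB, fun ε hε hε1 N _ hN β hβ hH φ hφ hF => ?_⟩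
      have e0 : hamiltonian N F h =
          hamiltonian N F h + hamiltonian N R (0 : Matrix (R → Fin d) (R → Fin d) ℂ) := by
        rw [hham0, add_zero]
      have key : ∀ (M M' : Matrix (Site N → Fin d) (Site N → Fin d) ℂ) (e : M = M')
          (h1 : M.IsHermitian) (h2 : M'.IsHermitian),
          (∑ j, Real.exp (-(β * h1.eigenvalues j))) = ∑ j, Real.exp (-(β * h2.eigenvalues j)) := by
        intro M M' e h1 h2
        subst e
        rfl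
      have hH2 : (hamiltonian N F h +
          hamiltonian N R (0 : Matrix (R → Fin d) (R → Fin d) ℂ)).IsHermitian := by
        rw [← e0]; exact hH
      refine hB' ε hε hε1 N hN β hβ hH2 φ hφ ?_
      rw [← key _ _ e0 hH hH2, ← e0]
      exact hF
    · rintro ⟨α, hα⟩
      refine h3 ⟨α, ?_⟩
      filter_upwards [hα, hψ] with n hn1 hn2 E hE M hM
      rw [hham0, add_zero] at hE ⊢
      exact count_conv5 hΔ hn2 hn1 E hE M hM
  · have hne : ∀ᶠ n in atTop, ψ n ≠ 0 := hψ.mono (fun n hn => hn.1)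
    obtain ⟨A, hA1, hA2⟩ := le_one_case5 (by omega : d ≤ 1) ψ hne
    refine ⟨?_, ?_, ?_⟩
    · refine ⟨1, one_pos, fun ε hε hε1 N D₀ _ hN T hT hmin => ⟨1, ?_, A, hA1, ?_⟩⟩
      · have hD₀ : 1 ≤ D₀ := by
          rcases Nat.eq_zero_or_pos D₀ with h0 | h0
          · exfalso
            apply hT
            subst h0
            funext s
            unfold sitePepsVec
            have : IsEmpty (Site N → Fin 0) := ⟨fun f => (f 0).elim0⟩
            simp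
          · exact h0
        have hN1 : 1 ≤ N := NeZero.one_le
        have e1 : 1 ≤ N ^ 2 := Nat.one_le_pow _ _ hN1
        have e2 : 1 ≤ D₀ ^ 6 := Nat.one_le_pow _ _ hD₀
        calc 1 ≤ 32 * 1 * 1 := by norm_num
          _ ≤ 32 * N ^ 2 * D₀ ^ 6 := Nat.mul_le_mul (Nat.mul_le_mul le_rfl e1) e2
      · filter_upwards [hA2 R] with n hn v
        exact (hn v).trans hε.le
    · refine ⟨1, one_pos, fun ε hε hε1 N _ hN β hβ hH φ hφ hF => ⟨1, ?_, A, hA1, ?_⟩⟩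
      · rw [Nat.cast_one]
        apply Real.one_le_rpow _ (by linarith)
        have : (1 : ℝ) ≤ N := by exact_mod_cast (NeZero.one_le : 1 ≤ N)
        linarith
      · filter_upwards [hA2 R] with n hn v
        exact (hn v).trans hε.le
    · rintro -
      refine ⟨0, fun ε hε hε1 => ⟨1, by simp, A, hA1, ?_⟩⟩
      filter_upwards [hA2 R] with n hn v
      exact (hn v).trans hε.le

end Pool.Agent.Hhelper96.PEPS
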