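import Pool.Agent.Hhelper96.UB.SecDef

/-!
For Lebesgue-almost every interaction the limiting ground state energy per site has a second order
lower bound in a given direction (concave functions are twice differentiable almost everywhere).
-/

set_option autoImplicit false
set_option linter.unusedSectionVars false

open scoped BigOperators Topology ComplexOrder
open Matrix Filter MeasureTheory

namespace Pool.Agent.Hhelper96.PEPS

/-- the second differences of a concave function of one variable are `≥ - k s ^ 2` for small `s`, at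
almost every point -/
theorem concave_second {f : ℝ → ℝ} (hf : ConcaveOn ℝ Set.univ f) :
    ∀ᵐ t : ℝ, ∃ k : ℕ, ∀ s : ℝ, 0 < s → s ≤ 1 / ((k : ℝ) + 1) →
      -(k : ℝ) * s ^ 2 ≤ f (t + s) + f (t - s) - 2 * f t := by
  have hg : ConvexOn ℝ Set.univ (fun x => - f x) := hf.neg
  obtain ⟨g, hgd⟩ : ∃ g : ℝ → ℝ, g = fun x => - f x := ⟨_, rfl⟩
  rw [← hgd] at hg
  obtain ⟨m, hm⟩ : ∃ m : ℝ → ℝ, m = fun x => derivWithin g (Set.Ioi x) x := ⟨_, rfl⟩
  have hint : ∀ x : ℝ, x ∈ interior (Set.univ : Set ℝ) := fun x => by simp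
  have hmono : Monotone m := by
    intro x y hxy
    rw [hm]
    exact hg.monotoneOn_rightDeriv (hint x) (hint y) hxy
  filter_upwards [hmono.ae_differentiableAt] with t ht
  have hd := ht.hasDerivAt
  obtain ⟨c, hc⟩ : ∃ c : ℝ, c = |deriv m t| + 1 := ⟨_, rfl⟩
  have hc0 : 0 < c := by rw [hc]; positivity
  have hlin : ∀ᶠ x in 𝓝 t, |m x - m t| ≤ c * |x - t| := by
    have h1 := hd.isLittleO
    have h2 := h1.def (c := 1) one_pos
    filter_upwards [h2] with x hx
    rw [Real.norm_eq_abs, Real.norm_eq_abs, one_mul, smul_eq_mul] at hx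
    have h3 : |m x - m t| ≤ |m x - m t - (x - t) * deriv m t| + |(x - t) * deriv m t| := by
      have := abs_add_le (m x - m t - (x - t) * deriv m t) ((x - t) * deriv m t)
      rwa [sub_add_cancel] at this
    rw [abs_mul] at h3
    rw [hc]
    nlinarith
  obtain ⟨δ, hδ, hball⟩ := Metric.eventually_nhds_iff.1 hlin
  obtain ⟨k, hk⟩ := exists_nat_ge (max (2 * c) (1 / δ))
  refine ⟨k, fun s hs hsk => ?_⟩
  have hk1 : 2 * c ≤ k := (le_max_left _ _).trans hk
  have hk2 : 1 / δ ≤ k := (le_max_right _ _).trans hk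
  have hsδ : s < δ := by
    refine lt_of_le_of_lt hsk ?_
    rw [div_lt_iff₀ (by positivity)]
    rw [div_le_iff₀ hδ] at hk2
    nlinarith
  have hp := hball (y := t + s) (by rw [Real.dist_eq, add_sub_cancel_left, abs_of_pos hs]; exact hsδ)
  have hq := hball (y := t - s) (by
    rw [Real.dist_eq, sub_sub_cancel_left, abs_neg, abs_of_pos hs]; exact hsδ)
  rw [add_sub_cancel_left, abs_of_pos hs] at hp
  rw [sub_sub_cancel_left, abs_neg, abs_of_pos hs] at hq
  have hp' := (abs_le.1 hp).2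
  have hq' := (abs_le.1 hq).1
  -- slopes
  have h1 : slope g t (t + s) ≤ m (t + s) := by
    have h2 := hg.slope_le_leftDeriv_of_mem_interior (x := t) (y := t + s) (Set.mem_univ _)
      (hint _) (by linarith)
    have h3 := hg.leftDeriv_le_rightDeriv_of_mem_interior (hint (t + s))
    rw [hm]
    exact h2.trans h3
  have h2 : m (t - s) ≤ slope g (t - s) t := by
    rw [hm]
    exact hg.rightDeriv_le_slope_of_mem_interior (hint _) (Set.mem_univ _) (by linarith)
  rw [slope_def_field, add_sub_cancel_left, div_le_iff₀ hs] at h1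
  rw [slope_def_field, sub_sub_cancel, le_div_iff₀ hs] at h2
  have h3 : g (t + s) + g (t - s) - 2 * g t ≤ k * s ^ 2 := by
    have h4 : m (t + s) - m (t - s) ≤ 2 * c * s := by linarith
    have h5 : (m (t + s) - m (t - s)) * s ≤ k * s * s := by
      refine mul_le_mul_of_nonneg_right (h4.trans ?_) hs.le
      exact mul_le_mul_of_nonneg_right hk1 hs.le
    nlinarith
  rw [hgd] at h3
  simp only at h3
  linarith

/-- the second differences in a fixed direction of a continuous function which is concave on the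
lines of this direction are `≥ - k s ^ 2` for small `s`, at almost every point -/
theorem ae_second {E : Type} [NormedAddCommGroup E] [NormedSpace ℝ E] [FiniteDimensional ℝ E]
    [MeasurableSpace E] [BorelSpace E] (μ : Measure E) [μ.IsAddHaarMeasure] {e : E → ℝ}
    (he : Continuous e) (v : E) (hc : ∀ X, ConcaveOn ℝ Set.univ (fun t : ℝ => e (X + t • v))) :
    ∀ᵐ X ∂μ, ∃ k : ℕ, ∀ s : ℝ, 0 < s → s ≤ 1 / ((k : ℝ) + 1) →
      -(k : ℝ) * s ^ 2 ≤ e (X + s • v) + e (X - s • v) - 2 * e X := by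
  have : ProperSpace E := FiniteDimensional.proper ℝ E
  let L : ℝ →L[ℝ] E := ContinuousLinearMap.smulRight (1 : ℝ →L[ℝ] ℝ) v
  have hmeas : MeasurableSet {X : E | ∃ k : ℕ, ∀ s : ℝ, 0 < s → s ≤ 1 / ((k : ℝ) + 1) →
      -(k : ℝ) * s ^ 2 ≤ e (X + s • v) + e (X - s • v) - 2 * e X} := by
    rw [Set.ofPred_exists]
    refine MeasurableSet.iUnion fun k => IsClosed.measurableSet ?_
    simp only [Set.ofPred_forall]
    refine isClosed_iInter fun s => isClosed_iInter fun _ => isClosed_iInter fun _ => ?_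
    refine isClosed_le continuous_const ?_
    exact ((he.comp (continuous_id.add continuous_const)).add
      (he.comp (continuous_id.sub continuous_const))).sub (continuous_const.mul he)
  refine ae_mem_of_ae_add_linearMap_mem L.toLinearMap volume μ hmeas fun X => ?_
  filter_upwards [concave_second (hc X)] with t ht
  obtain ⟨k, hk⟩ := ht
  refine ⟨k, fun s hs hsk => ?_⟩
  have h1 := hk s hs hsk
  have hL : L.toLinearMap t = t • v := by
    simp [L]
  rw [hL]
  have h2 : X + t • v + s • v = X + (t + s) • v := by rw [add_smul, add_assoc]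
  have h3 : X + t • v - s • v = X + (t - s) • v := by rw [sub_smul, add_sub_assoc]
  rw [h2, h3]
  exact h1

theorem secOrd_generic (d : ℕ) (hd : 1 ≤ d) (F R : Finset (ℤ × ℤ))
    (h : Matrix (F → Fin d) (F → Fin d) ℂ) (hh : h.IsHermitian)
    (V : Matrix (R → Fin d) (R → Fin d) ℂ) (hV : V.IsHermitian) :
    ∀ᵐ X : (R → Fin d) → (R → Fin d) → ℝ, ∀ ψ : ∀ n : ℕ, (Site (n + 1) → Fin d) → ℂ,
      (∀ᶠ n in atTop, ∃ Δ > 0, IsGappedGround
        (hamiltonian (n + 1) F h + hamiltonian (n + 1) R (hermOf X)) Δ (ψ n)) →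
      SecOrd F R h (hermOf X) V ψ := by
  classical
  obtain ⟨W, hWd⟩ : ∃ W, W = F ∪ R := ⟨_, rfl⟩
  have hFW : F ⊆ W := by rw [hWd]; exact Finset.subset_union_left
  have hRW : R ⊆ W := by rw [hWd]; exact Finset.subset_union_right
  obtain ⟨r, a, b, hr, hW⟩ := exists_box W
  have hR : ∀ p ∈ R, a ≤ p.1 ∧ p.1 < a + r ∧ b ≤ p.2 ∧ p.2 < b + r := fun p hp => hW p (hRW hp)
  have hne : ∀ n : ℕ, Nonempty (Site (n + 1) → Fin d) := fun n => ⟨fun _ => ⟨0, by omega⟩⟩
  have hherm : ∀ (X : (R → Fin d) → (R → Fin d) → ℝ) (n : ℕ),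
      (hamiltonian (n + 1) F h + hamiltonian (n + 1) R (hermOf X)).IsHermitian := fun X n =>
    (hamiltonian_isHermitian hh).add (hamiltonian_isHermitian (hermOf_isHermitian X))
  -- lowest states
  have hlow : ∀ (X : (R → Fin d) → (R → Fin d) → ℝ) (n : ℕ), ∃ (E : ℝ)
      (φ : (Site (n + 1) → Fin d) → ℂ), φ ≠ 0 ∧
      (hamiltonian (n + 1) F h + hamiltonian (n + 1) R (hermOf X)).mulVec φ = (E : ℂ) • φ ∧
      (∀ χ, E * sqn χ ≤ ex (hamiltonian (n + 1) F h + hamiltonian (n + 1) R (hermOf X)) χ) ∧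
      ∀ (t : Site (n + 1)) (s s' : Site (n + 1) → Fin d),
        density φ (tr t s) (tr t s') = density φ s s' := by
    intro X n
    have := hne n
    exact exists_TI_lowest (hherm X n) (sum_TI' F R h (hermOf X))
  choose E φ hEφ using hlow
  -- limits
  have hlim : ∀ X, ∃ l, Tendsto (fun n => E X n / ((n + 1 : ℕ) : ℝ) ^ 2) atTop (𝓝 l) := fun X =>
    energy_converges' hFW hRW hr a b hW h (hermOf X) (φ X) (E X) (hEφ X)
  choose e he using hlim
  -- comparison
  have hcomp : ∀ (X V : (R → Fin d) → (R → Fin d) → ℝ) (n : ℕ), r ≤ n + 1 →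
      E X n / ((n + 1 : ℕ) : ℝ) ^ 2 ≤ E V n / ((n + 1 : ℕ) : ℝ) ^ 2 + locBd (hermOf (X - V)) := by
    intro X V n hn
    have hq : (0 : ℝ) < ((n + 1 : ℕ) : ℝ) ^ 2 := by positivity
    rw [div_add' _ _ _ hq.ne', div_le_div_iff_of_pos_right hq]
    have h1 := (hEφ X n).2.2.1 (φ V n)
    have h2 : hamiltonian (n + 1) F h + hamiltonian (n + 1) R (hermOf X) =
        (hamiltonian (n + 1) F h + hamiltonian (n + 1) R (hermOf V)) +
          hamiltonian (n + 1) R (hermOf (X - V)) := by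
      have h3 : X = V + (1 : ℝ) • (X - V) := by rw [one_smul]; abel
      conv_lhs => rw [h3, hermOf_add_smul, hamiltonian_add_smul]
      rw [Complex.ofReal_one, one_smul, add_assoc]
    rw [h2, ex_add, ex_of_eigen (hEφ V n).2.1] at h1
    have h4 := (abs_le.1 (ex_hamiltonian_le hn a b hR (hermOf (X - V)) (φ V n))).2
    have h5 := sqn_pos (hEφ V n).1
    have h6 : E X n * sqn (φ V n) ≤
        (E V n + locBd (hermOf (X - V)) * ((n + 1 : ℕ) : ℝ) ^ 2) * sqn (φ V n) := by
      nlinarith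
    exact le_of_mul_le_mul_right h6 h5
  obtain ⟨K, hK⟩ : ∃ K : ℝ, K = √((∑ _a : R → Fin d, ∑ _c : R → Fin d, (4 : ℝ) ^ 2) *
      Fintype.card (R → Fin d)) := ⟨_, rfl⟩
  have hK0 : 0 ≤ K := by rw [hK]; exact Real.sqrt_nonneg _
  have hle : ∀ X V, e X ≤ e V + K * ‖X - V‖ := by
    intro X V
    refine le_of_tendsto_of_tendsto (he X) ((he V).add_const _) ?_
    filter_upwards [eventually_ge_atTop r] with n hn
    refine (hcomp X V n (by omega)).trans ?_
    have := locBd_hermOf_le (X - V)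
    rw [← hK] at this
    linarith
  have hLip : LipschitzWith (Real.toNNReal K) e := by
    apply LipschitzWith.of_dist_le_mul
    intro X V
    rw [Real.dist_eq, Real.coe_toNNReal K hK0, dist_eq_norm]
    rw [abs_le]
    constructor
    · have := hle V X
      rw [norm_sub_rev] at this
      linarith
    · have := hle X V
      linarith
  -- the direction
  obtain ⟨V₀, hV₀⟩ := exists_hermOf hV
  have hex : ∀ (X : (R → Fin d) → (R → Fin d) → ℝ) (t : ℝ) (n : ℕ)
      (χ : (Site (n + 1) → Fin d) → ℂ),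
      ex (hamiltonian (n + 1) F h + hamiltonian (n + 1) R (hermOf (X + t • V₀))) χ =
        ex (hamiltonian (n + 1) F h + hamiltonian (n + 1) R (hermOf X)) χ +
          t * ex (hamiltonian (n + 1) R V) χ := by
    intro X t n χ
    rw [hermOf_add_smul, hamiltonian_add_smul, ← add_assoc, ex_add, ex_smul, hV₀]
  have hconc : ∀ X, ConcaveOn ℝ Set.univ (fun t : ℝ => e (X + t • V₀)) := by
    intro X
    refine ⟨convex_univ, fun t₁ _ t₂ _ α β hα hβ hαβ => ?_⟩
    simp only [smul_eq_mul]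
    refine le_of_tendsto_of_tendsto (((he (X + t₁ • V₀)).const_mul α).add
      ((he (X + t₂ • V₀)).const_mul β)) (he (X + (α * t₁ + β * t₂) • V₀)) ?_
    refine Filter.Eventually.of_forall fun n => ?_
    have hq : (0 : ℝ) < ((n + 1 : ℕ) : ℝ) ^ 2 := by positivity
    simp only
    rw [← mul_div_assoc, ← mul_div_assoc, ← add_div, div_le_div_iff_of_pos_right hq]
    obtain ⟨χ, hχ⟩ : ∃ χ, χ = φ (X + (α * t₁ + β * t₂) • V₀) n := ⟨_, rfl⟩
    have h0 : 0 < sqn χ := by rw [hχ]; exact sqn_pos (hEφ _ n).1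
    have h1 := (hEφ (X + t₁ • V₀) n).2.2.1 χ
    have h2 := (hEφ (X + t₂ • V₀) n).2.2.1 χ
    have h3 := ex_of_eigen (hEφ (X + (α * t₁ + β * t₂) • V₀) n).2.1
    rw [← hχ] at h3
    rw [hex] at h1 h2 h3
    have h4 : (α * E (X + t₁ • V₀) n + β * E (X + t₂ • V₀) n) * sqn χ ≤
        E (X + (α * t₁ + β * t₂) • V₀) n * sqn χ := by
      rw [← h3]
      have h5 := mul_le_mul_of_nonneg_left h1 hα
      have h6 := mul_le_mul_of_nonneg_left h2 hβ
      have h7 : α + β = 1 := hαβ
      have h8 : α * (ex (hamiltonian (n + 1) F h + hamiltonian (n + 1) R (hermOf X)) χ +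
          t₁ * ex (hamiltonian (n + 1) R V) χ) +
          β * (ex (hamiltonian (n + 1) F h + hamiltonian (n + 1) R (hermOf X)) χ +
          t₂ * ex (hamiltonian (n + 1) R V) χ) =
          ex (hamiltonian (n + 1) F h + hamiltonian (n + 1) R (hermOf X)) χ +
          (α * t₁ + β * t₂) * ex (hamiltonian (n + 1) R V) χ := by
        have : β = 1 - α := by linarith
        rw [this]
        ring
      rw [← h8]
      linarith
    exact le_of_mul_le_mul_right h4 h0
  filter_upwards [ae_second volume hLip.continuous V₀ hconc] with X hX ψ hψ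
  obtain ⟨k, hk⟩ := hX
  refine ⟨k + 1, by positivity, 1 / ((k : ℝ) + 1), by positivity, fun s hs hs0 => ?_⟩
  have h1 := hk s hs hs0
  -- supergradient inequality
  have hsup : ∀ᶠ n in atTop, ex (hamiltonian (n + 1) F h + hamiltonian (n + 1) R (hermOf X)) (ψ n) /
      sqn (ψ n) = E X n ∧ E (X + (-s) • V₀) n ≤
      E X n + (-s) * enf V (reduced (n + 1) R 0 (ψ n)) * ((n + 1 : ℕ) : ℝ) ^ 2 := by
    filter_upwards [hψ] with n h1
    obtain ⟨Δ, hΔ, hg⟩ := h1
    obtain ⟨E₁, c, hc, hgs⟩ := gs_of_gapped (hherm X n) hΔ hg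
    have hne' : c • ψ n ≠ 0 := smul_ne_zero hc hg.1
    -- the energy
    have hE₁ : E₁ = E X n := by
      have h2 := hgs.le (hherm X n) hΔ.le (φ X n)
      rw [ex_of_eigen (hEφ X n).2.1] at h2
      have h3 := le_of_mul_le_mul_right h2 (sqn_pos (hEφ X n).1)
      have h4 := (hEφ X n).2.2.1 (c • ψ n)
      rw [hgs.ex_eq, hgs.1, mul_one] at h4
      exact le_antisymm h3 h4
    have h2 := (hEφ (X + (-s) • V₀) n).2.2.1 (c • ψ n)
    rw [hex, hgs.ex_eq, hgs.1, mul_one, hE₁] at h2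
    have hgK : ex (hamiltonian (n + 1) R V) (c • ψ n) =
        ((n + 1 : ℕ) : ℝ) ^ 2 * enf V (reduced (n + 1) R 0 (ψ n)) := by
      unfold hamiltonian
      rw [ex_sum]
      have e1 : ∀ v : Site (n + 1), ex (localTerm (n + 1) R V v) (c • ψ n) =
          enf V (reduced (n + 1) R 0 (ψ n)) := by
        intro v
        rw [ex_localTerm R V v hne', hgs.1, one_mul, reduced_smul R v hc,
          reduced_eq_of_TI (sum_TI' F R h (hermOf X)) hΔ hg R v]
      rw [Finset.sum_congr rfl (fun v _ => e1 v), Finset.sum_const, Finset.card_univ,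
        Fintype.card_prod, ZMod.card, nsmul_eq_mul]
      push_cast
      ring
    refine ⟨?_, ?_⟩
    · have h5 := ex_of_eigen hgs.2.1
      rw [ex_smul_vec, sqn_smul, hE₁] at h5
      have h6 : 0 < ‖c‖ ^ 2 := by positivity
      have h7 := sqn_pos hg.1
      rw [div_eq_iff h7.ne']
      have h8 : ‖c‖ ^ 2 * ex (hamiltonian (n + 1) F h + hamiltonian (n + 1) R (hermOf X)) (ψ n) =
          ‖c‖ ^ 2 * (E X n * sqn (ψ n)) := by
        rw [h5]
        ring
      exact mul_left_cancel₀ h6.ne' h8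
    · rw [hgK] at h2
      linarith
  have hlim : ∀ᶠ n in atTop, -((k : ℝ) + 1) * s ^ 2 ≤
      E (X + s • V₀) n / ((n + 1 : ℕ) : ℝ) ^ 2 + E (X + (-s) • V₀) n / ((n + 1 : ℕ) : ℝ) ^ 2 -
        2 * (E X n / ((n + 1 : ℕ) : ℝ) ^ 2) := by
    have h2 : Tendsto (fun n => E (X + s • V₀) n / ((n + 1 : ℕ) : ℝ) ^ 2 +
        E (X + (-s) • V₀) n / ((n + 1 : ℕ) : ℝ) ^ 2 - 2 * (E X n / ((n + 1 : ℕ) : ℝ) ^ 2)) atTop
        (𝓝 (e (X + s • V₀) + e (X + (-s) • V₀) - 2 * e X)) :=
      ((he _).add (he _)).sub ((he _).const_mul _)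
    have h3 : -((k : ℝ) + 1) * s ^ 2 < e (X + s • V₀) + e (X + (-s) • V₀) - 2 * e X := by
      rw [neg_smul, ← sub_eq_add_neg]
      have : 0 < s ^ 2 := by positivity
      linarith
    exact (h2.eventually (lt_mem_nhds h3)).mono fun n hn => le_of_lt hn
  filter_upwards [hsup, hlim] with n hn1 hn2 χ
  obtain ⟨hn1, hn3⟩ := hn1
  rw [hn1]
  have hq : (0 : ℝ) < ((n + 1 : ℕ) : ℝ) ^ 2 := by positivity
  have h2 := (hEφ (X + s • V₀) n).2.2.1 χ
  rw [hex] at h2
  rw [ex_add, ex_smul]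
  refine le_trans (mul_le_mul_of_nonneg_right ?_ (sqn_nonneg χ)) h2
  have h4 : -((k : ℝ) + 1) * s ^ 2 * ((n + 1 : ℕ) : ℝ) ^ 2 ≤
      E (X + s • V₀) n + E (X + (-s) • V₀) n - 2 * E X n := by
    have h5 := mul_le_mul_of_nonneg_right hn2 hq.le
    have h6 : (E (X + s • V₀) n / ((n + 1 : ℕ) : ℝ) ^ 2 + E (X + (-s) • V₀) n /
        ((n + 1 : ℕ) : ℝ) ^ 2 - 2 * (E X n / ((n + 1 : ℕ) : ℝ) ^ 2)) * ((n + 1 : ℕ) : ℝ) ^ 2 =
        E (X + s • V₀) n + E (X + (-s) • V₀) n - 2 * E X n := by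
      field_simp
    rw [h6] at h5
    exact h5
  obtain ⟨g, hg⟩ : ∃ g, g = enf V (reduced (n + 1) R 0 (ψ n)) := ⟨_, rfl⟩
  rw [← hg] at hn3 ⊢
  obtain ⟨N2, hN2⟩ : ∃ N2, N2 = ((n + 1 : ℕ) : ℝ) ^ 2 := ⟨_, rfl⟩
  rw [← hN2] at hn3 h4 ⊢
  linarith

end Pool.Agent.Hhelper96.PEPS
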