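import Pool.Agent.Hhelper96.UB.SecDef

/-!
A gap which is stable in the direction of the local term `V` gives a second order lower bound of
the ground state energy in this direction (second order perturbation theory with the variance bound
of `chain`).
-/

set_option autoImplicit false
set_option linter.unusedSectionVars false

open scoped BigOperators Topology ComplexOrder
open Matrix Filter

namespace Pool.Agent.Hhelper96.PEPS

theorem hamiltonian_zero_term {d L : ℕ} [NeZero L] (R : Finset (ℤ × ℤ)) :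
    hamiltonian L R (0 : Matrix (R → Fin d) (R → Fin d) ℂ) = 0 := by
  unfold hamiltonian
  refine Finset.sum_eq_zero (fun v _ => ?_)
  ext s s'
  unfold localTerm
  split_ifs <;> simp

theorem secOrd_of_stable {d : ℕ} {F R : Finset (ℤ × ℤ)} {h : Matrix (F → Fin d) (F → Fin d) ℂ}
    {V : Matrix (R → Fin d) (R → Fin d) ℂ} (hh : h.IsHermitian) (hV : V.IsHermitian) {Δ : ℝ}
    (hΔ : 0 < Δ) (ψ : ∀ n : ℕ, (Site (n + 1) → Fin d) → ℂ)
    (hψ : ∀ᶠ n in atTop, IsGappedGround (hamiltonian (n + 1) F h) Δ (ψ n))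
    {η Δ' : ℝ} (hη : 0 < η) (hΔ' : 0 < Δ')
    (hst : ∀ᶠ n in atTop, ∀ s ∈ Set.Icc (0 : ℝ) η, ∃ φ : (Site (n + 1) → Fin d) → ℂ,
      IsGappedGround (hamiltonian (n + 1) F h + (s : ℂ) • hamiltonian (n + 1) R V) Δ' φ) :
    SecOrd F R h 0 V ψ := by
  classical
  obtain ⟨W, hWd⟩ : ∃ W, W = F ∪ R := ⟨_, rfl⟩
  have hFW : F ⊆ W := by rw [hWd]; exact Finset.subset_union_left
  have hRW : R ⊆ W := by rw [hWd]; exact Finset.subset_union_right
  obtain ⟨r, a, b, hr, hW⟩ := exists_box W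
  have hinjF : ∀ n : ℕ, r ≤ n + 1 → ∀ v : Site (n + 1),
      Function.Injective (fun p : F => place (n + 1) v p) :=
    fun n hn v => place_injective hn F a b (fun p hp => hW p (hFW hp)) v
  have hinjR : ∀ n : ℕ, r ≤ n + 1 → ∀ v : Site (n + 1),
      Function.Injective (fun p : R => place (n + 1) v p) :=
    fun n hn v => place_injective hn R a b (fun p hp => hW p (hRW hp)) v
  -- the common gap
  obtain ⟨Δm, hΔm⟩ : ∃ Δm, Δm = min Δ Δ' := ⟨_, rfl⟩
  have hΔm0 : 0 < Δm := by rw [hΔm]; exact lt_min hΔ hΔ'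
  -- the constant
  obtain ⟨M, hM⟩ : ∃ M : ℝ, M = (4 * (locBd V * locBd h * locBd V)) *
    (F.card * R.card * (R.card * R.card + R.card * F.card)) := ⟨_, rfl⟩
  have hM0 : 0 ≤ M := by
    rw [hM]
    have := locBd_nonneg V
    have := locBd_nonneg h
    positivity
  obtain ⟨C, hC⟩ : ∃ C : ℝ, C = M / Δm ^ 2 := ⟨_, rfl⟩
  have hC0 : 0 ≤ C := by rw [hC]; positivity
  refine ⟨C, hC0, η, hη, fun t ht0 htη => ?_⟩
  filter_upwards [hψ, hst, eventually_ge_atTop r] with n h1 h2 h4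
  intro χ
  rw [hamiltonian_zero_term, add_zero]
  -- notation
  obtain ⟨H, hH⟩ : ∃ H, H = hamiltonian (n + 1) F h := ⟨_, rfl⟩
  obtain ⟨K, hK⟩ : ∃ K, K = hamiltonian (n + 1) R V := ⟨_, rfl⟩
  have hHh : H.IsHermitian := by rw [hH]; exact hamiltonian_isHermitian hh
  have hKh : K.IsHermitian := by rw [hK]; exact hamiltonian_isHermitian hV
  obtain ⟨U, hU⟩ : ∃ U : ℝ, U = M * ((n + 1 : ℕ) : ℝ) ^ 2 / (2 * Δm) := ⟨_, rfl⟩
  have hU0 : 0 ≤ U := by rw [hU]; positivity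
  -- variance bound
  have hvar : ∀ (s E : ℝ) (χ : (Site (n + 1) → Fin d) → ℂ), GS (H + (s : ℂ) • K) Δm E χ →
      sqn (K.mulVec χ - ((ex K χ : ℝ) : ℂ) • χ) ≤ U := by
    intro s E χ hgs
    have hHs : (H + (s : ℂ) • K).IsHermitian := by
      rw [hH, hK]; exact isHermitian_total hh hV s
    have e1 := variance_le hHs hKh hgs
    have e2 : (H + (s : ℂ) • K) * K - K * (H + (s : ℂ) • K) = H * K - K * H := by
      rw [add_mul, mul_add, smul_mul_assoc, mul_smul_comm]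
      abel
    rw [e2, hH, hK] at e1
    have e3 := dcomm_le F R h V (hinjF n (by omega)) (hinjR n (by omega)) χ
    rw [hgs.1, mul_one, ← hM] at e3
    rw [← hH, ← hK] at e1 e3
    rw [hU, le_div_iff₀ (by positivity)]
    nlinarith
  -- bound on K
  obtain ⟨B, hB⟩ : ∃ B : ℝ, B = ((n + 1 : ℕ) : ℝ) ^ 2 * locBd V := ⟨_, rfl⟩
  have hB0 : 0 ≤ B := by rw [hB]; exact mul_nonneg (by positivity) (locBd_nonneg V)
  have hKB : ∀ χ, |ex K χ| ≤ B * sqn χ := by
    intro χ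
    rw [hK]
    unfold hamiltonian
    rw [ex_sum]
    refine (Finset.abs_sum_le_sum_abs _ _).trans ?_
    have e1 : ∀ v : Site (n + 1), |ex (localTerm (n + 1) R V v) χ| ≤ locBd V * sqn χ := by
      intro v
      rw [localTerm_eq_opAt]
      exact (bd_opAt (hinjR n (by omega) v) V).abs_ex_le χ
    refine (Finset.sum_le_sum (fun v _ => e1 v)).trans ?_
    rw [Finset.sum_const, Finset.card_univ, Fintype.card_prod, ZMod.card, nsmul_eq_mul, hB]
    push_cast
    apply le_of_eq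
    ring
  -- ground states on the segment
  have hseg : ∀ s ∈ Set.Icc (0 : ℝ) t, ∃ E χ, GS (H + (s : ℂ) • K) Δm E χ ∧
      sqn (K.mulVec χ - ((ex K χ : ℝ) : ℂ) • χ) ≤ U := by
    intro s hs
    obtain ⟨φs, hφs⟩ := h2 s ⟨hs.1, hs.2.trans htη⟩
    obtain ⟨E, c, _, hgs⟩ := gs_of_gapped (isHermitian_total hh hV s) hΔ' hφs
    rw [← hH, ← hK] at hgs
    have hgs' := hgs.mono (Δ' := Δm) (by rw [hΔm]; exact min_le_right _ _)
    exact ⟨E, _, hgs', hvar s E _ hgs'⟩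
  -- at zero
  have h1' : IsGappedGround (hamiltonian (n + 1) F h + ((0 : ℝ) : ℂ) • hamiltonian (n + 1) R V) Δ
      (ψ n) := by simpa using h1
  obtain ⟨E₀, c₀, hc₀, hgs₀⟩ := gs_of_gapped (isHermitian_total hh hV 0) hΔ h1'
  rw [← hH, ← hK] at hgs₀
  have hgs₀' := hgs₀.mono (Δ' := Δm) (by rw [hΔm]; exact min_le_left _ _)
  have hgs₀'' : GS H Δm E₀ (c₀ • ψ n) := by simpa using hgs₀'
  -- at t
  obtain ⟨E₁, φ₁, hgs₁', _⟩ := hseg t ⟨ht0.le, le_rfl⟩
  -- expectation of K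
  have hne : c₀ • ψ n ≠ 0 := smul_ne_zero hc₀ h1.1
  have hgK : ex K (c₀ • ψ n) = ((n + 1 : ℕ) : ℝ) ^ 2 * enf V (reduced (n + 1) R 0 (ψ n)) := by
    rw [hK]
    unfold hamiltonian
    rw [ex_sum]
    have e1 : ∀ v : Site (n + 1), ex (localTerm (n + 1) R V v) (c₀ • ψ n) =
        enf V (reduced (n + 1) R 0 (ψ n)) := by
      intro v
      rw [ex_localTerm R V v hne, hgs₀.1, one_mul, reduced_smul R v hc₀,
        reduced_eq_of_gapped F h hΔ h1 R v]
    rw [Finset.sum_congr rfl (fun v _ => e1 v), Finset.sum_const, Finset.card_univ,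
      Fintype.card_prod, ZMod.card, nsmul_eq_mul]
    push_cast
    ring
  have hchain := chain hHh hKh hΔm0 hU0 ht0 hB0 hKB hseg hgs₀''
    (hvar 0 E₀ _ hgs₀') hgs₁'
  have hHt : (H + (t : ℂ) • K).IsHermitian := by
    rw [hH, hK]; exact isHermitian_total hh hV t
  have hup := hgs₁'.le hHt hΔm0.le χ
  -- the energy at zero
  have hpos : 0 < sqn (ψ n) := sqn_pos h1.1
  have hE0 : ex H (ψ n) / sqn (ψ n) = E₀ := by
    have e1 : ex H (c₀ • ψ n) = E₀ := hgs₀''.ex_eq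
    have e2 : sqn (c₀ • ψ n) = 1 := hgs₀.1
    rw [ex_smul_vec] at e1
    rw [sqn_smul] at e2
    have e3 : ‖c₀‖ ^ 2 * (ex H (ψ n) - E₀ * sqn (ψ n)) = 0 := by
      have : ‖c₀‖ ^ 2 * (ex H (ψ n) - E₀ * sqn (ψ n)) =
        ‖c₀‖ ^ 2 * ex H (ψ n) - E₀ * (‖c₀‖ ^ 2 * sqn (ψ n)) := by ring
      rw [this, e1, e2]; ring
    have e4 : ‖c₀‖ ^ 2 ≠ 0 := pow_ne_zero _ (norm_ne_zero_iff.2 hc₀)
    have e5 := (mul_eq_zero.1 e3).resolve_left e4
    rw [div_eq_iff hpos.ne']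
    linarith
  rw [← hH, ← hK, hE0]
  rw [hgK] at hchain
  refine le_trans (mul_le_mul_of_nonneg_right ?_ (sqn_nonneg χ)) hup
  refine le_trans (le_of_eq ?_) hchain
  rw [hU, hC]
  field_simp
  ring

end Pool.Agent.Hhelper96.PEPS
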