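import Pool.Agent.Hhelper96.UB.Quasi
import Pool.Agent.Hhelper96.UB.SecStable
import Pool.Agent.Hhelper96.UB.SecGeneric

/-!
The final statements for families with a stable gap and for almost every interaction.
-/

set_option autoImplicit false
set_option linter.unusedSectionVars false

open scoped BigOperators Topology ComplexOrder
open Matrix Filter MeasureTheory

namespace Pool.Agent.Hhelper96.PEPS

theorem eigCount_mono {n : Type} [Fintype n] (H : Matrix n n ℂ) {x y : ℝ} (h : x ≤ y) :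
    eigCount H x ≤ eigCount H y := by
  classical
  unfold eigCount
  apply Multiset.card_le_card
  apply Multiset.monotone_filter_right
  intro z hz
  exact hz.trans h

section last

variable {d : ℕ}

/-- the two consequences of the second order bounds: reduction to the energy, and the
quasi-polynomial bound under spectral counting -/
theorem two_of_sec {zr on : Fin d} (hzo : zr ≠ on) {F R : Finset (ℤ × ℤ)}
    (h : Matrix (F → Fin d) (F → Fin d) ℂ) (hh : h.IsHermitian)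
    (k : Matrix (R → Fin d) (R → Fin d) ℂ) (hk : k.IsHermitian)
    (ψ : ∀ n : ℕ, (Site (n + 1) → Fin d) → ℂ)
    (hψ : ∀ᶠ n in atTop, ψ n ≠ 0 ∧ ∀ (Q : Finset (ℤ × ℤ)) (w : Site (n + 1)),
      reduced (n + 1) Q w (ψ n) = reduced (n + 1) Q 0 (ψ n))
    (hE : ∀ r : ℕ, 1 ≤ r → ∃ w A : ℕ, 1 ≤ A ∧ SandNet d r w A)
    (hsec : ∀ x i j, SecOrd F R h k (dirM x i j) ψ) :
    (∃ B : ℝ, 0 < B ∧ ∀ ε : ℝ, 0 < ε → ε ≤ 1 → ∀ (N D₀ : ℕ) [NeZero N], B / ε ^ 2 ≤ N →
      ∀ T : Site N → Fin d → Fin D₀ → Fin D₀ → Fin D₀ → Fin D₀ → ℂ, sitePepsVec N T ≠ 0 →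
      (∀ χ : (Site N → Fin d) → ℂ, χ ≠ 0 →
        ex (hamiltonian N F h + hamiltonian N R k) (sitePepsVec N T) / sqn (sitePepsVec N T) ≤
          ex (hamiltonian N F h + hamiltonian N R k) χ / sqn χ + ε ^ 2 / B * (N : ℝ) ^ 2) →
      ∃ D : ℕ, D ≤ 32 * N ^ 2 * D₀ ^ 6 ∧ ∃ A : Fin d → Fin D → Fin D → Fin D → Fin D → ℂ,
        (∀ᶠ n in atTop, pepsVec (n + 1) A ≠ 0) ∧
        ∀ᶠ n in atTop, ∀ v : Site (n + 1),
          traceNorm (reduced (n + 1) R v (ψ n) - reduced (n + 1) R v (pepsVec (n + 1) A)) ≤ ε) ∧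
    ((∃ α : ℝ, ∀ᶠ n : ℕ in atTop, ∀ E : ℝ,
      (∀ χ, E * sqn χ ≤ ex (hamiltonian (n + 1) F h + hamiltonian (n + 1) R k) χ) →
      ∀ M : ℝ, 1 ≤ M → (eigCount (hamiltonian (n + 1) F h + hamiltonian (n + 1) R k) (E + M) : ℝ) ≤
        ((n + 1 : ℕ) : ℝ) ^ (α * M)) →
      ∃ C : ℝ, ∀ ε : ℝ, 0 < ε → ε ≤ 1 →
        ∃ D : ℕ, (D : ℝ) ≤ Real.exp (C * Real.log (2 / ε) ^ 3) ∧
        ∃ A : Fin d → Fin D → Fin D → Fin D → Fin D → ℂ,
        (∀ᶠ n in atTop, pepsVec (n + 1) A ≠ 0) ∧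
        ∀ᶠ n in atTop, ∀ v : Site (n + 1),
          traceNorm (reduced (n + 1) R v (ψ n) - reduced (n + 1) R v (pepsVec (n + 1) A)) ≤ ε) := by
  classical
  obtain ⟨W, hWd⟩ : ∃ W, W = F ∪ R := ⟨_, rfl⟩
  have hFW : F ⊆ W := by rw [hWd]; exact Finset.subset_union_left
  have hRW : R ⊆ W := by rw [hWd]; exact Finset.subset_union_right
  obtain ⟨r, a, b, hr, hW⟩ := exists_box W
  have hR : ∀ p ∈ R, a ≤ p.1 ∧ p.1 < a + r ∧ b ≤ p.2 ∧ p.2 < b + r := fun p hp => hW p (hRW hp)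
  obtain ⟨g, hgd⟩ : ∃ g, g = liftW hFW hRW h k := ⟨_, rfl⟩
  have hg : g.IsHermitian := by rw [hgd]; exact liftW_isHermitian hFW hRW hh hk
  have hψW : ∀ᶠ n in atTop, ψ n ≠ 0 ∧
      ∀ w, reduced (n + 1) W w (ψ n) = reduced (n + 1) W 0 (ψ n) :=
    hψ.mono (fun n hn => ⟨hn.1, hn.2 W⟩)
  have hψ' : ∀ᶠ n in atTop, ψ n ≠ 0 ∧
      (∀ w, reduced (n + 1) W w (ψ n) = reduced (n + 1) W 0 (ψ n)) ∧
      (∀ w, reduced (n + 1) R w (ψ n) = reduced (n + 1) R 0 (ψ n)) :=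
    hψ.mono (fun n hn => ⟨hn.1, hn.2 W, hn.2 R⟩)
  have hsec' : ∀ x i j, SecOrdW W R g (dirM x i j) ψ := by
    intro x i j
    rw [hgd]
    exact secOrdW_of hFW hRW a b hW h k _ ψ hψW (hsec x i j)
  have hham : ∀ (N : ℕ) [NeZero N], r ≤ N →
      hamiltonian N F h + hamiltonian N R k = hamiltonian N W g := by
    intro N _ hN
    rw [hgd]
    exact (hamiltonian_liftW hFW hRW (fun v => place_injective hN W a b hW v) h k).symm
  constructor
  · obtain ⟨B, hB, hmain⟩ := local_of_site hzo hr a b hW hR g ψ hψ' hsec'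
    refine ⟨B + r, by positivity, ?_⟩
    intro ε hε hε1 N D₀ _ hN T hT hmin
    have hε2 : 0 < ε ^ 2 := by positivity
    have hε21 : ε ^ 2 ≤ 1 := pow_le_one₀ hε.le hε1
    have hr0 : (0 : ℝ) ≤ r := Nat.cast_nonneg r
    have hNr : r ≤ N := by
      have h1 : (B + r) / ε ^ 2 ≥ B + r := by
        rw [ge_iff_le, le_div_iff₀ hε2]
        exact mul_le_of_le_one_right (by positivity) hε21
      have : (r : ℝ) ≤ N := by linarith
      exact_mod_cast this
    refine hmain ε hε hε1 N D₀ ?_ T hT ?_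
    · refine le_trans ?_ hN
      exact div_le_div_of_nonneg_right (by linarith) hε2.le
    · intro χ hχ
      have h1 := hmin χ hχ
      rw [hham N hNr] at h1
      refine h1.trans ?_
      have h2 : ε ^ 2 / (B + r) ≤ ε ^ 2 / B :=
        div_le_div_of_nonneg_left hε2.le hB (by linarith)
      have := mul_le_mul_of_nonneg_right h2 (by positivity : (0 : ℝ) ≤ (N : ℝ) ^ 2)
      linarith
  · rintro ⟨α, hα⟩
    obtain ⟨w, A, hA, hSN⟩ := hE r hr
    refine quasi_poly hzo hr a b hW hR g hg ψ hψ' hsec' w A hA hSN α ?_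
    filter_upwards [hα, eventually_ge_atTop r] with n h1 h2
    rw [← hham (n + 1) (by omega)]
    exact h1

end last

end Pool.Agent.Hhelper96.PEPS
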