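import Pool.Agent.Hhelper96.UB.Rate
import Pool.Agent.Hhelper96.UB.Assembly

/-!
Rate of convergence of the marginals, for the families of the final statements.
-/

set_option autoImplicit false
set_option linter.unusedSectionVars false

open scoped BigOperators Topology ComplexOrder
open Matrix Filter

namespace Pool.Agent.Hhelper96.PEPS

variable {d : ℕ}

/-- a gapped ground state minimises the energy -/
theorem energy_min {n : Type} [Fintype n] [DecidableEq n] {H : Matrix n n ℂ} (hH : H.IsHermitian)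
    {Δ : ℝ} (hΔ : 0 < Δ) {ψ : n → ℂ} (hg : IsGappedGround H Δ ψ) (χ : n → ℂ) (hχ : χ ≠ 0) :
    ex H ψ / sqn ψ ≤ ex H χ / sqn χ := by
  obtain ⟨E, c, hc, hgs⟩ := gs_of_gapped hH hΔ hg
  have h1 := hgs.le hH hΔ.le χ
  have h2 : ex H ψ = E * sqn ψ := by
    obtain ⟨hne, E₁, hE₁, _⟩ := hg
    have e1 := hgs.2.1
    rw [Matrix.mulVec_smul, hE₁] at e1
    have e2 : (c * (E₁ : ℂ)) • ψ = (c * (E : ℂ)) • ψ := by
      rw [mul_smul, e1, smul_comm, mul_smul, smul_comm]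
    have e3 : c * (E₁ : ℂ) = c * (E : ℂ) := smul_left_injective ℂ hne e2
    have e4 := mul_left_cancel₀ hc e3
    have e5 : E₁ = E := by exact_mod_cast e4
    rw [ex_of_eigen hE₁, e5]
  rw [h2, mul_div_assoc, div_self (sqn_pos hg.1).ne', mul_one, le_div_iff₀ (sqn_pos hχ)]
  exact h1

theorem rate_two {zr on : Fin d} (hzo : zr ≠ on) {F R : Finset (ℤ × ℤ)}
    (h : Matrix (F → Fin d) (F → Fin d) ℂ) (k : Matrix (R → Fin d) (R → Fin d) ℂ)
    (ψ : ∀ n : ℕ, (Site (n + 1) → Fin d) → ℂ)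
    (hψ : ∀ᶠ n in atTop, ψ n ≠ 0 ∧ ∀ (Q : Finset (ℤ × ℤ)) (w : Site (n + 1)),
      reduced (n + 1) Q w (ψ n) = reduced (n + 1) Q 0 (ψ n))
    (hgs : ∀ᶠ n in atTop, ∀ χ : (Site (n + 1) → Fin d) → ℂ, χ ≠ 0 →
      ex (hamiltonian (n + 1) F h + hamiltonian (n + 1) R k) (ψ n) / sqn (ψ n) ≤
        ex (hamiltonian (n + 1) F h + hamiltonian (n + 1) R k) χ / sqn χ)
    (hsec : ∀ x i j, SecOrd F R h k (dirM x i j) ψ) :
    ∃ (B : ℝ) (ρ : Matrix (R → Fin d) (R → Fin d) ℂ), ∀ᶠ n in atTop, ∀ v,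
      traceNorm (reduced (n + 1) R v (ψ n) - ρ) ≤ B / √((n + 1 : ℕ) : ℝ) := by
  obtain ⟨W, hWd⟩ : ∃ W, W = F ∪ R := ⟨_, rfl⟩
  have hFW : F ⊆ W := by rw [hWd]; exact Finset.subset_union_left
  have hRW : R ⊆ W := by rw [hWd]; exact Finset.subset_union_right
  obtain ⟨r, a, b, hr, hW⟩ := exists_box W
  have hR : ∀ p ∈ R, a ≤ p.1 ∧ p.1 < a + r ∧ b ≤ p.2 ∧ p.2 < b + r := fun p hp => hW p (hRW hp)
  have hψW : ∀ᶠ n in atTop, ψ n ≠ 0 ∧
      ∀ w, reduced (n + 1) W w (ψ n) = reduced (n + 1) W 0 (ψ n) :=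
    hψ.mono (fun n hn => ⟨hn.1, hn.2 W⟩)
  have hψ' : ∀ᶠ n in atTop, ψ n ≠ 0 ∧
      (∀ w, reduced (n + 1) W w (ψ n) = reduced (n + 1) W 0 (ψ n)) ∧
      (∀ w, reduced (n + 1) R w (ψ n) = reduced (n + 1) R 0 (ψ n)) :=
    hψ.mono (fun n hn => ⟨hn.1, hn.2 W, hn.2 R⟩)
  obtain ⟨B, ρ, hB⟩ := rate_of_sec hzo hr a b hW hR (liftW hFW hRW h k) ψ hψ' (by
    filter_upwards [hgs, eventually_ge_atTop r] with n h1 h2
    rw [hamiltonian_liftW hFW hRW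
      (fun v => place_injective (by omega : r ≤ n + 1) W a b hW v) h k]
    exact h1) (fun x i j => secOrdW_of hFW hRW a b hW h k _ ψ hψW (hsec x i j))
  refine ⟨B, ρ, ?_⟩
  filter_upwards [hB, hψ] with n h1 h2 v
  rw [h2.2 R v]
  exact h1

end Pool.Agent.Hhelper96.PEPS
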