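import Pool.Agent.Hhelper96.UB.Last4
import Pool.Agent.Hhelper96.UB.ThermCrit
import Pool.Agent.Hhelper96.UB.Rate2

/-!
The thermal criterion for the families of the final statements.
-/

set_option autoImplicit false
set_option linter.unusedSectionVars false

open scoped BigOperators Topology ComplexOrder
open Matrix Filter MeasureTheory

namespace Pool.Agent.Hhelper96.PEPS

section last

variable {d : ℕ}

/-- bond dimension from the free energy of one torus -/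
theorem therm_two {zr on : Fin d} (hzo : zr ≠ on) {F R : Finset (ℤ × ℤ)}
    (h : Matrix (F → Fin d) (F → Fin d) ℂ) (hh : h.IsHermitian)
    (k : Matrix (R → Fin d) (R → Fin d) ℂ) (hk : k.IsHermitian)
    (ψ : ∀ n : ℕ, (Site (n + 1) → Fin d) → ℂ)
    (hψ : ∀ᶠ n in atTop, ψ n ≠ 0 ∧ ∀ (Q : Finset (ℤ × ℤ)) (w : Site (n + 1)),
      reduced (n + 1) Q w (ψ n) = reduced (n + 1) Q 0 (ψ n))
    (hE : ∀ r : ℕ, 1 ≤ r → ∃ κ : ℕ, LabNet d r κ)
    (hsec : ∀ x i j, SecOrd F R h k (dirM x i j) ψ) :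
    ∃ B : ℝ, 0 < B ∧ ∀ ε : ℝ, 0 < ε → ε ≤ 1 → ∀ (N : ℕ) [NeZero N], B / ε ^ 2 ≤ N →
      ∀ β : ℝ, 1 ≤ β → ∀ (hH : (hamiltonian N F h + hamiltonian N R k).IsHermitian)
      (φ : (Site N → Fin d) → ℂ), φ ≠ 0 →
      Real.log (∑ j, Real.exp (-(β * hH.eigenvalues j))) +
        β * (ex (hamiltonian N F h + hamiltonian N R k) φ / sqn φ) ≤
          β * (ε ^ 2 / B * (N : ℝ) ^ 2) →
      ∃ D : ℕ, (D : ℝ) ≤ (2 * (N : ℝ)) ^ (B * β) ∧
        ∃ A : Fin d → Fin D → Fin D → Fin D → Fin D → ℂ,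
        (∀ᶠ n in atTop, pepsVec (n + 1) A ≠ 0) ∧
        ∀ᶠ n in atTop, ∀ v : Site (n + 1),
          traceNorm (reduced (n + 1) R v (ψ n) - reduced (n + 1) R v (pepsVec (n + 1) A)) ≤ ε := by
  classical
  obtain ⟨W, hWd⟩ : ∃ W, W = F ∪ R := ⟨_, rfl⟩
  have hFW : F ⊆ W := by rw [hWd]; exact Finset.subset_union_left
  have hRW : R ⊆ W := by rw [hWd]; exact Finset.subset_union_right
  obtain ⟨r, a, b, hr, hW⟩ := exists_box W
  have hR : ∀ p ∈ R, a ≤ p.1 ∧ p.1 < a + r ∧ b ≤ p.2 ∧ p.2 < b + r := fun p hp => hW p (hRW hp)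
  obtain ⟨g, hgd⟩ : ∃ g, g = liftW hFW hRW h k := ⟨_, rfl⟩
  have hg : g.IsHermitian := by rw [hgd]; exact liftW_isHermitian hFW hRW hh hk
  have hψW : ∀ᶠ n in atTop, ψ n ≠ 0 ∧
      ∀ w, reduced (n + 1) W w (ψ n) = reduced (n + 1) W 0 (ψ n) :=
    hψ.mono (fun n hn => ⟨hn.1, hn.2 W⟩)
  have hψ' : ∀ᶠ n in atTop, ψ n ≠ 0 ∧
      (∀ w, reduced (n + 1) W w (ψ n) = reduced (n + 1) W 0 (ψ n)) ∧
      (∀ w, reduced (n + 1) R w (ψ n) = reduced (n + 1) R 0 (ψ n)) :=
    hψ.mono (fun n hn => ⟨hn.1, hn.2 W, hn.2 R⟩)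
  have hsec' : ∀ x i j, SecOrdW W R g (dirM x i j) ψ := by
    intro x i j
    rw [hgd]
    exact secOrdW_of hFW hRW a b hW h k _ ψ hψW (hsec x i j)
  have hham : ∀ (N : ℕ) [NeZero N], r ≤ N →
      hamiltonian N F h + hamiltonian N R k = hamiltonian N W g := by
    intro N _ hN
    rw [hgd]
    exact (hamiltonian_liftW hFW hRW (fun v => place_injective hN W a b hW v) h k).symm
  obtain ⟨κ, hSN⟩ := hE r hr
  obtain ⟨B, hB, hmain⟩ := therm_crit hzo hr a b hW hR g hg ψ hψ' hsec' κ hSN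
  refine ⟨B + r, by positivity, ?_⟩
  intro ε hε hε1 N _ hN β hβ hH φ hφ hF
  have hε2 : 0 < ε ^ 2 := by positivity
  have hε21 : ε ^ 2 ≤ 1 := pow_le_one₀ hε.le hε1
  have hr0 : (0 : ℝ) ≤ r := Nat.cast_nonneg r
  have hNr' : B + r ≤ N := by
    refine le_trans ?_ hN
    rw [le_div_iff₀ hε2]
    exact mul_le_of_le_one_right (by positivity) hε21
  have hNr : r ≤ N := by
    have : (r : ℝ) ≤ N := by linarith
    exact_mod_cast this
  have hH' : (hamiltonian N W g).IsHermitian := hamiltonian_isHermitian hg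
  have hee : (∑ j, Real.exp (-(β * hH.eigenvalues j))) =
      ∑ j, Real.exp (-(β * hH'.eigenvalues j)) := by
    have key : ∀ (M M' : Matrix (Site N → Fin d) (Site N → Fin d) ℂ) (e : M = M')
        (h1 : M.IsHermitian) (h2 : M'.IsHermitian),
        (∑ j, Real.exp (-(β * h1.eigenvalues j))) = ∑ j, Real.exp (-(β * h2.eigenvalues j)) := by
      intro M M' e h1 h2
      subst e
      rfl
    exact key _ _ (hham N hNr) hH hH'
  obtain ⟨D, hD, A, hA1, hA2⟩ := hmain ε hε hε1 N (by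
    refine le_trans ?_ hN
    exact div_le_div_of_nonneg_right (by linarith) hε2.le) β hβ hH' φ hφ (by
    rw [hee, hham N hNr] at hF
    refine hF.trans ?_
    have h2 : ε ^ 2 / (B + r) ≤ ε ^ 2 / B :=
      div_le_div_of_nonneg_left hε2.le (by linarith) (by linarith)
    have h3 := mul_le_mul_of_nonneg_right h2 (by positivity : (0 : ℝ) ≤ (N : ℝ) ^ 2)
    exact mul_le_mul_of_nonneg_left h3 (by linarith))
  refine ⟨D, hD.trans ?_, A, hA1, hA2⟩
  apply Real.rpow_le_rpow_of_exponent_le (by linarith)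
  exact mul_le_mul_of_nonneg_right (by linarith) (by linarith)

end last

/-- at most one level: the marginals are constant -/
theorem le_one_rate {d : ℕ} (hd : d ≤ 1) (ψ : ∀ n : ℕ, (Site (n + 1) → Fin d) → ℂ)
    (hψ : ∀ᶠ n in atTop, ψ n ≠ 0) (R : Finset (ℤ × ℤ)) :
    ∃ (B : ℝ) (ρ : Matrix (R → Fin d) (R → Fin d) ℂ), ∀ᶠ n in atTop, ∀ v : Site (n + 1),
      traceNorm (reduced (n + 1) R v (ψ n) - ρ) ≤ B / √((n + 1 : ℕ) : ℝ) := by
  classical
  refine ⟨0, Matrix.of (fun _ _ => 1), ?_⟩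
  obtain ⟨r, a, b, hr, hR⟩ := exists_box R
  filter_upwards [hψ, eventually_ge_atTop r] with n h1 h2 v
  have e1 := (posSemidef_reduced (by omega : r ≤ n + 1) R a b hR v h1).2
  have hss : ∀ x y : R → Fin d, x = y := by
    intro x y
    funext p
    exact Fin.ext (by have := (x p).isLt; have := (y p).isLt; omega)
  have key : ∀ X : Matrix (R → Fin d) (R → Fin d) ℂ, X.trace = 1 → ∀ i j, X i j = 1 := by
    intro X hX i j
    unfold Matrix.trace at hX
    rw [Finset.sum_eq_single i (fun k _ hk => absurd (hss k i) hk)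
      (fun h => absurd (Finset.mem_univ _) h)] at hX
    rw [hss j i]
    exact hX
  have e3 : reduced (n + 1) R v (ψ n) = Matrix.of (fun _ _ => 1) := by
    ext i j
    rw [key _ e1]
    rfl
  rw [e3, sub_self, traceNorm_zero, zero_div]

end Pool.Agent.Hhelper96.PEPS
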