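import Pool.Agent.Hhelper96.UB.Core

/-!
Choice of the parameters: bond dimension `exp (C / ε ^ (1 + δ))`.
-/

set_option autoImplicit false
set_option linter.unusedSectionVars false

open scoped BigOperators ComplexOrder
open Matrix

namespace Pool.Agent.Hhelper96.PEPS

section params

/-- the bound of the bond dimension -/
theorem bond_le {d r wl q MN : ℕ} (hd : 2 ≤ d) {c₁ c₂ E : ℝ} (hE : 1 ≤ E) (hc₁ : 0 ≤ c₁)
    (hc₂ : 0 ≤ c₂) (hq : (q : ℝ) ≤ c₁ * E) (hMN : (MN : ℝ) + 3 ≤ c₂ * E ^ 2) :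
    (((MN + 3) * ((MN + 3) * (((d * d ^ (2 * wl * q)) ^ (r * r)) ^ 3 + 1)) : ℕ) : ℝ) ≤
      Real.exp ((2 * (c₂ + 2) + (1 + 3 * (r * r) * (1 + 2 * wl * c₁) * Real.log d)) * E) := by
  have hd' : (2 : ℝ) ≤ d := by exact_mod_cast hd
  have hdpos : (0 : ℝ) < d := by linarith
  have hlog : 0 ≤ Real.log d := Real.log_nonneg (by linarith)
  have h1 : (MN : ℝ) + 3 ≤ Real.exp ((c₂ + 2) * E) := by
    have e1 : c₂ ≤ Real.exp c₂ := by
      have := Real.add_one_le_exp c₂; linarith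
    have e2 : E ≤ Real.exp E := by
      have := Real.add_one_le_exp E; linarith
    calc (MN : ℝ) + 3 ≤ c₂ * E ^ 2 := hMN
      _ ≤ Real.exp c₂ * (Real.exp E) ^ 2 := by
        apply mul_le_mul e1 (pow_le_pow_left₀ (by linarith) e2 2) (by positivity) (by positivity)
      _ = Real.exp (c₂ + 2 * E) := by
        rw [← Real.exp_nat_mul, ← Real.exp_add]; norm_num
      _ ≤ Real.exp ((c₂ + 2) * E) := by
        apply Real.exp_le_exp.2
        nlinarith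
  have h2 : (((d : ℝ) * (d : ℝ) ^ (2 * wl * q)) ^ (r * r)) ^ 3 + 1 ≤
      Real.exp ((1 + 3 * (r * r) * (1 + 2 * wl * c₁) * Real.log d) * E) := by
    have e1 : (((d : ℝ) * (d : ℝ) ^ (2 * wl * q)) ^ (r * r)) ^ 3 =
        Real.exp (3 * (r * r) * (1 + 2 * wl * q) * Real.log d) := by
      have e2 : (d : ℝ) = Real.exp (Real.log d) := (Real.exp_log hdpos).symm
      conv_lhs => rw [e2]
      rw [← pow_succ', ← pow_mul, ← pow_mul, ← Real.exp_nat_mul]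
      congr 1
      push_cast
      ring
    rw [e1]
    have e3 : 1 ≤ Real.exp (3 * (r * r) * (1 + 2 * wl * q) * Real.log d) := by
      apply Real.one_le_exp
      positivity
    have e4 : (2 : ℝ) ≤ Real.exp 1 := by
      have := Real.add_one_le_exp (1 : ℝ); linarith
    calc Real.exp (3 * (r * r) * (1 + 2 * wl * q) * Real.log d) + 1
        ≤ Real.exp 1 * Real.exp (3 * (r * r) * (1 + 2 * wl * q) * Real.log d) := by nlinarith
      _ = Real.exp (1 + 3 * (r * r) * (1 + 2 * wl * q) * Real.log d) := by rw [← Real.exp_add]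
      _ ≤ _ := by
        apply Real.exp_le_exp.2
        have e5 : (1 : ℝ) + 2 * wl * q ≤ (1 + 2 * wl * c₁) * E := by
          have e6 : 2 * (wl : ℝ) * q ≤ 2 * wl * (c₁ * E) :=
            mul_le_mul_of_nonneg_left hq (by positivity)
          nlinarith
        have e7 : (0 : ℝ) ≤ 3 * (r * r) * Real.log d := by positivity
        nlinarith [mul_le_mul_of_nonneg_left e5 e7]
  have h3 : (0 : ℝ) ≤ (MN : ℝ) + 3 := by positivity
  push_cast
  calc ((MN : ℝ) + 3) * (((MN : ℝ) + 3) * ((((d : ℝ) * (d : ℝ) ^ (2 * wl * q)) ^ (r * r)) ^ 3 + 1))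
      ≤ Real.exp ((c₂ + 2) * E) * (Real.exp ((c₂ + 2) * E) *
        Real.exp ((1 + 3 * (r * r) * (1 + 2 * wl * c₁) * Real.log d) * E)) := by
        apply mul_le_mul h1 _ (by positivity) (by positivity)
        exact mul_le_mul h1 h2 (by positivity) (by positivity)
    _ = _ := by
        rw [← Real.exp_add, ← Real.exp_add]
        congr 1
        ring

/-- The approximation of a translation invariant marginal, with bond dimension
`exp (C / (ε x))`, where `x ^ (2 p) = ε`. -/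
theorem core_params (d r p : ℕ) (hr : 1 ≤ r) (hp : 1 ≤ p) (hd : 2 ≤ d)
    (hE : EngineStmt (r ^ 4) (r * r) p) :
    ∃ C : ℝ, 0 ≤ C ∧ ∀ ε x : ℝ, 0 < ε → ε ≤ 1 → 0 < x → x ≤ 1 → x ^ (2 * p) = ε →
      ∃ (N₀ L₀ : ℕ), ∀ (R : Finset (ℤ × ℤ)) (a b : ℤ),
      (∀ p ∈ R, a ≤ p.1 ∧ p.1 < a + r ∧ b ≤ p.2 ∧ p.2 < b + r) →
      ∃ D : ℕ, (D : ℝ) ≤ Real.exp (C * (1 / (ε * x))) ∧
      ∀ (L₁ : ℕ) [NeZero L₁], N₀ ≤ L₁ → ∀ (ψ : (Site L₁ → Fin d) → ℂ), ψ ≠ 0 →
      (∀ w, reduced L₁ R w ψ = reduced L₁ R 0 ψ) →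
      ∃ A : Fin d → Fin D → Fin D → Fin D → Fin D → ℂ,
        ∀ (L : ℕ) [NeZero L], L₀ ≤ L →
        pepsVec L A ≠ 0 ∧ ∀ v, traceNorm (reduced L R v (pepsVec L A) - reduced L₁ R 0 ψ) ≤
          ε / 2 := by
  obtain ⟨wl, t₀, C, ht₀, hC, hcore⟩ := core_new (d := d) r p hr hd hE
  have hd' : (2 : ℝ) ≤ d := by exact_mod_cast hd
  have hlog : 0 ≤ Real.log d := Real.log_nonneg (by linarith)
  have hr' : (1 : ℝ) ≤ r := by exact_mod_cast hr
  obtain ⟨s, hs⟩ : ∃ s : ℝ, s = √((d : ℝ) ^ (r * r)) := ⟨_, rfl⟩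
  have hs1 : 1 ≤ s := by
    rw [hs, Real.one_le_sqrt]
    exact one_le_pow₀ (by linarith)
  obtain ⟨t₁, ht₁⟩ : ∃ t₁ : ℝ, t₁ = min t₀ (1 / (32 * s * C + 32)) := ⟨_, rfl⟩
  have ht₁pos : 0 < t₁ := by
    rw [ht₁]; exact lt_min ht₀ (by positivity)
  have ht₁a : t₁ ≤ t₀ := by rw [ht₁]; exact min_le_left _ _
  have ht₁b : t₁ * (32 * s * C + 32) ≤ 1 := by
    have : t₁ ≤ 1 / (32 * s * C + 32) := by rw [ht₁]; exact min_le_right _ _
    rwa [le_div_iff₀ (by positivity)] at this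
  have hsC : 0 ≤ s * C := by positivity
  have ht₁c : t₁ ≤ 1 := by nlinarith
  have ht₁d : 4 * s * C * t₁ ^ (2 * p) ≤ 1 / 8 := by
    have e1 : t₁ ^ (2 * p) ≤ t₁ := by
      calc t₁ ^ (2 * p) ≤ t₁ ^ 1 := pow_le_pow_of_le_one ht₁pos.le ht₁c (by omega)
        _ = t₁ := pow_one _
    have e2 : 4 * s * C * t₁ ^ (2 * p) ≤ 4 * s * C * t₁ :=
      mul_le_mul_of_nonneg_left e1 (by positivity)
    nlinarith
  obtain ⟨c₁, hc₁⟩ : ∃ c₁ : ℝ, c₁ = 16 * s * Real.log d / t₁ + 2 := ⟨_, rfl⟩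
  obtain ⟨b₁, hb₁⟩ : ∃ b₁ : ℝ, b₁ = 8 * (4 * (r + 2) + 32 * s * r) := ⟨_, rfl⟩
  have hb₁0 : 0 ≤ b₁ := by rw [hb₁]; positivity
  obtain ⟨c₂, hc₂⟩ : ∃ c₂ : ℝ, c₂ = (16 * s + 2) * (r * (b₁ + 3)) + 3 := ⟨_, rfl⟩
  have hc₁0 : 0 ≤ c₁ := by rw [hc₁]; positivity
  have hc₂0 : 0 ≤ c₂ := by rw [hc₂]; positivity
  refine ⟨2 * (c₂ + 2) + (1 + 3 * (r * r) * (1 + 2 * wl * c₁) * Real.log d), by positivity, ?_⟩
  intro ε x hε hε1 hx hx1 hxε
  obtain ⟨E, hEd⟩ : ∃ E : ℝ, E = 1 / (ε * x) := ⟨_, rfl⟩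
  have hE1 : 1 ≤ E := by
    rw [hEd, le_div_iff₀ (by positivity)]
    nlinarith
  have hEε : 1 / ε ≤ E := by
    rw [hEd]
    apply one_div_le_one_div_of_le (by positivity)
    nlinarith
  -- parameters
  obtain ⟨t, ht⟩ : ∃ t : ℝ, t = t₁ * x := ⟨_, rfl⟩
  have htpos : 0 < t := by rw [ht]; positivity
  have htt₀ : t ≤ t₀ := by
    rw [ht]
    exact (mul_le_of_le_one_right ht₁pos.le hx1).trans ht₁a
  obtain ⟨q, hq⟩ : ∃ q : ℕ, q = ⌈16 * s * Real.log d / (ε * t)⌉₊ + 1 := ⟨_, rfl⟩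
  have hq1 : 1 ≤ q := by rw [hq]; omega
  have hqr : (0 : ℝ) < q := by exact_mod_cast hq1
  have hqlow : 16 * s * Real.log d / (ε * t) ≤ q := by
    rw [hq]
    push_cast
    have := Nat.le_ceil (16 * s * Real.log d / (ε * t))
    linarith
  have hqup : (q : ℝ) ≤ c₁ * E := by
    have h1 : (⌈16 * s * Real.log d / (ε * t)⌉₊ : ℝ) < 16 * s * Real.log d / (ε * t) + 1 :=
      Nat.ceil_lt_add_one (by positivity)
    have h2 : 16 * s * Real.log d / (ε * t) = 16 * s * Real.log d / t₁ * E := by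
      rw [hEd, ht]; field_simp
    rw [hq]
    push_cast
    rw [hc₁]
    nlinarith
  obtain ⟨n₁, hn₁⟩ : ∃ n₁ : ℕ, n₁ = ⌈b₁ / ε⌉₊ + 2 := ⟨_, rfl⟩
  obtain ⟨N, hN⟩ : ∃ N : ℕ, N = r * n₁ := ⟨_, rfl⟩
  have hNpos : 0 < N := by rw [hN]; exact Nat.mul_pos hr (by omega)
  have : NeZero N := ⟨hNpos.ne'⟩
  have hNr : (0 : ℝ) < N := by exact_mod_cast hNpos
  have hNlow : b₁ / ε ≤ N := by
    have h1 := Nat.le_ceil (b₁ / ε)
    have h2 : (n₁ : ℝ) = (⌈b₁ / ε⌉₊ : ℝ) + 2 := by rw [hn₁]; push_cast; ring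
    have h3 : (N : ℝ) = r * n₁ := by rw [hN]; push_cast; ring
    have h4 : (0 : ℝ) ≤ n₁ := by positivity
    nlinarith
  obtain ⟨M, hM⟩ : ∃ M : ℕ, M = ⌈16 * s / ε⌉₊ + 1 := ⟨_, rfl⟩
  have : NeZero M := ⟨by omega⟩
  have hMr : (0 : ℝ) < M := by exact_mod_cast NeZero.pos M
  have hMlow : 16 * s / ε ≤ M := by
    have h1 := Nat.le_ceil (16 * s / ε)
    rw [hM]
    push_cast
    linarith
  have hMN : ((M * N : ℕ) : ℝ) + 3 ≤ c₂ * E ^ 2 := by
    have h1 : (M : ℝ) ≤ (16 * s + 2) * E := by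
      have h2 : (⌈16 * s / ε⌉₊ : ℝ) < 16 * s / ε + 1 := Nat.ceil_lt_add_one (by positivity)
      have h3 : 16 * s / ε = 16 * s * (1 / ε) := by ring
      rw [hM]
      push_cast
      nlinarith
    have h4 : (N : ℝ) ≤ (r * (b₁ + 3)) * E := by
      have h2 : (⌈b₁ / ε⌉₊ : ℝ) < b₁ / ε + 1 := Nat.ceil_lt_add_one (by positivity)
      have h3 : b₁ / ε = b₁ * (1 / ε) := by ring
      have h5 : (n₁ : ℝ) ≤ (b₁ + 3) * E := by
        rw [hn₁]
        push_cast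
        nlinarith
      rw [hN]
      push_cast
      nlinarith
    push_cast
    have h6 : (M : ℝ) * N ≤ ((16 * s + 2) * E) * ((r * (b₁ + 3)) * E) :=
      mul_le_mul h1 h4 hNr.le (by positivity)
    rw [hc₂]
    nlinarith
  refine ⟨N, (M * N + 2) ^ 2 + (M * N + 3) * (r * r) + 1, ?_⟩
  intro R a b hR
  have hRcard : R.card ≤ r * r := by
    have hsub : R ⊆ (Finset.Ico a (a + r)) ×ˢ (Finset.Ico b (b + r)) := by
      intro p hp
      have := hR p hp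
      simp only [Finset.mem_product, Finset.mem_Ico]
      omega
    have := Finset.card_le_card hsub
    simp only [Finset.card_product, Int.card_Ico, add_sub_cancel_left, Int.toNat_natCast] at this
    exact this
  obtain ⟨D, hD, hcore'⟩ := hcore M N (by rw [hN]; exact Dvd.intro _ rfl)
    (by rw [hN, mul_comm]; exact Nat.mul_le_mul_left r (by omega)) R a b hR t htpos htt₀ q hq1
  refine ⟨D, ?_, ?_⟩
  · rw [hD, ← hEd]
    exact bond_le hd hE1 hc₁0 hc₂0 hqup hMN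
  intro L₁ _ hNL ψ hψ hTI
  obtain ⟨A, hA⟩ := hcore' L₁ hNL ψ hψ hTI
  refine ⟨A, fun L _ hL => ?_⟩
  have hcard2 : (M * N + 3) * R.card ≤ (M * N + 3) * (r * r) := Nat.mul_le_mul_left _ hRcard
  have h1 := hA L (by omega) (by omega)
  refine ⟨h1.1, fun v => (h1.2 v).trans ?_⟩
  have hsq : √(Fintype.card (R → Fin d)) ≤ s := by
    rw [hs]
    apply Real.sqrt_le_sqrt
    rw [Fintype.card_fun, Fintype.card_fin, Fintype.card_coe]
    push_cast
    exact pow_le_pow_right₀ (by linarith) hRcard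
  have hbr : (0 : ℝ) ≤ 4 * (8 * r / N + C * t ^ (2 * p) + Real.log d / (2 * q * t)) + 2 / M := by
    positivity
  have e1 : 4 * ((r + 2 : ℝ) / N) + s * (4 * (8 * r / N)) ≤ ε / 8 := by
    have : 4 * ((r + 2 : ℝ) / N) + s * (4 * (8 * r / N)) = b₁ / 8 / N := by
      rw [hb₁]; field_simp; ring
    rw [this, div_le_iff₀ hNr]
    rw [div_le_iff₀ hε] at hNlow
    linarith
  have e2 : s * (4 * (C * t ^ (2 * p))) ≤ ε / 8 := by
    have : s * (4 * (C * t ^ (2 * p))) = 4 * s * C * t₁ ^ (2 * p) * ε := by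
      rw [ht, mul_pow, hxε]; ring
    rw [this]
    nlinarith
  have e3 : s * (4 * (Real.log d / (2 * q * t))) ≤ ε / 8 := by
    have : s * (4 * (Real.log d / (2 * q * t))) = 2 * s * Real.log d / (q * t) := by
      field_simp; ring
    rw [this, div_le_iff₀ (by positivity)]
    rw [div_le_iff₀ (by positivity)] at hqlow
    nlinarith
  have e4 : s * (2 / M) ≤ ε / 8 := by
    have : s * (2 / M) = 2 * s / M := by ring
    rw [this, div_le_iff₀ hMr]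
    rw [div_le_iff₀ hε] at hMlow
    linarith
  calc 4 * ((r + 2 : ℝ) / N) + √(Fintype.card (R → Fin d)) *
        (4 * (8 * r / N + C * t ^ (2 * p) + Real.log d / (2 * q * t)) + 2 / M)
      ≤ 4 * ((r + 2 : ℝ) / N) + s *
        (4 * (8 * r / N + C * t ^ (2 * p) + Real.log d / (2 * q * t)) + 2 / M) := by
        have := mul_le_mul_of_nonneg_right hsq hbr
        linarith
    _ = (4 * ((r + 2 : ℝ) / N) + s * (4 * (8 * r / N))) + s * (4 * (C * t ^ (2 * p))) +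
        s * (4 * (Real.log d / (2 * q * t))) + s * (2 / M) := by ring
    _ ≤ ε / 2 := by linarith

end params

end Pool.Agent.Hhelper96.PEPS
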