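import Pool.Agent.Hhelper96.UB.Hsq

/-!
Trace norm against the Hilbert-Schmidt norm, and local terms with Hilbert-Schmidt norm at most one
are contractions.
-/

set_option autoImplicit false
set_option linter.unusedSectionVars false

open scoped BigOperators ComplexOrder
open Matrix

namespace Pool.Agent.Hhelper96.PEPS

theorem hsq_nonneg1 {m : Type} [Fintype m] (X : Matrix m m ℂ) : 0 ≤ hsq X := by
  unfold hsq; positivity

/-- the sum of the eigenvalues of `Xᴴ * X` is the squared Hilbert-Schmidt norm -/
theorem sum_eigenvalues_eq_hsq {m : Type} [Fintype m] [DecidableEq m] (X : Matrix m m ℂ) :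
    ∑ i, (isHermitian_conjTranspose_mul_self X).eigenvalues i = hsq X := by
  have h1 := (isHermitian_conjTranspose_mul_self X).trace_eq_sum_eigenvalues
  have h2 : (Xᴴ * X).trace = ((hsq X : ℝ) : ℂ) := by
    unfold Matrix.trace hsq
    rw [Finset.sum_comm, Complex.ofReal_sum]
    refine Finset.sum_congr rfl (fun k _ => ?_)
    rw [Matrix.diag_apply, diag_conjTranspose_mul_self]
  have h3 : ((∑ i, (isHermitian_conjTranspose_mul_self X).eigenvalues i : ℝ) : ℂ)
      = ((hsq X : ℝ) : ℂ) := by
    rw [← h2, h1, Complex.ofReal_sum]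
    rfl
  exact Complex.ofReal_injective h3

/-- A1 -/
theorem traceNorm_le_hsq {m : Type} [Fintype m] [DecidableEq m] (X : Matrix m m ℂ) :
    traceNorm X ≤ √(Fintype.card m) * √(hsq X) := by
  have h := Real.sum_mul_le_sqrt_mul_sqrt Finset.univ (fun _ : m => (1 : ℝ))
    (fun i => √((isHermitian_conjTranspose_mul_self X).eigenvalues i))
  have h2 : (∑ i, √((isHermitian_conjTranspose_mul_self X).eigenvalues i) ^ 2) = hsq X := by
    rw [← sum_eigenvalues_eq_hsq]
    exact Finset.sum_congr rfl (fun i _ => Real.sq_sqrt (eigenvalues_nonneg' X i))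
  rw [h2] at h
  simpa [traceNorm] using h

section opAt

variable {S T : Type} [Fintype S] [DecidableEq S] [Fintype T] [DecidableEq T] {d : ℕ}

/-- the operator norm of a local operator is at most the Hilbert-Schmidt norm of its matrix on
the window -/
theorem sqn_opAt_le {κ : T → S} (hκ : Function.Injective κ)
    (p : Matrix (T → Fin d) (T → Fin d) ℂ) (φ : (S → Fin d) → ℂ) :
    sqn ((opAt κ p).mulVec φ) ≤ hsq p * sqn φ := by
  rcases isEmpty_or_nonempty (T → Fin d) with hT | hT
  · have hS : IsEmpty (S → Fin d) := ⟨fun s => hT.false (s ∘ κ)⟩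
    unfold sqn
    simp
  · have hc : (0 : ℝ) < Fintype.card (T → Fin d) := by exact_mod_cast Fintype.card_pos
    have h1 : ∀ s, ∑ a : T → Fin d, ‖(opAt κ p).mulVec φ (overwrite κ s a)‖ ^ 2 ≤
        hsq p * ∑ c : T → Fin d, ‖φ (overwrite κ s c)‖ ^ 2 := by
      intro s
      unfold hsq
      rw [Finset.sum_mul]
      refine Finset.sum_le_sum (fun a _ => ?_)
      have e0 : ∀ c, overwrite κ (overwrite κ s a) c = overwrite κ s c := by
        intro c
        funext u
        by_cases hu : ∃ t, κ t = u
        · obtain ⟨t, rfl⟩ := hu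
          rw [overwrite_mem hκ, overwrite_mem hκ]
        · push Not at hu
          rw [overwrite_not_mem κ _ _ u hu, overwrite_not_mem κ _ _ u hu,
            overwrite_not_mem κ _ _ u hu]
      have e1 : (opAt κ p).mulVec φ (overwrite κ s a) =
          ∑ c : T → Fin d, p a c * φ (overwrite κ s c) := by
        unfold Matrix.mulVec dotProduct
        rw [sum_opAt hκ p (overwrite κ s a) φ, overwrite_comp hκ]
        exact Finset.sum_congr rfl (fun c _ => by rw [e0])
      rw [e1]
      have e2 : ‖∑ c : T → Fin d, p a c * φ (overwrite κ s c)‖ ≤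
          √(∑ c, ‖p a c‖ ^ 2) * √(∑ c : T → Fin d, ‖φ (overwrite κ s c)‖ ^ 2) := by
        refine (norm_sum_le _ _).trans ?_
        simp_rw [norm_mul]
        exact Real.sum_mul_le_sqrt_mul_sqrt _ _ _
      refine (pow_le_pow_left₀ (norm_nonneg _) e2 2).trans (le_of_eq ?_)
      rw [mul_pow, Real.sq_sqrt (by positivity), Real.sq_sqrt (by positivity)]
    have h2 : Fintype.card (T → Fin d) * sqn ((opAt κ p).mulVec φ) ≤
        Fintype.card (T → Fin d) * (hsq p * sqn φ) := by
      unfold sqn
      rw [← sum_overwrite hκ (fun s => ‖(opAt κ p).mulVec φ s‖ ^ 2)]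
      refine (Finset.sum_le_sum (fun s _ => h1 s)).trans (le_of_eq ?_)
      rw [← Finset.mul_sum, sum_overwrite hκ (fun s => ‖φ s‖ ^ 2)]
      ring
    exact le_of_mul_le_mul_left h2 hc

end opAt

/-- A4: Hilbert-Schmidt norm at most one on a window implies operator norm at most one -/
theorem sqn_localTerm_le {d N : ℕ} [NeZero N] (R : Finset (ℤ × ℤ))
    (K : Matrix (R → Fin d) (R → Fin d) ℂ) (hK : hsq K ≤ 1) (v : Site N)
    (hinj : Function.Injective (fun p : R => place N v p)) (φ : (Site N → Fin d) → ℂ) :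
    sqn ((localTerm N R K v).mulVec φ) ≤ sqn φ := by
  rw [localTerm_eq_opAt]
  refine (sqn_opAt_le hinj K φ).trans ?_
  have h := mul_le_mul_of_nonneg_right hK (sqn_nonneg φ)
  rwa [one_mul] at h

end Pool.Agent.Hhelper96.PEPS
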