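import Pool.Agent.Hhelper96.UB.Hsq

/-!
Density matrices have Hilbert-Schmidt norm at most one; the greedy approximation of a matrix by an
average of matrices from a set which is close to it in every direction.
-/

set_option autoImplicit false
set_option linter.unusedSectionVars false

open scoped BigOperators ComplexOrder
open Matrix

namespace Pool.Agent.Hhelper96.PEPS

section greedy

variable {m : Type} [Fintype m] [DecidableEq m]

theorem hsq_nonneg (X : Matrix m m ℂ) : 0 ≤ hsq X := by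
  unfold hsq
  positivity

theorem hsq_eq_trace (B : Matrix m m ℂ) : (Bᴴ * B).trace = ((hsq B : ℝ) : ℂ) := by
  unfold Matrix.trace hsq
  rw [Finset.sum_comm, Complex.ofReal_sum]
  refine Finset.sum_congr rfl (fun i _ => ?_)
  rw [Matrix.diag_apply, diag_conjTranspose_mul_self]

/-- a density matrix has Hilbert-Schmidt norm at most one -/
theorem hsq_le_one {X : Matrix m m ℂ} (hX : X.PosSemidef) (hX1 : X.trace = 1) : hsq X ≤ 1 := by
  obtain ⟨B, hB⟩ : ∃ B : Matrix m m ℂ, X = Bᴴ * B := by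
    obtain ⟨Y, _, hY⟩ := exists_symm_factor hX
    exact ⟨Yᴴ, by rw [Matrix.conjTranspose_conjTranspose, hY]⟩
  have hB1 : hsq B = 1 := by
    have h := hsq_eq_trace B
    rw [← hB, hX1] at h
    exact_mod_cast h.symm
  obtain ⟨c, hc⟩ : ∃ c : m → ℝ, c = fun i => ∑ k, ‖B k i‖ ^ 2 := ⟨_, rfl⟩
  have hc1 : ∑ i, c i = 1 := by
    rw [hc, Finset.sum_comm]
    exact hB1
  have h1 : ∀ i j, ‖X i j‖ ^ 2 ≤ c i * c j := by
    intro i j
    have h2 : ‖X i j‖ ≤ ∑ k, ‖B k i‖ * ‖B k j‖ := by
      rw [hB, Matrix.mul_apply]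
      refine (norm_sum_le _ _).trans (le_of_eq (Finset.sum_congr rfl (fun k _ => ?_)))
      rw [norm_mul, Matrix.conjTranspose_apply, norm_star]
    have h3 : (∑ k, ‖B k i‖ * ‖B k j‖) ^ 2 ≤ c i * c j := by
      rw [hc]
      exact Finset.sum_mul_sq_le_sq_mul_sq Finset.univ (fun k => ‖B k i‖) (fun k => ‖B k j‖)
    exact le_trans (pow_le_pow_left₀ (norm_nonneg _) h2 2) h3
  unfold hsq
  calc ∑ i, ∑ j, ‖X i j‖ ^ 2 ≤ ∑ i, ∑ j, c i * c j :=
        Finset.sum_le_sum (fun i _ => Finset.sum_le_sum (fun j _ => h1 i j))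
    _ = (∑ i, c i) * ∑ j, c j := by rw [Finset.sum_mul_sum]
    _ = 1 := by rw [hc1, one_mul]

/-- Cauchy-Schwarz for the trace of a product -/
theorem norm_trace_mul_le (X K : Matrix m m ℂ) : ‖(X * K).trace‖ ^ 2 ≤ hsq X * hsq K := by
  have h1 : ‖(X * K).trace‖ ≤ ∑ p : m × m, ‖X p.1 p.2‖ * ‖K p.2 p.1‖ := by
    unfold Matrix.trace
    rw [Fintype.sum_prod_type]
    refine (norm_sum_le _ _).trans (Finset.sum_le_sum (fun i _ => ?_))
    rw [Matrix.diag_apply, Matrix.mul_apply]
    refine (norm_sum_le _ _).trans (le_of_eq (Finset.sum_congr rfl (fun k _ => ?_)))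
    rw [norm_mul]
  have h2 := Finset.sum_mul_sq_le_sq_mul_sq Finset.univ (fun p : m × m => ‖X p.1 p.2‖)
    (fun p : m × m => ‖K p.2 p.1‖)
  have h3 : ∑ p : m × m, ‖X p.1 p.2‖ ^ 2 = hsq X := by
    rw [Fintype.sum_prod_type]
    rfl
  have h4 : ∑ p : m × m, ‖K p.2 p.1‖ ^ 2 = hsq K := by
    rw [Fintype.sum_prod_type, Finset.sum_comm]
    rfl
  rw [h3, h4] at h2
  exact le_trans (pow_le_pow_left₀ (norm_nonneg _) h1 2) h2

/-- bound of the functional -/
theorem abs_enf_le (K X : Matrix m m ℂ)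
    (hK : hsq K ≤ 1) (hX : X.PosSemidef) (hX1 : X.trace = 1) : |enf K X| ≤ 1 := by
  have h1 := norm_trace_mul_le X K
  have h2 := hsq_le_one hX hX1
  have h3 : ‖(X * K).trace‖ ^ 2 ≤ 1 := by
    refine h1.trans ?_
    calc hsq X * hsq K ≤ 1 * 1 := mul_le_mul h2 hK (hsq_nonneg K) zero_le_one
      _ = 1 := one_mul 1
  have h4 : ‖(X * K).trace‖ ≤ 1 := by
    by_contra hcon
    push Not at hcon
    nlinarith
  unfold enf
  exact (Complex.abs_re_le_norm _).trans h4

theorem hsq_add {A B : Matrix m m ℂ} (hA : A.IsHermitian) :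
    hsq (A + B) = hsq A + 2 * enf A B + hsq B := by
  have h1 : enf A B = ∑ i, ∑ j, (star (A i j) * B i j).re := by
    unfold enf Matrix.trace
    rw [Complex.re_sum]
    simp only [Matrix.diag_apply, Matrix.mul_apply]
    refine Finset.sum_congr rfl (fun i _ => ?_)
    rw [Complex.re_sum]
    refine Finset.sum_congr rfl (fun j _ => ?_)
    have : star (A i j) = A j i := hA.apply j i
    rw [this, mul_comm]
  rw [h1]
  unfold hsq
  rw [Finset.mul_sum, ← Finset.sum_add_distrib, ← Finset.sum_add_distrib]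
  refine Finset.sum_congr rfl (fun i _ => ?_)
  rw [Finset.mul_sum, ← Finset.sum_add_distrib, ← Finset.sum_add_distrib]
  refine Finset.sum_congr rfl (fun j _ => ?_)
  rw [Matrix.add_apply, ← Complex.normSq_eq_norm_sq, ← Complex.normSq_eq_norm_sq,
    ← Complex.normSq_eq_norm_sq, Complex.normSq_add, Complex.star_def]
  have : (A i j * (starRingEnd ℂ) (B i j)).re = ((starRingEnd ℂ) (A i j) * B i j).re := by
    simp only [Complex.mul_re, Complex.conj_re, Complex.conj_im]
    ring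
  rw [this]
  ring

theorem hsq_sub_le (A B : Matrix m m ℂ) : hsq (A - B) ≤ 2 * hsq A + 2 * hsq B := by
  unfold hsq
  rw [Finset.mul_sum, Finset.mul_sum, ← Finset.sum_add_distrib]
  refine Finset.sum_le_sum (fun i _ => ?_)
  rw [Finset.mul_sum, Finset.mul_sum, ← Finset.sum_add_distrib]
  refine Finset.sum_le_sum (fun j _ => ?_)
  rw [Matrix.sub_apply]
  have h := norm_sub_le (A i j) (B i j)
  have h0 := norm_nonneg (A i j - B i j)
  nlinarith [sq_nonneg (‖A i j‖ - ‖B i j‖), norm_nonneg (A i j), norm_nonneg (B i j)]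

theorem hsq_smul (c : ℝ) (A : Matrix m m ℂ) : hsq ((c : ℂ) • A) = c ^ 2 * hsq A := by
  unfold hsq
  rw [Finset.mul_sum]
  refine Finset.sum_congr rfl (fun i _ => ?_)
  rw [Finset.mul_sum]
  refine Finset.sum_congr rfl (fun j _ => ?_)
  rw [Matrix.smul_apply, smul_eq_mul, norm_mul, mul_pow, Complex.norm_real, Real.norm_eq_abs,
    sq_abs]

/-- greedy approximation: `S` is a set of density matrices -/
theorem greedy (S : Matrix m m ℂ → Prop)
    (hS : ∀ X, S X → X.PosSemidef ∧ X.trace = 1) (ρ : Matrix m m ℂ) (hρ : ρ.PosSemidef)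
    (hρ1 : ρ.trace = 1) (η : ℝ) (hη : 0 ≤ η)
    (hmin : ∀ K : Matrix m m ℂ, K.IsHermitian → hsq K ≤ 1 → ∃ X, S X ∧ enf K X ≤ enf K ρ + η)
    (t : ℕ) : ∃ X : Fin t → Matrix m m ℂ, (∀ i, S (X i)) ∧
      √(hsq (∑ i, (X i - ρ))) ≤ η * t + 2 * √t := by
  induction t with
  | zero =>
    refine ⟨fun i => i.elim0, fun i => i.elim0, ?_⟩
    have : hsq (∑ i : Fin 0, ((fun i => i.elim0 : Fin 0 → Matrix m m ℂ) i - ρ)) = 0 := by
      rw [Finset.univ_eq_empty, Finset.sum_empty]
      unfold hsq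
      simp
    rw [this]
    simp
  | succ t ih =>
    obtain ⟨X, hXS, hX⟩ := ih
    obtain ⟨A, hA⟩ : ∃ A, A = ∑ i, (X i - ρ) := ⟨_, rfl⟩
    rw [← hA] at hX
    have hAH : A.IsHermitian := by
      rw [hA]
      unfold Matrix.IsHermitian
      rw [Matrix.conjTranspose_sum]
      refine Finset.sum_congr rfl (fun i _ => ?_)
      rw [Matrix.conjTranspose_sub, (hS _ (hXS i)).1.isHermitian.eq, hρ.isHermitian.eq]
    obtain ⟨u, hu⟩ : ∃ u, u = √(hsq A) := ⟨_, rfl⟩
    have hu0 : 0 ≤ u := by rw [hu]; exact Real.sqrt_nonneg _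
    have huu : u ^ 2 = hsq A := by rw [hu]; exact Real.sq_sqrt (hsq_nonneg A)
    obtain ⟨K, hK⟩ : ∃ K : Matrix m m ℂ, K = ((u⁻¹ : ℝ) : ℂ) • A := ⟨_, rfl⟩
    have hKH : K.IsHermitian := by
      rw [hK]
      unfold Matrix.IsHermitian
      rw [Matrix.conjTranspose_smul, hAH.eq, Complex.star_def, Complex.conj_ofReal]
    have hK1 : hsq K ≤ 1 := by
      rw [hK, hsq_smul, ← huu, ← mul_pow]
      by_cases h0 : u = 0
      · rw [h0]; norm_num
      · rw [inv_mul_cancel₀ h0]; norm_num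
    have hAK : A = (u : ℂ) • K := by
      by_cases h0 : u = 0
      · have h1 : hsq A = 0 := by rw [← huu, h0]; norm_num
        have h2 : A = 0 := by
          ext i j
          have h3 : ∑ j, ‖A i j‖ ^ 2 = 0 :=
            (Finset.sum_eq_zero_iff_of_nonneg (fun i _ => by positivity)).1 h1 i
              (Finset.mem_univ _)
          have h4 := (Finset.sum_eq_zero_iff_of_nonneg (fun j _ => by positivity)).1 h3 j
            (Finset.mem_univ _)
          have h5 : ‖A i j‖ = 0 := by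
            exact pow_eq_zero_iff (two_ne_zero) |>.1 h4
          exact norm_eq_zero.1 h5
        rw [h0, h2]; simp
      · rw [hK, smul_smul, ← Complex.ofReal_mul, mul_inv_cancel₀ h0]; simp
    obtain ⟨Y, hYS, hY⟩ := hmin K hKH hK1
    refine ⟨Fin.snoc X Y, ?_, ?_⟩
    · intro i
      refine Fin.lastCases ?_ (fun i => ?_) i
      · rw [Fin.snoc_last]; exact hYS
      · rw [Fin.snoc_castSucc]; exact hXS i
    · have hsum : ∑ i : Fin (t + 1), ((Fin.snoc X Y : Fin (t + 1) → Matrix m m ℂ) i - ρ) =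
          A + (Y - ρ) := by
        rw [Fin.sum_univ_castSucc, Fin.snoc_last]
        simp only [Fin.snoc_castSucc]
        rw [← hA]
      rw [hsum, hsq_add hAH]
      have hcr : enf A (Y - ρ) ≤ u * η := by
        have h1 : enf A (Y - ρ) = u * (enf K Y - enf K ρ) := by
          unfold enf
          rw [hAK, Matrix.mul_smul, Matrix.trace_smul, smul_eq_mul, Complex.re_ofReal_mul,
            Matrix.sub_mul, Matrix.trace_sub, Complex.sub_re]
        rw [h1]
        exact mul_le_mul_of_nonneg_left (by linarith) hu0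
      have h4 : hsq (Y - ρ) ≤ 4 := by
        have h5 := hsq_sub_le Y ρ
        have h6 := hsq_le_one (hS _ hYS).1 (hS _ hYS).2
        have h7 := hsq_le_one hρ hρ1
        linarith
      rw [← huu]
      apply Real.sqrt_le_iff.2
      have ht0 : (0 : ℝ) ≤ t := Nat.cast_nonneg t
      have hst : 0 ≤ √(t : ℝ) := Real.sqrt_nonneg _
      have hst1 : √(t : ℝ) ≤ √((t : ℝ) + 1) := Real.sqrt_le_sqrt (by linarith)
      have hs2 : √(t : ℝ) ^ 2 = t := Real.sq_sqrt ht0
      have hs3 : √((t : ℝ) + 1) ^ 2 = t + 1 := Real.sq_sqrt (by linarith)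
      have hU : u ≤ η * t + 2 * √t := by rw [hu]; exact hX
      push_cast
      constructor
      · positivity
      · have h8 : u ^ 2 + 2 * enf A (Y - ρ) + hsq (Y - ρ) ≤ (u + η) ^ 2 + 4 := by nlinarith
        have h9 : (u + η) ^ 2 ≤ (η * (t + 1) + 2 * √t) ^ 2 := by
          apply pow_le_pow_left₀ (by positivity)
          linarith
        have h10 : (η * (t + 1) + 2 * √t) ^ 2 + 4 ≤ (η * (t + 1) + 2 * √((t : ℝ) + 1)) ^ 2 := by
          have h11 : 0 ≤ η * (t + 1) * (√((t : ℝ) + 1) - √t) := by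
            apply mul_nonneg (by positivity)
            linarith
          nlinarith
        linarith

end greedy

end Pool.Agent.Hhelper96.PEPS
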