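import Pool.Agent.Hhelper96.PEPS.Stable
import Pool.Agent.Hhelper96.PEPS.Commuting
import Pool.Agent.Hhelper96.PEPS.AvgErr

/-!
Trial vectors on a small torus: cut a box of the size of the small torus out of a vector on a large
torus with constant marginals, and use the components of the resulting mixed state.
-/

set_option autoImplicit false
set_option linter.unusedSectionVars false

open scoped BigOperators ComplexOrder
open Matrix

namespace Pool.Agent.Hhelper96.PEPS

section trial

/-- the small torus, cut open to a box, inside the large torus -/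
def embT (N L : ℕ) (u : Site N) : Site L := (((u.1.val : ℕ) : ZMod L), ((u.2.val : ℕ) : ZMod L))

theorem embT_injective {N L : ℕ} [NeZero N] (hNL : N ≤ L) : Function.Injective (embT N L) := by
  intro u v h
  have h1 : ((u.1.val : ℕ) : ZMod L) = ((v.1.val : ℕ) : ZMod L) := congrArg Prod.fst h
  have h2 : ((u.2.val : ℕ) : ZMod L) = ((v.2.val : ℕ) : ZMod L) := congrArg Prod.snd h
  have h3 := natCast_inj_of_lt (lt_of_lt_of_le (ZMod.val_lt u.1) hNL)
    (lt_of_lt_of_le (ZMod.val_lt v.1) hNL) h1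
  have h4 := natCast_inj_of_lt (lt_of_lt_of_le (ZMod.val_lt u.2) hNL)
    (lt_of_lt_of_le (ZMod.val_lt v.2) hNL) h2
  exact Prod.ext (ZMod.val_injective N h3) (ZMod.val_injective N h4)

theorem cast_val_window {N L r : ℕ} [NeZero N] (x : ZMod N) (a p : ℤ) (h1 : a ≤ p)
    (h2 : p < a + r) (hx : (x + (a : ZMod N)).val + r ≤ N) :
    (((x + (p : ZMod N)).val : ℕ) : ZMod L) =
      (((x + (a : ZMod N)).val : ℕ) : ZMod L) - (a : ZMod L) + (p : ZMod L) := by
  obtain ⟨k, hk⟩ : ∃ k : ℕ, p = a + k := ⟨(p - a).toNat, by omega⟩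
  have hkr : k < r := by omega
  have e1 : x + (p : ZMod N) = (((x + (a : ZMod N)).val + k : ℕ) : ZMod N) := by
    rw [Nat.cast_add, ZMod.natCast_zmod_val, hk]
    push_cast
    ring
  have e2 : (x + (p : ZMod N)).val = (x + (a : ZMod N)).val + k := by
    rw [e1, ZMod.val_natCast, Nat.mod_eq_of_lt (by omega)]
  rw [e2, hk]
  push_cast
  ring

/-- few coordinates are near the cut -/
theorem card_bad_line {N r : ℕ} [NeZero N] (hrN : r ≤ N) (c : ZMod N) :
    (Finset.univ.filter (fun x : ZMod N => ¬ ((x + c).val + r ≤ N))).card ≤ r := by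
  have h : (Finset.univ.filter (fun x : ZMod N => ¬ ((x + c).val + r ≤ N))).card ≤
      (Finset.Ico (N - r) N).card := by
    apply Finset.card_le_card_of_injOn (fun x => (x + c).val)
    · intro x hx
      have hx2 : ¬ ((x + c).val + r ≤ N) := (Finset.mem_filter.1 hx).2
      have hx3 := ZMod.val_lt (x + c)
      simp only [Finset.coe_Ico, Set.mem_Ico]
      omega
    · intro x _ y _ hxy
      have : x + c = y + c := ZMod.val_injective N hxy
      exact add_right_cancel this
  rw [Nat.card_Ico] at h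
  omega

/-- few windows meet the cut -/
theorem card_bad_sites {N r : ℕ} [NeZero N] (hrN : r ≤ N) (c c' : ZMod N) :
    (Finset.univ.filter (fun v : Site N =>
      ¬ ((v.1 + c).val + r ≤ N ∧ (v.2 + c').val + r ≤ N))).card ≤ 2 * r * N := by
  have hsub : Finset.univ.filter (fun v : Site N =>
      ¬ ((v.1 + c).val + r ≤ N ∧ (v.2 + c').val + r ≤ N)) ⊆
      (Finset.univ.filter (fun x : ZMod N => ¬ ((x + c).val + r ≤ N))) ×ˢ Finset.univ ∪
        Finset.univ ×ˢ (Finset.univ.filter (fun x : ZMod N => ¬ ((x + c').val + r ≤ N))) := by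
    intro v hv
    have hv2 := (Finset.mem_filter.1 hv).2
    rw [Finset.mem_union, Finset.mem_product, Finset.mem_product]
    by_cases h : (v.1 + c).val + r ≤ N
    · right
      refine ⟨Finset.mem_univ _, Finset.mem_filter.2 ⟨Finset.mem_univ _, fun h' => hv2 ⟨h, h'⟩⟩⟩
    · left
      exact ⟨Finset.mem_filter.2 ⟨Finset.mem_univ _, h⟩, Finset.mem_univ _⟩
  refine (Finset.card_le_card hsub).trans ((Finset.card_union_le _ _).trans ?_)
  rw [Finset.card_product, Finset.card_product]
  have hc : (Finset.univ : Finset (ZMod N)).card = N := by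
    rw [Finset.card_univ, ZMod.card]
  rw [hc]
  have h1 := card_bad_line hrN c
  have h2 := card_bad_line hrN c'
  nlinarith

theorem enf_smul_real {m : Type} [Fintype m] [DecidableEq m] (K X : Matrix m m ℂ) (c : ℝ) :
    enf K ((c : ℂ) • X) = c * enf K X := by
  unfold enf
  rw [Matrix.smul_mul, Matrix.trace_smul, smul_eq_mul, Complex.re_ofReal_mul]

/-- A vector on a large torus with constant marginals gives a nonzero vector on a small torus whose
energy is at most the bulk energy plus a boundary term. -/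
theorem exists_trial {d N L r : ℕ} [NeZero N] [NeZero L] (hr : 1 ≤ r) (hrN : r ≤ N) (hNL : N ≤ L)
    (R : Finset (ℤ × ℤ)) (a b : ℤ)
    (hR : ∀ p ∈ R, a ≤ p.1 ∧ p.1 < a + r ∧ b ≤ p.2 ∧ p.2 < b + r)
    (K : Matrix (R → Fin d) (R → Fin d) ℂ)
    (hK1 : ∀ X : Matrix (R → Fin d) (R → Fin d) ℂ, X.PosSemidef → X.trace = 1 → |enf K X| ≤ 1)
    (ψ : (Site L → Fin d) → ℂ) (hψ : ψ ≠ 0) (ρ : Matrix (R → Fin d) (R → Fin d) ℂ)
    (hρ : ∀ v, reduced L R v ψ = ρ) :
    ∃ φ : (Site N → Fin d) → ℂ, φ ≠ 0 ∧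
      ex (hamiltonian N R K) φ ≤ ((N : ℝ) ^ 2 * enf K ρ + 4 * r * N) * sqn φ := by
  classical
  have hnpos : 0 < nsq ψ := nsq_pos_of_ne_zero hψ
  have hnc : ((nsq ψ : ℝ) : ℂ) ≠ 0 := by exact_mod_cast hnpos.ne'
  have hκ := embT_injective (N := N) (L := L) hNL
  -- the marginal is a density matrix
  have hρd : |enf K ρ| ≤ 1 := by
    have h := posSemidef_reduced (le_trans hrN hNL) R a b hR (0 : Site L) hψ
    rw [hρ 0] at h
    exact hK1 ρ h.1 h.2
  -- the components
  obtain ⟨φ, hφ⟩ : ∃ φ : ({u // ¬ u ∈ Set.range (embT N L)} → Fin d) → (Site N → Fin d) → ℂ,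
      φ = fun t c => ψ (glue (embT N L) c t) := ⟨_, rfl⟩
  have hsumo : ptrace (embT N L) (outer ψ) = ∑ t, outer (φ t) := by
    ext s s'
    rw [ptrace_eq_glue _ hκ, Matrix.sum_apply]
    rw [hφ]
    rfl
  have hsqn : ∑ t, sqn (φ t) = nsq ψ := by
    unfold nsq sqn
    rw [← Equiv.sum_comp (glueEquiv (embT N L) hκ), Fintype.sum_prod_type, Finset.sum_comm, hφ]
    rfl
  have hterm : ∀ v : Site N, ∑ t, ex (localTerm N R K v) (φ t) =
      enf K (ptrace (embT N L ∘ fun p : R => place N v p) (outer ψ)) := by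
    intro v
    have h1 : ∀ t, ex (localTerm N R K v) (φ t) =
        (ptf (fun p : R => place N v p) K (outer (φ t))).re := by
      intro t
      unfold ex
      rw [localTerm_eq_opAt, form_opAt]
      rfl
    simp_rw [h1]
    rw [ptrace_comp _ _ hκ, hsumo, ← Complex.re_sum, ← map_sum]
    rfl
  -- every window costs at most the squared norm
  have hall : ∀ v : Site N, |enf K (ptrace (embT N L ∘ fun p : R => place N v p) (outer ψ))| ≤
      nsq ψ := by
    intro v
    have hinj : Function.Injective (embT N L ∘ fun p : R => place N v p) :=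
      hκ.comp (place_injective hrN R a b hR v)
    obtain ⟨X, hX⟩ : ∃ X, X = ptrace (embT N L ∘ fun p : R => place N v p) (outer ψ) := ⟨_, rfl⟩
    have hXP : X.PosSemidef := by rw [hX]; exact posSemidef_ptrace _ hinj ψ
    have hXt : X.trace = ((nsq ψ : ℝ) : ℂ) := by
      rw [hX, trace_ptrace _ hinj, trace_outer]
    have hinv0 : (0 : ℂ) ≤ (((nsq ψ)⁻¹ : ℝ) : ℂ) := by
      rw [Complex.zero_le_real]
      exact inv_nonneg.2 hnpos.le
    have h1 := hK1 ((((nsq ψ)⁻¹ : ℝ) : ℂ) • X) (hXP.smul hinv0) (by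
      rw [Matrix.trace_smul, hXt, smul_eq_mul, ← Complex.ofReal_mul, inv_mul_cancel₀ hnpos.ne']
      simp)
    rw [enf_smul_real, abs_mul, abs_of_nonneg (inv_nonneg.2 hnpos.le)] at h1
    rw [← hX]
    have h2 : |enf K X| = nsq ψ * ((nsq ψ)⁻¹ * |enf K X|) := by
      rw [← mul_assoc, mul_inv_cancel₀ hnpos.ne', one_mul]
    rw [h2]
    calc nsq ψ * ((nsq ψ)⁻¹ * |enf K X|) ≤ nsq ψ * 1 := mul_le_mul_of_nonneg_left h1 hnpos.le
      _ = nsq ψ := mul_one _
  -- interior windows
  have hint : ∀ v : Site N, ((v.1 + (a : ZMod N)).val + r ≤ N ∧ (v.2 + (b : ZMod N)).val + r ≤ N) →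
      enf K (ptrace (embT N L ∘ fun p : R => place N v p) (outer ψ)) = nsq ψ * enf K ρ := by
    intro v hv
    have h1 : (embT N L ∘ fun p : R => place N v p) = fun p : R => place L
        (((((v.1 + (a : ZMod N)).val : ℕ) : ZMod L) - (a : ZMod L)),
          ((((v.2 + (b : ZMod N)).val : ℕ) : ZMod L) - (b : ZMod L))) p := by
      funext p
      have hp := hR p.1 p.2
      have e1 := cast_val_window (L := L) v.1 a p.1.1 hp.1 hp.2.1 hv.1
      have e2 := cast_val_window (L := L) v.2 b p.1.2 hp.2.2.1 hp.2.2.2 hv.2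
      exact Prod.ext e1 e2
    have h2 : outer ψ = ((nsq ψ : ℝ) : ℂ) • density ψ := by
      rw [density_eq, smul_smul, mul_inv_cancel₀ hnc, one_smul]
    rw [h1, h2, ptrace_smul, enf_smul_real]
    congr 2
    exact hρ _
  -- the total
  have htot : ∑ t, ex (hamiltonian N R K) (φ t) ≤
      ((N : ℝ) ^ 2 * enf K ρ + 4 * r * N) * ∑ t, sqn (φ t) := by
    have h1 : ∑ t, ex (hamiltonian N R K) (φ t) = ∑ v : Site N,
        enf K (ptrace (embT N L ∘ fun p : R => place N v p) (outer ψ)) := by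
      simp_rw [← hterm]
      rw [Finset.sum_comm]
      refine Finset.sum_congr rfl (fun t _ => ?_)
      unfold hamiltonian
      rw [ex_sum]
    have h2 : ∀ v : Site N, enf K (ptrace (embT N L ∘ fun p : R => place N v p) (outer ψ)) ≤
        nsq ψ * enf K ρ + (if ¬ ((v.1 + (a : ZMod N)).val + r ≤ N ∧
          (v.2 + (b : ZMod N)).val + r ≤ N) then 2 * nsq ψ else 0) := by
      intro v
      by_cases hv : (v.1 + (a : ZMod N)).val + r ≤ N ∧ (v.2 + (b : ZMod N)).val + r ≤ N
      · rw [if_neg (not_not.2 hv), hint v hv, add_zero]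
      · rw [if_pos hv]
        have h3 := (abs_le.1 (hall v)).2
        have h4 := (abs_le.1 hρd).1
        have h5 : -(nsq ψ) ≤ nsq ψ * enf K ρ := by nlinarith
        linarith
    rw [h1, hsqn]
    calc _ ≤ ∑ v : Site N, (nsq ψ * enf K ρ + (if ¬ ((v.1 + (a : ZMod N)).val + r ≤ N ∧
          (v.2 + (b : ZMod N)).val + r ≤ N) then 2 * nsq ψ else 0)) :=
          Finset.sum_le_sum (fun v _ => h2 v)
      _ = (N : ℝ) ^ 2 * (nsq ψ * enf K ρ) + ((Finset.univ.filter (fun v : Site N =>
          ¬ ((v.1 + (a : ZMod N)).val + r ≤ N ∧ (v.2 + (b : ZMod N)).val + r ≤ N))).card : ℝ) *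
            (2 * nsq ψ) := by
          rw [Finset.sum_add_distrib, Finset.sum_const, Finset.card_univ, Fintype.card_prod,
            ZMod.card, ← Finset.sum_filter, Finset.sum_const, nsmul_eq_mul, nsmul_eq_mul]
          push_cast
          ring
      _ ≤ (N : ℝ) ^ 2 * (nsq ψ * enf K ρ) + (2 * r * N : ℝ) * (2 * nsq ψ) := by
          have h3 : ((Finset.univ.filter (fun v : Site N =>
            ¬ ((v.1 + (a : ZMod N)).val + r ≤ N ∧ (v.2 + (b : ZMod N)).val + r ≤ N))).card : ℝ) ≤
              2 * r * N := by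
            exact_mod_cast card_bad_sites hrN (a : ZMod N) (b : ZMod N)
          have h4 : (0 : ℝ) ≤ 2 * nsq ψ := by linarith
          linarith [mul_le_mul_of_nonneg_right h3 h4]
      _ = ((N : ℝ) ^ 2 * enf K ρ + 4 * r * N) * nsq ψ := by ring
  -- pigeonhole
  by_contra hcon
  push Not at hcon
  obtain ⟨t₀, ht₀⟩ : ∃ t, φ t ≠ 0 := by
    by_contra h0
    push Not at h0
    have : ∑ t, sqn (φ t) = 0 := by
      apply Finset.sum_eq_zero
      intro t _
      rw [h0 t]
      unfold sqn
      simp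
    rw [hsqn] at this
    linarith
  have hle : ∀ t, ((N : ℝ) ^ 2 * enf K ρ + 4 * r * N) * sqn (φ t) ≤
      ex (hamiltonian N R K) (φ t) := by
    intro t
    by_cases ht : φ t = 0
    · rw [ht]
      unfold ex sqn
      simp
    · exact (hcon (φ t) ht).le
  have hlt : ∑ t, ((N : ℝ) ^ 2 * enf K ρ + 4 * r * N) * sqn (φ t) <
      ∑ t, ex (hamiltonian N R K) (φ t) :=
    Finset.sum_lt_sum (fun t _ => hle t) ⟨t₀, Finset.mem_univ _, hcon (φ t₀) ht₀⟩
  rw [← Finset.mul_sum] at hlt
  linarith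

end trial

end Pool.Agent.Hhelper96.PEPS
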