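import Pool.Agent.Hhelper96.UB.PartA1
import Pool.Agent.Hhelper96.UB.PartA2
import Pool.Agent.Hhelper96.UB.PartB

/-!
The auxiliary files together.
-/
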