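import Pool.Agent.Hhelper96.UB.Assembly
import Pool.Agent.Hhelper96.UB.QuasiNum
import Pool.Agent.Hhelper96.UB.Thermal

/-!
Quasi-polynomial bond dimension under spectral counting.
-/

set_option autoImplicit false
set_option linter.unusedSectionVars false

open scoped BigOperators Topology ComplexOrder
open Matrix Filter

namespace Pool.Agent.Hhelper96.PEPS

section quasi

variable {d : ℕ}

theorem quasi_poly {zr on : Fin d} (hzo : zr ≠ on) {W R : Finset (ℤ × ℤ)} {r : ℕ} (hr : 1 ≤ r)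
    (a b : ℤ) (hW : ∀ p ∈ W, a ≤ p.1 ∧ p.1 < a + r ∧ b ≤ p.2 ∧ p.2 < b + r)
    (hR : ∀ p ∈ R, a ≤ p.1 ∧ p.1 < a + r ∧ b ≤ p.2 ∧ p.2 < b + r)
    (g : Matrix (W → Fin d) (W → Fin d) ℂ) (hg : g.IsHermitian)
    (ψ : ∀ n : ℕ, (Site (n + 1) → Fin d) → ℂ)
    (hψ : ∀ᶠ n in atTop, ψ n ≠ 0 ∧ (∀ w, reduced (n + 1) W w (ψ n) = reduced (n + 1) W 0 (ψ n)) ∧
      (∀ w, reduced (n + 1) R w (ψ n) = reduced (n + 1) R 0 (ψ n)))
    (hsec : ∀ x i j, SecOrdW W R g (dirM x i j) ψ) (w A : ℕ) (hA : 1 ≤ A)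
    (hE : SandNet d r w A) (α : ℝ)
    (hcount : ∀ᶠ n : ℕ in atTop, ∀ E : ℝ, (∀ χ, E * sqn χ ≤ ex (hamiltonian (n + 1) W g) χ) →
      ∀ M : ℝ, 1 ≤ M →
        (eigCount (hamiltonian (n + 1) W g) (E + M) : ℝ) ≤ ((n + 1 : ℕ) : ℝ) ^ (α * M)) :
    ∃ C : ℝ, ∀ ε : ℝ, 0 < ε → ε ≤ 1 →
      ∃ D : ℕ, (D : ℝ) ≤ Real.exp (C * Real.log (2 / ε) ^ 3) ∧
        ∃ T : Fin d → Fin D → Fin D → Fin D → Fin D → ℂ,
        (∀ᶠ n in atTop, pepsVec (n + 1) T ≠ 0) ∧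
        ∀ᶠ n in atTop, ∀ v : Site (n + 1),
          traceNorm (reduced (n + 1) R v (ψ n) - reduced (n + 1) R v (pepsVec (n + 1) T)) ≤ ε := by
  classical
  have hd : 1 ≤ d := by
    rcases Nat.eq_zero_or_pos d with h | h
    · subst h; exact zr.elim0
    · exact h
  obtain ⟨c, hc1, hgc, hcb⟩ := exists_enf_bound g
  obtain ⟨B, hB, hmain⟩ := e2m_main hzo hr a b hW hR g ψ hψ hsec
  obtain ⟨τ, C₁, hτ, hC₁, hth⟩ := thermal_content (d := d) r w A hr hd hA hE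
  obtain ⟨n₀, hn₀⟩ := eventually_atTop.1 hcount
  obtain ⟨α', hα'⟩ : ∃ α' : ℝ, α' = max α 0 := ⟨_, rfl⟩
  have hα0 : 0 ≤ α' := by rw [hα']; exact le_max_right _ _
  have hαα : α ≤ α' := by rw [hα']; exact le_max_left _ _
  have hc0 : 0 < c := by linarith
  obtain ⟨X₀, hX₀⟩ : ∃ X₀ : ℝ, X₀ = 4 * B ^ 2 + n₀ + r + 3 := ⟨_, rfl⟩
  have hn0R : (0 : ℝ) ≤ n₀ := Nat.cast_nonneg _
  have hr0R : (0 : ℝ) ≤ r := Nat.cast_nonneg _
  have hB2 : 0 ≤ 4 * B ^ 2 := by positivity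
  have hX₀1 : 1 ≤ X₀ := by rw [hX₀]; linarith
  obtain ⟨C, hC, hnum⟩ := quasi_num d r w A hr hA X₀ (C₁ * c) ((α' + 1) * c / τ) hX₀1
    (by positivity) (by positivity)
  refine ⟨C, ?_⟩
  intro ε hε hε1
  obtain ⟨m, k, S, N, q, hS, hN, hq, hk, hm, hD⟩ := hnum ε hε hε1
  have hε2 : 0 < ε ^ 2 := by positivity
  have hε21 : ε ^ 2 ≤ 1 := pow_le_one₀ hε.le hε1
  have hkR : X₀ ≤ k := by
    refine le_trans ?_ hk
    rw [le_div_iff₀ hε2]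
    exact mul_le_of_le_one_right (by linarith) hε21
  have hk1 : 1 ≤ k := by
    have : (1 : ℝ) ≤ k := by linarith
    exact_mod_cast this
  have hS1 : 1 ≤ S := by
    rw [hS]
    exact Nat.mul_pos (Nat.mul_pos (by omega) (by omega)) (by omega)
  have hkN : k ≤ N := by rw [hN]; exact Nat.le_mul_of_pos_left k hS1
  have hkNR : (k : ℝ) ≤ N := by exact_mod_cast hkN
  have hNX : X₀ ≤ N := hkR.trans hkNR
  have hNr : r ≤ N := by
    have : (r : ℝ) ≤ N := by rw [hX₀] at hNX; linarith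
    exact_mod_cast this
  have hNn : n₀ + 3 ≤ N := by
    have : (n₀ : ℝ) + 3 ≤ N := by rw [hX₀] at hNX; linarith
    exact_mod_cast this
  have hN2 : (2 : ℝ) ≤ N := by
    have : (3 : ℝ) ≤ N := by rw [hX₀] at hNX; linarith
    linarith
  have hNpos : (0 : ℝ) < N := by linarith
  have : NeZero N := ⟨by omega⟩
  have : NeZero S := ⟨by omega⟩
  obtain ⟨n, rfl⟩ : ∃ n, N = n + 1 := ⟨N - 1, by omega⟩
  -- the lowest eigenvalue
  obtain ⟨H, hH⟩ : ∃ H, H = hamiltonian (n + 1) W g := ⟨_, rfl⟩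
  have hHh : (hamiltonian (n + 1) W g).IsHermitian := hamiltonian_isHermitian hg
  have hne : Nonempty (Site (n + 1) → Fin d) := ⟨fun _ => ⟨0, hd⟩⟩
  obtain ⟨j₀, hj₀⟩ := Finite.exists_min hHh.eigenvalues
  obtain ⟨E₀, hE₀⟩ : ∃ E₀, E₀ = hHh.eigenvalues j₀ := ⟨_, rfl⟩
  have hEmin : ∀ j, E₀ ≤ hHh.eigenvalues j := by rw [hE₀]; exact hj₀
  have hEform : ∀ χ, E₀ * sqn χ ≤ ex (hamiltonian (n + 1) W g) χ := by
    intro χ
    obtain ⟨z, h1, h2⟩ := exists_form_sum hHh χ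
    rw [h1, h2, Finset.mul_sum]
    exact Finset.sum_le_sum (fun i _ => mul_le_mul_of_nonneg_right (hEmin i) (by positivity))
  have hq1 : 1 ≤ q := by rw [hq]; omega
  obtain ⟨Wt, hWt, hen⟩ := hth (n + 1) S m hS ⟨k, hN⟩ W a b hW g hg c hc1 hgc q hq1 E₀
    ⟨j₀, hE₀.symm⟩ hEmin
  -- the partition function
  obtain ⟨bq, hbq⟩ : ∃ bq : ℝ, bq = q * τ / c := ⟨_, rfl⟩
  have hlN : 0 < Real.log ((n + 1 : ℕ) : ℝ) := Real.log_pos (by linarith)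
  have hbq1 : (α' + 1) * Real.log ((n + 1 : ℕ) : ℝ) ≤ bq := by
    rw [hbq, le_div_iff₀ hc0]
    have e1 := Nat.le_ceil ((α' + 1) * c / τ * Real.log ((n + 1 : ℕ) : ℝ))
    have e2 : (α' + 1) * c / τ * Real.log ((n + 1 : ℕ) : ℝ) ≤ q := by
      rw [hq]
      push_cast at e1 ⊢
      linarith
    have e3 : (α' + 1) * c / τ * Real.log ((n + 1 : ℕ) : ℝ) =
        ((α' + 1) * Real.log ((n + 1 : ℕ) : ℝ) * c) / τ := by ring
    rw [e3, div_le_iff₀ hτ] at e2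
    exact e2
  have hbq0 : 0 < bq := lt_of_lt_of_le (by positivity) hbq1
  have hcnt := count_sum hHh hN2 hα0 hEmin (fun M hM => by
    refine (hn₀ n (by omega) E₀ hEform M hM).trans ?_
    apply Real.rpow_le_rpow_of_exponent_le (by linarith)
    exact mul_le_mul_of_nonneg_right hαα (by linarith)) hbq1
  rw [← hbq] at hen
  have hlog : Real.log (∑ j, Real.exp (-bq * (hHh.eigenvalues j - E₀))) / bq ≤ 2 := by
    rw [div_le_iff₀ hbq0]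
    refine hcnt.trans ?_
    have e1 : (α' + 2) * Real.log ((n + 1 : ℕ) : ℝ) ≤
        2 * ((α' + 1) * Real.log ((n + 1 : ℕ) : ℝ)) := by
      have : 0 ≤ α' * Real.log ((n + 1 : ℕ) : ℝ) := by positivity
      have e2 : 2 * ((α' + 1) * Real.log ((n + 1 : ℕ) : ℝ)) =
          (α' + 2) * Real.log ((n + 1 : ℕ) : ℝ) + α' * Real.log ((n + 1 : ℕ) : ℝ) := by ring
      rw [e2]
      linarith
    refine e1.trans ?_
    linarith
  have hmN : C₁ * c * ((n + 1 : ℕ) : ℝ) ^ 2 / 2 ^ m ≤ ((n + 1 : ℕ) : ℝ) := by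
    rw [div_le_iff₀ (by positivity)]
    calc C₁ * c * ((n + 1 : ℕ) : ℝ) ^ 2 = ((n + 1 : ℕ) : ℝ) * (C₁ * c * ((n + 1 : ℕ) : ℝ)) := by ring
      _ ≤ ((n + 1 : ℕ) : ℝ) * 2 ^ m := mul_le_mul_of_nonneg_left hm hNpos.le
  have hη : ∀ χ : (Site (n + 1) → Fin d) → ℂ, χ ≠ 0 →
      ex (hamiltonian (n + 1) W g) (netT Wt) / sqn (netT Wt) ≤
        ex (hamiltonian (n + 1) W g) χ / sqn χ +
          2 / ((n + 1 : ℕ) : ℝ) * ((n + 1 : ℕ) : ℝ) ^ 2 := by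
    intro χ hχ
    have e1 : E₀ ≤ ex (hamiltonian (n + 1) W g) χ / sqn χ := by
      rw [le_div_iff₀ (sqn_pos hχ)]
      exact hEform χ
    have e2 : 2 / ((n + 1 : ℕ) : ℝ) * ((n + 1 : ℕ) : ℝ) ^ 2 = 2 * ((n + 1 : ℕ) : ℝ) := by
      field_simp
    rw [e2]
    linarith
  obtain ⟨D, hDe, T, hT1, hT2⟩ := hmain (n + 1) hNr (2 / ((n + 1 : ℕ) : ℝ)) (by positivity)
    (Fin S × Fin S → Fin d × Fin (d ^ (w * q))) Wt hWt hη
  refine ⟨D, ?_, T, hT1, ?_⟩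
  · rw [hDe]
    simp only [Fintype.card_fun, Fintype.card_prod, Fintype.card_fin]
    exact hD
  · filter_upwards [hT2] with j hj v
    refine (hj v).trans ?_
    have h1 : X₀ ≤ ((n + 1 : ℕ) : ℝ) * ε ^ 2 := by
      have := hk.trans hkNR
      rwa [div_le_iff₀ hε2] at this
    have h2 : B ^ 2 * (2 / ((n + 1 : ℕ) : ℝ) + 1 / ((n + 1 : ℕ) : ℝ)) ≤ ε ^ 2 := by
      have e1 : B ^ 2 * (2 / ((n + 1 : ℕ) : ℝ) + 1 / ((n + 1 : ℕ) : ℝ)) =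
          3 * B ^ 2 / ((n + 1 : ℕ) : ℝ) := by ring
      rw [e1, div_le_iff₀ hNpos]
      have : 3 * B ^ 2 ≤ X₀ := by rw [hX₀]; linarith
      linarith
    calc B * √(2 / ((n + 1 : ℕ) : ℝ) + 1 / ((n + 1 : ℕ) : ℝ)) =
          √(B ^ 2 * (2 / ((n + 1 : ℕ) : ℝ) + 1 / ((n + 1 : ℕ) : ℝ))) := by
          rw [Real.sqrt_mul (by positivity), Real.sqrt_sq hB]
      _ ≤ √(ε ^ 2) := Real.sqrt_le_sqrt h2
      _ = ε := Real.sqrt_sq hε.le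

end quasi

end Pool.Agent.Hhelper96.PEPS
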