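import Pool.Agent.Hhelper96.UB.QuasiNum

/-!
Parameters for the quasi-polynomial bound, cluster version.
-/

set_option autoImplicit false

namespace Pool.Agent.Hhelper96.PEPS

theorem exists_pow_two_ge (X : ℝ) (hX : 1 ≤ X) : ∃ m : ℕ, 3 ≤ m ∧ X ≤ 2 ^ m ∧
    (m : ℝ) ≤ 2 * Real.log X + 4 := by
  obtain ⟨p, hp⟩ : ∃ p : ℕ, p = ⌈2 * Real.log X⌉₊ + 3 := ⟨_, rfl⟩
  have hl0 : 0 ≤ Real.log X := Real.log_nonneg hX
  have h1 : 2 * Real.log X ≤ p := by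
    rw [hp]
    push_cast
    have := Nat.le_ceil (2 * Real.log X)
    linarith
  have h2 : (p : ℝ) ≤ 2 * Real.log X + 4 := by
    rw [hp]
    push_cast
    have := Nat.ceil_lt_add_one (by positivity : 0 ≤ 2 * Real.log X)
    linarith
  refine ⟨p, by omega, ?_, h2⟩
  have hX0 : 0 < X := by linarith
  have h4 : Real.log X ≤ Real.log (2 ^ p) := by
    rw [Real.log_pow]
    have := Real.log_two_gt_d9
    nlinarith
  exact (Real.log_le_log_iff hX0 (by positivity)).1 h4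

theorem half_sq {l : ℝ} (hl : 1 / 2 ≤ l) : l ≤ 2 * l ^ 2 ∧ 1 / 4 ≤ l ^ 2 := by
  refine ⟨by nlinarith, by nlinarith⟩

theorem quasi_num4 (d κ : ℕ) (X₀ X₁ X₂ : ℝ) (h0 : 1 ≤ X₀) (h1 : 0 ≤ X₁) (h2 : 0 ≤ X₂) :
    ∃ C : ℝ, 0 ≤ C ∧ ∀ ε : ℝ, 0 < ε → ε ≤ 1 → ∃ m N q : ℕ,
      q = ⌈X₂ * Real.log N⌉₊ + 1 ∧ X₀ / ε ^ 2 ≤ N ∧ 3 ≤ m ∧ N * N ≤ 2 ^ m ∧ X₁ * N ≤ 2 ^ m ∧
      (((N + 3) * ((N + 3) * (((d * κ ^ m) ^ (2 * q)) ^ 3 + 1)) : ℕ) : ℝ) ≤
        Real.exp (C * Real.log (2 / ε) ^ 2) := by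
  obtain ⟨cN, hcN⟩ : ∃ cN : ℝ, cN = 2 * Real.log (2 * X₀) + 2 := ⟨_, rfl⟩
  obtain ⟨cX, hcX⟩ : ∃ cX : ℝ, cX = 2 * Real.log (X₁ + 1) + 2 * cN := ⟨_, rfl⟩
  obtain ⟨cm, hcm⟩ : ∃ cm : ℝ, cm = 2 * cX + 8 := ⟨_, rfl⟩
  obtain ⟨cq, hcq⟩ : ∃ cq : ℝ, cq = X₂ * cN + 4 := ⟨_, rfl⟩
  have hcN0 : 0 ≤ cN := by
    rw [hcN]
    have : 0 ≤ Real.log (2 * X₀) := Real.log_nonneg (by linarith)
    linarith
  have hcX0 : 0 ≤ cX := by
    rw [hcX]
    have : 0 ≤ Real.log (X₁ + 1) := Real.log_nonneg (by linarith)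
    linarith
  have hcm0 : 0 ≤ cm := by rw [hcm]; positivity
  have hcq0 : 0 ≤ cq := by rw [hcq]; positivity
  obtain ⟨ld, hld⟩ : ∃ ld : ℝ, ld = Real.log ((d : ℝ) + 1) := ⟨_, rfl⟩
  obtain ⟨lk, hlk⟩ : ∃ lk : ℝ, lk = Real.log ((κ : ℝ) + 1) := ⟨_, rfl⟩
  have hd0 : (0 : ℝ) ≤ d := Nat.cast_nonneg d
  have hk0 : (0 : ℝ) ≤ κ := Nat.cast_nonneg κ
  have hld0 : 0 ≤ ld := by rw [hld]; exact Real.log_nonneg (by linarith)
  have hlk0 : 0 ≤ lk := by rw [hlk]; exact Real.log_nonneg (by linarith)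
  obtain ⟨C, hC⟩ : ∃ C : ℝ, C = 4 * cN + 28 + 6 * cq * (2 * ld + cm * lk) := ⟨_, rfl⟩
  have hC0 : 0 ≤ C := by rw [hC]; positivity
  refine ⟨C, hC0, ?_⟩
  intro ε hε hε1
  obtain ⟨l, hl⟩ : ∃ l : ℝ, l = Real.log (2 / ε) := ⟨_, rfl⟩
  have hl2 : Real.log 2 ≤ l := by
    rw [hl]
    apply Real.log_le_log (by norm_num)
    rw [le_div_iff₀ hε]
    linarith
  have hlhalf : 1 / 2 ≤ l := by
    have := Real.log_two_gt_d9
    linarith
  have hl0 : 0 ≤ l := by linarith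
  have hle : -Real.log ε ≤ l := by
    rw [hl, Real.log_div (by norm_num) hε.ne']
    have := Real.log_two_gt_d9
    linarith
  have hε2 : 0 < ε ^ 2 := by positivity
  have hε21 : ε ^ 2 ≤ 1 := pow_le_one₀ hε.le hε1
  -- N
  obtain ⟨N, hN⟩ : ∃ N : ℕ, N = ⌈X₀ / ε ^ 2⌉₊ := ⟨_, rfl⟩
  have hN1 : X₀ / ε ^ 2 ≤ N := by rw [hN]; exact Nat.le_ceil _
  have hX₀N : X₀ ≤ X₀ / ε ^ 2 := by
    rw [le_div_iff₀ hε2]
    exact mul_le_of_le_one_right (by linarith) hε21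
  have hN2 : (N : ℝ) ≤ 2 * X₀ / ε ^ 2 := by
    have e1 := (Nat.ceil_lt_add_one (by positivity : 0 ≤ X₀ / ε ^ 2)).le
    rw [← hN] at e1
    have e2 : 2 * X₀ / ε ^ 2 = X₀ / ε ^ 2 + X₀ / ε ^ 2 := by ring
    rw [e2]
    linarith
  have hNR : (1 : ℝ) ≤ N := by linarith
  have hNpos : (0 : ℝ) < N := by linarith
  have hNl : Real.log N ≤ cN * l := by
    have e1 : Real.log N ≤ Real.log (2 * X₀ / ε ^ 2) := Real.log_le_log hNpos hN2
    rw [Real.log_div (by positivity) hε2.ne', Real.log_pow] at e1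
    have e2 : 0 ≤ Real.log (2 * X₀) := Real.log_nonneg (by linarith)
    rw [hcN]
    push_cast at e1
    have e3 := le_two_mul_half e2 hlhalf
    have e4 : (2 * Real.log (2 * X₀) + 2) * l = 2 * Real.log (2 * X₀) * l + 2 * l := by ring
    rw [e4]
    linarith
  have hlN0 : 0 ≤ Real.log N := Real.log_nonneg hNR
  -- m
  obtain ⟨X, hX⟩ : ∃ X : ℝ, X = (X₁ + 1) * (N * N) := ⟨_, rfl⟩
  have hNN : (1 : ℝ) ≤ N * N := one_le_mul_of_one_le_of_one_le hNR hNR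
  have hX1 : 1 ≤ X := by
    rw [hX]
    exact one_le_mul_of_one_le_of_one_le (by linarith) hNN
  obtain ⟨m, hm3, hm1, hm2⟩ := exists_pow_two_ge X hX1
  have hXl : Real.log X ≤ cX * l := by
    rw [hX, Real.log_mul (by positivity) (by positivity), Real.log_mul hNpos.ne' hNpos.ne', hcX]
    have e2 : 0 ≤ Real.log (X₁ + 1) := Real.log_nonneg (by linarith)
    have e3 := le_two_mul_half e2 hlhalf
    have e4 : (2 * Real.log (X₁ + 1) + 2 * cN) * l =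
      2 * Real.log (X₁ + 1) * l + 2 * (cN * l) := by ring
    rw [e4]
    linarith
  have hml : (m : ℝ) ≤ cm * l := by
    rw [hcm]
    have e4 : (2 * cX + 8) * l = 2 * (cX * l) + 8 * l := by ring
    rw [e4]
    linarith
  obtain ⟨q, hq⟩ : ∃ q : ℕ, q = ⌈X₂ * Real.log N⌉₊ + 1 := ⟨_, rfl⟩
  have hql : (q : ℝ) ≤ cq * l := by
    have e1 := (Nat.ceil_lt_add_one (by positivity : 0 ≤ X₂ * Real.log N)).le
    have e2 : (q : ℝ) = ⌈X₂ * Real.log N⌉₊ + 1 := by rw [hq]; push_cast; ring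
    have e3 := mul_le_mul_of_nonneg_left hNl h2
    rw [e2, hcq]
    have e4 : (X₂ * cN + 4) * l = X₂ * (cN * l) + 4 * l := by ring
    rw [e4]
    linarith
  refine ⟨m, N, q, hq, hN1, hm3, ?_, ?_, ?_⟩
  · have e1 : (N : ℝ) * N ≤ 2 ^ m := by
      refine le_trans ?_ hm1
      rw [hX]
      exact le_mul_of_one_le_left (by positivity) (by linarith)
    exact_mod_cast e1
  · refine le_trans ?_ hm1
    rw [hX]
    calc X₁ * (N : ℝ) ≤ (X₁ + 1) * N := mul_le_mul_of_nonneg_right (by linarith) hNpos.le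
      _ ≤ (X₁ + 1) * (N * N) := by
        apply mul_le_mul_of_nonneg_left _ (by linarith)
        exact le_mul_of_one_le_left hNpos.le hNR
  · obtain ⟨Y, hY⟩ : ∃ Y : ℝ, Y = (((d : ℝ) + 1) * ((κ : ℝ) + 1) ^ m) ^ (2 * q) := ⟨_, rfl⟩
    have hbase : 1 ≤ ((d : ℝ) + 1) * ((κ : ℝ) + 1) ^ m :=
      one_le_mul_of_one_le_of_one_le (by linarith) (one_le_pow₀ (by linarith))
    have hY1 : 1 ≤ Y := by rw [hY]; exact one_le_pow₀ hbase
    have hYge : (((d * κ ^ m) ^ (2 * q) : ℕ) : ℝ) ≤ Y := by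
      rw [hY]
      push_cast
      apply pow_le_pow_left₀ (by positivity)
      apply mul_le_mul (by linarith) _ (by positivity) (by positivity)
      exact pow_le_pow_left₀ hk0 (by linarith) m
    have hYl : Real.log Y ≤ 2 * cq * (2 * ld + cm * lk) * l ^ 2 := by
      rw [hY, Real.log_pow, Real.log_mul (by positivity) (by positivity), Real.log_pow, ← hld,
        ← hlk]
      push_cast
      have e1 : ld + m * lk ≤ (2 * ld + cm * lk) * l := by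
        have e2 := le_two_mul_half hld0 hlhalf
        have e3 := mul_le_mul_of_nonneg_right hml hlk0
        have e4 : (2 * ld + cm * lk) * l = 2 * ld * l + cm * l * lk := by ring
        rw [e4]
        linarith
      have e5 : 2 * (q : ℝ) ≤ 2 * (cq * l) := by linarith
      calc 2 * (q : ℝ) * (ld + m * lk) ≤ 2 * (cq * l) * ((2 * ld + cm * lk) * l) :=
            mul_le_mul e5 e1 (by positivity) (by positivity)
        _ = 2 * cq * (2 * ld + cm * lk) * l ^ 2 := by ring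
    obtain ⟨Z, hZ⟩ : ∃ Z : ℕ, Z = (d * κ ^ m) ^ (2 * q) := ⟨_, rfl⟩
    rw [← hZ] at hYge ⊢
    have e2 : (((N + 3) * ((N + 3) * (Z ^ 3 + 1)) : ℕ) : ℝ) ≤ (4 * N) ^ 2 * (2 * Y ^ 3) := by
      push_cast
      have e3 : (N : ℝ) + 3 ≤ 4 * N := by linarith
      have e4 : (Z : ℝ) ^ 3 + 1 ≤ 2 * Y ^ 3 := by
        have e5 := pow_le_pow_left₀ (Nat.cast_nonneg Z) hYge 3
        have e6 := one_le_pow₀ hY1 (n := 3)
        linarith
      calc ((N : ℝ) + 3) * ((N + 3) * ((Z : ℝ) ^ 3 + 1)) ≤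
            (4 * N) * ((4 * N) * (2 * Y ^ 3)) :=
            mul_le_mul e3 (mul_le_mul e3 e4 (by positivity) (by positivity)) (by positivity)
              (by positivity)
        _ = (4 * N) ^ 2 * (2 * Y ^ 3) := by ring
    refine e2.trans ?_
    rw [← Real.log_le_iff_le_exp (by positivity), Real.log_mul (by positivity) (by positivity),
      Real.log_pow, Real.log_mul (by norm_num) (by positivity),
      Real.log_mul (by norm_num) (by positivity), Real.log_pow]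
    have e3 : Real.log 4 ≤ 3 := by
      have := Real.log_le_sub_one_of_pos (by norm_num : (0 : ℝ) < 4)
      linarith
    have e3' : Real.log 2 ≤ 1 := by
      have := Real.log_le_sub_one_of_pos (by norm_num : (0 : ℝ) < 2)
      linarith
    rw [← hl, hC]
    push_cast
    obtain ⟨hl3, hl4⟩ := half_sq hlhalf
    have e5 : Real.log N ≤ cN * (2 * l ^ 2) := hNl.trans (mul_le_mul_of_nonneg_left hl3 hcN0)
    obtain ⟨Q, hQ⟩ : ∃ Q : ℝ, Q = 2 * cq * (2 * ld + cm * lk) * l ^ 2 := ⟨_, rfl⟩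
    rw [← hQ] at hYl
    have e9 : (4 * cN + 28 + 6 * cq * (2 * ld + cm * lk)) * l ^ 2 =
        4 * (cN * l ^ 2) + 28 * l ^ 2 + 3 * Q := by rw [hQ]; ring
    rw [e9]
    have e10 : cN * (2 * l ^ 2) = 2 * (cN * l ^ 2) := by ring
    rw [e10] at e5
    linarith

end Pool.Agent.Hhelper96.PEPS
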