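import Pool.Agent.Hhelper96.UB.E2Final

/-!
Rate of convergence of the marginals.
-/

set_option autoImplicit false
set_option linter.unusedSectionVars false

open scoped BigOperators Topology ComplexOrder
open Matrix Filter

namespace Pool.Agent.Hhelper96.PEPS

section rate

variable {d : ℕ}

/-- every vector is a label network -/
theorem exists_netT_eq {N : ℕ} [NeZero N] (φ : (Site N → Fin d) → ℂ) :
    ∃ W : Site N → Fin d → (Site N → Fin d) → (Site N → Fin d) → (Site N → Fin d) → ℂ,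
      netT W = φ := by
  classical
  refine ⟨fun v σ l dwn y => if y v = σ ∧ l = y ∧ dwn = y then (if v = 0 then φ y else 1) else 0,
    ?_⟩
  funext s
  unfold netT
  rw [Finset.sum_eq_single (fun _ => s)]
  · have h1 : ∀ v : Site N, (if s v = s v ∧ s = s ∧ s = s then (if v = 0 then φ s else 1) else 0) =
        if v = 0 then φ s else 1 := fun v => if_pos ⟨rfl, rfl, rfl⟩
    rw [Finset.prod_congr rfl (fun v _ => h1 v), Finset.prod_ite_eq' Finset.univ (0 : Site N)]
    simp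
  · intro y _ hy
    by_contra hne
    apply hy
    have h1 : ∀ v : Site N, (y v) v = s v ∧ y (v - (1, 0)) = y v ∧ y (v - (0, 1)) = y v := by
      intro v
      by_contra hcon
      apply hne
      apply Finset.prod_eq_zero (Finset.mem_univ v)
      exact if_neg hcon
    have hx : ∀ (k : ℕ) (v : Site N), y (v + ((k : ZMod N), 0)) = y v := by
      intro k
      induction k with
      | zero =>
        intro v
        congr 1
        ext <;> simp
      | succ k ih =>
        intro v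
        have h2 := (h1 (v + (((k + 1 : ℕ) : ZMod N), 0))).2.1
        rw [← h2, ← ih v]
        congr 1
        ext
        · simp; ring
        · simp
    have hyy : ∀ (k : ℕ) (v : Site N), y (v + (0, (k : ZMod N))) = y v := by
      intro k
      induction k with
      | zero =>
        intro v
        congr 1
        ext <;> simp
      | succ k ih =>
        intro v
        have h2 := (h1 (v + (0, ((k + 1 : ℕ) : ZMod N)))).2.2
        rw [← h2, ← ih v]
        congr 1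
        ext
        · simp
        · simp; ring
    have hc : ∀ v, y v = y 0 := by
      intro v
      have h2 := hx v.1.val 0
      have h3 := hyy v.2.val (0 + ((v.1.val : ZMod N), 0))
      rw [h2] at h3
      rw [← h3]
      congr 1
      ext
      · simp
      · simp
    funext v
    rw [hc v]
    funext u
    rw [← hc u]
    exact (h1 u).1
  · intro h
    exact absurd (Finset.mem_univ _) h

theorem avgM_eq {N r : ℕ} [NeZero N] (hr : 1 ≤ r) (hrN : r ≤ N) (R : Finset (ℤ × ℤ)) (a b : ℤ)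
    {T : (Site N → Fin d) → ℂ} (h : ∀ w, reduced N R w T = reduced N R 0 T) :
    avgM N r R a b T = reduced N R 0 T := by
  have hcard := card_inn hr hrN
  have hcC : ((inn N r).card : ℂ) ≠ 0 := by
    have : 0 < (inn N r).card := by omega
    exact_mod_cast this.ne'
  unfold avgM
  rw [Finset.sum_congr rfl (fun k _ => Finset.sum_congr rfl (fun l _ => h (posn N a b k l)))]
  simp only [Finset.sum_const]
  rw [← Nat.cast_smul_eq_nsmul ℂ, ← Nat.cast_smul_eq_nsmul ℂ, smul_smul, smul_smul]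
  have : ((1 / ((inn N r).card : ℝ) ^ 2 : ℝ) : ℂ) * ((inn N r).card : ℂ) *
      ((inn N r).card : ℂ) = 1 := by
    push_cast
    field_simp
  rw [this, one_smul]

/-- the marginals of the ground states converge with error `O (1 / √L)` -/
theorem rate_of_sec {zr on : Fin d} (hzo : zr ≠ on) {W R : Finset (ℤ × ℤ)} {r : ℕ} (hr : 1 ≤ r)
    (a b : ℤ) (hW : ∀ p ∈ W, a ≤ p.1 ∧ p.1 < a + r ∧ b ≤ p.2 ∧ p.2 < b + r)
    (hR : ∀ p ∈ R, a ≤ p.1 ∧ p.1 < a + r ∧ b ≤ p.2 ∧ p.2 < b + r)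
    (g : Matrix (W → Fin d) (W → Fin d) ℂ)
    (ψ : ∀ n : ℕ, (Site (n + 1) → Fin d) → ℂ)
    (hψ : ∀ᶠ n in atTop, ψ n ≠ 0 ∧ (∀ w, reduced (n + 1) W w (ψ n) = reduced (n + 1) W 0 (ψ n)) ∧
      (∀ w, reduced (n + 1) R w (ψ n) = reduced (n + 1) R 0 (ψ n)))
    (hgs : ∀ᶠ n in atTop, ∀ χ : (Site (n + 1) → Fin d) → ℂ, χ ≠ 0 →
      ex (hamiltonian (n + 1) W g) (ψ n) / sqn (ψ n) ≤ ex (hamiltonian (n + 1) W g) χ / sqn χ)
    (hsec : ∀ x i j, SecOrdW W R g (dirM x i j) ψ) :
    ∃ (B : ℝ) (ρ : Matrix (R → Fin d) (R → Fin d) ℂ), ∀ᶠ n in atTop,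
      traceNorm (reduced (n + 1) R 0 (ψ n) - ρ) ≤ B / √((n + 1 : ℕ) : ℝ) := by
  classical
  obtain ⟨B, hB, hmain⟩ := e2m_main' hzo hr a b hW hR g ψ hψ hsec
  obtain ⟨B', hB'⟩ : ∃ B' : ℝ, B' = B + 4 * (r + 2) := ⟨_, rfl⟩
  have hB'0 : 0 ≤ B' := by rw [hB']; positivity
  -- comparison of a size with all larger sizes
  have key : ∀ᶠ n in atTop, ∀ᶠ j in atTop,
      traceNorm (reduced (n + 1) R 0 (ψ n) - reduced (j + 1) R 0 (ψ j)) ≤
        B' / √((n + 1 : ℕ) : ℝ) := by
    filter_upwards [hψ, hgs, eventually_ge_atTop r] with n h1 h2 h3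
    obtain ⟨Wt, hWt⟩ := exists_netT_eq (ψ n)
    have hNpos : (0 : ℝ) < ((n + 1 : ℕ) : ℝ) := by positivity
    obtain ⟨D, _, A, _, hA⟩ := hmain (n + 1) (by omega) 0 le_rfl (Site (n + 1) → Fin d) Wt
      (by rw [hWt]; exact h1.1) (by
        intro χ hχ
        rw [hWt, zero_mul, add_zero]
        exact h2 χ hχ)
    rw [hWt, avgM_eq hr (by omega : r ≤ n + 1) R a b h1.2.2] at hA
    filter_upwards [hA] with j hj
    obtain ⟨h4, h5⟩ := hj 0
    have e1 : reduced (n + 1) R 0 (ψ n) - reduced (j + 1) R 0 (ψ j) =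
        (reduced (n + 1) R 0 (ψ n) - reduced (j + 1) R 0 (pepsVec (j + 1) A)) +
        (reduced (j + 1) R 0 (pepsVec (j + 1) A) - reduced (j + 1) R 0 (ψ j)) := by abel
    rw [e1]
    refine (traceNorm_add_le _ _).trans ?_
    rw [traceNorm_sub_comm (reduced (n + 1) R 0 (ψ n)),
      traceNorm_sub_comm (reduced (j + 1) R 0 (pepsVec (j + 1) A)) (reduced (j + 1) R 0 (ψ j))]
    have hs : 1 ≤ √((n + 1 : ℕ) : ℝ) := by
      rw [Real.one_le_sqrt]
      push_cast
      have : (0 : ℝ) ≤ n := Nat.cast_nonneg n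
      linarith
    have e2 : √(0 + 1 / ((n + 1 : ℕ) : ℝ)) = 1 / √((n + 1 : ℕ) : ℝ) := by
      rw [zero_add, Real.sqrt_div zero_le_one, Real.sqrt_one]
    rw [e2] at h4
    have e3 : 4 * ((r + 2 : ℝ) / ((n + 1 : ℕ) : ℝ)) ≤ 4 * (r + 2) * (1 / √((n + 1 : ℕ) : ℝ)) := by
      have e4 : 1 / ((n + 1 : ℕ) : ℝ) ≤ 1 / √((n + 1 : ℕ) : ℝ) := by
        apply one_div_le_one_div_of_le (by positivity)
        have := Real.mul_self_sqrt hNpos.le
        nlinarith
      have e5 : (r + 2 : ℝ) / ((n + 1 : ℕ) : ℝ) = (r + 2) * (1 / ((n + 1 : ℕ) : ℝ)) := by ring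
      rw [e5]
      have := mul_le_mul_of_nonneg_left e4 (by positivity : (0 : ℝ) ≤ r + 2)
      linarith
    have e6 : B' / √((n + 1 : ℕ) : ℝ) = 4 * (r + 2) * (1 / √((n + 1 : ℕ) : ℝ)) +
        B * (1 / √((n + 1 : ℕ) : ℝ)) := by rw [hB']; ring
    rw [e6]
    linarith
  -- the limit
  obtain ⟨n₀, hn₀⟩ := eventually_atTop.1 key
  have hlim0 : Tendsto (fun n : ℕ => B' / √((n + 1 : ℕ) : ℝ)) atTop (𝓝 0) := by
    apply Tendsto.const_div_atTop
    apply Real.tendsto_sqrt_atTop.comp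
    exact tendsto_natCast_atTop_atTop.comp (tendsto_add_atTop_nat 1)
  have hent : ∀ x y, ∃ z : ℂ, Tendsto (fun j => reduced (j + 1) R 0 (ψ j) x y) atTop (𝓝 z) := by
    intro x y
    apply cauchySeq_tendsto_of_complete
    rw [Metric.cauchySeq_iff']
    intro ε hε
    obtain ⟨n₁, hn₁⟩ := eventually_atTop.1 (hlim0.eventually_lt_const (by positivity : 0 < ε / 4))
    obtain ⟨n, hn⟩ : ∃ n, n = max n₀ n₁ := ⟨_, rfl⟩
    have h1 := hn₀ n (by rw [hn]; exact le_max_left _ _)
    have h2 := hn₁ n (by rw [hn]; exact le_max_right _ _)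
    obtain ⟨j₀, hj₀⟩ := eventually_atTop.1 h1
    refine ⟨j₀, fun j hj => ?_⟩
    rw [dist_eq_norm]
    have e1 := norm_apply_le_traceNorm
      (reduced (j + 1) R 0 (ψ j) - reduced (j₀ + 1) R 0 (ψ j₀)) x y
    refine lt_of_le_of_lt (le_trans (le_of_eq rfl) e1) ?_
    have e2 : reduced (j + 1) R 0 (ψ j) - reduced (j₀ + 1) R 0 (ψ j₀) =
        (reduced (j + 1) R 0 (ψ j) - reduced (n + 1) R 0 (ψ n)) +
        (reduced (n + 1) R 0 (ψ n) - reduced (j₀ + 1) R 0 (ψ j₀)) := by abel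
    rw [e2]
    refine lt_of_le_of_lt (traceNorm_add_le _ _) ?_
    rw [traceNorm_sub_comm (reduced (j + 1) R 0 (ψ j))]
    linarith [hj₀ j hj, hj₀ j₀ le_rfl]
  choose ρ hρ using hent
  refine ⟨B', Matrix.of ρ, ?_⟩
  filter_upwards [key] with n hn
  have hlim : Tendsto (fun j => traceNorm (reduced (j + 1) R 0 (ψ j) - Matrix.of ρ)) atTop (𝓝 0) := by
    have h1 : Tendsto (fun j => ∑ x, ∑ y, ‖(reduced (j + 1) R 0 (ψ j) - Matrix.of ρ) x y‖) atTop (𝓝 0) := by
      have h2 : Tendsto (fun j => ∑ x, ∑ y, ‖(reduced (j + 1) R 0 (ψ j) - Matrix.of ρ) x y‖) atTop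
          (𝓝 (∑ x : R → Fin d, ∑ y : R → Fin d, ‖(Matrix.of ρ - Matrix.of ρ) x y‖)) := by
        refine tendsto_finsetSum _ (fun x _ => tendsto_finsetSum _ (fun y _ => ?_))
        refine Tendsto.norm ?_
        exact (hρ x y).sub tendsto_const_nhds
      simpa using h2
    exact squeeze_zero (fun j => traceNorm_nonneg _) (fun j => traceNorm_le_sum _) h1
  apply le_of_forall_pos_le_add
  intro ε hε
  obtain ⟨j, hj1, hj2⟩ := (hn.and (hlim.eventually_lt_const hε)).exists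
  have e1 : reduced (n + 1) R 0 (ψ n) - Matrix.of ρ = (reduced (n + 1) R 0 (ψ n) -
      reduced (j + 1) R 0 (ψ j)) + (reduced (j + 1) R 0 (ψ j) - Matrix.of ρ) := by abel
  rw [e1]
  refine (traceNorm_add_le _ _).trans ?_
  linarith

end rate

end Pool.Agent.Hhelper96.PEPS
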