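import Pool.Agent.Hhelper96.PEPS.AvgErr

/-!
The averaging estimate for the superposition of grids when the marginals at the positions of a
block are known one by one: only their average over the good positions matters.
-/

set_option autoImplicit false
set_option linter.unusedSectionVars false

open scoped BigOperators ComplexOrder
open Matrix

namespace Pool.Agent.Hhelper96.PEPS

section savg

variable {N₁ N₂ d : ℕ} (χ : (Fin N₁ × Fin N₂ → Fin d) → ℂ) (zr on : Fin d)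
variable {L : ℕ} [NeZero L]

open Classical in
/-- all positions inside of a block are equally likely -/
theorem sum_letter_eq (k l : ℕ) (hk : k < N₁) (hl : l < N₂) (x₀ y₀ : ZMod L) :
    ∑ q ∈ (grids N₁ N₂ L).filter (fun q => (q.1 x₀ : ℕ) = 2 + k ∧ (q.2 y₀ : ℕ) = 2 + l),
      wgt χ zr on L q =
    ∑ q ∈ (grids N₁ N₂ L).filter (fun q => (q.1 x₀ : ℕ) = 2 ∧ (q.2 y₀ : ℕ) = 2),
      wgt χ zr on L q := by
  apply Finset.sum_nbij'
    (fun q : (ZMod L → Fin (N₁ + 3)) × (ZMod L → Fin (N₂ + 3)) =>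
      (((fun z => q.1 (z + (-(k : ZMod L)))), (fun y => q.2 (y + (-(l : ZMod L))))) :
        (ZMod L → Fin (N₁ + 3)) × (ZMod L → Fin (N₂ + 3))))
    (fun q : (ZMod L → Fin (N₁ + 3)) × (ZMod L → Fin (N₂ + 3)) =>
      (((fun z => q.1 (z + (k : ZMod L))), (fun y => q.2 (y + (l : ZMod L)))) :
        (ZMod L → Fin (N₁ + 3)) × (ZMod L → Fin (N₂ + 3))))
  · rintro ⟨ξ, η⟩ hq
    simp only [grids, Finset.mem_filter, Finset.mem_univ, true_and] at hq ⊢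
    refine ⟨⟨hq.1.1.shift _, hq.1.2.shift _⟩, ?_, ?_⟩
    · have := hq.1.1.back x₀ k (by omega)
      rw [← sub_eq_add_neg, this]; omega
    · have := hq.1.2.back y₀ l (by omega)
      rw [← sub_eq_add_neg, this]; omega
  · rintro ⟨ξ, η⟩ hq
    simp only [grids, Finset.mem_filter, Finset.mem_univ, true_and] at hq ⊢
    refine ⟨⟨hq.1.1.shift _, hq.1.2.shift _⟩, ?_, ?_⟩
    · have := hq.1.1.fwd x₀ k (by omega)
      rw [this]; omega
    · have := hq.1.2.fwd y₀ l (by omega)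
      rw [this]; omega
  · rintro ⟨ξ, η⟩ _
    refine Prod.ext ?_ ?_
    · funext z; simp only; congr 1; ring
    · funext z; simp only; congr 1; ring
  · rintro ⟨ξ, η⟩ _
    refine Prod.ext ?_ ?_
    · funext z; simp only; congr 1; ring
    · funext z; simp only; congr 1; ring
  · rintro ⟨ξ, η⟩ _
    exact (wgt_shift χ zr on ξ η (-(k : ZMod L), -(l : ZMod L))).symm

/-- letters of the good positions -/
def lett (N : ℕ) (A : Finset (Fin N)) : Finset (Fin (N + 3)) :=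
  A.image (fun k : Fin N => (⟨2 + (k : ℕ), by omega⟩ : Fin (N + 3)))

theorem mem_lett {N : ℕ} {A : Finset (Fin N)} {i : Fin (N + 3)} :
    i ∈ lett N A ↔ ∃ k ∈ A, (i : ℕ) = 2 + (k : ℕ) := by
  unfold lett
  rw [Finset.mem_image]
  constructor
  · rintro ⟨k, hk, rfl⟩; exact ⟨k, hk, rfl⟩
  · rintro ⟨k, hk, h⟩; exact ⟨k, hk, Fin.ext h.symm⟩

theorem card_lett {N : ℕ} (A : Finset (Fin N)) : (lett N A).card = A.card := by
  unfold lett
  apply Finset.card_image_of_injective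
  intro k k' h
  have := congrArg Fin.val h
  simp only at this
  exact Fin.ext (by omega)

open Classical in
/-- The averaging estimate: if the marginal of a grid state at the good position `(k, l)` of a block
is `μ k l`, the marginal of the superposition is close to the average of the `μ k l`. -/
theorem traceNorm_super_avg {T : Type} [Fintype T] [DecidableEq T] (hzo : zr ≠ on)
    (hχ : nsq χ = 1) (h1 : (N₁ + 2) ^ 2 ≤ L) (h2 : (N₂ + 2) ^ 2 ≤ L) (ι : T → Site L)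
    (hι : Function.Injective ι)
    (hT1 : (N₁ + 3) * Fintype.card T < L) (hT2 : (N₂ + 3) * Fintype.card T < L)
    (ρ : Matrix (T → Fin d) (T → Fin d) ℂ) (hρ : ρ.PosSemidef) (hρ1 : ρ.trace = 1)
    (A₁ : Finset (Fin N₁)) (A₂ : Finset (Fin N₂)) (x₀ y₀ : ZMod L)
    (μ : Fin N₁ → Fin N₂ → Matrix (T → Fin d) (T → Fin d) ℂ) (δ : ℝ) (hδ0 : 0 ≤ δ)
    (hgood : ∀ (ξ : ZMod L → Fin (N₁ + 3)) (η : ZMod L → Fin (N₂ + 3)), IsWalk ξ → IsWalk η →
      ∀ k ∈ A₁, ∀ l ∈ A₂, (ξ x₀ : ℕ) = 2 + (k : ℕ) → (η y₀ : ℕ) = 2 + (l : ℕ) →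
        ptrace ι (outer (fun s => gridVec χ zr on ξ η s)) =
        ((wgt χ zr on L (ξ, η) : ℝ) : ℂ) • μ k l)
    (hδ : traceNorm (∑ k ∈ A₁, ∑ l ∈ A₂, (μ k l - ρ)) ≤ δ * (A₁.card * A₂.card)) :
    superVec (L := L) χ zr on ≠ 0 ∧
    traceNorm (ptrace ι (density (superVec (L := L) χ zr on)) - ρ) ≤
      2 * (((N₁ + 3 - A₁.card : ℕ) : ℝ) / ((N₁ : ℝ) + 2) +
        ((N₂ + 3 - A₂.card : ℕ) : ℝ) / ((N₂ : ℝ) + 2)) + δ := by
  classical
  have hL : 0 < L := Nat.pos_of_ne_zero (NeZero.ne L)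
  obtain ⟨W, hW⟩ : ∃ W : ℝ, W = ∑ q ∈ grids N₁ N₂ L, wgt χ zr on L q := ⟨_, rfl⟩
  have hWpos : 0 < W := by
    rw [hW]; exact sum_wgt_pos χ zr on hχ h1 h2
  have hnsq : nsq (superVec (L := L) χ zr on) = W := by
    rw [hW]; exact nsq_superVec χ zr on hzo hL
  have hne : superVec (L := L) χ zr on ≠ 0 := by
    intro h0
    rw [h0] at hnsq
    have : nsq (0 : (Site L → Fin d) → ℂ) = 0 := by simp [nsq]
    rw [this] at hnsq
    exact hWpos.ne hnsq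
  refine ⟨hne, ?_⟩
  obtain ⟨G₁, hG₁⟩ : ∃ G₁, G₁ = lett N₁ A₁ := ⟨_, rfl⟩
  obtain ⟨G₂, hG₂⟩ : ∃ G₂, G₂ = lett N₂ A₂ := ⟨_, rfl⟩
  obtain ⟨B, hB⟩ : ∃ B, B = (grids N₁ N₂ L).filter (fun q => ¬ (q.1 x₀ ∈ G₁ ∧ q.2 y₀ ∈ G₂)) :=
    ⟨_, rfl⟩
  obtain ⟨G, hG⟩ : ∃ G, G = (grids N₁ N₂ L).filter (fun q => (q.1 x₀ ∈ G₁ ∧ q.2 y₀ ∈ G₂)) :=
    ⟨_, rfl⟩
  obtain ⟨M, hM⟩ : ∃ M : ((ZMod L → Fin (N₁ + 3)) × (ZMod L → Fin (N₂ + 3))) →
      Matrix (T → Fin d) (T → Fin d) ℂ,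
      ∀ q, M q = ptrace ι (outer (fun s => gridVec χ zr on q.1 q.2 s)) := ⟨_, fun _ => rfl⟩
  obtain ⟨w₀, hw₀⟩ : ∃ w₀ : ℝ, w₀ = ∑ q ∈ (grids N₁ N₂ L).filter
      (fun q => (q.1 x₀ : ℕ) = 2 ∧ (q.2 y₀ : ℕ) = 2), wgt χ zr on L q := ⟨_, rfl⟩
  have hw₀0 : 0 ≤ w₀ := by
    rw [hw₀]; exact Finset.sum_nonneg (fun _ _ => nsq_nonneg _)
  -- sums over the good grids are sums over the good positions
  have hfib : ∀ {α : Type} [AddCommMonoid α]
      (g : ((ZMod L → Fin (N₁ + 3)) × (ZMod L → Fin (N₂ + 3))) → α),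
      ∑ q ∈ G, g q = ∑ k ∈ A₁, ∑ l ∈ A₂, ∑ q ∈ (grids N₁ N₂ L).filter
        (fun q => (q.1 x₀ : ℕ) = 2 + (k : ℕ) ∧ (q.2 y₀ : ℕ) = 2 + (l : ℕ)), g q := by
    intro α _ g
    rw [← Finset.sum_product' A₁ A₂ (fun k l => ∑ q ∈ (grids N₁ N₂ L).filter
        (fun q => (q.1 x₀ : ℕ) = 2 + (k : ℕ) ∧ (q.2 y₀ : ℕ) = 2 + (l : ℕ)), g q),
      ← Finset.sum_biUnion]
    · refine Finset.sum_congr ?_ (fun _ _ => rfl)
      ext q
      rw [hG, Finset.mem_filter, Finset.mem_biUnion, hG₁, hG₂, mem_lett, mem_lett]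
      constructor
      · rintro ⟨hq, ⟨k, hk, hk'⟩, ⟨l, hl, hl'⟩⟩
        exact ⟨(k, l), Finset.mem_product.2 ⟨hk, hl⟩, Finset.mem_filter.2 ⟨hq, hk', hl'⟩⟩
      · rintro ⟨⟨k, l⟩, hkl, hq⟩
        rw [Finset.mem_filter] at hq
        rw [Finset.mem_product] at hkl
        exact ⟨hq.1, ⟨k, hkl.1, hq.2.1⟩, ⟨l, hkl.2, hq.2.2⟩⟩
    · intro p _ p' _ hpp'
      rw [Function.onFun, Finset.disjoint_left]
      intro q hq hq'
      rw [Finset.mem_filter] at hq hq'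
      apply hpp'
      have e1 := hq.2.1.symm.trans hq'.2.1
      have e2 := hq.2.2.symm.trans hq'.2.2
      ext <;> omega
  have hkl : ∀ k l, ∑ q ∈ (grids N₁ N₂ L).filter
        (fun q => (q.1 x₀ : ℕ) = 2 + ((k : Fin N₁) : ℕ) ∧ (q.2 y₀ : ℕ) = 2 + ((l : Fin N₂) : ℕ)),
        wgt χ zr on L q = w₀ := by
    intro k l
    rw [hw₀]
    exact sum_letter_eq χ zr on k l k.isLt l.isLt x₀ y₀
  have hgoodeq : ∑ q ∈ G, (M q - ((wgt χ zr on L q : ℝ) : ℂ) • ρ) =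
      ((w₀ : ℝ) : ℂ) • ∑ k ∈ A₁, ∑ l ∈ A₂, (μ k l - ρ) := by
    rw [hfib, Finset.smul_sum]
    refine Finset.sum_congr rfl (fun k hk => ?_)
    rw [Finset.smul_sum]
    refine Finset.sum_congr rfl (fun l hl => ?_)
    rw [← hkl k l, Complex.ofReal_sum, Finset.sum_smul]
    refine Finset.sum_congr rfl (fun q hq => ?_)
    simp only [grids, Finset.mem_filter, Finset.mem_univ, true_and] at hq
    rw [hM, hgood q.1 q.2 hq.1.1 hq.1.2 k hk l hl hq.2.1 hq.2.2, smul_sub]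
  have hwW : w₀ * (A₁.card * A₂.card) ≤ W := by
    have e1 : ∑ q ∈ G, wgt χ zr on L q = w₀ * (A₁.card * A₂.card) := by
      rw [hfib]
      simp only [hkl, Finset.sum_const, nsmul_eq_mul]
      ring
    rw [← e1, hG, hW]
    exact Finset.sum_le_sum_of_subset_of_nonneg (Finset.filter_subset _ _)
      (fun q _ _ => nsq_nonneg _)
  have hsum : ptrace ι (outer (superVec (L := L) χ zr on)) - ((W : ℝ) : ℂ) • ρ =
      ∑ q ∈ G, (M q - ((wgt χ zr on L q : ℝ) : ℂ) • ρ) +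
      (∑ q ∈ B, M q - ∑ q ∈ B, ((wgt χ zr on L q : ℝ) : ℂ) • ρ) := by
    rw [ptrace_outer_superVec χ zr on hzo ι hT1 hT2, hW, Complex.ofReal_sum, Finset.sum_smul,
      ← Finset.sum_sub_distrib, ← Finset.sum_sub_distrib, hB, hG,
      Finset.sum_filter_add_sum_filter_not]
    refine Finset.sum_congr rfl (fun q hq => ?_)
    rw [hM]
  have hWc : ((W : ℝ) : ℂ) ≠ 0 := by exact_mod_cast hWpos.ne'
  have hred : ptrace ι (density (superVec (L := L) χ zr on)) - ρ =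
      ((W : ℝ) : ℂ)⁻¹ • (∑ q ∈ G, (M q - ((wgt χ zr on L q : ℝ) : ℂ) • ρ)) +
      (((W : ℝ) : ℂ)⁻¹ • (∑ q ∈ B, M q) -
        ((W : ℝ) : ℂ)⁻¹ • (∑ q ∈ B, ((wgt χ zr on L q : ℝ) : ℂ) • ρ)) := by
    rw [← smul_sub, ← smul_add, ← hsum, smul_sub, density_eq, hnsq, ptrace_smul, smul_smul,
      inv_mul_cancel₀ hWc, one_smul]
  have hcinv : ((W : ℝ) : ℂ)⁻¹ = ((W⁻¹ : ℝ) : ℂ) := by push_cast; rfl
  have hinv0 : (0 : ℂ) ≤ ((W : ℝ) : ℂ)⁻¹ := by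
    rw [hcinv, Complex.zero_le_real]
    exact inv_nonneg.2 hWpos.le
  have hP : (((W : ℝ) : ℂ)⁻¹ • (∑ q ∈ B, M q)).PosSemidef := by
    refine (Matrix.posSemidef_sum _ (fun q _ => ?_)).smul hinv0
    rw [hM]
    exact posSemidef_ptrace ι hι _
  have hQ : (((W : ℝ) : ℂ)⁻¹ • (∑ q ∈ B, ((wgt χ zr on L q : ℝ) : ℂ) • ρ)).PosSemidef := by
    refine (Matrix.posSemidef_sum _ (fun q _ => hρ.smul ?_)).smul hinv0
    rw [Complex.zero_le_real]
    exact nsq_nonneg _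
  have htP : (((W : ℝ) : ℂ)⁻¹ • (∑ q ∈ B, M q)).trace.re = W⁻¹ * ∑ q ∈ B, wgt χ zr on L q := by
    rw [Matrix.trace_smul, Matrix.trace_sum]
    have : ∀ q ∈ B, (M q).trace = ((wgt χ zr on L q : ℝ) : ℂ) := by
      intro q _
      rw [hM, trace_ptrace ι hι, trace_outer, wgt]
    rw [Finset.sum_congr rfl this, ← Complex.ofReal_sum, hcinv, smul_eq_mul, ← Complex.ofReal_mul,
      Complex.ofReal_re]
  have htQ : (((W : ℝ) : ℂ)⁻¹ • (∑ q ∈ B, ((wgt χ zr on L q : ℝ) : ℂ) • ρ)).trace.re =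
      W⁻¹ * ∑ q ∈ B, wgt χ zr on L q := by
    rw [Matrix.trace_smul, Matrix.trace_sum]
    have : ∀ q ∈ B, (((wgt χ zr on L q : ℝ) : ℂ) • ρ).trace = ((wgt χ zr on L q : ℝ) : ℂ) := by
      intro q _
      rw [Matrix.trace_smul, hρ1, smul_eq_mul, mul_one]
    rw [Finset.sum_congr rfl this, ← Complex.ofReal_sum, hcinv, smul_eq_mul, ← Complex.ofReal_mul,
      Complex.ofReal_re]
  have hbad : ∑ q ∈ B, wgt χ zr on L q ≤
      (((N₁ + 3 - A₁.card : ℕ) : ℝ) / ((N₁ : ℝ) + 2) +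
        ((N₂ + 3 - A₂.card : ℕ) : ℝ) / ((N₂ : ℝ) + 2)) * W := by
    have hb1 := sum_bad_x (N₂ := N₂) χ zr on G₁ x₀
    have hb2 := sum_bad_y (N₁ := N₁) χ zr on G₂ y₀
    rw [← hW] at hb1 hb2
    rw [show G₁.card = A₁.card by rw [hG₁]; exact card_lett A₁] at hb1
    rw [show G₂.card = A₂.card by rw [hG₂]; exact card_lett A₂] at hb2
    have hc : ∑ q ∈ B, wgt χ zr on L q ≤
        ∑ q ∈ (grids N₁ N₂ L).filter (fun q => q.1 x₀ ∉ G₁), wgt χ zr on L q +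
        ∑ q ∈ (grids N₁ N₂ L).filter (fun q => q.2 y₀ ∉ G₂), wgt χ zr on L q := by
      rw [hB, Finset.sum_filter, Finset.sum_filter, Finset.sum_filter, ← Finset.sum_add_distrib]
      refine Finset.sum_le_sum (fun q _ => ?_)
      have h0 : 0 ≤ wgt χ zr on L q := nsq_nonneg _
      by_cases hx : q.1 x₀ ∈ G₁
      · by_cases hy : q.2 y₀ ∈ G₂
        · simp [hx, hy]
        · simp [hx, hy]
      · by_cases hy : q.2 y₀ ∈ G₂
        · simp [hx, hy]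
        · simp [hx, hy, h0]
    have hn1 : (0 : ℝ) < (N₁ : ℝ) + 2 := by positivity
    have hn2 : (0 : ℝ) < (N₂ : ℝ) + 2 := by positivity
    have e1 : ∑ q ∈ (grids N₁ N₂ L).filter (fun q => q.1 x₀ ∉ G₁), wgt χ zr on L q ≤
        ((N₁ + 3 - A₁.card : ℕ) : ℝ) / ((N₁ : ℝ) + 2) * W := by
      rw [div_mul_eq_mul_div, le_div_iff₀ hn1, mul_comm]
      exact hb1
    have e2 : ∑ q ∈ (grids N₁ N₂ L).filter (fun q => q.2 y₀ ∉ G₂), wgt χ zr on L q ≤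
        ((N₂ + 3 - A₂.card : ℕ) : ℝ) / ((N₂ : ℝ) + 2) * W := by
      rw [div_mul_eq_mul_div, le_div_iff₀ hn2, mul_comm]
      exact hb2
    rw [add_mul]
    linarith
  have hgoodsum : traceNorm (((W : ℝ) : ℂ)⁻¹ •
      (∑ q ∈ G, (M q - ((wgt χ zr on L q : ℝ) : ℂ) • ρ))) ≤ δ := by
    refine (traceNorm_smul_le _ _).trans ?_
    have hn : ‖((W : ℝ) : ℂ)⁻¹‖ = W⁻¹ := by
      rw [hcinv, Complex.norm_real, Real.norm_of_nonneg (inv_nonneg.2 hWpos.le)]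
    rw [hn]
    have hs : traceNorm (∑ q ∈ G, (M q - ((wgt χ zr on L q : ℝ) : ℂ) • ρ)) ≤ δ * W := by
      rw [hgoodeq]
      refine (traceNorm_smul_le _ _).trans ?_
      rw [Complex.norm_real, Real.norm_of_nonneg hw₀0]
      calc w₀ * traceNorm (∑ k ∈ A₁, ∑ l ∈ A₂, (μ k l - ρ))
          ≤ w₀ * (δ * (A₁.card * A₂.card)) := mul_le_mul_of_nonneg_left hδ hw₀0
        _ = δ * (w₀ * (A₁.card * A₂.card)) := by ring
        _ ≤ δ * W := mul_le_mul_of_nonneg_left hwW hδ0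
    calc W⁻¹ * traceNorm (∑ q ∈ G, (M q - ((wgt χ zr on L q : ℝ) : ℂ) • ρ)) ≤ W⁻¹ * (δ * W) :=
          mul_le_mul_of_nonneg_left hs (inv_nonneg.2 hWpos.le)
      _ = δ := by field_simp
  rw [hred]
  refine (traceNorm_add_le _ _).trans ?_
  have t0 := traceNorm_sub_le' (((W : ℝ) : ℂ)⁻¹ • (∑ q ∈ B, M q))
    (((W : ℝ) : ℂ)⁻¹ • (∑ q ∈ B, ((wgt χ zr on L q : ℝ) : ℂ) • ρ))
  have t1 := traceNorm_posSemidef_le hP
  have t2 := traceNorm_posSemidef_le hQ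
  rw [htP] at t1
  rw [htQ] at t2
  have hfin : W⁻¹ * ∑ q ∈ B, wgt χ zr on L q ≤
      (((N₁ + 3 - A₁.card : ℕ) : ℝ) / ((N₁ : ℝ) + 2) +
        ((N₂ + 3 - A₂.card : ℕ) : ℝ) / ((N₂ : ℝ) + 2)) := by
    rw [inv_mul_le_iff₀ hWpos, mul_comm]
    exact hbad
  linarith

end savg

end Pool.Agent.Hhelper96.PEPS
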